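import Mathlib

/-!
# Rainbow-free edge colourings: the definitions used in the statement (MP_ba6833_co)
-/

namespace Pool.Agent.Lib.MP_ba6833_co

open SimpleGraph

/-- The colouring `c` of the edges of `G` contains a rainbow `K_k`: there is a set `s` of `k`
pairwise adjacent vertices such that distinct edges of `G` inside `s` have distinct colours. -/
def HasRainbow (k : ℕ) {V β : Type} (G : SimpleGraph V) (c : G.edgeSet → β) : Prop :=
  ∃ s : Finset V, G.IsNClique k s ∧
    ∀ e f : G.edgeSet, (∀ v ∈ (e : Sym2 V), v ∈ s) → (∀ v ∈ (f : Sym2 V), v ∈ s) →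
      c e = c f → e = f

/-- The number of maps from the edges of `G` to a set of `r` colours which contain no
rainbow `K_k`. -/
noncomputable def numCol (r k : ℕ) {V : Type} (G : SimpleGraph V) : ℕ :=
  Nat.card {c : G.edgeSet → Fin r // ¬ HasRainbow k G c}

/-- The graph `G` on `n` vertices has at least as many `r`-edge-colourings without a rainbow `K_k`
as any other graph on `n` vertices. -/
def IsExtremal (r k : ℕ) {n : ℕ} (G : SimpleGraph (Fin n)) : Prop :=
  ∀ H : SimpleGraph (Fin n), numCol r k H ≤ numCol r k G

/-- The Turán graph `T_{k-1}(n)` is, up to isomorphism, the unique `n`-vertex graph with the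
maximum number of `r`-edge-colourings without a rainbow `K_k`. -/
def TuranUnique (r k n : ℕ) : Prop :=
  IsExtremal r k (turanGraph n (k - 1)) ∧
    ∀ G : SimpleGraph (Fin n), IsExtremal r k G → Nonempty (G ≃g turanGraph n (k - 1))

end Pool.Agent.Lib.MP_ba6833_co
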