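import Mathlib
import Pool.Agent.Lib.MP_ba6833_co.Statement

/-!
# Rainbow-free edge colourings: basic facts (MP_ba6833_co)
-/

namespace Pool.Agent.Lib.MP_ba6833_co

open SimpleGraph

open Classical in
/-- the colour of the pair `x`, `y` (`none` if `x`, `y` are not adjacent) -/
noncomputable def col {V β : Type} {G : SimpleGraph V} (c : G.edgeSet → β) (x y : V) : Option β :=
  if h : G.Adj x y then some (c ⟨s(x, y), h⟩) else none

section col

variable {V β : Type} {G : SimpleGraph V} (c : G.edgeSet → β)

lemma col_symm (x y : V) : col c x y = col c y x := by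
  unfold col
  by_cases h : G.Adj x y
  · rw [dif_pos h, dif_pos h.symm]
    congr 2
    exact Subtype.ext Sym2.eq_swap
  · rw [dif_neg h, dif_neg (fun h' => h h'.symm)]

lemma col_eq_some {x y : V} (h : G.Adj x y) : col c x y = some (c ⟨s(x, y), h⟩) := by
  unfold col
  rw [dif_pos h]

lemma col_eq_none {x y : V} (h : ¬ G.Adj x y) : col c x y = none := by
  unfold col
  rw [dif_neg h]

lemma adj_of_col {x y : V} {b : β} (h : col c x y = some b) : G.Adj x y := by
  by_contra h'
  rw [col_eq_none c h'] at h
  cases h

lemma col_eq_some_iff {x y : V} {b : β} :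
    col c x y = some b ↔ ∃ h : G.Adj x y, c ⟨s(x, y), h⟩ = b := by
  constructor
  · intro h
    have h' := adj_of_col c h
    refine ⟨h', ?_⟩
    rw [col_eq_some c h'] at h
    exact Option.some.inj h
  · rintro ⟨h, rfl⟩
    exact col_eq_some c h

lemma col_self (x : V) : col c x x = none := col_eq_none c (G.irrefl)

/-- a rainbow clique from a family of vertices indexed by a type with `k` elements -/
lemma hasRainbow_of_witness' {ι : Type} [Fintype ι] {k : ℕ} (hι : Fintype.card ι = k)
    (w : ι → V) (Φ : Sym2 ι → Option β)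
    (hΦ : ∀ e f : Sym2 ι, ¬ e.IsDiag → ¬ f.IsDiag → Φ e = Φ f → e = f)
    (hadj : ∀ i j, i ≠ j → G.Adj (w i) (w j))
    (h : ∀ i j, i ≠ j → col c (w i) (w j) = Φ s(i, j)) : HasRainbow k G c := by
  classical
  have hinj : Function.Injective w := by
    intro i j hij
    by_contra hne
    have := hadj i j hne
    rw [hij] at this
    exact G.irrefl this
  refine ⟨Finset.univ.image w, ?_, ?_⟩
  · rw [SimpleGraph.isNClique_iff]
    constructor
    · intro x hx y hy hxy
      simp only [Finset.coe_image, Finset.coe_univ, Set.image_univ, Set.mem_range] at hx hy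
      obtain ⟨i, rfl⟩ := hx
      obtain ⟨j, rfl⟩ := hy
      exact hadj i j (fun hij => hxy (by rw [hij]))
    · rw [Finset.card_image_of_injective _ hinj, Finset.card_univ, hι]
  · intro e f he hf hef
    have key : ∀ e : G.edgeSet, (∀ v ∈ (e : Sym2 V), v ∈ Finset.univ.image w) →
        ∃ i j, i ≠ j ∧ (e : Sym2 V) = s(w i, w j) ∧ some (c e) = Φ s(i, j) := by
      rintro ⟨e, he⟩ hv
      induction e with
      | h x y =>
        have hx := hv x (by simp)
        have hy := hv y (by simp)
        simp only [Finset.mem_image, Finset.mem_univ, true_and] at hx hy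
        obtain ⟨i, rfl⟩ := hx
        obtain ⟨j, rfl⟩ := hy
        have hadj : G.Adj (w i) (w j) := he
        have hij : i ≠ j := fun h' => by
          subst h'
          exact G.irrefl hadj
        refine ⟨i, j, hij, rfl, ?_⟩
        rw [← h i j hij, col_eq_some c hadj]
    obtain ⟨i, j, hij, he1, he2⟩ := key e he
    obtain ⟨i', j', hij', hf1, hf2⟩ := key f hf
    have hΦ' := hΦ s(i, j) s(i', j') (by simpa using hij) (by simpa using hij')
      (by rw [← he2, ← hf2, hef])
    apply Subtype.ext
    rw [he1, hf1]
    have := congrArg (Sym2.map w) hΦ'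
    simpa using this

/-- a rainbow clique from a family of vertices indexed by a type with `k` elements -/
lemma hasRainbow_of_witness {ι : Type} [Fintype ι] {k : ℕ} (hι : Fintype.card ι = k)
    (w : ι → V) (Φ : Sym2 ι → β)
    (hΦ : ∀ e f : Sym2 ι, ¬ e.IsDiag → ¬ f.IsDiag → Φ e = Φ f → e = f)
    (h : ∀ i j, i ≠ j → col c (w i) (w j) = some (Φ s(i, j))) : HasRainbow k G c :=
  hasRainbow_of_witness' c hι w (fun e => some (Φ e))
    (fun e f he hf hef => hΦ e f he hf (Option.some.inj hef))
    (fun i j hij => adj_of_col c (h i j hij)) h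

end col

/-- the set of ordered pairs `i < j` in `Fin k` -/
def prs (k : ℕ) : Finset (Fin k × Fin k) := Finset.univ.filter (fun p => p.1 < p.2)

lemma mem_prs {k : ℕ} {p : Fin k × Fin k} : p ∈ prs k ↔ p.1 < p.2 := by
  simp [prs]

/-- a rainbow clique from vertices indexed by `Fin k` and an injective choice of colours for the
pairs `i < j` -/
lemma hasRainbow_of_pairs {V β : Type} {G : SimpleGraph V} (c : G.edgeSet → β) {k : ℕ}
    (w : Fin k → V) (φ : Fin k × Fin k → β) (hφ : Set.InjOn φ (prs k))
    (h : ∀ p ∈ prs k, col c (w p.1) (w p.2) = some (φ p)) : HasRainbow k G c := by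
  classical
  have hcomm : ∀ i j : Fin k, φ (min i j, max i j) = φ (min j i, max j i) := by
    intro i j
    rw [min_comm, max_comm]
  refine hasRainbow_of_witness c (ι := Fin k) (by simp) w
    (Sym2.lift ⟨fun i j => φ (min i j, max i j), hcomm⟩) ?_ ?_
  · intro e f he hf hef
    induction e with
    | h i j =>
    induction f with
    | h i' j' =>
      simp only [Sym2.lift_mk] at hef
      simp only [Sym2.mk_isDiag_iff] at he hf
      have h1 := hφ (by
        rw [Finset.mem_coe, mem_prs]
        exact lt_of_le_of_ne (min_le_max) (by simpa using he)) (by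
        rw [Finset.mem_coe, mem_prs]
        exact lt_of_le_of_ne (min_le_max) (by simpa using hf)) hef
      simp only [Prod.mk.injEq] at h1
      obtain ⟨h2, h3⟩ := h1
      rw [Sym2.eq_iff]
      rcases le_total i j with hij | hij <;> rcases le_total i' j' with hij' | hij' <;>
        simp_all
  · intro i j hij
    simp only [Sym2.lift_mk]
    rcases lt_or_gt_of_ne hij with h1 | h1
    · rw [min_eq_left h1.le, max_eq_right h1.le]
      exact h (i, j) (mem_prs.2 h1)
    · rw [min_eq_right h1.le, max_eq_left h1.le, col_symm]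
      exact h (j, i) (mem_prs.2 h1)

/-- a rainbow clique in terms of vertices indexed by `Fin k` -/
lemma hasRainbow_iff {V β : Type} {G : SimpleGraph V} (c : G.edgeSet → β) {k : ℕ} :
    HasRainbow k G c ↔ ∃ w : Fin k → V, (∀ p ∈ prs k, G.Adj (w p.1) (w p.2)) ∧
      ∀ p ∈ prs k, ∀ q ∈ prs k, col c (w p.1) (w p.2) = col c (w q.1) (w q.2) → p = q := by
  classical
  constructor
  · rintro ⟨s, hs, hinj⟩
    have hcard := hs.card_eq
    set e : Fin k ≃ s := (s.equivFinOfCardEq hcard).symm with he
    have hw : Function.Injective (fun i : Fin k => (e i : V)) :=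
      Subtype.val_injective.comp e.injective
    have hadj : ∀ p ∈ prs k, G.Adj (e p.1 : V) (e p.2 : V) := by
      intro p hp
      rw [mem_prs] at hp
      exact hs.isClique (e p.1).2 (e p.2).2 (fun h => hp.ne (hw h))
    refine ⟨fun i => (e i : V), hadj, ?_⟩
    intro p hp q hq hpq
    have h1 := hadj p hp
    have h2 := hadj q hq
    rw [col_eq_some c h1, col_eq_some c h2] at hpq
    have h3 := hinj _ _ (by
      intro v hv
      simp only [Sym2.mem_iff] at hv
      rcases hv with rfl | rfl
      · exact (e p.1).2
      · exact (e p.2).2) (by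
      intro v hv
      simp only [Sym2.mem_iff] at hv
      rcases hv with rfl | rfl
      · exact (e q.1).2
      · exact (e q.2).2) (Option.some.inj hpq)
    have h4 := congrArg Subtype.val h3
    simp only [Sym2.eq_iff] at h4
    rw [mem_prs] at hp hq
    rcases h4 with ⟨h5, h6⟩ | ⟨h5, h6⟩
    · exact Prod.ext (hw h5) (hw h6)
    · have h7 : p.1 = q.2 := hw h5
      have h8 : p.2 = q.1 := hw h6
      rw [h7, h8] at hp
      exact absurd hp (not_lt.2 hq.le)
  · rintro ⟨w, hadj, hinj⟩
    have hcomm : ∀ i j : Fin k, col c (w i) (w j) = col c (w j) (w i) := fun i j => col_symm c _ _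
    refine hasRainbow_of_witness' c (ι := Fin k) (by simp) w
      (Sym2.lift ⟨fun i j => col c (w i) (w j), hcomm⟩) ?_ ?_ ?_
    · intro e f he hf hef
      have key : ∀ e : Sym2 (Fin k), ¬ e.IsDiag → ∃ p ∈ prs k, e = s(p.1, p.2) := by
        intro e he
        induction e with
        | h i j =>
          rw [Sym2.mk_isDiag_iff] at he
          rcases lt_or_gt_of_ne he with h | h
          · exact ⟨(i, j), mem_prs.2 h, rfl⟩
          · exact ⟨(j, i), mem_prs.2 h, Sym2.eq_swap⟩
      obtain ⟨p, hp, rfl⟩ := key e he
      obtain ⟨q, hq, rfl⟩ := key f hf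
      simp only [Sym2.lift_mk] at hef
      rw [hinj p hp q hq hef]
    · intro i j hij
      rcases lt_or_gt_of_ne hij with h | h
      · exact hadj (i, j) (mem_prs.2 h)
      · exact (hadj (j, i) (mem_prs.2 h)).symm
    · intro i j _
      rfl

end Pool.Agent.Lib.MP_ba6833_co
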