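import Mathlib
import Pool.Agent.Lib.MP_ba6833_co.Defs

/-!
# Weak regularity (Frieze–Kannan) for several colour classes
-/

namespace Pool.Agent.Lib.MP_ba6833_co

open Finset

section proj

variable {V : Type} [Fintype V] {P : Type} [Fintype P]

open scoped Classical in
/-- the cell of `A` -/
noncomputable def cell (p : V → P) (A : P) : Finset V := univ.filter (fun x => p x = A)

omit [Fintype P] in
lemma mem_cell {p : V → P} {A : P} {x : V} : x ∈ cell p A ↔ p x = A := by
  simp [cell]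

/-- the density of `f` between two cells -/
noncomputable def den (p : V → P) (f : V → V → ℝ) (A B : P) : ℝ :=
  (∑ x ∈ cell p A, ∑ y ∈ cell p B, f x y) / ((cell p A).card * (cell p B).card)

/-- the conditional expectation of `f` -/
noncomputable def proj (p : V → P) (f : V → V → ℝ) (x y : V) : ℝ := den p f (p x) (p y)

lemma sum_cells (p : V → P) (φ : V → V → ℝ) :
    ∑ x, ∑ y, φ x y = ∑ A : P, ∑ B : P, ∑ x ∈ cell p A, ∑ y ∈ cell p B, φ x y := by
  classical
  have h1 : ∀ F : V → ℝ, ∑ x, F x = ∑ A : P, ∑ x ∈ cell p A, F x := by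
    intro F
    rw [← Finset.sum_fiberwise Finset.univ p F]
    refine Finset.sum_congr rfl fun A _ => ?_
    refine Finset.sum_congr ?_ fun _ _ => rfl
    ext x
    simp [mem_cell]
  rw [h1]
  refine Finset.sum_congr rfl fun A _ => ?_
  rw [Finset.sum_comm]
  rw [h1]
  refine Finset.sum_congr rfl fun B _ => ?_
  rw [Finset.sum_comm]

omit [Fintype P] in
lemma cellSum_eq (p : V → P) (f : V → V → ℝ) (A B : P) :
    ((cell p A).card : ℝ) * (cell p B).card * den p f A B =
      ∑ x ∈ cell p A, ∑ y ∈ cell p B, f x y := by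
  unfold den
  by_cases h : ((cell p A).card : ℝ) * (cell p B).card = 0
  · rw [h, zero_mul]
    rcases mul_eq_zero.1 h with h | h
    · have : cell p A = ∅ := Finset.card_eq_zero.1 (by exact_mod_cast h)
      rw [this]
      simp
    · have : cell p B = ∅ := Finset.card_eq_zero.1 (by exact_mod_cast h)
      rw [this]
      simp
  · rw [mul_div_assoc', mul_comm, mul_div_assoc, div_self h, mul_one]

lemma sum_mul_proj (p : V → P) (f : V → V → ℝ) (h : P → P → ℝ) :
    ∑ x, ∑ y, h (p x) (p y) * proj p f x y = ∑ x, ∑ y, h (p x) (p y) * f x y := by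
  rw [sum_cells p, sum_cells p]
  refine Finset.sum_congr rfl fun A _ => Finset.sum_congr rfl fun B _ => ?_
  have h1 : ∑ x ∈ cell p A, ∑ y ∈ cell p B, h (p x) (p y) * proj p f x y =
      ∑ x ∈ cell p A, ∑ y ∈ cell p B, h A B * den p f A B := by
    refine Finset.sum_congr rfl fun x hx => Finset.sum_congr rfl fun y hy => ?_
    rw [mem_cell] at hx hy
    unfold proj
    rw [hx, hy]
  have h2 : ∑ x ∈ cell p A, ∑ y ∈ cell p B, h (p x) (p y) * f x y =
      h A B * ∑ x ∈ cell p A, ∑ y ∈ cell p B, f x y := by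
    rw [Finset.mul_sum]
    refine Finset.sum_congr rfl fun x hx => ?_
    rw [Finset.mul_sum]
    refine Finset.sum_congr rfl fun y hy => ?_
    rw [mem_cell] at hx hy
    rw [hx, hy]
  rw [h1, h2, ← cellSum_eq p f A B]
  simp only [Finset.sum_const, nsmul_eq_mul]
  ring

omit [Fintype P] in
lemma den_nonneg (p : V → P) {f : V → V → ℝ} (hf : ∀ x y, 0 ≤ f x y) (A B : P) :
    0 ≤ den p f A B := by
  unfold den
  refine div_nonneg (Finset.sum_nonneg fun x _ => Finset.sum_nonneg fun y _ => hf x y) ?_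
  positivity

omit [Fintype P] in
lemma den_le_one (p : V → P) {f : V → V → ℝ} (hf : ∀ x y, f x y ≤ 1) (A B : P) :
    den p f A B ≤ 1 := by
  unfold den
  refine div_le_one_of_le₀ ?_ (by positivity)
  calc ∑ x ∈ cell p A, ∑ y ∈ cell p B, f x y ≤ ∑ x ∈ cell p A, ∑ y ∈ cell p B, (1 : ℝ) :=
        Finset.sum_le_sum fun x _ => Finset.sum_le_sum fun y _ => hf x y
    _ = _ := by simp

/-- orthogonality for a refinement `p' ` of `p` -/
lemma sum_sq_sub {P' : Type} [Fintype P'] (p' : V → P') (π : P' → P) (f : V → V → ℝ) :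
    ∑ x, ∑ y, (proj p' f x y - proj (π ∘ p') f x y) ^ 2 =
      ∑ x, ∑ y, (proj p' f x y) ^ 2 - ∑ x, ∑ y, (proj (π ∘ p') f x y) ^ 2 := by
  have h1 : ∑ x, ∑ y, proj (π ∘ p') f x y * proj p' f x y =
      ∑ x, ∑ y, proj (π ∘ p') f x y * f x y :=
    sum_mul_proj p' f (fun A B => den (π ∘ p') f (π A) (π B))
  have h2 : ∑ x, ∑ y, proj (π ∘ p') f x y * proj (π ∘ p') f x y =
      ∑ x, ∑ y, proj (π ∘ p') f x y * f x y :=
    sum_mul_proj (π ∘ p') f (fun A B => den (π ∘ p') f A B)
  have h3 : ∑ x, ∑ y, (proj p' f x y - proj (π ∘ p') f x y) ^ 2 =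
      ∑ x, ∑ y, (proj p' f x y) ^ 2 - 2 * (∑ x, ∑ y, proj (π ∘ p') f x y * proj p' f x y)
        + ∑ x, ∑ y, proj (π ∘ p') f x y * proj (π ∘ p') f x y := by
    rw [Finset.mul_sum, ← Finset.sum_sub_distrib, ← Finset.sum_add_distrib]
    refine Finset.sum_congr rfl fun x _ => ?_
    rw [Finset.mul_sum, ← Finset.sum_sub_distrib, ← Finset.sum_add_distrib]
    refine Finset.sum_congr rfl fun y _ => ?_
    ring
  rw [h3, h1, ← h2]
  have h4 : ∑ x, ∑ y, (proj (π ∘ p') f x y) ^ 2 =
      ∑ x, ∑ y, proj (π ∘ p') f x y * proj (π ∘ p') f x y := by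
    refine Finset.sum_congr rfl fun x _ => Finset.sum_congr rfl fun y _ => ?_
    ring
  rw [h4]
  ring

omit [Fintype P] in
lemma proj_comp_injective {P' : Type} (p : V → P) (ι : P → P')
    (hι : Function.Injective ι) (f : V → V → ℝ) : proj (ι ∘ p) f = proj p f := by
  have h1 : ∀ A, cell (ι ∘ p) (ι A) = cell p A := by
    intro A
    ext x
    simp only [mem_cell, Function.comp_apply]
    exact hι.eq_iff
  funext x y
  unfold proj den
  simp only [Function.comp_apply, h1]

end proj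

/-- the cut-norm condition -/
def CutGood {V P : Type} [Fintype V] [Fintype P] {r : ℕ} (f : Fin r → V → V → ℝ) (ε : ℝ)
    (p : V → P) : Prop :=
  ∀ α, ∀ S T : Finset V,
    |∑ x ∈ S, ∑ y ∈ T, (f α x y - proj p (f α) x y)| ≤ ε * (Fintype.card V : ℝ) ^ 2

/-- energy increment -/
lemma energy_step {V P : Type} [Fintype V] [Fintype P] {r : ℕ} (f : Fin r → V → V → ℝ) (ε : ℝ)
    (hε : 0 < ε) (p : V → P) (hp : ¬ CutGood f ε p) :
    ∃ p' : V → P × Bool × Bool,
      ∑ α, ∑ x, ∑ y, (proj p (f α) x y) ^ 2 + ε ^ 2 * (Fintype.card V : ℝ) ^ 2 ≤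
      ∑ α, ∑ x, ∑ y, (proj p' (f α) x y) ^ 2 := by
  classical
  unfold CutGood at hp
  push Not at hp
  obtain ⟨α, S, T, hST⟩ := hp
  set p' : V → P × Bool × Bool := fun x => (p x, decide (x ∈ S), decide (x ∈ T)) with hp'
  have hpp : Prod.fst ∘ p' = p := rfl
  refine ⟨p', ?_⟩
  have horth : ∀ β, ∑ x, ∑ y, (proj p' (f β) x y - proj p (f β) x y) ^ 2 =
      ∑ x, ∑ y, (proj p' (f β) x y) ^ 2 - ∑ x, ∑ y, (proj p (f β) x y) ^ 2 := by
    intro β
    have := sum_sq_sub p' Prod.fst (f β)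
    rwa [hpp] at this
  -- the main term
  have h1 : ∑ x ∈ S, ∑ y ∈ T, (f α x y - proj p (f α) x y) =
      ∑ x, ∑ y, (if x ∈ S ∧ y ∈ T then (proj p' (f α) x y - proj p (f α) x y) else 0) := by
    have h2 : ∑ x, ∑ y, (if x ∈ S ∧ y ∈ T then (1 : ℝ) else 0) * proj p' (f α) x y =
        ∑ x, ∑ y, (if x ∈ S ∧ y ∈ T then (1 : ℝ) else 0) * f α x y := by
      have := sum_mul_proj p' (f α)
        (fun A B => if A.2.1 = true ∧ B.2.2 = true then (1 : ℝ) else 0)
      simpa [hp'] using this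
    have h3 : ∀ φ : V → V → ℝ, ∑ x ∈ S, ∑ y ∈ T, φ x y =
        ∑ x, ∑ y, (if x ∈ S ∧ y ∈ T then (1 : ℝ) else 0) * φ x y := by
      intro φ
      rw [← Finset.sum_filter_add_sum_filter_not Finset.univ (fun x => x ∈ S)]
      have h4 : ∑ x ∈ Finset.univ.filter (fun x => ¬ x ∈ S),
          ∑ y, (if x ∈ S ∧ y ∈ T then (1 : ℝ) else 0) * φ x y = 0 := by
        refine Finset.sum_eq_zero fun x hx => Finset.sum_eq_zero fun y _ => ?_
        rw [Finset.mem_filter] at hx
        rw [if_neg (fun h => hx.2 h.1), zero_mul]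
      rw [h4, add_zero]
      refine Finset.sum_congr (by ext; simp) fun x hx => ?_
      rw [← Finset.sum_filter_add_sum_filter_not Finset.univ (fun y => y ∈ T)]
      have h5 : ∑ y ∈ Finset.univ.filter (fun y => ¬ y ∈ T),
          (if x ∈ S ∧ y ∈ T then (1 : ℝ) else 0) * φ x y = 0 := by
        refine Finset.sum_eq_zero fun y hy => ?_
        rw [Finset.mem_filter] at hy
        rw [if_neg (fun h => hy.2 h.2), zero_mul]
      rw [h5, add_zero]
      refine Finset.sum_congr (by ext; simp) fun y hy => ?_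
      simp only [Finset.mem_filter, Finset.mem_univ, true_and] at hx hy
      rw [if_pos ⟨hx, hy⟩, one_mul]
    have h6 : ∑ x ∈ S, ∑ y ∈ T, (f α x y - proj p (f α) x y) =
        ∑ x ∈ S, ∑ y ∈ T, f α x y - ∑ x ∈ S, ∑ y ∈ T, proj p (f α) x y := by
      simp only [Finset.sum_sub_distrib]
    rw [h6, h3, h3, ← h2, ← Finset.sum_sub_distrib]
    refine Finset.sum_congr rfl fun x _ => ?_
    rw [← Finset.sum_sub_distrib]
    refine Finset.sum_congr rfl fun y _ => ?_
    split_ifs <;> ring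
  have hcs : (ε * (Fintype.card V : ℝ) ^ 2) ^ 2 ≤ (Fintype.card V : ℝ) ^ 2 *
      ∑ x, ∑ y, (proj p' (f α) x y - proj p (f α) x y) ^ 2 := by
    have h2 : (∑ x ∈ S, ∑ y ∈ T, (f α x y - proj p (f α) x y)) ^ 2 ≤
        (Fintype.card V : ℝ) ^ 2 * ∑ x, ∑ y, (proj p' (f α) x y - proj p (f α) x y) ^ 2 := by
      rw [h1, ← Fintype.sum_prod_type', ← Fintype.sum_prod_type']
      refine (sq_sum_le_card_mul_sum_sq).trans ?_
      rw [Finset.card_univ, Fintype.card_prod]
      push_cast
      rw [← sq]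
      refine mul_le_mul_of_nonneg_left ?_ (by positivity)
      refine Finset.sum_le_sum fun q _ => ?_
      split_ifs
      · exact le_refl _
      · rw [zero_pow two_ne_zero]
        exact sq_nonneg _
    refine le_trans ?_ h2
    rw [← sq_abs (∑ x ∈ S, ∑ y ∈ T, (f α x y - proj p (f α) x y))]
    have h3 : 0 ≤ ε * (Fintype.card V : ℝ) ^ 2 := by positivity
    exact pow_le_pow_left₀ h3 hST.le 2
  have hV : 0 < (Fintype.card V : ℝ) := by
    by_contra hneg
    have h0 : (Fintype.card V : ℝ) = 0 := le_antisymm (not_lt.1 hneg) (by positivity)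
    have h0' : Fintype.card V = 0 := by exact_mod_cast h0
    rw [Fintype.card_eq_zero_iff] at h0'
    have hS : S = ∅ := Finset.eq_empty_of_isEmpty S
    rw [hS] at hST
    simp only [Finset.sum_empty, abs_zero] at hST
    rw [h0] at hST
    norm_num at hST
  have hmain : ε ^ 2 * (Fintype.card V : ℝ) ^ 2 ≤
      ∑ x, ∑ y, (proj p' (f α) x y) ^ 2 - ∑ x, ∑ y, (proj p (f α) x y) ^ 2 := by
    rw [← horth]
    have h2 : (Fintype.card V : ℝ) ^ 2 * (ε ^ 2 * (Fintype.card V : ℝ) ^ 2) ≤
        (Fintype.card V : ℝ) ^ 2 *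
        ∑ x, ∑ y, (proj p' (f α) x y - proj p (f α) x y) ^ 2 := by
      refine le_trans (le_of_eq ?_) hcs
      ring
    exact le_of_mul_le_mul_left h2 (by positivity)
  have hothers : ∀ β, 0 ≤
      ∑ x, ∑ y, (proj p' (f β) x y) ^ 2 - ∑ x, ∑ y, (proj p (f β) x y) ^ 2 := by
    intro β
    rw [← horth β]
    exact Finset.sum_nonneg fun x _ => Finset.sum_nonneg fun y _ => sq_nonneg _
  have hsum : ε ^ 2 * (Fintype.card V : ℝ) ^ 2 ≤
      ∑ β, (∑ x, ∑ y, (proj p' (f β) x y) ^ 2 - ∑ x, ∑ y, (proj p (f β) x y) ^ 2) :=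
    hmain.trans (Finset.single_le_sum
      (f := fun β => ∑ x, ∑ y, (proj p' (f β) x y) ^ 2 - ∑ x, ∑ y, (proj p (f β) x y) ^ 2)
      (fun β _ => hothers β) (Finset.mem_univ α))
  rw [Finset.sum_sub_distrib] at hsum
  linarith

/-- **Weak regularity.** -/
theorem weak_regularity {V : Type} [Fintype V] {r : ℕ} (f : Fin r → V → V → ℝ)
    (hf0 : ∀ α x y, 0 ≤ f α x y) (hf1 : ∀ x y, ∑ α, f α x y ≤ 1) (ε : ℝ) (hε : 0 < ε)
    (J : ℕ) (hJ : 1 < J * ε ^ 2) :
    ∃ p : V → Fin (4 ^ J), CutGood f ε p := by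
  classical
  by_cases hV : Fintype.card V = 0
  · have hVe : IsEmpty V := Fintype.card_eq_zero_iff.1 hV
    refine ⟨fun x => (hVe.false x).elim, ?_⟩
    intro α S T
    have hS : S = ∅ := Finset.eq_empty_of_isEmpty S
    rw [hS]
    simp only [Finset.sum_empty, abs_zero]
    positivity
  have hVpos : (0 : ℝ) < Fintype.card V := by
    exact_mod_cast Nat.pos_of_ne_zero hV
  have hle1 : ∀ α x y, f α x y ≤ 1 := fun α x y =>
    (Finset.single_le_sum (f := fun α => f α x y) (fun β _ => hf0 β x y)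
      (Finset.mem_univ α)).trans (hf1 x y)
  have key : ∀ j : ℕ, (∃ i ≤ j, ∃ (P : Type) (_ : Fintype P) (p : V → P),
      Fintype.card P = 4 ^ i ∧ CutGood f ε p) ∨
      (∃ (P : Type) (_ : Fintype P) (p : V → P), Fintype.card P = 4 ^ j ∧
        (j : ℝ) * (ε ^ 2 * (Fintype.card V : ℝ) ^ 2) ≤
          ∑ α, ∑ x, ∑ y, (proj p (f α) x y) ^ 2) := by
    intro j
    induction j with
    | zero =>
      right
      refine ⟨Unit, inferInstance, fun _ => (), by simp, ?_⟩
      simp only [Nat.cast_zero, zero_mul]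
      positivity
    | succ j ih =>
      rcases ih with ⟨i, hi, h⟩ | ⟨P, hP, p, hcard, hen⟩
      · exact Or.inl ⟨i, by omega, h⟩
      · by_cases hg : CutGood f ε p
        · exact Or.inl ⟨j, by omega, P, hP, p, hcard, hg⟩
        · right
          obtain ⟨p', hp'⟩ := energy_step f ε hε p hg
          refine ⟨P × Bool × Bool, inferInstance, p', ?_, ?_⟩
          · rw [Fintype.card_prod, Fintype.card_prod, Fintype.card_bool, hcard]
            ring
          · refine le_trans ?_ hp'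
            push_cast
            linarith
  have hgood : ∃ i ≤ J, ∃ (P : Type) (_ : Fintype P) (p : V → P),
      Fintype.card P = 4 ^ i ∧ CutGood f ε p := by
    rcases key J with h | ⟨P, hP, p, hcard, hen⟩
    · exact h
    · exfalso
      have hbound : ∑ α, ∑ x, ∑ y, (proj p (f α) x y) ^ 2 ≤ (Fintype.card V : ℝ) ^ 2 := by
        have h1 : ∀ α, ∑ x, ∑ y, (proj p (f α) x y) ^ 2 ≤ ∑ x, ∑ y, f α x y := by
          intro α
          have h2 : ∑ x, ∑ y, (proj p (f α) x y) ^ 2 =
              ∑ x, ∑ y, proj p (f α) x y * f α x y := by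
            have := sum_mul_proj p (f α) (fun A B => den p (f α) A B)
            simp only [sq]
            exact this
          rw [h2]
          refine Finset.sum_le_sum fun x _ => Finset.sum_le_sum fun y _ => ?_
          have h3 : proj p (f α) x y ≤ 1 := den_le_one p (hle1 α) _ _
          have h4 := hf0 α x y
          nlinarith
        refine (Finset.sum_le_sum fun α _ => h1 α).trans ?_
        rw [Finset.sum_comm]
        have h5 : ∑ x : V, ∑ α : Fin r, ∑ y : V, f α x y ≤ ∑ x : V, ∑ y : V, (1 : ℝ) := by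
          refine Finset.sum_le_sum fun x _ => ?_
          rw [Finset.sum_comm]
          exact Finset.sum_le_sum fun y _ => hf1 x y
        refine h5.trans (le_of_eq ?_)
        simp only [Finset.sum_const, Finset.card_univ, nsmul_eq_mul, mul_one]
        ring
      have h6 := hen.trans hbound
      have h7 : (Fintype.card V : ℝ) ^ 2 < (J * ε ^ 2) * (Fintype.card V : ℝ) ^ 2 := by
        have h8 : (0 : ℝ) < (Fintype.card V : ℝ) ^ 2 := by positivity
        nlinarith
      nlinarith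
  obtain ⟨i, hi, P, hP, p, hcard, hg⟩ := hgood
  have hle : Fintype.card P ≤ Fintype.card (Fin (4 ^ J)) := by
    rw [hcard, Fintype.card_fin]
    exact Nat.pow_le_pow_right (by norm_num) hi
  obtain ⟨ι⟩ := Function.Embedding.nonempty_of_card_le hle
  refine ⟨ι ∘ p, ?_⟩
  intro α S T
  rw [proj_comp_injective p ι ι.injective]
  exact hg α S T

end Pool.Agent.Lib.MP_ba6833_co
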