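import Mathlib
import Pool.Agent.Lib.MP_ba6833_co.Defs

/-!
# Systems of distinct representatives for lists on the edges of `K_k`
-/

namespace Pool.Agent.Lib.MP_ba6833_co

open Finset

/-- the logarithmic deficit of a list of size `s` -/
noncomputable def dfc (r s : ℕ) : ℝ := 1 - Real.logb r s

lemma dfc_le_one (r s : ℕ) (hr : 2 ≤ r) : dfc r s ≤ 1 := by
  unfold dfc
  have h1 : (1 : ℝ) < r := by exact_mod_cast (by omega : 1 < r)
  rcases Nat.eq_zero_or_pos s with h | h
  · subst h
    simp
  · have : 0 ≤ Real.logb r s := Real.logb_nonneg h1 (by exact_mod_cast h)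
    linarith

lemma dfc_anti {r s t : ℕ} (hr : 2 ≤ r) (hst : s ≤ t) : dfc r t ≤ dfc r s := by
  have h1 : (1 : ℝ) < r := by exact_mod_cast (by omega : 1 < r)
  rcases Nat.eq_zero_or_pos s with h | h
  · subst h
    have : dfc r 0 = 1 := by simp [dfc]
    rw [this]
    exact dfc_le_one r t hr
  · unfold dfc
    have : Real.logb r s ≤ Real.logb r t :=
      Real.logb_le_logb_of_le h1 (by exact_mod_cast h) (by exact_mod_cast hst)
    linarith

lemma dfc_self {r : ℕ} (hr : 2 ≤ r) : dfc r r = 0 := by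
  unfold dfc
  have h1 : (1 : ℝ) < r := by exact_mod_cast (by omega : 1 < r)
  rw [Real.logb_self_eq_one h1]
  ring

lemma dfc_nonneg {r s : ℕ} (hr : 2 ≤ r) (hs : s ≤ r) : 0 ≤ dfc r s := by
  rw [← dfc_self hr]
  exact dfc_anti hr hs

lemma dfc_pos {r s : ℕ} (hr : 2 ≤ r) (hs : s < r) : 0 < dfc r s := by
  have h1 : (1 : ℝ) < r := by exact_mod_cast (by omega : 1 < r)
  rcases Nat.eq_zero_or_pos s with h | h
  · subst h
    simp [dfc]
  · unfold dfc
    have : Real.logb r s < Real.logb r r :=
      Real.logb_lt_logb h1 (by exact_mod_cast h) (by exact_mod_cast hs)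
    rw [Real.logb_self_eq_one h1] at this
    linarith

lemma dfc_of_le_one {r s : ℕ} (hs : s ≤ 1) : dfc r s = 1 := by
  unfold dfc
  interval_cases s <;> simp

/-- the lists `L i j`, `i < j`, have a system of distinct representatives -/
def HasSDR {k r : ℕ} (L : Fin k → Fin k → Finset (Fin r)) : Prop :=
  ∃ φ : Fin k × Fin k → Fin r, Set.InjOn φ (prs k) ∧ ∀ p ∈ prs k, φ p ∈ L p.1 p.2

/-- Hall's theorem in terms of the numbers of lists of size at most `s`. -/
theorem hasSDR_of_count {k r : ℕ} (hr : 0 < r) (L : Fin k → Fin k → Finset (Fin r))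
    (h1 : ∀ p ∈ prs k, (L p.1 p.2).Nonempty)
    (h2 : ∀ s, 1 ≤ s → s < (prs k).card →
      ((prs k).filter (fun p => (L p.1 p.2).card ≤ s)).card ≤ s) : HasSDR L := by
  classical
  have hall := (Finset.all_card_le_biUnion_card_iff_exists_injective
    (fun p : {p // p ∈ prs k} => L p.1.1 p.1.2)).1 ?_
  · obtain ⟨f, hf1, hf2⟩ := hall
    refine ⟨fun p => if h : p ∈ prs k then f ⟨p, h⟩ else ⟨0, hr⟩, ?_, ?_⟩
    · intro p hp q hq hpq
      rw [Finset.mem_coe] at hp hq
      simp only [dif_pos hp, dif_pos hq] at hpq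
      have := hf1 hpq
      exact congrArg Subtype.val this
    · intro p hp
      simp only [dif_pos hp]
      exact hf2 ⟨p, hp⟩
  · intro S
    rcases S.eq_empty_or_nonempty with hS | ⟨q, hq⟩
    · subst hS
      simp
    set s := (S.biUnion (fun p : {p // p ∈ prs k} => L p.1.1 p.1.2)).card with hs
    have hS2 : S.card ≤ (prs k).card := by
      have := Finset.card_le_univ S
      rwa [Fintype.card_coe] at this
    by_cases hcase : (prs k).card ≤ s
    · exact hS2.trans hcase
    push Not at hcase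
    have hs1 : 1 ≤ s := by
      obtain ⟨α, hα⟩ := h1 q.1 q.2
      exact Finset.card_pos.2 ⟨α, Finset.mem_biUnion.2 ⟨q, hq, hα⟩⟩
    refine le_trans ?_ (h2 s hs1 hcase)
    rw [← Finset.card_map (Function.Embedding.subtype _)]
    refine Finset.card_le_card ?_
    intro p hp
    rw [Finset.mem_map] at hp
    obtain ⟨q, hq, rfl⟩ := hp
    rw [Finset.mem_filter]
    refine ⟨q.2, ?_⟩
    exact Finset.card_le_card (Finset.subset_biUnion_of_mem
      (fun p : {p // p ∈ prs k} => L p.1.1 p.1.2) hq)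

/-- In a greedy sequence few lists are short. -/
theorem count_le {m r a : ℕ} (L : Fin m → Fin m → Finset (Fin r)) (κ : ℝ) (s : ℕ)
    (hr : 2 ≤ r) (hs : s < r)
    (h : ∀ j : Fin m, ∑ i ∈ univ.filter (fun i => i < j), dfc r (L i j).card ≤ (j : ℕ) / (a : ℝ) + κ) :
    ((prs m).filter (fun p => (L p.1 p.2).card ≤ s)).card ≤
      ∑ l ∈ Finset.Ico 1 m, ⌊((l : ℝ) / a + κ) / dfc r s⌋₊ := by
  have hu : 0 < dfc r s := dfc_pos hr hs
  have hcard : ∀ i j : Fin m, (L i j).card ≤ r := fun i j => by
    simpa using Finset.card_le_univ (L i j)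
  have h1 : ((prs m).filter (fun p => (L p.1 p.2).card ≤ s)).card =
      ∑ j : Fin m, (univ.filter (fun i => i < j ∧ (L i j).card ≤ s)).card := by
    rw [Finset.card_eq_sum_card_fiberwise (f := Prod.snd) (t := Finset.univ) (by simp)]
    refine Finset.sum_congr rfl fun j _ => ?_
    refine Finset.card_bij (fun p _ => p.1) ?_ ?_ ?_
    · rintro ⟨i, j'⟩ hp
      simp only [Finset.mem_filter, mem_prs, Finset.mem_univ, true_and] at hp ⊢
      obtain ⟨⟨h1, h2⟩, rfl⟩ := hp
      exact ⟨h1, h2⟩
    · rintro ⟨i, j'⟩ hp ⟨i', j''⟩ hp' heq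
      simp only [Finset.mem_filter, mem_prs] at hp hp'
      simp only at heq
      rw [heq, hp.2, hp'.2]
    · intro i hi
      simp only [Finset.mem_filter, Finset.mem_univ, true_and] at hi
      exact ⟨(i, j), by simp [mem_prs, hi], rfl⟩
  rw [h1]
  have h2 : ∀ j : Fin m, (univ.filter (fun i => i < j ∧ (L i j).card ≤ s)).card ≤
      if (j : ℕ) = 0 then 0 else ⌊((j : ℕ) / (a : ℝ) + κ) / dfc r s⌋₊ := by
    intro j
    split_ifs with hj
    · rw [Nat.le_zero, Finset.card_eq_zero, Finset.filter_eq_empty_iff]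
      rintro i - ⟨hi, -⟩
      have : (i : ℕ) < j := hi
      omega
    · apply Nat.le_floor
      rw [le_div_iff₀ hu]
      refine le_trans ?_ (h j)
      rw [← nsmul_eq_mul, ← Finset.sum_const]
      refine le_trans (Finset.sum_le_sum (g := fun i => dfc r (L i j).card) ?_) ?_
      · intro i hi
        simp only [Finset.mem_filter, Finset.mem_univ, true_and] at hi
        exact dfc_anti hr hi.2
      · refine Finset.sum_le_sum_of_subset_of_nonneg ?_ ?_
        · intro i hi
          simp only [Finset.mem_filter, Finset.mem_univ, true_and] at hi ⊢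
          exact hi.1
        · intro i _ _
          exact dfc_nonneg hr (hcard i j)
  refine le_trans (Finset.sum_le_sum fun j _ => h2 j) ?_
  rw [Fin.sum_univ_eq_sum_range
    (fun j => if j = 0 then 0 else ⌊((j : ℕ) / (a : ℝ) + κ) / dfc r s⌋₊) m]
  rcases Nat.eq_zero_or_pos m with hm | hm
  · subst hm
    simp
  · rw [Finset.range_eq_Ico, Finset.sum_eq_sum_Ico_succ_bot hm]
    simp only [if_true, zero_add]
    refine le_of_eq (Finset.sum_congr rfl fun l hl => ?_)
    rw [Finset.mem_Ico] at hl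
    rw [if_neg (by omega)]

lemma card_prs (k : ℕ) : (prs k).card = k.choose 2 := by
  have h1 : (prs k).card = ∑ j : Fin k, (j : ℕ) := by
    rw [Finset.card_eq_sum_card_fiberwise (f := Prod.snd) (t := Finset.univ) (by simp)]
    refine Finset.sum_congr rfl fun j _ => ?_
    have : (Finset.univ.filter (fun i : Fin k => i < j)).card = j := by
      rw [Finset.filter_gt_eq_Iio]
      simp
    rw [← this]
    refine Finset.card_bij (fun p _ => p.1) ?_ ?_ ?_
    · rintro ⟨i, j'⟩ hp
      simp only [Finset.mem_filter, mem_prs, Finset.mem_univ, true_and] at hp ⊢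
      obtain ⟨h1, rfl⟩ := hp
      exact h1
    · rintro ⟨i, j'⟩ hp ⟨i', j''⟩ hp' heq
      simp only [Finset.mem_filter, mem_prs] at hp hp'
      simp only at heq
      rw [heq, hp.2, hp'.2]
    · intro i hi
      simp only [Finset.mem_filter, Finset.mem_univ, true_and] at hi
      exact ⟨(i, j), by simp [mem_prs, hi], rfl⟩
  rw [h1, Fin.sum_univ_eq_sum_range (fun j => j) k, Finset.sum_range_id, Nat.choose_two_right]

/-- A greedy sequence with nonempty lists has a system of distinct representatives. -/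
theorem hasSDR_greedy {a r : ℕ} (hr : (a + 1).choose 2 ≤ r) (hr2 : 2 ≤ r) (κ : ℝ)
    (hN : ∀ s, 1 ≤ s → s < (a + 1).choose 2 →
      ∑ l ∈ Finset.Ico 1 (a + 1), ⌊((l : ℝ) / a + κ) / dfc r s⌋₊ ≤ s)
    (L : Fin (a + 1) → Fin (a + 1) → Finset (Fin r))
    (h1 : ∀ p ∈ prs (a + 1), (L p.1 p.2).Nonempty)
    (h : ∀ j : Fin (a + 1),
      ∑ i ∈ univ.filter (fun i => i < j), dfc r (L i j).card ≤ (j : ℕ) / (a : ℝ) + κ) :
    HasSDR L := by
  refine hasSDR_of_count (by omega) L h1 ?_
  intro s hs1 hs2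
  rw [card_prs] at hs2
  exact (count_le L κ s hr2 (by omega) h).trans (hN s hs1 hs2)

/-- Replacing a vertex of a greedy sequence by two vertices. -/
theorem hasSDR_pair {a r : ℕ} (ha : 1 ≤ a) (hr : (a + 1).choose 2 ≤ r) (hr2 : 2 ≤ r) (κ : ℝ)
    (hκ : 0 ≤ κ)
    (hN : ∀ s, 1 ≤ s → s < (a + 1).choose 2 →
      ∑ l ∈ Finset.Ico 1 (a + 1), ⌊((l : ℝ) / a + κ) / dfc r s⌋₊ ≤ s)
    (M : Fin a → Fin a → Finset (Fin r))
    (hM1 : ∀ p ∈ prs a, (M p.1 p.2).Nonempty)
    (hM : ∀ j : Fin a,
      ∑ i ∈ univ.filter (fun i => i < j), dfc r (M i j).card ≤ (j : ℕ) / (a : ℝ) + κ)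
    (L : Fin (a + 1) → Fin (a + 1) → Finset (Fin r)) (j : Fin a)
    (h1 : ∀ p ∈ prs a, p.1 ≠ j → p.2 ≠ j → L p.1.castSucc p.2.castSucc = M p.1 p.2)
    (h2 : ∀ p ∈ prs a, (p.1 = j ∨ p.2 = j) → (L p.1.castSucc p.2.castSucc).card = r)
    (h3 : ∀ i : Fin a, i ≠ j → (L i.castSucc (Fin.last a)).card = r)
    (h4 : (L j.castSucc (Fin.last a)).Nonempty) : HasSDR L := by
  classical
  have hr0 : 0 < r := by omega
  have hcases : ∀ p ∈ prs (a + 1), (∃ q ∈ prs a, p = (q.1.castSucc, q.2.castSucc)) ∨
      (∃ i : Fin a, p = (i.castSucc, Fin.last a)) := by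
    rintro ⟨p1, p2⟩ hp
    rw [mem_prs] at hp
    simp only at hp
    have hp1 : p1 ≠ Fin.last a := fun h => by
      rw [h] at hp
      exact absurd hp (not_lt.2 (Fin.le_last p2))
    obtain ⟨i, rfl⟩ := Fin.exists_castSucc_eq.2 hp1
    by_cases hp2 : p2 = Fin.last a
    · right
      exact ⟨i, by rw [hp2]⟩
    · left
      obtain ⟨i', rfl⟩ := Fin.exists_castSucc_eq.2 hp2
      exact ⟨(i, i'), mem_prs.2 (by simpa using hp), rfl⟩
  refine hasSDR_of_count hr0 L ?_ ?_
  · intro p hp
    rcases hcases p hp with ⟨q, hq, rfl⟩ | ⟨i, rfl⟩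
    · simp only
      by_cases hq1 : q.1 = j ∨ q.2 = j
      · rw [← Finset.card_pos, h2 q hq hq1]
        exact hr0
      · push Not at hq1
        rw [h1 q hq hq1.1 hq1.2]
        exact hM1 q hq
    · simp only
      by_cases hi : i = j
      · rw [hi]
        exact h4
      · rw [← Finset.card_pos, h3 i hi]
        exact hr0
  · intro s hs1 hs2
    rw [card_prs] at hs2
    have hsr : s < r := by omega
    have hu : 0 < dfc r s := dfc_pos hr2 hsr
    refine le_trans ?_ (hN s hs1 hs2)
    have hsub : (prs (a + 1)).filter (fun p => (L p.1 p.2).card ≤ s) ⊆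
        insert (j.castSucc, Fin.last a)
          (((prs a).filter (fun p => (M p.1 p.2).card ≤ s)).image
            (fun q => (q.1.castSucc, q.2.castSucc))) := by
      intro p hp
      rw [Finset.mem_filter] at hp
      obtain ⟨hp, hps⟩ := hp
      rw [Finset.mem_insert, Finset.mem_image]
      rcases hcases p hp with ⟨q, hq, rfl⟩ | ⟨i, rfl⟩
      · right
        refine ⟨q, ?_, rfl⟩
        rw [Finset.mem_filter]
        refine ⟨hq, ?_⟩
        simp only at hps
        by_cases hq1 : q.1 = j ∨ q.2 = j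
        · rw [h2 q hq hq1] at hps
          omega
        · push Not at hq1
          rw [h1 q hq hq1.1 hq1.2] at hps
          exact hps
      · left
        simp only at hps
        by_cases hi : i = j
        · rw [hi]
        · rw [h3 i hi] at hps
          omega
    refine (Finset.card_le_card hsub).trans ((Finset.card_insert_le _ _).trans ?_)
    rw [Finset.sum_Ico_succ_top ha]
    refine add_le_add ?_ ?_
    · refine Finset.card_image_le.trans ?_
      exact count_le M κ s hr2 hsr hM
    · apply Nat.le_floor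
      rw [le_div_iff₀ hu]
      have h5 : dfc r s ≤ 1 := dfc_le_one r s hr2
      have ha' : (a : ℝ) ≠ 0 := by
        have : (0 : ℝ) < a := by exact_mod_cast ha
        exact this.ne'
      rw [div_self ha']
      push_cast
      linarith

end Pool.Agent.Lib.MP_ba6833_co
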