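import Mathlib
import Pool.Agent.Lib.MP_ba6833_co.Defs
import Pool.Agent.Lib.MP_ba6833_co.FK
import Pool.Agent.Lib.MP_ba6833_co.Hall

/-!
# The counting lemma
-/

namespace Pool.Agent.Lib.MP_ba6833_co

open Finset

section

variable {V : Type} [Fintype V]

lemma abs_sum_mul_le (A h : V → ℝ) (hA0 : ∀ x, 0 ≤ A x) (hA1 : ∀ x, A x ≤ 1) :
    ∃ S : Finset V, |∑ x, A x * h x| ≤ |∑ x ∈ S, h x| := by
  classical
  rcases le_total 0 (∑ x, A x * h x) with h0 | h0
  · refine ⟨univ.filter (fun x => 0 < h x), ?_⟩
    rw [abs_of_nonneg h0]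
    refine le_trans ?_ (le_abs_self _)
    rw [Finset.sum_filter]
    refine Finset.sum_le_sum fun x _ => ?_
    split_ifs with hx
    · have := hA1 x
      nlinarith
    · have := hA0 x
      nlinarith
  · refine ⟨univ.filter (fun x => h x < 0), ?_⟩
    rw [abs_of_nonpos h0]
    refine le_trans ?_ (neg_le_abs _)
    rw [neg_le_neg_iff, Finset.sum_filter]
    refine Finset.sum_le_sum fun x _ => ?_
    split_ifs with hx
    · have := hA1 x
      nlinarith
    · have := hA0 x
      nlinarith

lemma abs_bilin_le (g : V → V → ℝ) (C : ℝ) (hg : ∀ S T : Finset V, |∑ x ∈ S, ∑ y ∈ T, g x y| ≤ C)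
    (A B : V → ℝ) (hA0 : ∀ x, 0 ≤ A x) (hA1 : ∀ x, A x ≤ 1) (hB0 : ∀ x, 0 ≤ B x)
    (hB1 : ∀ x, B x ≤ 1) : |∑ x, ∑ y, A x * B y * g x y| ≤ C := by
  have h1 : ∑ x, ∑ y, A x * B y * g x y = ∑ x, A x * ∑ y, B y * g x y := by
    refine Finset.sum_congr rfl fun x _ => ?_
    rw [Finset.mul_sum]
    refine Finset.sum_congr rfl fun y _ => ?_
    ring
  obtain ⟨S, hS⟩ := abs_sum_mul_le A (fun x => ∑ y, B y * g x y) hA0 hA1
  rw [h1]
  refine hS.trans ?_
  have h2 : ∑ x ∈ S, ∑ y, B y * g x y = ∑ y, B y * ∑ x ∈ S, g x y := by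
    rw [Finset.sum_comm]
    refine Finset.sum_congr rfl fun y _ => ?_
    rw [Finset.mul_sum]
  obtain ⟨T, hT⟩ := abs_sum_mul_le B (fun y => ∑ x ∈ S, g x y) hB0 hB1
  rw [h2]
  refine hT.trans ?_
  rw [Finset.sum_comm]
  exact hg S T

/-- resampling one coordinate -/
lemma sum_update {k : ℕ} (Ψ : (Fin k → V) → ℝ) (i : Fin k) :
    ∑ w : Fin k → V, ∑ x : V, Ψ (Function.update w i x) =
      (Fintype.card V : ℝ) * ∑ w, Ψ w := by
  classical
  rw [← Fintype.sum_prod_type' (fun (w : Fin k → V) (x : V) => Ψ (Function.update w i x))]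
  have h1 : ∑ q : (Fin k → V) × V, Ψ (Function.update q.1 i q.2) =
      ∑ q : (Fin k → V) × V, Ψ q.1 := by
    refine Fintype.sum_equiv (Function.Involutive.toPerm
      (fun q : (Fin k → V) × V => (Function.update q.1 i q.2, q.1 i)) ?_) _ _ ?_
    · rintro ⟨w, x⟩
      simp
    · rintro ⟨w, x⟩
      rfl
  rw [h1, Fintype.sum_prod_type]
  simp only [Finset.sum_const, Finset.card_univ, nsmul_eq_mul]
  rw [Finset.mul_sum]

/-- one factor of small cut norm -/
lemma abs_sum_prod_le {k : ℕ} (g : V → V → ℝ) (ε : ℝ) (hε : 0 ≤ ε)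
    (hg : ∀ S T : Finset V, |∑ x ∈ S, ∑ y ∈ T, g x y| ≤ ε * (Fintype.card V : ℝ) ^ 2)
    (Z : Fin k × Fin k → V → V → ℝ) (hZ0 : ∀ p x y, 0 ≤ Z p x y) (hZ1 : ∀ p x y, Z p x y ≤ 1)
    (q : Fin k × Fin k) (hq : q ∈ prs k) (Q : Finset (Fin k × Fin k)) (hQ : Q ⊆ prs k)
    (hqQ : q ∉ Q) :
    |∑ w : Fin k → V, (∏ p ∈ Q, Z p (w p.1) (w p.2)) * g (w q.1) (w q.2)| ≤
      ε * (Fintype.card V : ℝ) ^ k := by
  classical
  by_cases hV : Fintype.card V = 0
  · have hVe : IsEmpty V := Fintype.card_eq_zero_iff.1 hV
    have hE : IsEmpty (Fin k → V) := ⟨fun w => hVe.false (w q.1)⟩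
    rw [Finset.univ_eq_empty, Finset.sum_empty, abs_zero]
    positivity
  have hVpos : (0 : ℝ) < Fintype.card V := by
    exact_mod_cast Nat.pos_of_ne_zero hV
  obtain ⟨i, j⟩ := q
  rw [mem_prs] at hq
  simp only at hq
  have hij : i ≠ j := hq.ne
  set Ψ : (Fin k → V) → ℝ := fun w => (∏ p ∈ Q, Z p (w p.1) (w p.2)) * g (w i) (w j) with hΨ
  have h1 : (Fintype.card V : ℝ) ^ 2 * ∑ w, Ψ w =
      ∑ w : Fin k → V, ∑ x : V, ∑ y : V, Ψ (Function.update (Function.update w i x) j y) := by
    rw [sum_update (fun w => ∑ y : V, Ψ (Function.update w j y)) i, sum_update Ψ j]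
    ring
  have h2 : ∀ w : Fin k → V,
      |∑ x : V, ∑ y : V, Ψ (Function.update (Function.update w i x) j y)| ≤
        ε * (Fintype.card V : ℝ) ^ 2 := by
    intro w
    set A : V → ℝ := fun x => ∏ p ∈ Q.filter (fun p => p.1 = i ∨ p.2 = i),
      Z p (Function.update w i x p.1) (Function.update w i x p.2) with hA
    set B : V → ℝ := fun y => ∏ p ∈ Q.filter (fun p => ¬ (p.1 = i ∨ p.2 = i)),
      Z p (Function.update w j y p.1) (Function.update w j y p.2) with hB
    have h3 : ∀ x y, Ψ (Function.update (Function.update w i x) j y) = A x * B y * g x y := by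
      intro x y
      rw [hΨ]
      simp only
      rw [Function.update_self, Function.update_of_ne hij, Function.update_self,
        ← Finset.prod_filter_mul_prod_filter_not Q (fun p => p.1 = i ∨ p.2 = i)]
      congr 2
      · refine Finset.prod_congr rfl fun p hp => ?_
        rw [Finset.mem_filter] at hp
        obtain ⟨hpQ, hpi⟩ := hp
        have hlt : p.1 < p.2 := mem_prs.1 (hQ hpQ)
        have hpne : p ≠ (i, j) := fun h => hqQ (h ▸ hpQ)
        have hp1 : p.1 ≠ j := by
          intro h
          rcases hpi with h' | h'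
          · exact hij (h'.symm.trans h)
          · rw [h, h'] at hlt
            exact absurd hlt (not_lt.2 hq.le)
        have hp2 : p.2 ≠ j := by
          intro h
          rcases hpi with h' | h'
          · exact hpne (Prod.ext h' h)
          · exact hij (h'.symm.trans h)
        rw [Function.update_of_ne hp1, Function.update_of_ne hp2]
      · refine Finset.prod_congr rfl fun p hp => ?_
        rw [Finset.mem_filter] at hp
        obtain ⟨hpQ, hpi⟩ := hp
        push Not at hpi
        have h4 : ∀ l : Fin k, l ≠ i →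
            Function.update (Function.update w i x) j y l = Function.update w j y l := by
          intro l hl
          by_cases hlj : l = j
          · rw [hlj, Function.update_self, Function.update_self]
          · rw [Function.update_of_ne hlj, Function.update_of_ne hlj, Function.update_of_ne hl]
        rw [h4 _ hpi.1, h4 _ hpi.2]
    simp only [h3]
    refine abs_bilin_le g _ hg A B ?_ ?_ ?_ ?_
    · exact fun x => Finset.prod_nonneg fun p _ => hZ0 _ _ _
    · exact fun x => Finset.prod_le_one (fun p _ => hZ0 _ _ _) fun p _ => hZ1 _ _ _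
    · exact fun x => Finset.prod_nonneg fun p _ => hZ0 _ _ _
    · exact fun x => Finset.prod_le_one (fun p _ => hZ0 _ _ _) fun p _ => hZ1 _ _ _
  have h5 : |(Fintype.card V : ℝ) ^ 2 * ∑ w, Ψ w| ≤
      (Fintype.card V : ℝ) ^ 2 * (ε * (Fintype.card V : ℝ) ^ k) := by
    rw [h1]
    refine (Finset.abs_sum_le_sum_abs _ _).trans ?_
    refine (Finset.sum_le_sum fun w _ => h2 w).trans (le_of_eq ?_)
    rw [Finset.sum_const, Finset.card_univ, Fintype.card_fun, Fintype.card_fin, nsmul_eq_mul]
    push_cast
    ring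
  rw [abs_mul, abs_of_pos (by positivity : (0 : ℝ) < (Fintype.card V : ℝ) ^ 2)] at h5
  exact le_of_mul_le_mul_left h5 (by positivity)

/-- **Counting lemma.** -/
theorem counting {k : ℕ} (F H : Fin k × Fin k → V → V → ℝ) (ε : ℝ) (hε : 0 ≤ ε)
    (hF0 : ∀ p x y, 0 ≤ F p x y) (hF1 : ∀ p x y, F p x y ≤ 1)
    (hH0 : ∀ p x y, 0 ≤ H p x y) (hH1 : ∀ p x y, H p x y ≤ 1)
    (hFH : ∀ p, ∀ S T : Finset V,
      |∑ x ∈ S, ∑ y ∈ T, (F p x y - H p x y)| ≤ ε * (Fintype.card V : ℝ) ^ 2) :
    |∑ w : Fin k → V, ∏ p ∈ prs k, F p (w p.1) (w p.2) -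
      ∑ w : Fin k → V, ∏ p ∈ prs k, H p (w p.1) (w p.2)| ≤
      (prs k).card * (ε * (Fintype.card V : ℝ) ^ k) := by
  classical
  set X : Finset (Fin k × Fin k) → ℝ := fun S =>
    ∑ w : Fin k → V, ∏ p ∈ prs k, (if p ∈ S then F p else H p) (w p.1) (w p.2) with hX
  have key : ∀ S : Finset (Fin k × Fin k), S ⊆ prs k →
      |X S - X ∅| ≤ S.card * (ε * (Fintype.card V : ℝ) ^ k) := by
    intro S
    induction S using Finset.induction_on with
    | empty =>
      intro _
      simp
    | insert q S hq ih =>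
      intro hS
      have hqk : q ∈ prs k := hS (Finset.mem_insert_self q S)
      have hSk : S ⊆ prs k := fun p hp => hS (Finset.mem_insert_of_mem hp)
      have ih' := ih hSk
      have hdiff : X (insert q S) - X S = ∑ w : Fin k → V,
          (∏ p ∈ (prs k).erase q, (if p ∈ S then F p else H p) (w p.1) (w p.2)) *
            (F q (w q.1) (w q.2) - H q (w q.1) (w q.2)) := by
        rw [hX]
        simp only
        rw [← Finset.sum_sub_distrib]
        refine Finset.sum_congr rfl fun w _ => ?_
        rw [← Finset.mul_prod_erase (prs k) _ hqk, ← Finset.mul_prod_erase (prs k) _ hqk]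
        rw [if_pos (Finset.mem_insert_self q S), if_neg hq]
        have h1 : ∏ p ∈ (prs k).erase q,
            (if p ∈ insert q S then F p else H p) (w p.1) (w p.2) =
            ∏ p ∈ (prs k).erase q, (if p ∈ S then F p else H p) (w p.1) (w p.2) := by
          refine Finset.prod_congr rfl fun p hp => ?_
          have hpq : p ≠ q := Finset.ne_of_mem_erase hp
          by_cases hpS : p ∈ S
          · rw [if_pos (Finset.mem_insert_of_mem hpS), if_pos hpS]
          · rw [if_neg hpS, if_neg (by rw [Finset.mem_insert]; tauto)]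
        rw [h1]
        ring
      have hstep : |X (insert q S) - X S| ≤ ε * (Fintype.card V : ℝ) ^ k := by
        rw [hdiff]
        refine abs_sum_prod_le (fun x y => F q x y - H q x y) ε hε (hFH q)
          (fun p => if p ∈ S then F p else H p) ?_ ?_ q hqk _ (Finset.erase_subset _ _)
          (Finset.notMem_erase _ _)
        · intro p x y
          split_ifs
          · exact hF0 p x y
          · exact hH0 p x y
        · intro p x y
          split_ifs
          · exact hF1 p x y
          · exact hH1 p x y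
      rw [Finset.card_insert_of_notMem hq]
      calc |X (insert q S) - X ∅| = |(X (insert q S) - X S) + (X S - X ∅)| := by ring_nf
        _ ≤ |X (insert q S) - X S| + |X S - X ∅| := abs_add_le _ _
        _ ≤ ε * (Fintype.card V : ℝ) ^ k + S.card * (ε * (Fintype.card V : ℝ) ^ k) :=
          add_le_add hstep ih'
        _ = _ := by push_cast; ring
  have h := key (prs k) (Finset.Subset.refl _)
  have h1 : X (prs k) = ∑ w : Fin k → V, ∏ p ∈ prs k, F p (w p.1) (w p.2) := by
    rw [hX]
    simp only
    refine Finset.sum_congr rfl fun w _ => Finset.prod_congr rfl fun p hp => ?_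
    rw [if_pos hp]
  have h2 : X ∅ = ∑ w : Fin k → V, ∏ p ∈ prs k, H p (w p.1) (w p.2) := by
    rw [hX]
    simp
  rw [h1, h2] at h
  exact h

end

section bad

variable {V : Type} [Fintype V] {r k : ℕ} {G : SimpleGraph V}

open scoped Classical in
/-- the indicator function of the colour `α` -/
noncomputable def colInd (c : G.edgeSet → Fin r) (α : Fin r) (x y : V) : ℝ :=
  if col c x y = some α then 1 else 0

omit [Fintype V] in
lemma colInd_nonneg (c : G.edgeSet → Fin r) (α : Fin r) (x y : V) : 0 ≤ colInd c α x y := by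
  unfold colInd
  split_ifs <;> norm_num

omit [Fintype V] in
lemma colInd_le_one (c : G.edgeSet → Fin r) (α : Fin r) (x y : V) : colInd c α x y ≤ 1 := by
  unfold colInd
  split_ifs <;> norm_num

omit [Fintype V] in
lemma colInd_symm (c : G.edgeSet → Fin r) (α : Fin r) (x y : V) :
    colInd c α x y = colInd c α y x := by
  unfold colInd
  rw [col_symm]

omit [Fintype V] in
lemma sum_colInd_le (c : G.edgeSet → Fin r) (x y : V) : ∑ α, colInd c α x y ≤ 1 := by
  classical
  unfold colInd
  rcases h : col c x y with _ | β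
  · simp
  · rw [Finset.sum_eq_single β]
    · simp
    · intro α _ hα
      rw [if_neg]
      intro h'
      exact hα (Option.some.inj h').symm
    · intro h'
      exact absurd (Finset.mem_univ β) h'

open scoped Classical in
/-- the list of colours of density at least `γ` between two cells -/
noncomputable def lst {P : Type} (c : G.edgeSet → Fin r) (p : V → P) (γ : ℝ) (A B : P) :
    Finset (Fin r) :=
  univ.filter (fun α => γ ≤ den p (colInd c α) A B)

open scoped Classical in
/-- There are few tuples whose lists have a system of distinct representatives. -/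
theorem bad_count {P : Type} [Fintype P] (c : G.edgeSet → Fin r) (hc : ¬ HasRainbow k G c)
    (p : V → P) (ε γ : ℝ) (hε : 0 ≤ ε) (hγ : 0 ≤ γ) (hp : CutGood (colInd c) ε p) :
    ((univ.filter (fun w : Fin k → V =>
      HasSDR (fun i j => lst c p γ (p (w i)) (p (w j))))).card : ℝ) * γ ^ (prs k).card ≤
      (r : ℝ) ^ (k * k) * ((prs k).card * (ε * (Fintype.card V : ℝ) ^ k)) := by
  -- for a fixed choice of colours
  have h1 : ∀ φ : Fin k × Fin k → Fin r, Set.InjOn φ (prs k) →
      ((univ.filter (fun w : Fin k → V =>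
        ∀ q ∈ prs k, φ q ∈ lst c p γ (p (w q.1)) (p (w q.2)))).card : ℝ) * γ ^ (prs k).card ≤
      (prs k).card * (ε * (Fintype.card V : ℝ) ^ k) := by
    intro φ hφ
    have hcount := counting (k := k) (fun q => colInd c (φ q)) (fun q => proj p (colInd c (φ q)))
      ε hε (fun q x y => colInd_nonneg c _ x y) (fun q x y => colInd_le_one c _ x y)
      (fun q x y => den_nonneg p (colInd_nonneg c _) _ _)
      (fun q x y => den_le_one p (colInd_le_one c _) _ _)
      (fun q S T => hp (φ q) S T)
    have hzero : ∑ w : Fin k → V, ∏ q ∈ prs k, colInd c (φ q) (w q.1) (w q.2) = 0 := by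
      refine Finset.sum_eq_zero fun w _ => ?_
      by_contra hne
      rw [Finset.prod_eq_zero_iff] at hne
      push Not at hne
      refine hc (hasRainbow_of_pairs c w φ hφ ?_)
      intro q hq
      have := hne q hq
      unfold colInd at this
      by_contra h'
      rw [if_neg h'] at this
      exact this rfl
    rw [hzero, zero_sub, abs_neg] at hcount
    refine le_trans ?_ ((le_abs_self _).trans hcount)
    rw [← nsmul_eq_mul, ← Finset.sum_const]
    refine le_trans (Finset.sum_le_sum (g := fun w : Fin k → V =>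
      ∏ q ∈ prs k, proj p (colInd c (φ q)) (w q.1) (w q.2)) ?_) ?_
    · intro w hw
      rw [Finset.mem_filter] at hw
      rw [← Finset.prod_const]
      refine Finset.prod_le_prod (fun _ _ => hγ) fun q hq => ?_
      have := hw.2 q hq
      unfold lst at this
      rw [Finset.mem_filter] at this
      exact this.2
    · refine Finset.sum_le_sum_of_subset_of_nonneg (Finset.filter_subset _ _) ?_
      intro w _ _
      exact Finset.prod_nonneg fun q _ => den_nonneg p (colInd_nonneg c _) _ _
  -- sum over the choices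
  have h2 : (univ.filter (fun w : Fin k → V =>
      HasSDR (fun i j => lst c p γ (p (w i)) (p (w j))))) ⊆
      (univ.filter (fun φ : Fin k × Fin k → Fin r => Set.InjOn φ (prs k))).biUnion
        (fun φ => univ.filter (fun w : Fin k → V =>
          ∀ q ∈ prs k, φ q ∈ lst c p γ (p (w q.1)) (p (w q.2)))) := by
    intro w hw
    rw [Finset.mem_filter] at hw
    obtain ⟨-, φ, hφ1, hφ2⟩ := hw
    rw [Finset.mem_biUnion]
    exact ⟨φ, by simp only [Finset.mem_filter, Finset.mem_univ, true_and]; exact hφ1,
      by simp only [Finset.mem_filter, Finset.mem_univ, true_and]; exact hφ2⟩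
  have h3 : ((univ.filter (fun w : Fin k → V =>
      HasSDR (fun i j => lst c p γ (p (w i)) (p (w j))))).card : ℝ) ≤
      ∑ φ ∈ univ.filter (fun φ : Fin k × Fin k → Fin r => Set.InjOn φ (prs k)),
        ((univ.filter (fun w : Fin k → V =>
          ∀ q ∈ prs k, φ q ∈ lst c p γ (p (w q.1)) (p (w q.2)))).card : ℝ) := by
    exact_mod_cast (Finset.card_le_card h2).trans Finset.card_biUnion_le
  calc ((univ.filter (fun w : Fin k → V =>
      HasSDR (fun i j => lst c p γ (p (w i)) (p (w j))))).card : ℝ) * γ ^ (prs k).card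
      ≤ (∑ φ ∈ univ.filter (fun φ : Fin k × Fin k → Fin r => Set.InjOn φ (prs k)),
        ((univ.filter (fun w : Fin k → V =>
          ∀ q ∈ prs k, φ q ∈ lst c p γ (p (w q.1)) (p (w q.2)))).card : ℝ)) *
          γ ^ (prs k).card := mul_le_mul_of_nonneg_right h3 (by positivity)
    _ = ∑ φ ∈ univ.filter (fun φ : Fin k × Fin k → Fin r => Set.InjOn φ (prs k)),
        ((univ.filter (fun w : Fin k → V =>
          ∀ q ∈ prs k, φ q ∈ lst c p γ (p (w q.1)) (p (w q.2)))).card : ℝ) *
          γ ^ (prs k).card := by rw [Finset.sum_mul]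
    _ ≤ ∑ φ ∈ univ.filter (fun φ : Fin k × Fin k → Fin r => Set.InjOn φ (prs k)),
        ((prs k).card * (ε * (Fintype.card V : ℝ) ^ k)) := by
        refine Finset.sum_le_sum fun φ hφ => ?_
        rw [Finset.mem_filter] at hφ
        exact h1 φ hφ.2
    _ = ((univ.filter (fun φ : Fin k × Fin k → Fin r => Set.InjOn φ (prs k))).card : ℝ) *
        ((prs k).card * (ε * (Fintype.card V : ℝ) ^ k)) := by
        rw [Finset.sum_const, nsmul_eq_mul]
    _ ≤ (r : ℝ) ^ (k * k) * ((prs k).card * (ε * (Fintype.card V : ℝ) ^ k)) := by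
        refine mul_le_mul_of_nonneg_right ?_ (by positivity)
        have := Finset.card_le_univ
          (univ.filter (fun φ : Fin k × Fin k → Fin r => Set.InjOn φ (prs k)))
        rw [Fintype.card_fun, Fintype.card_prod, Fintype.card_fin, Fintype.card_fin] at this
        exact_mod_cast this

end bad

end Pool.Agent.Lib.MP_ba6833_co
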