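import Mathlib
import Pool.Agent.Lib.MP_ba6833_co.Defs

/-!
# Embedding cliques with prescribed colours into typical colourings
-/

namespace Pool.Agent.Lib.MP_ba6833_co

open Finset
open scoped Classical

/-- injective extensions of partial injections -/
lemma exists_injective_extension {D : Type} [Fintype D] {r : ℕ} (hD : Fintype.card D ≤ r)
    (S : Finset D) (f : D → Fin r) (hf : Set.InjOn f S) :
    ∃ g : D → Fin r, Function.Injective g ∧ ∀ d ∈ S, g d = f d := by
  have h1 : (S.image f).card ≤ Fintype.card D :=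
    Finset.card_image_le.trans (Finset.card_le_univ S)
  obtain ⟨T, hT1, -, hT2⟩ := Finset.exists_subsuperset_card_eq (Finset.subset_univ (S.image f)) h1
    (by rw [Finset.card_univ, Fintype.card_fin]; exact hD)
  obtain ⟨g, hg⟩ := Finset.exists_equiv_extend_of_card_eq hT2.symm hT1 hf
  exact ⟨fun d => (g d : Fin r), Subtype.val_injective.comp g.injective, hg⟩

section

variable {V : Type} [Fintype V] {r a : ℕ} {G : SimpleGraph V}

/-- number of neighbours of `x` in `Y` of colour `α` -/
noncomputable def cdeg (c : G.edgeSet → Fin r) (x : V) (Y : Finset V) (α : Fin r) : ℕ :=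
  (Y.filter (fun y => col c x y = some α)).card

/-- typical colourings -/
def Typical (c : G.edgeSet → Fin r) (P : V → Fin a) (μ ν : ℝ) : Prop :=
  ∀ i j, i ≠ j → ∀ X Y : Finset V, (∀ x ∈ X, P x = i) → (∀ y ∈ Y, P y = j) →
    μ * Fintype.card V ≤ X.card → μ * Fintype.card V ≤ Y.card → ∀ α : Fin r,
    ∃ x ∈ X, ν * Y.card ≤ cdeg c x Y α

/-- **Embedding lemma.** -/
theorem embed (c : G.edgeSet → Fin r) (P : V → Fin a) (μ ν : ℝ) (hμ : 0 < μ) (hν0 : 0 < ν)
    (hν1 : ν ≤ 1) (hV : 0 < Fintype.card V) (hc : Typical c P μ ν) (φ : Sym2 (Fin a) → Fin r) :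
    ∀ (l : ℕ) (J : Finset (Fin a)) (W : Fin a → Finset V), J.card = l →
      (∀ j ∈ J, ∀ x ∈ W j, P x = j) →
      (∀ j ∈ J, a * μ * Fintype.card V ≤ ν ^ l * (W j).card) →
      ∃ w : Fin a → V, ∀ j ∈ J, w j ∈ W j ∧
        ∀ i ∈ J, i ≠ j → col c (w i) (w j) = some (φ s(i, j)) := by
  have hVr : (0 : ℝ) < Fintype.card V := by exact_mod_cast hV
  have hne : Nonempty V := Fintype.card_pos_iff.1 hV
  intro l
  induction l with
  | zero =>
    intro J W hJ _ _
    rw [Finset.card_eq_zero] at hJ
    subst hJ
    exact ⟨fun _ => Classical.arbitrary V, fun j hj => absurd hj (Finset.notMem_empty j)⟩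
  | succ l ih =>
    intro J W hJ hWP hWc
    obtain ⟨j₀, hj₀⟩ : J.Nonempty := by
      rw [← Finset.card_pos]
      omega
    have hJ' : (J.erase j₀).card = l := by
      rw [Finset.card_erase_of_mem hj₀, hJ]
      rfl
    have hνl : ν ^ (l + 1) ≤ 1 := pow_le_one₀ hν0.le hν1
    have hbig : ∀ j ∈ J, a * μ * Fintype.card V ≤ (W j).card := by
      intro j hj
      refine (hWc j hj).trans ?_
      have : (0 : ℝ) ≤ (W j).card := by positivity
      nlinarith
    have ha1 : (1 : ℝ) ≤ a := by
      have : 0 < a := Fin.pos j₀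
      exact_mod_cast this
    have hbig' : ∀ j ∈ J, μ * Fintype.card V ≤ (W j).card := by
      intro j hj
      refine le_trans ?_ (hbig j hj)
      have : 0 < μ * Fintype.card V := by positivity
      nlinarith
    -- exceptional sets
    set X : Fin a → Finset V := fun j =>
      (W j₀).filter (fun x => ((cdeg c x (W j) (φ s(j₀, j)) : ℕ) : ℝ) < ν * (W j).card) with hX
    have hXc : ∀ j ∈ J.erase j₀, ((X j).card : ℝ) < μ * Fintype.card V := by
      intro j hj
      rw [Finset.mem_erase] at hj
      by_contra hcon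
      push Not at hcon
      obtain ⟨x, hx, hx2⟩ := hc j₀ j hj.1.symm (X j) (W j)
        (fun x hx => hWP j₀ hj₀ x (Finset.mem_of_mem_filter x hx)) (hWP j hj.2) hcon
        (hbig' j hj.2) (φ s(j₀, j))
      rw [hX] at hx
      simp only [Finset.mem_filter] at hx
      exact absurd hx2 (not_le.2 hx.2)
    obtain ⟨w₀, hw₀, hw₀X⟩ : ∃ w₀ ∈ W j₀, ∀ j ∈ J.erase j₀, w₀ ∉ X j := by
      by_contra hcon
      push Not at hcon
      have hsub : W j₀ ⊆ (J.erase j₀).biUnion X := by
        intro x hx
        obtain ⟨j, hj, hxj⟩ := hcon x hx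
        exact Finset.mem_biUnion.2 ⟨j, hj, hxj⟩
      have h1 : ((W j₀).card : ℝ) ≤ ∑ j ∈ J.erase j₀, ((X j).card : ℝ) := by
        exact_mod_cast (Finset.card_le_card hsub).trans Finset.card_biUnion_le
      have h2 : ∑ j ∈ J.erase j₀, ((X j).card : ℝ) ≤ l * (μ * Fintype.card V) := by
        refine (Finset.sum_le_sum fun j hj => (hXc j hj).le).trans (le_of_eq ?_)
        rw [Finset.sum_const, hJ', nsmul_eq_mul]
      have h3 : (l : ℝ) + 1 ≤ a := by
        have : J.card ≤ a := by simpa using Finset.card_le_univ J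
        rw [hJ] at this
        exact_mod_cast this
      have h4 := hbig j₀ hj₀
      have h5 : 0 < μ * Fintype.card V := by positivity
      nlinarith
    set W' : Fin a → Finset V := fun j =>
      (W j).filter (fun y => col c w₀ y = some (φ s(j₀, j))) with hW'
    obtain ⟨w, hw⟩ := ih (J.erase j₀) W' hJ' (by
      intro j hj x hx
      rw [hW'] at hx
      simp only [Finset.mem_filter] at hx
      exact hWP j (Finset.mem_of_mem_erase hj) x hx.1) (by
      intro j hj
      have h1 : ν * (W j).card ≤ (W' j).card := by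
        have := hw₀X j hj
        rw [hX] at this
        simp only [Finset.mem_filter, not_and, not_lt] at this
        exact this hw₀
      have h2 := hWc j (Finset.mem_of_mem_erase hj)
      have h3 : (0 : ℝ) < ν ^ l := by positivity
      calc a * μ * Fintype.card V ≤ ν ^ (l + 1) * (W j).card := h2
        _ = ν ^ l * (ν * (W j).card) := by ring
        _ ≤ ν ^ l * (W' j).card := mul_le_mul_of_nonneg_left h1 h3.le)
    have hw' : ∀ j ∈ J.erase j₀, w j ∈ W j ∧ col c w₀ (w j) = some (φ s(j₀, j)) := by
      intro j hj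
      have := (hw j hj).1
      rw [hW'] at this
      simpa only [Finset.mem_filter] using this
    refine ⟨Function.update w j₀ w₀, ?_⟩
    intro j hj
    by_cases hjj : j = j₀
    · subst hjj
      rw [Function.update_self]
      refine ⟨hw₀, ?_⟩
      intro i hi hij
      rw [Function.update_of_ne hij, col_symm]
      rw [(hw' i (Finset.mem_erase.2 ⟨hij, hi⟩)).2, Sym2.eq_swap]
    · rw [Function.update_of_ne hjj]
      refine ⟨(hw' j (Finset.mem_erase.2 ⟨hjj, hj⟩)).1, ?_⟩
      intro i hi hij
      by_cases hii : i = j₀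
      · subst hii
        rw [Function.update_self]
        exact (hw' j (Finset.mem_erase.2 ⟨hjj, hj⟩)).2
      · rw [Function.update_of_ne hii]
        exact (hw j (Finset.mem_erase.2 ⟨hjj, hj⟩)).2 i (Finset.mem_erase.2 ⟨hii, hi⟩) hij

lemma card_nondiag (a : ℕ) :
    Fintype.card {e : Sym2 (Option (Fin a)) // ¬ e.IsDiag} = (a + 1).choose 2 := by
  have := Sym2.card_subtype_not_diag (α := Option (Fin a))
  rw [Fintype.card_option, Fintype.card_fin] at this
  exact this

/-- injective colour choices for the pairs of `Option (Fin a)` with prescribed values on a set -/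
lemma exists_choice (hr : (a + 1).choose 2 ≤ r) (S : Finset (Sym2 (Option (Fin a))))
    (hS : ∀ e ∈ S, ¬ e.IsDiag) (f : Sym2 (Option (Fin a)) → Fin r) (hf : Set.InjOn f S) :
    ∃ Φ : Sym2 (Option (Fin a)) → Fin r,
      (∀ e e', ¬ e.IsDiag → ¬ e'.IsDiag → Φ e = Φ e' → e = e') ∧ ∀ e ∈ S, Φ e = f e := by
  have hcard : Fintype.card {e : Sym2 (Option (Fin a)) // ¬ e.IsDiag} ≤ r := by
    rw [card_nondiag]
    exact hr
  obtain ⟨g, hg1, hg2⟩ := exists_injective_extension hcard
    (Finset.univ.filter (fun e : {e : Sym2 (Option (Fin a)) // ¬ e.IsDiag} =>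
      (e : Sym2 (Option (Fin a))) ∈ S))
    (fun e => f e) (by
      intro e he e' he' hee
      simp only [Finset.coe_filter, Finset.mem_univ, true_and, Set.mem_ofPred_eq] at he he'
      exact Subtype.ext (hf he he' hee))
  refine ⟨fun e => if h : ¬ e.IsDiag then g ⟨e, h⟩ else f e, ?_, ?_⟩
  · intro e e' he he' hee
    simp only [dif_pos he, dif_pos he'] at hee
    exact congrArg Subtype.val (hg1 hee)
  · intro e he
    simp only [dif_pos (hS e he)]
    exact hg2 ⟨e, hS e he⟩ (by simpa using he)

/-- the vertices of part `j` -/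
noncomputable def part (P : V → Fin a) (j : Fin a) : Finset V := univ.filter (fun x => P x = j)

lemma mem_part {P : V → Fin a} {j : Fin a} {x : V} : x ∈ part P j ↔ P x = j := by
  simp [part]

/-- Case A: in a rainbow-free typical colouring the popular colour sets of a vertex violate
Hall's condition. -/
theorem caseA (ha : 0 < a) (hr : (a + 1).choose 2 ≤ r) (c : G.edgeSet → Fin r)
    (hcr : ¬ HasRainbow (a + 1) G c) (P : V → Fin a) (μ ν μA : ℝ) (hμ : 0 < μ) (hν0 : 0 < ν)
    (hν1 : ν ≤ 1) (hV : 0 < Fintype.card V) (hc : Typical c P μ ν)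
    (hμA : a * μ ≤ ν ^ a * μA) (x : V) :
    ∃ I : Finset (Fin a),
      (I.biUnion (fun j => univ.filter (fun α : Fin r =>
        μA * Fintype.card V ≤ cdeg c x (part P j) α))).card < I.card := by
  have hVr : (0 : ℝ) < Fintype.card V := by exact_mod_cast hV
  by_contra hcon
  push Not at hcon
  obtain ⟨α, hα1, hα2⟩ := (Finset.all_card_le_biUnion_card_iff_exists_injective _).1 hcon
  -- colours
  obtain ⟨Φ, hΦ1, hΦ2⟩ := exists_choice hr
    (Finset.univ.image (fun j : Fin a => s(none, some j))) (by
      intro e he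
      rw [Finset.mem_image] at he
      obtain ⟨j, -, rfl⟩ := he
      simp) (fun e => if h : ∃ j : Fin a, e = s(none, some j) then α h.choose else α ⟨0, ha⟩) (by
      intro e he e' he' hee
      rw [Finset.mem_coe, Finset.mem_image] at he he'
      obtain ⟨j, -, rfl⟩ := he
      obtain ⟨j', -, rfl⟩ := he'
      have h1 : ∃ i : Fin a, s(none, some j) = s(none, some i) := ⟨j, rfl⟩
      have h2 : ∃ i : Fin a, s(none, some j') = s(none, some i) := ⟨j', rfl⟩
      simp only [dif_pos h1, dif_pos h2] at hee
      rw [h1.choose_spec, h2.choose_spec, hα1 hee])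
  have hΦα : ∀ j : Fin a, Φ s(none, some j) = α j := by
    intro j
    rw [hΦ2 _ (Finset.mem_image_of_mem _ (Finset.mem_univ j))]
    have h1 : ∃ i : Fin a, s(none, some j) = s(none, some i) := ⟨j, rfl⟩
    rw [dif_pos h1]
    have h2 := h1.choose_spec
    have h3 : j = h1.choose := by
      have := h2
      rw [Sym2.eq_iff] at this
      rcases this with ⟨-, h⟩ | ⟨h, -⟩
      · exact Option.some.inj h
      · cases h
    rw [← h3]
  obtain ⟨w, hw⟩ := embed c P μ ν hμ hν0 hν1 hV hc (fun e => Φ (e.map some)) a Finset.univ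
    (fun j => (part P j).filter (fun y => col c x y = some (α j))) (by simp)
    (fun j _ y hy => mem_part.1 (Finset.mem_of_mem_filter y hy)) (by
      intro j _
      have h1 := hα2 j
      rw [Finset.mem_filter] at h1
      have h2 : μA * Fintype.card V ≤
          (((part P j).filter (fun y => col c x y = some (α j))).card : ℝ) := h1.2
      have h3 : (0 : ℝ) < ν ^ a := by positivity
      calc a * μ * Fintype.card V ≤ ν ^ a * μA * Fintype.card V :=
            mul_le_mul_of_nonneg_right hμA hVr.le
        _ = ν ^ a * (μA * Fintype.card V) := by ring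
        _ ≤ _ := mul_le_mul_of_nonneg_left h2 h3.le)
  have hw1 : ∀ j, col c x (w j) = some (α j) := by
    intro j
    have := (hw j (Finset.mem_univ j)).1
    rw [Finset.mem_filter] at this
    exact this.2
  apply hcr
  refine hasRainbow_of_witness c (ι := Option (Fin a)) (by simp) (fun i => i.elim x w) Φ hΦ1 ?_
  intro i j hij
  match i, j with
  | none, none => exact absurd rfl hij
  | none, some j =>
    show col c x (w j) = _
    rw [hw1, hΦα]
  | some i, none =>
    show col c (w i) x = _
    rw [col_symm, hw1, Sym2.eq_swap, hΦα]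
  | some i, some j =>
    show col c (w i) (w j) = _
    have hij' : i ≠ j := fun h => hij (by rw [h])
    rw [(hw j (Finset.mem_univ j)).2 i (Finset.mem_univ i) hij']
    rfl

/-- Case B: in a rainbow-free typical colouring one end of an inner edge has a rare colour. -/
theorem caseB (hr : (a + 1).choose 2 ≤ r) (c : G.edgeSet → Fin r)
    (hcr : ¬ HasRainbow (a + 1) G c) (P : V → Fin a) (μ ν μ₁ μ₂ : ℝ) (hμ : 0 < μ) (hν0 : 0 < ν)
    (hν1 : ν ≤ 1) (hV : 0 < Fintype.card V) (hc : Typical c P μ ν)
    (hμ₂0 : 0 < μ₂) (hμ₂ : a * μ ≤ ν ^ a * μ₂) (x y : V) (i₀ : Fin a) (hxy : G.Adj x y) :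
    (∃ j, j ≠ i₀ ∧ ∃ α, (cdeg c x (part P j) α : ℝ) < μ₁ * Fintype.card V) ∨
    (∃ j, j ≠ i₀ ∧ ∃ α β, μ₁ * Fintype.card V ≤ cdeg c x (part P j) α ∧
      (cdeg c y ((part P j).filter (fun v => col c x v = some α)) β : ℝ) <
        μ₂ * Fintype.card V) := by
  have hVr : (0 : ℝ) < Fintype.card V := by exact_mod_cast hV
  by_contra hcon
  push Not at hcon
  obtain ⟨h1, h2⟩ := hcon
  obtain ⟨γ, hγ⟩ : ∃ γ, col c x y = some γ := ⟨_, col_eq_some c hxy⟩
  obtain ⟨Φ, hΦ1, hΦ2⟩ := exists_choice hr {s(none, some i₀)} (by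
      intro e he
      rw [Finset.mem_singleton] at he
      subst he
      simp) (fun _ => γ) (by
      intro e he e' he' _
      rw [Finset.mem_coe, Finset.mem_singleton] at he he'
      rw [he, he'])
  have hΦγ : Φ s(none, some i₀) = γ := hΦ2 _ (Finset.mem_singleton_self _)
  set W : Fin a → Finset V := fun j => (part P j).filter (fun v =>
    col c x v = some (Φ s(none, some j)) ∧ col c y v = some (Φ s(some i₀, some j))) with hW
  have hWc : ∀ j ∈ (Finset.univ : Finset (Fin a)).erase i₀,
      μ₂ * Fintype.card V ≤ ((W j).card : ℝ) := by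
    intro j hj
    have hj' := Finset.ne_of_mem_erase hj
    have h3 := h2 j hj' (Φ s(none, some j)) (Φ s(some i₀, some j)) (h1 j hj' _)
    refine h3.trans (le_of_eq ?_)
    unfold cdeg
    rw [Finset.filter_filter]
  obtain ⟨w, hw⟩ := embed c P μ ν hμ hν0 hν1 hV hc (fun e => Φ (e.map some))
    ((Finset.univ : Finset (Fin a)).erase i₀).card ((Finset.univ : Finset (Fin a)).erase i₀) W rfl
    (fun j _ v hv => mem_part.1 (Finset.mem_of_mem_filter v hv)) (by
      intro j hj
      have h2 := hWc j hj
      have hle : ((Finset.univ : Finset (Fin a)).erase i₀).card ≤ a := by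
        simpa using Finset.card_le_univ ((Finset.univ : Finset (Fin a)).erase i₀)
      have h4 : ν ^ a ≤ ν ^ ((Finset.univ : Finset (Fin a)).erase i₀).card :=
        pow_le_pow_of_le_one hν0.le hν1 hle
      have h3 : (0 : ℝ) < ν ^ a := by positivity
      have h5 : (0 : ℝ) ≤ (W j).card := by positivity
      calc a * μ * Fintype.card V ≤ ν ^ a * μ₂ * Fintype.card V :=
            mul_le_mul_of_nonneg_right hμ₂ hVr.le
        _ = ν ^ a * (μ₂ * Fintype.card V) := by ring
        _ ≤ ν ^ a * (W j).card := mul_le_mul_of_nonneg_left h2 h3.le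
        _ ≤ _ := mul_le_mul_of_nonneg_right h4 h5)
  have hw1 : ∀ j, j ≠ i₀ → col c x (w j) = some (Φ s(none, some j)) ∧
      col c y (w j) = some (Φ s(some i₀, some j)) := by
    intro j hj
    have := (hw j (Finset.mem_erase.2 ⟨hj, Finset.mem_univ j⟩)).1
    rw [hW] at this
    simp only [Finset.mem_filter] at this
    exact this.2
  apply hcr
  -- the vertex of index `i`
  set v : Option (Fin a) → V := fun i => i.elim x (fun j => if j = i₀ then y else w j) with hv
  have hvn : v none = x := rfl
  have hvi : v (some i₀) = y := by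
    show (if i₀ = i₀ then y else w i₀) = y
    rw [if_pos rfl]
  have hvj : ∀ j, j ≠ i₀ → v (some j) = w j := by
    intro j hj
    show (if j = i₀ then y else w j) = w j
    rw [if_neg hj]
  refine hasRainbow_of_witness c (ι := Option (Fin a)) (by simp) v Φ hΦ1 ?_
  have key : ∀ j : Fin a, col c (v none) (v (some j)) = some (Φ s(none, some j)) := by
    intro j
    by_cases hj : j = i₀
    · subst hj
      rw [hvn, hvi, hγ, hΦγ]
    · rw [hvn, hvj j hj]
      exact (hw1 j hj).1
  have key2 : ∀ j : Fin a, j ≠ i₀ →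
      col c (v (some i₀)) (v (some j)) = some (Φ s(some i₀, some j)) := by
    intro j hj
    rw [hvi, hvj j hj]
    exact (hw1 j hj).2
  intro i j hij
  match i, j with
  | none, none => exact absurd rfl hij
  | none, some j => exact key j
  | some i, none =>
    rw [col_symm, Sym2.eq_swap]
    exact key i
  | some i, some j =>
    have hij' : i ≠ j := fun h => hij (by rw [h])
    by_cases hi : i = i₀
    · subst hi
      exact key2 j hij'.symm
    · by_cases hj : j = i₀
      · subst hj
        rw [col_symm, Sym2.eq_swap]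
        exact key2 i hi
      · rw [hvj i hi, hvj j hj]
        rw [(hw j (Finset.mem_erase.2 ⟨hj, Finset.mem_univ j⟩)).2 i
          (Finset.mem_erase.2 ⟨hi, Finset.mem_univ i⟩) hij']
        rfl

end

end Pool.Agent.Lib.MP_ba6833_co
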