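import Mathlib
import Pool.Agent.Lib.MP_ba6833_co.Defs

/-!
# Removing vertices of large deficit, greedy sequences
-/

namespace Pool.Agent.Lib.MP_ba6833_co

open Finset
open scoped Classical

section

variable {V : Type} [Fintype V] (u : V → V → ℝ)

/-- total deficit inside `W` -/
noncomputable def defic (W : Finset V) : ℝ := ∑ x ∈ W, ∑ y ∈ W, u x y

omit [Fintype V] in
lemma defic_erase (hsymm : ∀ x y, u x y = u y x) (W : Finset V) (v : V) (hv : v ∈ W) :
    defic u W = defic u (W.erase v) + 2 * ∑ y ∈ W, u v y - u v v := by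
  have hW : W = insert v (W.erase v) := (Finset.insert_erase hv).symm
  have hne : v ∉ W.erase v := Finset.notMem_erase v W
  have h1 : ∀ F : V → ℝ, ∑ x ∈ W, F x = F v + ∑ x ∈ W.erase v, F x := fun F => by
    rw [← Finset.add_sum_erase W F hv]
  unfold defic
  rw [h1]
  have h2 : ∑ x ∈ W.erase v, ∑ y ∈ W, u x y =
      ∑ x ∈ W.erase v, u x v + ∑ x ∈ W.erase v, ∑ y ∈ W.erase v, u x y := by
    rw [← Finset.sum_add_distrib]
    exact Finset.sum_congr rfl fun x _ => h1 _
  have h3 : ∑ x ∈ W.erase v, u x v = ∑ x ∈ W.erase v, u v x :=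
    Finset.sum_congr rfl fun x _ => hsymm x v
  rw [h2, h3, h1 (fun y => u v y)]
  ring

omit [Fintype V] in
/-- If every large set has a vertex of large deficit then the total deficit is large. -/
theorem peel (hsymm : ∀ x y, u x y = u y x) (h1 : ∀ x y, u x y ≤ 1) (θ : ℝ) (hθ : 0 ≤ θ)
    (m₀ : ℕ) (hW : ∀ W : Finset V, m₀ < W.card → ∃ v ∈ W, θ * W.card ≤ ∑ y ∈ W, u v y) :
    ∀ (m : ℕ) (W : Finset V), W.card = m → m₀ ≤ m → ∃ W₀ : Finset V, W₀.card = m₀ ∧
      defic u W₀ + θ * ((m : ℝ) ^ 2 - (m₀ : ℝ) ^ 2) - m ≤ defic u W := by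
  intro m
  induction m with
  | zero =>
    intro W hWm hm
    refine ⟨W, by omega, ?_⟩
    have : m₀ = 0 := by omega
    subst this
    simp
  | succ m ih =>
    intro W hWm hm
    rcases Nat.lt_or_ge m₀ (m + 1) with hlt | hge
    · obtain ⟨v, hv, hvθ⟩ := hW W (by omega)
      have hcard : (W.erase v).card = m := by
        rw [Finset.card_erase_of_mem hv, hWm]
        rfl
      obtain ⟨W₀, hW₀, hD⟩ := ih (W.erase v) hcard (by omega)
      refine ⟨W₀, hW₀, ?_⟩
      rw [defic_erase u hsymm W v hv]
      have := h1 v v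
      rw [hWm] at hvθ
      push_cast at hvθ ⊢
      nlinarith
    · refine ⟨W, by omega, ?_⟩
      have : m₀ = m + 1 := by omega
      subst this
      have h0 : (0 : ℝ) ≤ ((m + 1 : ℕ) : ℝ) := by positivity
      linarith [sub_self (((m + 1 : ℕ) : ℝ) ^ 2), mul_zero θ,
        show θ * ((((m + 1 : ℕ) : ℝ)) ^ 2 - (((m + 1 : ℕ) : ℝ)) ^ 2) = 0 by ring]

/-- greedy sequences in `W` -/
noncomputable def seqs (W : Finset V) (θ κ : ℝ) (l : ℕ) : Finset (Fin l → V) :=
  univ.filter (fun g => (∀ i, g i ∈ W) ∧
    ∀ j : Fin l, ∑ i : Fin l, (if i < j then u (g i) (g j) else 0) ≤ (j : ℕ) * θ + κ)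

/-- There are many greedy sequences. -/
theorem card_seqs (h0 : ∀ x y, 0 ≤ u x y) (W : Finset V) (θ κ : ℝ) (hθ : 0 ≤ θ) (hκ : 0 < κ)
    (hW : ∀ v ∈ W, ∑ y ∈ W, u v y ≤ θ * W.card) (b : ℕ) :
    ∀ l ≤ b + 1, ((κ / (b * θ + κ)) * W.card) ^ l ≤ ((seqs u W θ κ l).card : ℝ) := by
  intro l
  have hc0 : 0 ≤ κ / (b * θ + κ) := by positivity
  induction l with
  | zero =>
    intro _
    rw [pow_zero]
    have : (seqs u W θ κ 0).Nonempty := ⟨Fin.elim0, by
      rw [seqs, Finset.mem_filter]
      exact ⟨Finset.mem_univ _, fun i => i.elim0, fun j => j.elim0⟩⟩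
    exact_mod_cast Finset.card_pos.2 this
  | succ l ih =>
    intro hl
    have ih' := ih (by omega)
    -- extensions
    have hext : ∀ g ∈ seqs u W θ κ l, (κ / (b * θ + κ)) * W.card ≤
        ((W.filter (fun v => ∑ i, u (g i) v ≤ l * θ + κ)).card : ℝ) := by
      intro g hg
      rw [seqs, Finset.mem_filter] at hg
      obtain ⟨-, hgW, -⟩ := hg
      have hsum : ∑ v ∈ W, ∑ i, u (g i) v ≤ l * θ * W.card := by
        rw [Finset.sum_comm]
        refine (Finset.sum_le_sum fun i _ => hW (g i) (hgW i)).trans (le_of_eq ?_)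
        rw [Finset.sum_const, Finset.card_univ, Fintype.card_fin, nsmul_eq_mul]
        ring
      have hbad : ((W.filter (fun v => ¬ ∑ i, u (g i) v ≤ l * θ + κ)).card : ℝ) * (l * θ + κ) ≤
          l * θ * W.card := by
        refine le_trans ?_ hsum
        rw [← nsmul_eq_mul, ← Finset.sum_const]
        refine le_trans (Finset.sum_le_sum (g := fun v => ∑ i, u (g i) v) ?_) ?_
        · intro v hv
          rw [Finset.mem_filter, not_le] at hv
          exact hv.2.le
        · refine Finset.sum_le_sum_of_subset_of_nonneg (Finset.filter_subset _ _) ?_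
          intro v _ _
          exact Finset.sum_nonneg fun i _ => h0 _ _
      have hsplit : ((W.filter (fun v => ∑ i, u (g i) v ≤ l * θ + κ)).card : ℝ) +
          ((W.filter (fun v => ¬ ∑ i, u (g i) v ≤ l * θ + κ)).card : ℝ) = W.card := by
        exact_mod_cast Finset.card_filter_add_card_filter_not (s := W)
          (fun v => ∑ i, u (g i) v ≤ l * θ + κ)
      have hlb : (l : ℝ) * θ ≤ b * θ := by
        have : (l : ℝ) ≤ b := by exact_mod_cast (by omega : l ≤ b)
        exact mul_le_mul_of_nonneg_right this hθ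
      have hpos : 0 < (l : ℝ) * θ + κ := by positivity
      have h2 : κ * W.card ≤ ((W.filter (fun v => ∑ i, u (g i) v ≤ l * θ + κ)).card : ℝ) *
          (l * θ + κ) := by
        nlinarith
      have h3 : ((W.filter (fun v => ∑ i, u (g i) v ≤ l * θ + κ)).card : ℝ) * (l * θ + κ) ≤
          ((W.filter (fun v => ∑ i, u (g i) v ≤ l * θ + κ)).card : ℝ) * (b * θ + κ) := by
        refine mul_le_mul_of_nonneg_left (by linarith) (by positivity)
      rw [div_mul_eq_mul_div, div_le_iff₀ (by positivity)]
      linarith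
    -- injection
    have hinj : ((seqs u W θ κ l).sigma
        (fun g => W.filter (fun v => ∑ i, u (g i) v ≤ l * θ + κ))).card ≤
        (seqs u W θ κ (l + 1)).card := by
      refine Finset.card_le_card_of_injOn
        (fun q => Fin.snoc (α := fun _ => V) q.1 q.2) ?_ ?_
      · rintro ⟨g, v⟩ hq
        simp only [Finset.coe_sigma, Set.mem_sigma_iff, Finset.mem_coe] at hq
        obtain ⟨hg, hv⟩ := hq
        rw [seqs, Finset.mem_filter] at hg
        obtain ⟨-, hgW, hgs⟩ := hg
        rw [Finset.mem_filter] at hv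
        rw [Finset.mem_coe, seqs, Finset.mem_filter]
        refine ⟨Finset.mem_univ _, ?_, ?_⟩
        · intro i
          refine Fin.lastCases ?_ (fun i => ?_) i
          · simpa using hv.1
          · simpa using hgW i
        · intro j
          refine Fin.lastCases ?_ (fun j => ?_) j
          · rw [Fin.sum_univ_castSucc]
            simpa [Fin.castSucc_lt_last] using hv.2
          · rw [Fin.sum_univ_castSucc]
            have h5 : ¬ (Fin.last l < j.castSucc) := not_lt.2 (Fin.le_last _)
            simpa [h5] using hgs j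
      · rintro ⟨g, v⟩ _ ⟨g', v'⟩ _ heq
        simp only at heq
        have h6 : g = g' := by
          have := congrArg (fun h => Fin.init (α := fun _ => V) h) heq
          simpa [Fin.init_snoc] using this
        have h7 : v = v' := by
          have := congrFun heq (Fin.last l)
          simpa using this
        rw [h6, h7]
    have hcount : ((κ / (b * θ + κ)) * W.card) ^ l * ((κ / (b * θ + κ)) * W.card) ≤
        (((seqs u W θ κ l).sigma
        (fun g => W.filter (fun v => ∑ i, u (g i) v ≤ l * θ + κ))).card : ℝ) := by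
      rw [Finset.card_sigma]
      push_cast
      calc ((κ / (b * θ + κ)) * W.card) ^ l * ((κ / (b * θ + κ)) * W.card)
          ≤ ((seqs u W θ κ l).card : ℝ) * ((κ / (b * θ + κ)) * W.card) :=
            mul_le_mul_of_nonneg_right ih' (by positivity)
        _ = ∑ g ∈ seqs u W θ κ l, ((κ / (b * θ + κ)) * W.card) := by
            rw [Finset.sum_const, nsmul_eq_mul]
        _ ≤ _ := Finset.sum_le_sum hext
    rw [pow_succ]
    exact hcount.trans (by exact_mod_cast hinj)

end

end Pool.Agent.Lib.MP_ba6833_co
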