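import Mathlib
import Pool.Agent.Lib.MP_ba6833_co.Defs
import Pool.Agent.Lib.MP_ba6833_co.Hall
import Pool.Agent.Lib.MP_ba6833_co.Peel
import Pool.Agent.Lib.MP_ba6833_co.Count

/-!
# Stability for list structures
-/

namespace Pool.Agent.Lib.MP_ba6833_co

open Finset
open scoped Classical

/-- the numerical condition on `r` and `a = k - 1` -/
structure NumCond (r a : ℕ) (κ : ℝ) : Prop where
  ha : 2 ≤ a
  hr : (a + 1).choose 2 ≤ r
  κpos : 0 < κ
  κlt : a * κ < 1
  κfull : κ < dfc r (r - 1)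
  hN : ∀ s, 1 ≤ s → s < (a + 1).choose 2 →
      ∑ l ∈ Finset.Ico 1 (a + 1), ⌊((l : ℝ) / a + κ) / dfc r s⌋₊ ≤ s

lemma NumCond.hr2 {r a : ℕ} {κ : ℝ} (h : NumCond r a κ) : 2 ≤ r := by
  have h1 := h.hr
  have h2 := h.ha
  have h3 : (2 + 1).choose 2 ≤ (a + 1).choose 2 := Nat.choose_le_choose 2 (by omega)
  have h4 : (2 + 1).choose 2 = 3 := by decide
  omega

section LS

variable {V : Type} [Fintype V] {r a : ℕ} {κ : ℝ}

/-- deficit function of a list structure -/
noncomputable def dl (L : V → V → Finset (Fin r)) (x y : V) : ℝ := dfc r (L x y).card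

omit [Fintype V] in
lemma card_list_le (L : V → V → Finset (Fin r)) (x y : V) : (L x y).card ≤ r := by
  simpa using Finset.card_le_univ (L x y)

omit [Fintype V] in
lemma dl_nonneg (hr : 2 ≤ r) (L : V → V → Finset (Fin r)) (x y : V) : 0 ≤ dl L x y :=
  dfc_nonneg hr (card_list_le L x y)

omit [Fintype V] in
lemma dl_le_one (hr : 2 ≤ r) (L : V → V → Finset (Fin r)) (x y : V) : dl L x y ≤ 1 :=
  dfc_le_one r _ hr

omit [Fintype V] in
lemma nonempty_of_dl_lt {L : V → V → Finset (Fin r)} {x y : V} (h : dl L x y < 1) :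
    (L x y).Nonempty := by
  rw [← Finset.card_pos]
  by_contra h0
  unfold dl at h
  rw [dfc_of_le_one (by omega)] at h
  exact lt_irrefl _ h

omit [Fintype V] in
lemma dl_eq_one_of_empty {L : V → V → Finset (Fin r)} {x y : V} (h : ¬ (L x y).Nonempty) :
    dl L x y = 1 := by
  rw [Finset.not_nonempty_iff_eq_empty] at h
  unfold dl
  rw [h]
  exact dfc_of_le_one (by simp)

omit [Fintype V] in
lemma full_of_dl_le (hN : NumCond r a κ) {L : V → V → Finset (Fin r)} {x y : V}
    (h : dl L x y ≤ κ) : (L x y).card = r := by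
  by_contra hne
  have h1 : (L x y).card ≤ r - 1 := by
    have := card_list_le L x y
    omega
  have h2 := dfc_anti hN.hr2 h1
  have h3 := hN.κfull
  unfold dl at h
  linarith

/-- the tuple `w` admits distinct colours from its lists -/
def Bad (L : V → V → Finset (Fin r)) {k : ℕ} (w : Fin k → V) : Prop :=
  HasSDR (fun i j => L (w i) (w j))

omit [Fintype V] in
lemma sum_filter_lt {l : ℕ} (F : Fin l → ℝ) (j : Fin l) :
    ∑ i ∈ univ.filter (fun i => i < j), F i = ∑ i : Fin l, (if i < j then F i else 0) := by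
  rw [Finset.sum_filter]

omit [Fintype V] in
/-- a greedy tuple with nonempty lists is bad -/
lemma bad_of_greedy (hN : NumCond r a κ) (L : V → V → Finset (Fin r)) (w : Fin (a + 1) → V)
    (h1 : ∀ i j : Fin (a + 1), i < j → (L (w i) (w j)).Nonempty)
    (h2 : ∀ j : Fin (a + 1), ∑ i : Fin (a + 1), (if i < j then dl L (w i) (w j) else 0) ≤
      (j : ℕ) / (a : ℝ) + κ) : Bad L w := by
  refine hasSDR_greedy hN.hr hN.hr2 κ hN.hN _ (fun p hp => h1 p.1 p.2 (mem_prs.1 hp)) ?_
  intro j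
  rw [Finset.sum_filter]
  exact h2 j

/-- the asymptotic lower bound on the total deficit -/
theorem defic_ge (hN : NumCond r a κ) (L : V → V → Finset (Fin r))
    (hsymm : ∀ x y, L x y = L y x) (δ ζ η κ₀ : ℝ) (hδ0 : 0 < δ) (hδ1 : a * δ ≤ 1)
    (hκ₀ : 0 < κ₀) (hκδ : κ₀ ≤ δ) (hκκ : κ₀ ≤ κ) (hζ : 0 < ζ)
    (hη : η < ((κ₀ / (a * (1 / a - δ) + κ₀)) * ζ) ^ (a + 1))
    (hV : 0 < Fintype.card V)
    (hbad : ((univ.filter (fun w : Fin (a + 1) → V => Bad L w)).card : ℝ) ≤
      η * (Fintype.card V : ℝ) ^ (a + 1)) (W : Finset V)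
    (hW : ⌈ζ * Fintype.card V⌉₊ ≤ W.card) :
    (1 / a - δ) * ((W.card : ℝ) ^ 2 - (⌈ζ * Fintype.card V⌉₊ : ℝ) ^ 2) - W.card ≤
      defic (dl L) W := by
  have ha : (0 : ℝ) < a := by
    have := hN.ha
    exact_mod_cast (by omega : 0 < a)
  have ha2 : (2 : ℝ) ≤ a := by exact_mod_cast hN.ha
  have hr2 := hN.hr2
  have hθ : 0 ≤ 1 / (a : ℝ) - δ := by
    rw [sub_nonneg, le_div_iff₀ ha]
    linarith
  have hVr : (0 : ℝ) < Fintype.card V := by exact_mod_cast hV
  have hstep : ∀ W : Finset V, ⌈ζ * Fintype.card V⌉₊ < W.card →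
      ∃ v ∈ W, (1 / a - δ) * W.card ≤ ∑ y ∈ W, dl L v y := by
    intro W hWc
    by_contra hcon
    push Not at hcon
    have hs := card_seqs (dl L) (dl_nonneg hr2 L) W (1 / a - δ) κ₀ hθ hκ₀
      (fun v hv => (hcon v hv).le) a (a + 1) le_rfl
    have hsub : seqs (dl L) W (1 / a - δ) κ₀ (a + 1) ⊆
        univ.filter (fun w : Fin (a + 1) → V => Bad L w) := by
      intro w hw
      rw [seqs, Finset.mem_filter] at hw
      obtain ⟨-, -, hw⟩ := hw
      rw [Finset.mem_filter]
      refine ⟨Finset.mem_univ _, bad_of_greedy hN L w ?_ ?_⟩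
      · intro i j hij
        apply nonempty_of_dl_lt
        have h1 : dl L (w i) (w j) ≤
            ∑ i : Fin (a + 1), (if i < j then dl L (w i) (w j) else 0) := by
          have := Finset.single_le_sum
            (f := fun i : Fin (a + 1) => (if i < j then dl L (w i) (w j) else 0))
            (fun i _ => by
              show 0 ≤ (if i < j then dl L (w i) (w j) else 0)
              split_ifs
              · exact dl_nonneg hr2 L _ _
              · exact le_rfl) (Finset.mem_univ i)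
          simpa [hij] using this
        have h2 := hw j
        have hj1 : (1 : ℝ) ≤ ((j : ℕ) : ℝ) := by
          have : (i : ℕ) < (j : ℕ) := hij
          exact_mod_cast (by omega : 1 ≤ (j : ℕ))
        have hja : ((j : ℕ) : ℝ) ≤ a := by
          have := j.2
          exact_mod_cast (by omega : (j : ℕ) ≤ a)
        have h3 : ((j : ℕ) : ℝ) * (1 / a - δ) ≤ a * (1 / a - δ) :=
          mul_le_mul_of_nonneg_right hja hθ
        have h4 : (a : ℝ) * (1 / a - δ) = 1 - a * δ := by
          field_simp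
        nlinarith
      · intro j
        refine (hw j).trans ?_
        have hj0 : (0 : ℝ) ≤ ((j : ℕ) : ℝ) := by positivity
        have : ((j : ℕ) : ℝ) * (1 / a - δ) = (j : ℕ) / (a : ℝ) - (j : ℕ) * δ := by ring
        rw [this]
        nlinarith
    have h1 : ((seqs (dl L) W (1 / a - δ) κ₀ (a + 1)).card : ℝ) ≤
        ((univ.filter (fun w : Fin (a + 1) → V => Bad L w)).card : ℝ) := by
      exact_mod_cast Finset.card_le_card hsub
    have h2 : ζ * Fintype.card V ≤ W.card := by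
      have := Nat.le_ceil (ζ * (Fintype.card V : ℝ))
      have h3 : ((⌈ζ * (Fintype.card V : ℝ)⌉₊ : ℕ) : ℝ) ≤ W.card := by exact_mod_cast hWc.le
      linarith
    have hc : 0 < κ₀ / (a * (1 / a - δ) + κ₀) := by positivity
    have h4 : (((κ₀ / (a * (1 / a - δ) + κ₀)) * ζ) ^ (a + 1)) *
        (Fintype.card V : ℝ) ^ (a + 1) ≤ ((κ₀ / (a * (1 / a - δ) + κ₀)) * W.card) ^ (a + 1) := by
      rw [← mul_pow]
      refine pow_le_pow_left₀ (by positivity) ?_ _
      rw [mul_assoc]
      exact mul_le_mul_of_nonneg_left h2 hc.le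
    have h5 : η * (Fintype.card V : ℝ) ^ (a + 1) <
        (((κ₀ / (a * (1 / a - δ) + κ₀)) * ζ) ^ (a + 1)) * (Fintype.card V : ℝ) ^ (a + 1) :=
      mul_lt_mul_of_pos_right hη (by positivity)
    linarith
  obtain ⟨W₀, hW₀, hD⟩ := peel (dl L) (fun x y => by unfold dl; rw [hsymm x y])
    (dl_le_one hr2 L) (1 / a - δ) hθ ⌈ζ * Fintype.card V⌉₊ hstep W.card W rfl hW
  have h0 : 0 ≤ defic (dl L) W₀ :=
    Finset.sum_nonneg fun x _ => Finset.sum_nonneg fun y _ => dl_nonneg hr2 L x y
  linarith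

/-- the weight of an anchor sequence -/
noncomputable def wt (L : V → V → Finset (Fin r)) (A : Fin a → V) : ℝ :=
  (Fintype.card V : ℝ) * ∑ v : V, (if Bad L (Fin.snoc (α := fun _ => V) A v) then 1 else 0) +
  ∑ j : Fin a, ∑ x : V, ∑ y : V,
    (if Bad L (Fin.snoc (α := fun _ => V) (Function.update A j x) y) then (1 : ℝ) else 0)

lemma sum_snoc {l : ℕ} (F : (Fin (l + 1) → V) → ℝ) :
    ∑ A : Fin l → V, ∑ v : V, F (Fin.snoc (α := fun _ => V) A v) = ∑ w, F w := by
  rw [← Fintype.sum_prod_type' (fun (A : Fin l → V) (v : V) => F (Fin.snoc (α := fun _ => V) A v))]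
  refine Fintype.sum_equiv
    ((Equiv.prodComm _ _).trans (Fin.snocEquiv (fun _ : Fin (l + 1) => V))) _ _ ?_
  rintro ⟨A, v⟩
  rfl

lemma sum_wt (L : V → V → Finset (Fin r)) :
    ∑ A : Fin a → V, wt L A = (a + 1) * (Fintype.card V : ℝ) *
      ((univ.filter (fun w : Fin (a + 1) → V => Bad L w)).card : ℝ) := by
  have h1 : ∑ w : Fin (a + 1) → V, (if Bad L w then (1 : ℝ) else 0) =
      ((univ.filter (fun w : Fin (a + 1) → V => Bad L w)).card : ℝ) := by
    rw [Finset.sum_ite]
    simp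
  unfold wt
  rw [Finset.sum_add_distrib, ← Finset.mul_sum,
    sum_snoc (fun w => if Bad L w then (1 : ℝ) else 0), h1, Finset.sum_comm]
  have h2 : ∀ j : Fin a, ∑ A : Fin a → V, ∑ x : V, ∑ y : V,
      (if Bad L (Fin.snoc (α := fun _ => V) (Function.update A j x) y) then (1 : ℝ) else 0) =
      (Fintype.card V : ℝ) *
        ((univ.filter (fun w : Fin (a + 1) → V => Bad L w)).card : ℝ) := by
    intro j
    rw [sum_update (fun A => ∑ y : V,
      (if Bad L (Fin.snoc (α := fun _ => V) A y) then (1 : ℝ) else 0)) j,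
      sum_snoc (fun w => if Bad L w then (1 : ℝ) else 0), h1]
  rw [Finset.sum_congr rfl fun j _ => h2 j, Finset.sum_const, Finset.card_univ, Fintype.card_fin,
    nsmul_eq_mul]
  ring

/-- there is a light anchor sequence -/
theorem exists_light (L : V → V → Finset (Fin r)) (S : Finset (Fin a → V)) (η η' c : ℝ)
    (hV : 0 < Fintype.card V) (hc : 0 < c)
    (hbad : ((univ.filter (fun w : Fin (a + 1) → V => Bad L w)).card : ℝ) ≤
      η * (Fintype.card V : ℝ) ^ (a + 1))
    (hη : (a + 1) * η < η' * c ^ a) (hη' : 0 ≤ η')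
    (hS : (c * Fintype.card V) ^ a ≤ (S.card : ℝ)) :
    ∃ A ∈ S, wt L A ≤ η' * (Fintype.card V : ℝ) ^ 2 := by
  by_contra hcon
  push Not at hcon
  have hVr : (0 : ℝ) < Fintype.card V := by exact_mod_cast hV
  have h1 : (S.card : ℝ) * (η' * (Fintype.card V : ℝ) ^ 2) ≤ ∑ A ∈ S, wt L A := by
    rw [← nsmul_eq_mul, ← Finset.sum_const]
    exact Finset.sum_le_sum fun A hA => (hcon A hA).le
  have h2 : ∑ A ∈ S, wt L A ≤ ∑ A : Fin a → V, wt L A := by
    refine Finset.sum_le_sum_of_subset_of_nonneg (Finset.subset_univ _) ?_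
    intro A _ _
    unfold wt
    refine add_nonneg (mul_nonneg hVr.le (Finset.sum_nonneg fun v _ => ?_))
      (Finset.sum_nonneg fun j _ => Finset.sum_nonneg fun x _ => Finset.sum_nonneg fun y _ => ?_)
    · split_ifs <;> norm_num
    · split_ifs <;> norm_num
  rw [sum_wt] at h2
  have h3 : (a + 1) * (Fintype.card V : ℝ) *
      ((univ.filter (fun w : Fin (a + 1) → V => Bad L w)).card : ℝ) ≤
      (a + 1) * (Fintype.card V : ℝ) * (η * (Fintype.card V : ℝ) ^ (a + 1)) :=
    mul_le_mul_of_nonneg_left hbad (by positivity)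
  have h4 : (c * Fintype.card V) ^ a * (η' * (Fintype.card V : ℝ) ^ 2) ≤
      (S.card : ℝ) * (η' * (Fintype.card V : ℝ) ^ 2) :=
    mul_le_mul_of_nonneg_right hS (by positivity)
  have h5 : (a + 1) * (Fintype.card V : ℝ) * (η * (Fintype.card V : ℝ) ^ (a + 1)) <
      (c * Fintype.card V) ^ a * (η' * (Fintype.card V : ℝ) ^ 2) := by
    have h6 : (a + 1) * (Fintype.card V : ℝ) * (η * (Fintype.card V : ℝ) ^ (a + 1)) =
        ((a + 1) * η) * (Fintype.card V : ℝ) ^ (a + 2) := by ring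
    have h7 : (c * Fintype.card V) ^ a * (η' * (Fintype.card V : ℝ) ^ 2) =
        (η' * c ^ a) * (Fintype.card V : ℝ) ^ (a + 2) := by
      rw [mul_pow]
      ring
    rw [h6, h7]
    exact mul_lt_mul_of_pos_right hη (by positivity)
  linarith

end LS

end Pool.Agent.Lib.MP_ba6833_co
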