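import Mathlib
import Pool.Agent.Lib.MP_ba6833_co.LS

/-!
# Stability for list structures: the partition
-/

namespace Pool.Agent.Lib.MP_ba6833_co

open Finset
open scoped Classical

section LS

variable {V : Type} [Fintype V] {r a : ℕ} {κ : ℝ}

/-- `v` is typical for the anchors `A`: total deficit at most `1 + κ` and some empty list -/
def Typ (L : V → V → Finset (Fin r)) (κ : ℝ) (A : Fin a → V) (v : V) : Prop :=
  ∑ i, dl L (A i) v ≤ 1 + κ ∧ ∃ j, ¬ (L (A j) v).Nonempty

omit [Fintype V] in
lemma Typ.full {L : V → V → Finset (Fin r)} {A : Fin a → V} {v : V} (hN : NumCond r a κ)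
    (h : Typ L κ A v) {j : Fin a} (hj : ¬ (L (A j) v).Nonempty) {i : Fin a} (hi : i ≠ j) :
    (L (A i) v).card = r := by
  apply full_of_dl_le hN
  have h1 : dl L (A j) v = 1 := dl_eq_one_of_empty hj
  have h2 : dl L (A i) v + dl L (A j) v ≤ ∑ i, dl L (A i) v := by
    rw [← Finset.sum_pair (f := fun l => dl L (A l) v) hi]
    exact Finset.sum_le_sum_of_subset_of_nonneg (Finset.subset_univ _)
      fun l _ _ => dl_nonneg hN.hr2 L _ _
  have h3 := h.1
  linarith

omit [Fintype V] in
/-- a vertex with all lists nonempty and small total deficit extends a greedy sequence to a bad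
tuple -/
lemma bad_snoc (hN : NumCond r a κ) (L : V → V → Finset (Fin r)) (A : Fin a → V)
    (hA : ∀ j : Fin a, ∑ i : Fin a, (if i < j then dl L (A i) (A j) else 0) ≤
      (j : ℕ) / (a : ℝ) + κ) (v : V) (hv : ∑ i, dl L (A i) v ≤ 1 + κ)
    (hne : ∀ i, (L (A i) v).Nonempty) : Bad L (Fin.snoc (α := fun _ => V) A v) := by
  have ha : (0 : ℝ) < a := by
    have := hN.ha
    exact_mod_cast (by omega : 0 < a)
  apply bad_of_greedy hN
  · intro i j hij
    have hi : i ≠ Fin.last a := fun h => by
      rw [h] at hij
      exact absurd hij (not_lt.2 (Fin.le_last j))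
    obtain ⟨i, rfl⟩ := Fin.exists_castSucc_eq.2 hi
    by_cases hj : j = Fin.last a
    · subst hj
      simpa using hne i
    · obtain ⟨j, rfl⟩ := Fin.exists_castSucc_eq.2 hj
      simp only [Fin.snoc_castSucc]
      have hij' : i < j := by simpa using hij
      apply nonempty_of_dl_lt
      have h1 : dl L (A i) (A j) ≤
          ∑ i : Fin a, (if i < j then dl L (A i) (A j) else 0) := by
        have := Finset.single_le_sum
          (f := fun i : Fin a => (if i < j then dl L (A i) (A j) else 0))
          (fun i _ => by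
            show 0 ≤ (if i < j then dl L (A i) (A j) else 0)
            split_ifs
            · exact dl_nonneg hN.hr2 L _ _
            · exact le_rfl) (Finset.mem_univ i)
        simpa [hij'] using this
      have h2 := hA j
      have h3 : ((j : ℕ) : ℝ) ≤ a - 1 := by
        have := j.2
        have h4 : (j : ℕ) + 1 ≤ a := by omega
        have h5 : (((j : ℕ) + 1 : ℕ) : ℝ) ≤ a := by exact_mod_cast h4
        push_cast at h5
        linarith
      have h4 : ((j : ℕ) : ℝ) / a ≤ (a - 1) / a := by gcongr
      have h5 : ((a : ℝ) - 1) / a = 1 - 1 / a := by field_simp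
      have h6 : κ < 1 / a := by
        rw [lt_div_iff₀ ha]
        linarith [hN.κlt, mul_comm (a : ℝ) κ]
      linarith
  · intro j
    rw [Fin.sum_univ_castSucc]
    by_cases hj : j = Fin.last a
    · subst hj
      simp only [Fin.castSucc_lt_last, if_true, Fin.snoc_castSucc, Fin.snoc_last, lt_self_iff_false,
        if_false, add_zero, Fin.val_last]
      rw [div_self ha.ne']
      exact hv
    · obtain ⟨j, rfl⟩ := Fin.exists_castSucc_eq.2 hj
      have h5 : ¬ (Fin.last a < j.castSucc) := not_lt.2 (Fin.le_last _)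
      simp only [Fin.castSucc_lt_castSucc_iff, Fin.snoc_castSucc, h5, if_false, add_zero,
        Fin.val_castSucc]
      exact hA j

omit [Fintype V] in
/-- two typical vertices with an empty list towards the same anchor and a nonempty list between
them -/
lemma bad_pair (hN : NumCond r a κ) (L : V → V → Finset (Fin r))
    (hsymm : ∀ x y, L x y = L y x) (A : Fin a → V)
    (hA : ∀ j : Fin a, ∑ i : Fin a, (if i < j then dl L (A i) (A j) else 0) ≤
      (j : ℕ) / (a : ℝ) + κ) (x y : V) (hx : Typ L κ A x) (hy : Typ L κ A y) (j : Fin a)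
    (hxj : ¬ (L (A j) x).Nonempty) (hyj : ¬ (L (A j) y).Nonempty) (hxy : (L x y).Nonempty) :
    Bad L (Fin.snoc (α := fun _ => V) (Function.update A j x) y) := by
  have ha : (0 : ℝ) < a := by
    have := hN.ha
    exact_mod_cast (by omega : 0 < a)
  refine hasSDR_pair (by have := hN.ha; omega) hN.hr hN.hr2 κ hN.κpos.le hN.hN
    (fun i i' => L (A i) (A i')) ?_ ?_ _ j ?_ ?_ ?_ ?_
  · intro p hp
    rw [mem_prs] at hp
    show (L (A p.1) (A p.2)).Nonempty
    apply nonempty_of_dl_lt
    have h1 : dl L (A p.1) (A p.2) ≤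
        ∑ i : Fin a, (if i < p.2 then dl L (A i) (A p.2) else 0) := by
      have := Finset.single_le_sum
        (f := fun i : Fin a => (if i < p.2 then dl L (A i) (A p.2) else 0))
        (fun i _ => by
          show 0 ≤ (if i < p.2 then dl L (A i) (A p.2) else 0)
          split_ifs
          · exact dl_nonneg hN.hr2 L _ _
          · exact le_rfl) (Finset.mem_univ p.1)
      simpa [hp] using this
    have h2 := hA p.2
    have h3 : ((p.2 : ℕ) : ℝ) ≤ a - 1 := by
      have := p.2.2
      have h4 : (p.2 : ℕ) + 1 ≤ a := by omega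
      have h5 : (((p.2 : ℕ) + 1 : ℕ) : ℝ) ≤ a := by exact_mod_cast h4
      push_cast at h5
      linarith
    have h4 : ((p.2 : ℕ) : ℝ) / a ≤ (a - 1) / a := by gcongr
    have h5 : ((a : ℝ) - 1) / a = 1 - 1 / a := by field_simp
    have h6 : κ < 1 / a := by
      rw [lt_div_iff₀ ha]
      linarith [hN.κlt, mul_comm (a : ℝ) κ]
    linarith
  · intro j
    rw [Finset.sum_filter]
    exact hA j
  · intro p _ hp1 hp2
    simp only [Fin.snoc_castSucc]
    rw [Function.update_of_ne hp1, Function.update_of_ne hp2]
  · intro p hp hp1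
    rw [mem_prs] at hp
    simp only [Fin.snoc_castSucc]
    rcases hp1 with h | h
    · have h2 : p.2 ≠ j := by
        rw [← h]
        exact hp.ne'
      rw [h, Function.update_self, Function.update_of_ne h2, hsymm]
      exact hx.full hN hxj h2
    · have h2 : p.1 ≠ j := by
        rw [← h]
        exact hp.ne
      rw [h, Function.update_self, Function.update_of_ne h2]
      exact hx.full hN hxj h2
  · intro i hi
    simp only [Fin.snoc_castSucc, Fin.snoc_last]
    rw [Function.update_of_ne hi]
    exact hy.full hN hyj hi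
  · simp only [Fin.snoc_castSucc, Fin.snoc_last, Function.update_self]
    exact hxy

/-- The partition defined by a light anchor sequence. -/
theorem struct_of_light (hN : NumCond r a κ) (L : V → V → Finset (Fin r))
    (hsymm : ∀ x y, L x y = L y x) (W : Finset V) (ε₁ δ' η' : ℝ) (hδ'0 : 0 ≤ δ')
    (hη' : 0 ≤ η')
    (hWc : (1 - ε₁) * Fintype.card V ≤ W.card)
    (hW : ∀ v ∈ W, ∑ y ∈ W, dl L v y ≤ (1 / a + δ') * W.card)
    (A : Fin a → V) (hAW : ∀ i, A i ∈ W)
    (hA : ∀ j : Fin a, ∑ i : Fin a, (if i < j then dl L (A i) (A j) else 0) ≤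
      (j : ℕ) / (a : ℝ) + κ)
    (hwt : wt L A ≤ η' * (Fintype.card V : ℝ) ^ 2) (hV : 0 < Fintype.card V) :
    ∃ P : V → Fin a,
      ((univ.filter (fun q : V × V => P q.1 = P q.2 ∧ (L q.1 q.2).Nonempty)).card : ℝ) ≤
        (η' + 2 * (ε₁ + (a * δ' + η') / κ + η')) * (Fintype.card V : ℝ) ^ 2 := by
  have ha : (0 : ℝ) < a := by
    have := hN.ha
    exact_mod_cast (by omega : 0 < a)
  have hκ := hN.κpos
  have hVr : (0 : ℝ) < Fintype.card V := by exact_mod_cast hV
  set n : ℝ := (Fintype.card V : ℝ) with hn
  -- consequences of lightness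
  have hnn1 : 0 ≤ ∑ v : V, (if Bad L (Fin.snoc (α := fun _ => V) A v) then (1 : ℝ) else 0) :=
    Finset.sum_nonneg fun v _ => by split_ifs <;> norm_num
  have hnn2 : ∀ j : Fin a, 0 ≤ ∑ x : V, ∑ y : V,
      (if Bad L (Fin.snoc (α := fun _ => V) (Function.update A j x) y) then (1 : ℝ) else 0) :=
    fun j => Finset.sum_nonneg fun x _ => Finset.sum_nonneg fun y _ => by split_ifs <;> norm_num
  have hlight1 : ((univ.filter (fun v => Bad L (Fin.snoc (α := fun _ => V) A v))).card : ℝ) ≤
      η' * n := by
    have h1 : ∑ v : V, (if Bad L (Fin.snoc (α := fun _ => V) A v) then (1 : ℝ) else 0) =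
        ((univ.filter (fun v => Bad L (Fin.snoc (α := fun _ => V) A v))).card : ℝ) := by
      rw [Finset.sum_ite]
      simp
    have h2 : n * ∑ v : V, (if Bad L (Fin.snoc (α := fun _ => V) A v) then (1 : ℝ) else 0) ≤
        η' * n ^ 2 := by
      refine le_trans ?_ hwt
      unfold wt
      exact le_add_of_nonneg_right (Finset.sum_nonneg fun j _ => hnn2 j)
    rw [h1] at h2
    have h3 : n * ((univ.filter (fun v => Bad L (Fin.snoc (α := fun _ => V) A v))).card : ℝ) ≤
        n * (η' * n) := by
      refine h2.trans (le_of_eq ?_)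
      ring
    exact le_of_mul_le_mul_left h3 hVr
  have hlight2 : ∑ j : Fin a, ∑ x : V, ∑ y : V,
      (if Bad L (Fin.snoc (α := fun _ => V) (Function.update A j x) y) then (1 : ℝ) else 0) ≤
      η' * n ^ 2 := by
    refine le_trans ?_ hwt
    unfold wt
    exact le_add_of_nonneg_left (mul_nonneg hVr.le hnn1)
  -- vertices of large total deficit
  set B : Finset V := W.filter (fun v => 1 + κ < ∑ i, dl L (A i) v) with hB
  set X : Finset V := univ.filter (fun v => Bad L (Fin.snoc (α := fun _ => V) A v)) with hX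
  have hsum : ∑ v ∈ W, ∑ i, dl L (A i) v ≤ (1 + a * δ') * W.card := by
    rw [Finset.sum_comm]
    refine (Finset.sum_le_sum fun i _ => hW (A i) (hAW i)).trans (le_of_eq ?_)
    rw [Finset.sum_const, Finset.card_univ, Fintype.card_fin, nsmul_eq_mul]
    field_simp
  have hlow : (W.card : ℝ) + κ * B.card - X.card ≤ ∑ v ∈ W, ∑ i, dl L (A i) v := by
    have h1 : (W.card : ℝ) + κ * B.card - (W ∩ X).card =
        ∑ v ∈ W, (1 + κ * (if v ∈ B then (1 : ℝ) else 0) - (if v ∈ X then (1 : ℝ) else 0)) := by
      rw [Finset.sum_sub_distrib, Finset.sum_add_distrib, ← Finset.mul_sum]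
      congr 1
      · congr 1
        · simp
        · congr 1
          rw [Finset.sum_ite_mem, Finset.inter_eq_right.2 (Finset.filter_subset _ _),
            Finset.sum_const, nsmul_eq_mul, mul_one]
      · rw [Finset.sum_ite_mem]
        simp
    have h2 : ((W ∩ X).card : ℝ) ≤ X.card := by
      exact_mod_cast Finset.card_le_card Finset.inter_subset_right
    have h3 : ∑ v ∈ W, (1 + κ * (if v ∈ B then (1 : ℝ) else 0) -
        (if v ∈ X then (1 : ℝ) else 0)) ≤ ∑ v ∈ W, ∑ i, dl L (A i) v := by
      refine Finset.sum_le_sum fun v hv => ?_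
      have hnn : 0 ≤ ∑ i, dl L (A i) v :=
        Finset.sum_nonneg fun i _ => dl_nonneg hN.hr2 L _ _
      by_cases hvB : v ∈ B
      · have h4 : 1 + κ < ∑ i, dl L (A i) v := by
          rw [hB, Finset.mem_filter] at hvB
          exact hvB.2
        rw [if_pos hvB]
        split_ifs <;> linarith
      · have h4 : ∑ i, dl L (A i) v ≤ 1 + κ := by
          rw [hB, Finset.mem_filter] at hvB
          push Not at hvB
          exact hvB hv
        rw [if_neg hvB]
        by_cases hvX : v ∈ X
        · rw [if_pos hvX]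
          linarith
        · rw [if_neg hvX]
          have h5 : ∃ j, ¬ (L (A j) v).Nonempty := by
            by_contra hcon
            push Not at hcon
            apply hvX
            rw [hX, Finset.mem_filter]
            exact ⟨Finset.mem_univ _, bad_snoc hN L A hA v h4 hcon⟩
          obtain ⟨j, hj⟩ := h5
          have h6 : dl L (A j) v = 1 := dl_eq_one_of_empty hj
          have h7 := Finset.single_le_sum (f := fun i => dl L (A i) v)
            (fun i _ => dl_nonneg hN.hr2 L (A i) v) (Finset.mem_univ j)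
          linarith
    linarith
  have hBcard : (B.card : ℝ) ≤ (a * δ' + η') / κ * n := by
    have hWn : (W.card : ℝ) ≤ n := by
      rw [hn]
      exact_mod_cast Finset.card_le_univ W
    have h1 : κ * B.card ≤ a * δ' * W.card + η' * n := by linarith
    have h2 : (a : ℝ) * δ' * W.card ≤ a * δ' * n := by
      exact mul_le_mul_of_nonneg_left hWn (by positivity)
    rw [div_mul_eq_mul_div, le_div_iff₀ hκ]
    linarith
  -- atypical vertices
  set N : Finset V := univ.filter (fun v => ¬ Typ L κ A v) with hNdef
  have hNsub : N ⊆ Wᶜ ∪ B ∪ X := by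
    intro v hv
    rw [hNdef, Finset.mem_filter] at hv
    by_contra hcon
    rw [Finset.mem_union, Finset.mem_union, Finset.mem_compl] at hcon
    push Not at hcon
    obtain ⟨⟨h1, h2⟩, h3⟩ := hcon
    have h4 : ∑ i, dl L (A i) v ≤ 1 + κ := by
      rw [hB, Finset.mem_filter] at h2
      push Not at h2
      exact h2 h1
    apply hv.2
    refine ⟨h4, ?_⟩
    by_contra hcon
    push Not at hcon
    apply h3
    rw [hX, Finset.mem_filter]
    exact ⟨Finset.mem_univ _, bad_snoc hN L A hA v h4 hcon⟩
  have hNcard : (N.card : ℝ) ≤ (ε₁ + (a * δ' + η') / κ + η') * n := by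
    have h1 : N.card ≤ Wᶜ.card + B.card + X.card :=
      (Finset.card_le_card hNsub).trans ((Finset.card_union_le _ _).trans
        (Nat.add_le_add_right (Finset.card_union_le _ _) _))
    have h2 : (Wᶜ.card : ℝ) = n - W.card := by
      rw [Finset.card_compl, Nat.cast_sub (Finset.card_le_univ W)]
    have h3 : (N.card : ℝ) ≤ Wᶜ.card + B.card + X.card := by exact_mod_cast h1
    rw [h2] at h3
    linarith
  -- the partition
  have ha0 : 0 < a := by
    have := hN.ha
    omega
  refine ⟨fun v => if h : Typ L κ A v then h.2.choose else ⟨0, ha0⟩, ?_⟩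
  set P : V → Fin a := fun v => if h : Typ L κ A v then h.2.choose else ⟨0, ha0⟩ with hP
  have hPspec : ∀ v, Typ L κ A v → ¬ (L (A (P v)) v).Nonempty := by
    intro v hv
    rw [hP]
    simp only [dif_pos hv]
    exact hv.2.choose_spec
  set Y : Fin a → Finset (V × V) := fun j => univ.filter (fun q : V × V =>
    Bad L (Fin.snoc (α := fun _ => V) (Function.update A j q.1) q.2)) with hY
  have hYsum : ∑ j, ((Y j).card : ℝ) ≤ η' * n ^ 2 := by
    refine le_trans (le_of_eq ?_) hlight2
    refine Finset.sum_congr rfl fun j _ => ?_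
    rw [← Fintype.sum_prod_type' (fun x y =>
      (if Bad L (Fin.snoc (α := fun _ => V) (Function.update A j x) y) then (1 : ℝ) else 0)),
      Finset.sum_ite]
    simp [hY]
  have hsub : univ.filter (fun q : V × V => P q.1 = P q.2 ∧ (L q.1 q.2).Nonempty) ⊆
      (N ×ˢ univ) ∪ (univ ×ˢ N) ∪ (univ : Finset (Fin a)).biUnion Y := by
    rintro ⟨x, y⟩ hq
    rw [Finset.mem_filter] at hq
    obtain ⟨-, hPxy, hne⟩ := hq
    simp only at hPxy hne
    rw [Finset.mem_union, Finset.mem_union, Finset.mem_product, Finset.mem_product,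
      Finset.mem_biUnion]
    by_cases hx : Typ L κ A x
    · by_cases hy : Typ L κ A y
      · right
        refine ⟨P x, Finset.mem_univ _, ?_⟩
        rw [hY]
        simp only [Finset.mem_filter, Finset.mem_univ, true_and]
        refine bad_pair hN L hsymm A hA x y hx hy (P x) (hPspec x hx) ?_ hne
        rw [hPxy]
        exact hPspec y hy
      · left; right
        exact ⟨Finset.mem_univ _, by rw [hNdef, Finset.mem_filter]; exact ⟨Finset.mem_univ _, hy⟩⟩
    · left; left
      exact ⟨by rw [hNdef, Finset.mem_filter]; exact ⟨Finset.mem_univ _, hx⟩, Finset.mem_univ _⟩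
  have hcard : ((univ.filter
      (fun q : V × V => P q.1 = P q.2 ∧ (L q.1 q.2).Nonempty)).card : ℝ) ≤
      N.card * n + n * N.card + ∑ j, ((Y j).card : ℝ) := by
    have h1 := (Finset.card_le_card hsub).trans ((Finset.card_union_le _ _).trans
      (add_le_add (Finset.card_union_le _ _) Finset.card_biUnion_le))
    rw [Finset.card_product, Finset.card_product, Finset.card_univ] at h1
    rw [hn]
    exact_mod_cast h1
  have h9 : (N.card : ℝ) * n ≤ (ε₁ + (a * δ' + η') / κ + η') * n ^ 2 := by
    have := mul_le_mul_of_nonneg_right hNcard hVr.le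
    refine this.trans (le_of_eq ?_)
    ring
  refine hcard.trans ?_
  nlinarith

end LS

end Pool.Agent.Lib.MP_ba6833_co
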