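import Mathlib
import Pool.Agent.Lib.MP_ba6833_co.LS2

/-!
# Stability for list structures: final form
-/

namespace Pool.Agent.Lib.MP_ba6833_co

open Finset
open scoped Classical

lemma ls_arith (ia δ' ε₁ n M Z D₀ D : ℝ) (hia : ia ≤ 1)
    (hδ'0 : 0 < δ') (hδ'1 : δ' ≤ 1 / 4) (hε₁0 : 0 < ε₁) (hε₁1 : ε₁ ≤ 1 / 2) (hn : 0 < n)
    (hM0 : 0 ≤ M) (hM : M ≤ (1 - ε₁ / 2) * n) (hZ0 : 0 ≤ Z)
    (hZ : Z ≤ 2 * (δ' * ε₁ / 40) * n) (hn3 : 2 * n ≤ (δ' * ε₁ / 40) ^ 2 * n ^ 2)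
    (h1 : D₀ + (ia + δ') * (n ^ 2 - M ^ 2) - n ≤ D)
    (h2 : (ia - δ' * ε₁ / 16) * (M ^ 2 - Z ^ 2) - M ≤ D₀)
    (h3 : D ≤ (ia + δ' * ε₁ / 16) * n ^ 2) : False := by
  set τ : ℝ := δ' * ε₁ with hτ
  have hτ0 : 0 < τ := by positivity
  have hτ1 : τ ≤ 1 / 8 := by nlinarith only [hδ'0, hδ'1, hε₁1]
  have hn2 : 0 < n ^ 2 := by positivity
  have hMn : M ≤ n := by nlinarith only [hM, hZ, hZ0, hδ'0]
  have hMsq : M ^ 2 ≤ (1 - ε₁ / 2) ^ 2 * n ^ 2 := by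
    have := pow_le_pow_left₀ hM0 hM 2
    refine this.trans (le_of_eq ?_)
    ring
  have hZsq : Z ^ 2 ≤ 4 * (τ / 40) ^ 2 * n ^ 2 := by
    have := pow_le_pow_left₀ hZ0 hZ 2
    refine this.trans (le_of_eq ?_)
    ring
  have hgap : ε₁ / 2 * n ^ 2 ≤ n ^ 2 - M ^ 2 := by
    have h3 : (1 - ε₁ / 2) ^ 2 ≤ 1 - ε₁ / 2 := by nlinarith only [hδ'0, hδ'1, hε₁0, hε₁1]
    have h4 : (1 - ε₁ / 2) ^ 2 * n ^ 2 ≤ (1 - ε₁ / 2) * n ^ 2 :=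
      mul_le_mul_of_nonneg_right h3 hn2.le
    linarith only [h4, hMsq]
  have h4 : δ' * (ε₁ / 2 * n ^ 2) ≤ δ' * (n ^ 2 - M ^ 2) :=
    mul_le_mul_of_nonneg_left hgap hδ'0.le
  have h5 : τ / 16 * M ^ 2 ≤ τ / 16 * n ^ 2 := by
    refine mul_le_mul_of_nonneg_left ?_ (by positivity)
    exact pow_le_pow_left₀ hM0 hMn 2
  have h6 : (ia - τ / 16) * Z ^ 2 ≤ Z ^ 2 := by
    have h7 : ia - τ / 16 ≤ 1 := by linarith only [hia, hτ0]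
    have h8 : (0 : ℝ) ≤ Z ^ 2 := by positivity
    nlinarith only [hia, hτ0]
  have h7 : δ' * (n ^ 2 - M ^ 2) ≤
      τ / 16 * n ^ 2 + τ / 16 * M ^ 2 + (ia - τ / 16) * Z ^ 2 + M + n := by
    linarith only [h1, h2, h3]
  have h10 : δ' * (ε₁ / 2 * n ^ 2) = τ / 2 * n ^ 2 := by
    rw [hτ]
    ring
  have h9 : (τ / 40) ^ 2 * n ^ 2 ≤ τ / 320 * n ^ 2 := by
    refine mul_le_mul_of_nonneg_right ?_ hn2.le
    nlinarith only [hZ, hZ0, hn, hτ0, hτ1]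
  have h15 : (0 : ℝ) < τ * n ^ 2 := by positivity
  linarith only [h1, h2, h3, h4, h5, h6, h9, hMn, hZsq, hn, hn3]

/-- **Stability for list structures.** -/
theorem list_stability {r a : ℕ} {κ : ℝ} (hN : NumCond r a κ) (ε : ℝ) (hε : 0 < ε) :
    ∃ δ₀ > 0, ∃ η > 0, ∃ n₀ : ℕ, ∀ (V : Type) [Fintype V] (L : V → V → Finset (Fin r)),
      (∀ x y, L x y = L y x) → n₀ ≤ Fintype.card V →
      ((univ.filter (fun w : Fin (a + 1) → V => Bad L w)).card : ℝ) ≤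
        η * (Fintype.card V : ℝ) ^ (a + 1) →
      defic (dl L) univ ≤ (1 / a + δ₀) * (Fintype.card V : ℝ) ^ 2 →
      ∃ P : V → Fin a,
        ((univ.filter (fun q : V × V => P q.1 = P q.2 ∧ (L q.1 q.2).Nonempty)).card : ℝ) ≤
          ε * (Fintype.card V : ℝ) ^ 2 := by
  have ha : (0 : ℝ) < a := by
    have := hN.ha
    exact_mod_cast (by omega : 0 < a)
  have ha2 : (2 : ℝ) ≤ a := by exact_mod_cast hN.ha
  have hκ := hN.κpos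
  have hκlt := hN.κlt
  have hκ1 : κ < 1 := by nlinarith
  -- constants
  obtain ⟨ε₁, hε₁0, hε₁1, hε₁2⟩ : ∃ ε₁ : ℝ, 0 < ε₁ ∧ ε₁ ≤ 1 / 2 ∧ ε₁ ≤ ε / 8 :=
    ⟨min (1 / 2) (ε / 8), by positivity, min_le_left _ _, min_le_right _ _⟩
  obtain ⟨δ', hδ'0, hδ'1, hδ'2⟩ : ∃ δ' : ℝ, 0 < δ' ∧ a * δ' ≤ κ / 2 ∧ a * δ' / κ ≤ ε / 8 := by
    refine ⟨min (κ / (2 * a)) (ε * κ / (8 * a)), by positivity, ?_, ?_⟩
    · calc (a : ℝ) * min (κ / (2 * a)) (ε * κ / (8 * a)) ≤ a * (κ / (2 * a)) := by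
            gcongr; exact min_le_left _ _
        _ = κ / 2 := by field_simp
    · calc (a : ℝ) * min (κ / (2 * a)) (ε * κ / (8 * a)) / κ ≤ a * (ε * κ / (8 * a)) / κ := by
            gcongr; exact min_le_right _ _
        _ = ε / 8 := by field_simp
  obtain ⟨η', hη'0, hη'1⟩ : ∃ η' : ℝ, 0 < η' ∧ 3 * η' + 2 * (η' / κ) ≤ ε / 4 := by
    refine ⟨ε * κ / (4 * (3 * κ + 2)), by positivity, le_of_eq ?_⟩
    field_simp
  have hδ'a : δ' ≤ 1 / 4 := by nlinarith only [ha2, hδ'1, hκ1]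
  have hτ0 : 0 < δ' * ε₁ := by positivity
  have hτ1 : δ' * ε₁ ≤ 1 / 8 := by nlinarith only [ha2, hδ'1, hε₁0, hε₁1, hκ, hκ1, hτ0]
  have hτδ : δ' * ε₁ ≤ δ' := by nlinarith only [hδ'0, hε₁1, hκ, hκ1]
  obtain ⟨ζ, hζ⟩ : ∃ ζ : ℝ, ζ = δ' * ε₁ / 40 := ⟨_, rfl⟩
  have hζ0 : 0 < ζ := by rw [hζ]; positivity
  obtain ⟨δ, hδ⟩ : ∃ δ : ℝ, δ = δ' * ε₁ / 16 := ⟨_, rfl⟩
  have hδ0 : 0 < δ := by rw [hδ]; positivity
  obtain ⟨κ₀, hκ₀⟩ : ∃ κ₀ : ℝ, κ₀ = min δ κ := ⟨_, rfl⟩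
  have hκ₀0 : 0 < κ₀ := by rw [hκ₀]; exact lt_min hδ0 hκ
  have hκ₀1 : κ₀ ≤ δ := by rw [hκ₀]; exact min_le_left _ _
  have hκ₀2 : κ₀ ≤ κ := by rw [hκ₀]; exact min_le_right _ _
  obtain ⟨c, hc⟩ : ∃ c : ℝ, c = (κ / 2 / (a * (1 / a + δ') + κ / 2)) / 2 := ⟨_, rfl⟩
  have hc0 : 0 < c := by rw [hc]; positivity
  have haδ : a * δ ≤ 1 := by nlinarith only [hδ, hδ'1, hζ, hζ0, hκ1, hτ1, hτδ]
  have haθ : (a : ℝ) * (1 / a - δ) = 1 - a * δ := by field_simp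
  have hη₁pos : 0 < ((κ₀ / (a * (1 / a - δ) + κ₀)) * ζ) ^ (a + 1) := by
    have : 0 < a * (1 / a - δ) + κ₀ := by rw [haθ]; linarith
    (clear * - hζ0 hκ₀0 this; positivity)
  have hη₂pos : 0 < η' * c ^ a := by positivity
  obtain ⟨η, hη0, hηa, hηb⟩ : ∃ η : ℝ, 0 < η ∧
      η < ((κ₀ / (a * (1 / a - δ) + κ₀)) * ζ) ^ (a + 1) ∧ (a + 1) * η < η' * c ^ a := by
    refine ⟨min (((κ₀ / (a * (1 / a - δ) + κ₀)) * ζ) ^ (a + 1) / 2)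
      (η' * c ^ a / (2 * (a + 1))), by positivity, ?_, ?_⟩
    · refine (min_le_left _ _).trans_lt ?_
      linarith only [hη₁pos]
    · calc ((a : ℝ) + 1) * min (((κ₀ / (a * (1 / a - δ) + κ₀)) * ζ) ^ (a + 1) / 2)
            (η' * c ^ a / (2 * (a + 1))) ≤ ((a : ℝ) + 1) * (η' * c ^ a / (2 * (a + 1))) := by
            gcongr; exact min_le_right _ _
        _ = η' * c ^ a / 2 := by field_simp
        _ < η' * c ^ a := by linarith only [hη₂pos]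
  refine ⟨δ' * ε₁ / 16, by positivity, η, hη0,
    ⌈2 / ε₁⌉₊ + ⌈1 / ζ⌉₊ + ⌈2 / ζ ^ 2⌉₊ + 1, ?_⟩
  intro V _ L hsymm hn hbad hD
  have hV : 0 < Fintype.card V := by omega
  have hVr : (0 : ℝ) < Fintype.card V := by exact_mod_cast hV
  set n : ℝ := (Fintype.card V : ℝ) with hndef
  have hn1 : 2 / ε₁ ≤ n := by
    have h1 := Nat.le_ceil (2 / ε₁)
    have h2 : ((⌈2 / ε₁⌉₊ : ℕ) : ℝ) ≤ n := by
      rw [hndef]
      exact_mod_cast (by omega : ⌈2 / ε₁⌉₊ ≤ Fintype.card V)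
    linarith only [h1, h2]
  have hn2 : 1 / ζ ≤ n := by
    have h1 := Nat.le_ceil (1 / ζ)
    have h2 : ((⌈1 / ζ⌉₊ : ℕ) : ℝ) ≤ n := by
      rw [hndef]
      exact_mod_cast (by omega : ⌈1 / ζ⌉₊ ≤ Fintype.card V)
    linarith only [h1, h2]
  have hn3 : 2 / ζ ^ 2 ≤ n := by
    have h1 := Nat.le_ceil (2 / ζ ^ 2)
    have h2 : ((⌈2 / ζ ^ 2⌉₊ : ℕ) : ℝ) ≤ n := by
      rw [hndef]
      exact_mod_cast (by omega : ⌈2 / ζ ^ 2⌉₊ ≤ Fintype.card V)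
    linarith only [h1, h2]
  have hn1' : 2 ≤ ε₁ * n := by
    rw [div_le_iff₀ hε₁0] at hn1
    linarith only [hn1]
  have hn2' : 1 ≤ ζ * n := by
    rw [div_le_iff₀ hζ0] at hn2
    linarith only [hn2]
  have hn3' : 2 * n ≤ ζ ^ 2 * n ^ 2 := by
    rw [div_le_iff₀ (by positivity)] at hn3
    nlinarith
  -- a large set without vertices of large deficit
  have hgood : ∃ W : Finset V, (1 - ε₁) * n ≤ W.card ∧
      ∀ v ∈ W, ∑ y ∈ W, dl L v y ≤ (1 / a + δ') * W.card := by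
    by_contra hcon
    push Not at hcon
    set m₁ : ℕ := ⌈(1 - ε₁) * n⌉₊ with hm₁
    have hm₁a : (1 - ε₁) * n ≤ m₁ := Nat.le_ceil _
    have hm₁b : (m₁ : ℝ) < (1 - ε₁) * n + 1 := Nat.ceil_lt_add_one (by nlinarith)
    have hm₁n : (m₁ : ℝ) ≤ (1 - ε₁ / 2) * n := by linarith only [hm₁b, hn1']
    have hm₁n' : m₁ ≤ Fintype.card V := by
      have : (m₁ : ℝ) ≤ (Fintype.card V : ℝ) := by
        rw [← hndef]
        nlinarith only [hm₁b, hn1', hζ, hζ0, hτ1]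
      exact_mod_cast this
    obtain ⟨W₀, hW₀, hDW₀⟩ := peel (dl L) (fun x y => by unfold dl; rw [hsymm x y])
      (dl_le_one hN.hr2 L) (1 / a + δ') (by positivity) m₁ (by
        intro W hW
        have h1 : (1 - ε₁) * n ≤ W.card := by
          have : (m₁ : ℝ) ≤ W.card := by exact_mod_cast hW.le
          linarith only [hm₁a, this]
        obtain ⟨v, hv, hv2⟩ := hcon W h1
        exact ⟨v, hv, hv2.le⟩) (Fintype.card V) univ (Finset.card_univ) hm₁n'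
    set m₀ : ℕ := ⌈ζ * n⌉₊ with hm₀
    have hm₀b : (m₀ : ℝ) < ζ * n + 1 := Nat.ceil_lt_add_one (by positivity)
    have hm₀c : (m₀ : ℝ) ≤ 2 * ζ * n := by linarith only [hm₀b, hn2']
    have hm₀0 : (0 : ℝ) ≤ m₀ := by positivity
    have hm₀m₁ : m₀ ≤ m₁ := by
      apply Nat.ceil_le_ceil
      nlinarith
    have hDW₀' := defic_ge hN L hsymm δ ζ η κ₀ hδ0 haδ hκ₀0 hκ₀1 hκ₀2
      hζ0 hηa hV hbad W₀ (by rw [hW₀]; exact hm₀m₁)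
    rw [hW₀] at hDW₀'
    rw [hδ] at hDW₀'
    rw [hζ] at hm₀c hn3'
    exact ls_arith (1 / a) δ' ε₁ n m₁ m₀ (defic (dl L) W₀) (defic (dl L) univ)
      (by rw [div_le_one ha]; linarith only [ha2, hζ, hζ0, hτ1]) hδ'0 hδ'a hε₁0 hε₁1
      hVr (by positivity) hm₁n (by positivity) hm₀c hn3' hDW₀ hDW₀' hD
  obtain ⟨W, hWc, hWs⟩ := hgood
  have hS := card_seqs (dl L) (dl_nonneg hN.hr2 L) W (1 / a + δ') (κ / 2) (by positivity)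
    (by positivity) hWs a a (by omega)
  obtain ⟨A, hA, hAwt⟩ := exists_light L (seqs (dl L) W (1 / a + δ') (κ / 2) a) η η' c hV hc0
    hbad hηb hη'0.le (by
      refine le_trans ?_ hS
      refine pow_le_pow_left₀ (by positivity) ?_ _
      rw [hc, ← hndef]
      have h1 : n / 2 ≤ W.card := by nlinarith only [hWc, hε₁1]
      have h2 : 0 < κ / 2 / (a * (1 / a + δ') + κ / 2) := by positivity
      calc κ / 2 / (a * (1 / a + δ') + κ / 2) / 2 * n =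
          κ / 2 / (a * (1 / a + δ') + κ / 2) * (n / 2) := by ring
        _ ≤ _ := mul_le_mul_of_nonneg_left h1 h2.le)
  rw [seqs, Finset.mem_filter] at hA
  obtain ⟨-, hAW, hAs⟩ := hA
  obtain ⟨P, hP⟩ := struct_of_light hN L hsymm W ε₁ δ' η' hδ'0.le hη'0.le hWc hWs A hAW (by
    intro j
    refine (hAs j).trans ?_
    have hj : ((j : ℕ) : ℝ) ≤ a := by
      have := j.2
      exact_mod_cast (by omega : (j : ℕ) ≤ a)
    have h1 : ((j : ℕ) : ℝ) * δ' ≤ a * δ' := mul_le_mul_of_nonneg_right hj hδ'0.le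
    have h2 : ((j : ℕ) : ℝ) * (1 / a + δ') = (j : ℕ) / (a : ℝ) + (j : ℕ) * δ' := by ring
    rw [h2]
    linarith only [h1, hδ'1]) hAwt hV
  refine ⟨P, hP.trans ?_⟩
  refine mul_le_mul_of_nonneg_right ?_ (by positivity)
  have h1 : (a * δ' + η') / κ = a * δ' / κ + η' / κ := add_div _ _ _
  rw [h1]
  linarith only [hδ'2, hε₁0, hε₁2, hη'1]

end Pool.Agent.Lib.MP_ba6833_co
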