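import Mathlib
import Pool.Agent.Lib.MP_ba6833_co.Defs

/-!
# Turán numbers
-/

namespace Pool.Agent.Lib.MP_ba6833_co

open Finset SimpleGraph

/-- the number of edges of the Turán graph `T_a(n)` -/
def tn (a n : ℕ) : ℕ := (turanGraph n a).edgeFinset.card

lemma tn_eq_natCard (a n : ℕ) : tn a n = Nat.card (turanGraph n a).edgeSet := by
  unfold tn
  rw [Nat.card_eq_fintype_card, SimpleGraph.edgeFinset_card]

lemma tn_of_lt {a n : ℕ} (h : n ≤ a) : tn a n = n.choose 2 := by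
  unfold tn
  have h1 : turanGraph n a = ⊤ := turanGraph_eq_top.2 (Or.inr h)
  have h2 : (turanGraph n a).edgeFinset = (⊤ : SimpleGraph (Fin n)).edgeFinset := by
    rw [SimpleGraph.edgeFinset_inj]
    exact h1
  rw [h2, SimpleGraph.card_edgeFinset_top_eq_card_choose_two, Fintype.card_fin]

lemma tn_add (a n : ℕ) : tn a (n + a) = tn a n + n * (a - 1) + a.choose 2 :=
  card_edgeFinset_turanGraph_add

lemma tn_formula {a : ℕ} (ha : 1 ≤ a) (n : ℕ) :
    (2 * a * tn a n + (n % a : ℕ) * (a - (n % a : ℕ)) : ℤ) = (a - 1) * n ^ 2 := by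
  induction n using Nat.strong_induction_on with
  | _ n ih =>
    rcases Nat.lt_or_ge n a with h | h
    · rw [tn_of_lt h.le, Nat.mod_eq_of_lt h]
      have h1 : (2 * (n.choose 2 : ℕ) : ℤ) = n * (n - 1) := by
        have h2 : 2 * n.choose 2 = n * (n - 1) := by
          rw [Nat.choose_two_right]
          exact Nat.mul_div_cancel' (Nat.even_mul_pred_self n).two_dvd
        rcases Nat.eq_zero_or_pos n with hn | hn
        · subst hn; simp
        · have h3 : ((2 * n.choose 2 : ℕ) : ℤ) = ((n * (n - 1) : ℕ) : ℤ) := by rw [h2]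
          push_cast [Nat.cast_sub hn] at h3
          exact h3
      linear_combination (a : ℤ) * h1
    · obtain ⟨m, rfl⟩ := Nat.exists_eq_add_of_le' h
      rw [tn_add, Nat.add_mod_right]
      have h1 := ih m (by omega)
      have h2 : (2 * (a.choose 2 : ℕ) : ℤ) = a * (a - 1) := by
        have h2 : 2 * a.choose 2 = a * (a - 1) := by
          rw [Nat.choose_two_right]
          exact Nat.mul_div_cancel' (Nat.even_mul_pred_self a).two_dvd
        have h3 : ((2 * a.choose 2 : ℕ) : ℤ) = ((a * (a - 1) : ℕ) : ℤ) := by rw [h2]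
        push_cast [Nat.cast_sub ha] at h3
        exact h3
      push_cast [Nat.cast_sub ha] at h1 ⊢
      linear_combination h1 + (a : ℤ) * h2

lemma tn_succ {a : ℕ} (ha : 1 ≤ a) (n : ℕ) : tn a (n + 1) = tn a n + (n - n / a) := by
  have h1 := tn_formula ha n
  have h2 := tn_formula ha (n + 1)
  have hdiv : n / a ≤ n := Nat.div_le_self n a
  have h3 := Nat.div_add_mod n a
  have h3' : (a * (n / a : ℕ) + (n % a : ℕ) : ℤ) = n := by exact_mod_cast h3
  have hlt := Nat.mod_lt n (by omega : 0 < a)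
  have ha0 : (0 : ℤ) < 2 * a := by positivity
  have key : (2 * a * (tn a (n + 1) : ℤ)) = 2 * a * (tn a n + (n - n / a : ℕ)) := by
    push_cast [Nat.cast_sub hdiv]
    push_cast at h2
    rcases Nat.lt_or_ge (n % a + 1) a with h | h
    · have h4 : (n + 1) % a = n % a + 1 := by
        rw [Nat.add_mod, Nat.mod_eq_of_lt (a := 1) (by omega), Nat.mod_eq_of_lt h]
      have h4' : (((n : ℤ) + 1) % a) = (n : ℤ) % a + 1 := by exact_mod_cast h4
      have h3'' : ((a : ℤ) * ((n : ℤ) / a) + (n : ℤ) % a) = n := by exact_mod_cast h3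
      rw [h4'] at h2
      push_cast at h1
      linear_combination h2 - h1 + 2 * h3''
    · have h5 : n % a = a - 1 := by omega
      have h4 : (n + 1) % a = 0 := by
        rw [← Nat.div_add_mod n a, h5, add_assoc, Nat.sub_add_cancel ha, Nat.mul_add_mod,
          Nat.mod_self]
      have h4' : (((n : ℤ) + 1) % a) = 0 := by exact_mod_cast h4
      have h5' : ((n : ℤ) % a) = a - 1 := by
        have : ((n % a : ℕ) : ℤ) = ((a - 1 : ℕ) : ℤ) := by rw [h5]
        push_cast [Nat.cast_sub ha] at this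
        exact this
      have h3'' : ((a : ℤ) * ((n : ℤ) / a) + (n : ℤ) % a) = n := by exact_mod_cast h3
      rw [h4'] at h2
      push_cast at h1
      rw [h5'] at h1 h3''
      linear_combination h2 - h1 + 2 * h3''
  have := mul_left_cancel₀ ha0.ne' key
  exact_mod_cast this

/-- upper bound -/
lemma tn_le {a : ℕ} (ha : 1 ≤ a) (n : ℕ) : 2 * (tn a n : ℝ) ≤ (1 - 1 / a) * (n : ℝ) ^ 2 := by
  have h1 := tn_formula ha n
  have hlt := (Nat.mod_lt n (by omega : 0 < a)).le
  have h2 : (0 : ℤ) ≤ (n % a : ℕ) * (a - (n % a : ℕ)) := by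
    refine mul_nonneg (by positivity) ?_
    have : ((n % a : ℕ) : ℤ) ≤ a := by exact_mod_cast hlt
    linarith
  have h3 : (2 * a * tn a n : ℤ) ≤ (a - 1) * n ^ 2 := by linarith
  have h4 : (2 * a * tn a n : ℝ) ≤ (a - 1) * n ^ 2 := by exact_mod_cast h3
  have ha' : (0 : ℝ) < a := by exact_mod_cast ha
  have h5 : (1 - 1 / (a : ℝ)) = (a - 1) / a := by field_simp
  rw [h5, div_mul_eq_mul_div, le_div_iff₀ ha']
  linarith

/-- lower bound -/
lemma le_tn {a : ℕ} (ha : 1 ≤ a) (n : ℕ) :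
    (1 - 1 / a) * (n : ℝ) ^ 2 - a ≤ 2 * (tn a n : ℝ) := by
  have h1 := tn_formula ha n
  have hlt := (Nat.mod_lt n (by omega : 0 < a)).le
  have h2 : (n % a : ℕ) * (a - (n % a : ℕ)) ≤ ((a : ℤ)) ^ 2 := by
    have h6 : ((n % a : ℕ) : ℤ) ≤ a := by exact_mod_cast hlt
    have h7 : (0 : ℤ) ≤ ((n % a : ℕ) : ℤ) := by positivity
    nlinarith
  have h3 : ((a : ℤ) - 1) * n ^ 2 ≤ 2 * a * tn a n + (a : ℤ) ^ 2 := by linarith
  have h4 : ((a : ℝ) - 1) * n ^ 2 ≤ 2 * a * tn a n + (a : ℝ) ^ 2 := by exact_mod_cast h3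
  have ha' : (0 : ℝ) < a := by exact_mod_cast ha
  have h5 : (1 - 1 / (a : ℝ)) = (a - 1) / a := by field_simp
  rw [h5, div_mul_eq_mul_div, sub_le_iff_le_add, div_le_iff₀ ha']
  nlinarith

/-- increments -/
lemma tn_succ_ge {a : ℕ} (ha : 1 ≤ a) (n : ℕ) :
    (tn a n : ℝ) + (1 - 1 / a) * n ≤ tn a (n + 1) := by
  rw [tn_succ ha n, Nat.cast_add, Nat.cast_sub (Nat.div_le_self n a)]
  have h1 : ((n / a : ℕ) : ℝ) ≤ (n : ℝ) / a := Nat.cast_div_le
  have h2 : (1 - 1 / (a : ℝ)) * n = n - n / a := by ring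
  rw [h2]
  linarith

lemma tn_succ_le {a : ℕ} (ha : 1 ≤ a) (n : ℕ) :
    (tn a (n + 1) : ℝ) ≤ tn a n + (1 - 1 / a) * n + 1 := by
  rw [tn_succ ha n, Nat.cast_add, Nat.cast_sub (Nat.div_le_self n a)]
  have ha' : (0 : ℝ) < a := by exact_mod_cast ha
  have h1 : (n : ℝ) / a < ((n / a : ℕ) : ℝ) + 1 := by
    have := Nat.lt_floor_add_one ((n : ℝ) / a)
    rwa [Nat.floor_div_natCast, Nat.floor_natCast] at this
  have h2 : (1 - 1 / (a : ℝ)) * n = n - n / a := by ring
  rw [h2]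
  linarith

end Pool.Agent.Lib.MP_ba6833_co
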