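import Mathlib
import Pool.Agent.Lib.MP_ba6833_co.Defs

/-!
# Counting maps with few exceptions, sums over edges
-/

namespace Pool.Agent.Lib.MP_ba6833_co

open Finset
open scoped Classical in
/-- Tilted counting: the number of maps `h` with at most `m` exceptional `e` (`h e ∉ L e`), times
`x ^ m`, is at most `∏ (|L e| + x (r - |L e|))`. -/
theorem tilted_le {E : Type} [Fintype E] [DecidableEq E] {r : ℕ} (L : E → Finset (Fin r)) (x m : ℝ)
    (hx0 : 0 < x) (hx1 : x ≤ 1) :
    ((univ.filter (fun h : E → Fin r =>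
      ((univ.filter (fun e => h e ∉ L e)).card : ℝ) ≤ m)).card : ℝ) * x ^ m ≤
      ∏ e, (((L e).card : ℝ) + x * (r - (L e).card)) := by
  have h1 : ∀ e, (((L e).card : ℝ) + x * (r - (L e).card)) =
      ∑ α : Fin r, (if α ∈ L e then (1 : ℝ) else x) := by
    intro e
    rw [Finset.sum_ite, Finset.sum_const, Finset.sum_const]
    have h2 : (univ.filter (fun α => α ∈ L e)) = L e := by ext; simp
    have h3 : (univ.filter (fun α => α ∉ L e)) = (L e)ᶜ := by ext; simp
    rw [h2, h3, Finset.card_compl, Fintype.card_fin]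
    have h4 : (L e).card ≤ r := by
      simpa using Finset.card_le_univ (L e)
    rw [nsmul_eq_mul, nsmul_eq_mul, Nat.cast_sub h4]
    ring
  simp_rw [h1]
  rw [Finset.prod_univ_sum, Fintype.piFinset_univ]
  have h5 : ∀ h : E → Fin r, ∏ e, (if h e ∈ L e then (1 : ℝ) else x) =
      x ^ (univ.filter (fun e => h e ∉ L e)).card := by
    intro h
    rw [Finset.prod_ite]
    simp
  simp_rw [h5]
  calc ((univ.filter (fun h : E → Fin r =>
      ((univ.filter (fun e => h e ∉ L e)).card : ℝ) ≤ m)).card : ℝ) * x ^ m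
      = ∑ h ∈ (univ.filter (fun h : E → Fin r =>
      ((univ.filter (fun e => h e ∉ L e)).card : ℝ) ≤ m)), x ^ m := by
        rw [Finset.sum_const, nsmul_eq_mul]
    _ ≤ ∑ h ∈ (univ.filter (fun h : E → Fin r =>
      ((univ.filter (fun e => h e ∉ L e)).card : ℝ) ≤ m)),
        x ^ (univ.filter (fun e => h e ∉ L e)).card := by
        refine Finset.sum_le_sum fun h hh => ?_
        rw [Finset.mem_filter] at hh
        rw [← Real.rpow_natCast]
        exact Real.rpow_le_rpow_of_exponent_ge hx0 hx1 hh.2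
    _ ≤ ∑ h : E → Fin r, x ^ (univ.filter (fun e => h e ∉ L e)).card := by
        refine Finset.sum_le_sum_of_subset_of_nonneg (Finset.filter_subset _ _) ?_
        intro h _ _
        positivity

open scoped Classical in
/-- A symmetric function summed over ordered adjacent pairs is twice its sum over edges. -/
theorem sum_adj_eq_two_mul {V : Type} [Fintype V] (G : SimpleGraph V) [Fintype G.edgeSet]
    [DecidableRel G.Adj] (f : V → V → ℝ) (hf : ∀ x y, f x y = f y x) :
    ∑ x : V, ∑ y : V, (if G.Adj x y then f x y else 0) =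
      2 * ∑ e : G.edgeSet, Sym2.lift ⟨f, hf⟩ (e : Sym2 V) := by
  have h1 : ∑ e : G.edgeSet, Sym2.lift ⟨f, hf⟩ (e : Sym2 V) =
      ∑ e ∈ G.edgeFinset, Sym2.lift ⟨f, hf⟩ e := by
    exact (Finset.sum_subtype G.edgeFinset (fun e => SimpleGraph.mem_edgeFinset) _).symm
  have h2 : ∑ x : V, ∑ y : V, (if G.Adj x y then f x y else 0) =
      ∑ d : G.Dart, f d.fst d.snd := by
    rw [← Fintype.sum_prod_type']
    rw [← Finset.sum_filter]
    symm
    refine Finset.sum_bij (fun d _ => (d.fst, d.snd)) ?_ ?_ ?_ ?_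
    · intro d _
      simp [d.adj]
    · intro d _ d' _ h
      exact SimpleGraph.Dart.ext _ _ (by simpa using h)
    · rintro ⟨x, y⟩ h
      simp only [Finset.mem_filter, Finset.mem_univ, true_and] at h
      exact ⟨⟨(x, y), h⟩, by simp, rfl⟩
    · intro d _
      rfl
  rw [h1, h2]
  have h3 : ∀ d ∈ (Finset.univ : Finset G.Dart), d.edge ∈ G.edgeFinset := by
    intro d _
    rw [SimpleGraph.mem_edgeFinset]
    exact d.edge_mem
  rw [← Finset.sum_fiberwise_of_maps_to h3, Finset.mul_sum]
  refine Finset.sum_congr rfl fun e he => ?_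
  rw [SimpleGraph.mem_edgeFinset] at he
  have h4 : ∀ d ∈ (Finset.univ.filter (fun d : G.Dart => d.edge = e)),
      f d.fst d.snd = Sym2.lift ⟨f, hf⟩ e := by
    intro d hd
    rw [Finset.mem_filter] at hd
    rw [← hd.2]
    rfl
  rw [Finset.sum_congr rfl h4, Finset.sum_const, nsmul_eq_mul]
  have h5 := G.dart_edge_fiber_card e he
  have h6 : (Finset.univ.filter (fun d : G.Dart => d.edge = e)).card = 2 := by
    rw [← h5]
  rw [h6]
  norm_num

end Pool.Agent.Lib.MP_ba6833_co
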