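import Mathlib
import Pool.Agent.Lib.MP_ba6833_co.Defs
import Pool.Agent.Lib.MP_ba6833_co.Tilt
import Pool.Agent.Lib.MP_ba6833_co.Count
import Pool.Agent.Lib.MP_ba6833_co.LS

/-!
# Templates
-/

namespace Pool.Agent.Lib.MP_ba6833_co

open Finset
open scoped Classical

section

variable {V : Type} [Fintype V] {r : ℕ}

/-- templates: a map to `M` cells and lists for pairs of cells -/
abbrev Tmpl (V : Type) (r M : ℕ) : Type := (V → Fin M) × (Fin M → Fin M → Finset (Fin r))

/-- the list of a pair -/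
def tl {M : ℕ} (τ : Tmpl V r M) (x y : V) : Finset (Fin r) :=
  τ.2 (τ.1 x) (τ.1 y) ∪ τ.2 (τ.1 y) (τ.1 x)

omit [Fintype V] in
lemma tl_symm {M : ℕ} (τ : Tmpl V r M) (x y : V) : tl τ x y = tl τ y x :=
  Finset.union_comm _ _

/-- the list of an edge -/
def tle {M : ℕ} (τ : Tmpl V r M) : Sym2 V → Finset (Fin r) := Sym2.lift ⟨tl τ, tl_symm τ⟩

omit [Fintype V] in
lemma den_symm {P : Type} [Fintype V] (p : V → P) (f : V → V → ℝ) (hf : ∀ x y, f x y = f y x)
    (A B : P) : den p f A B = den p f B A := by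
  unfold den
  rw [Finset.sum_comm, mul_comm]
  congr 1
  exact Finset.sum_congr rfl fun x _ => Finset.sum_congr rfl fun y _ => hf _ _

lemma lst_symm {G : SimpleGraph V} {P : Type} (c : G.edgeSet → Fin r) (p : V → P) (γ : ℝ)
    (A B : P) : lst c p γ A B = lst c p γ B A := by
  unfold lst
  refine Finset.filter_congr fun α _ => ?_
  rw [den_symm p _ (colInd_symm c α)]

/-- the number of exceptional edges is small -/
lemma exc_le {G : SimpleGraph V} {M : ℕ} (c : G.edgeSet → Fin r) (p : V → Fin M) (γ : ℝ)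
    (hγ : 0 ≤ γ) :
    ((univ.filter (fun e : G.edgeSet => c e ∉ tle (p, lst c p γ) (e : Sym2 V))).card : ℝ) ≤
      r * γ * (Fintype.card V : ℝ) ^ 2 := by
  have hsymm : ∀ x y, (if ∃ α, col c x y = some α ∧ α ∉ tl (p, lst c p γ) x y then (1 : ℝ) else 0)
      = (if ∃ α, col c y x = some α ∧ α ∉ tl (p, lst c p γ) y x then (1 : ℝ) else 0) := by
    intro x y
    rw [col_symm, tl_symm]
  have h1 := sum_adj_eq_two_mul G (fun x y =>
    (if ∃ α, col c x y = some α ∧ α ∉ tl (p, lst c p γ) x y then (1 : ℝ) else 0)) hsymm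
  have h2 : ∑ e : G.edgeSet, Sym2.lift ⟨(fun x y =>
      (if ∃ α, col c x y = some α ∧ α ∉ tl (p, lst c p γ) x y then (1 : ℝ) else 0)), hsymm⟩
      (e : Sym2 V) =
      ((univ.filter (fun e : G.edgeSet => c e ∉ tle (p, lst c p γ) (e : Sym2 V))).card : ℝ) := by
    rw [Finset.card_filter]
    push_cast
    refine Finset.sum_congr rfl fun e _ => ?_
    obtain ⟨e, he⟩ := e
    induction e with
    | h x y =>
      simp only [Sym2.lift_mk, tle]
      have hadj : G.Adj x y := he
      have h3 : col c x y = some (c ⟨s(x, y), he⟩) := col_eq_some c hadj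
      have h4 : (∃ α, col c x y = some α ∧ α ∉ tl (p, lst c p γ) x y) ↔
          c ⟨s(x, y), he⟩ ∉ tl (p, lst c p γ) x y := by
        constructor
        · rintro ⟨α, h5, h6⟩
          rw [h3] at h5
          rw [Option.some.inj h5]
          exact h6
        · intro h5
          exact ⟨_, h3, h5⟩
      by_cases hP : c ⟨s(x, y), he⟩ ∉ tl (p, lst c p γ) x y
      · rw [if_pos (h4.2 hP)]
        exact (if_pos hP).symm
      · rw [if_neg (fun h => hP (h4.1 h))]
        exact (if_neg hP).symm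
  rw [h2] at h1
  have h3 : ∑ x : V, ∑ y : V, (if G.Adj x y then
      (if ∃ α, col c x y = some α ∧ α ∉ tl (p, lst c p γ) x y then (1 : ℝ) else 0) else 0) ≤
      ∑ α : Fin r, ∑ x : V, ∑ y : V,
        (if den p (colInd c α) (p x) (p y) < γ then (1 : ℝ) else 0) * colInd c α x y := by
    have hswap : ∑ α : Fin r, ∑ x : V, ∑ y : V,
        (if den p (colInd c α) (p x) (p y) < γ then (1 : ℝ) else 0) * colInd c α x y =
        ∑ x : V, ∑ y : V, ∑ α : Fin r,
        (if den p (colInd c α) (p x) (p y) < γ then (1 : ℝ) else 0) * colInd c α x y := by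
      rw [Finset.sum_comm]
      refine Finset.sum_congr rfl fun x _ => ?_
      rw [Finset.sum_comm]
    rw [hswap]
    refine Finset.sum_le_sum fun x _ => ?_
    refine Finset.sum_le_sum fun y _ => ?_
    have hnn : ∀ α : Fin r, 0 ≤
        (if den p (colInd c α) (p x) (p y) < γ then (1 : ℝ) else 0) * colInd c α x y := by
      intro α
      refine mul_nonneg ?_ (colInd_nonneg c α x y)
      split_ifs <;> norm_num
    by_cases hadj : G.Adj x y
    · rw [if_pos hadj]
      split_ifs with hex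
      · obtain ⟨α, hα1, hα2⟩ := hex
        refine le_trans ?_ (Finset.single_le_sum (f := fun α =>
          (if den p (colInd c α) (p x) (p y) < γ then (1 : ℝ) else 0) * colInd c α x y)
          (fun α _ => hnn α) (Finset.mem_univ α))
        have h5 : den p (colInd c α) (p x) (p y) < γ := by
          by_contra hcon
          apply hα2
          unfold tl
          rw [Finset.mem_union]
          left
          unfold lst
          rw [Finset.mem_filter]
          exact ⟨Finset.mem_univ _, not_lt.1 hcon⟩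
        have h6 : colInd c α x y = 1 := by
          unfold colInd
          rw [if_pos hα1]
        simp only [h6, if_pos h5]
        norm_num
      · exact Finset.sum_nonneg fun α _ => hnn α
    · rw [if_neg hadj]
      exact Finset.sum_nonneg fun α _ => hnn α
  have h4 : ∀ α : Fin r, ∑ x : V, ∑ y : V,
      (if den p (colInd c α) (p x) (p y) < γ then (1 : ℝ) else 0) * colInd c α x y ≤
      γ * (Fintype.card V : ℝ) ^ 2 := by
    intro α
    rw [← sum_mul_proj p (colInd c α)
      (fun A B => if den p (colInd c α) A B < γ then (1 : ℝ) else 0)]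
    have h5 : ∑ x : V, ∑ y : V, (if den p (colInd c α) (p x) (p y) < γ then (1 : ℝ) else 0) *
        proj p (colInd c α) x y ≤ ∑ x : V, ∑ y : V, γ := by
      refine Finset.sum_le_sum fun x _ => Finset.sum_le_sum fun y _ => ?_
      split_ifs with h
      · rw [one_mul]
        exact h.le
      · rw [zero_mul]
        exact hγ
    refine h5.trans (le_of_eq ?_)
    simp only [Finset.sum_const, Finset.card_univ, nsmul_eq_mul]
    ring
  have h5 : ∑ α : Fin r, ∑ x : V, ∑ y : V,
      (if den p (colInd c α) (p x) (p y) < γ then (1 : ℝ) else 0) * colInd c α x y ≤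
      r * (γ * (Fintype.card V : ℝ) ^ 2) := by
    refine (Finset.sum_le_sum fun α _ => h4 α).trans (le_of_eq ?_)
    rw [Finset.sum_const, Finset.card_univ, Fintype.card_fin, nsmul_eq_mul]
  have h6 : (0 : ℝ) ≤
      ((univ.filter (fun e : G.edgeSet => c e ∉ tle (p, lst c p γ) (e : Sym2 V))).card : ℝ) := by
    positivity
  nlinarith

/-- good templates -/
noncomputable def goodT (V : Type) [Fintype V] (r M k : ℕ) (η : ℝ) : Finset (Tmpl V r M) :=
  univ.filter (fun τ => ((univ.filter (fun w : Fin k → V => Bad (tl τ) w)).card : ℝ) ≤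
    η * (Fintype.card V : ℝ) ^ k)

/-- every rainbow-free colouring fits some good template -/
lemma exists_template {G : SimpleGraph V} {k : ℕ} (c : G.edgeSet → Fin r)
    (hc : ¬ HasRainbow k G c) (ε γ η : ℝ) (hε : 0 < ε) (hγ : 0 < γ) (J M : ℕ)
    (hJ : 1 < J * ε ^ 2) (hM : M = 4 ^ J)
    (hη : (r : ℝ) ^ (k * k) * ((prs k).card * ε) ≤ η * γ ^ (prs k).card) :
    ∃ τ ∈ goodT V r M k η,
      ((univ.filter (fun e : G.edgeSet => c e ∉ tle τ (e : Sym2 V))).card : ℝ) ≤
        r * γ * (Fintype.card V : ℝ) ^ 2 := by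
  obtain ⟨p, hp⟩ : ∃ p : V → Fin M, CutGood (colInd c) ε p := by
    rw [hM]
    exact weak_regularity (colInd c) (colInd_nonneg c) (sum_colInd_le c) ε hε J hJ
  refine ⟨(p, lst c p γ), ?_, exc_le c p γ hγ.le⟩
  unfold goodT
  rw [Finset.mem_filter]
  refine ⟨Finset.mem_univ _, ?_⟩
  have h1 := bad_count c hc p ε γ hε.le hγ.le hp
  have h2 : ∀ w : Fin k → V, Bad (tl (p, lst c p γ)) w ↔
      HasSDR (fun i j => lst c p γ (p (w i)) (p (w j))) := by
    intro w
    unfold Bad tl
    have : (fun i j : Fin k => lst c p γ (p (w i)) (p (w j)) ∪ lst c p γ (p (w j)) (p (w i))) =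
        (fun i j => lst c p γ (p (w i)) (p (w j))) := by
      funext i j
      rw [lst_symm c p γ (p (w j)) (p (w i)), Finset.union_self]
    simp only [this]
  simp only [h2]
  have h3 : (0 : ℝ) < γ ^ (prs k).card := by positivity
  have h4 : (r : ℝ) ^ (k * k) * ((prs k).card * (ε * (Fintype.card V : ℝ) ^ k)) ≤
      (η * (Fintype.card V : ℝ) ^ k) * γ ^ (prs k).card := by
    have := mul_le_mul_of_nonneg_right hη (by positivity : (0 : ℝ) ≤ (Fintype.card V : ℝ) ^ k)
    linarith
  exact le_of_mul_le_mul_right (h1.trans h4) h3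

lemma numCol_eq (r k : ℕ) (G : SimpleGraph V) :
    numCol r k G = (univ.filter (fun c : G.edgeSet → Fin r => ¬ HasRainbow k G c)).card := by
  unfold numCol
  rw [Nat.card_eq_fintype_card, Fintype.card_subtype]

/-- the best template -/
theorem numCol_le_template (G : SimpleGraph V) {k : ℕ} (ε γ η x : ℝ) (hε : 0 < ε) (hγ : 0 < γ)
    (J M : ℕ) (hJ : 1 < J * ε ^ 2) (hM : M = 4 ^ J)
    (hη : (r : ℝ) ^ (k * k) * ((prs k).card * ε) ≤ η * γ ^ (prs k).card)
    (hx0 : 0 < x) (hx1 : x ≤ 1) (hpos : 0 < numCol r k G) :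
    ∃ τ ∈ goodT V r M k η,
      (numCol r k G : ℝ) * x ^ (r * γ * (Fintype.card V : ℝ) ^ 2) ≤
      (M : ℝ) ^ (Fintype.card V) * ((2 : ℝ) ^ r) ^ (M * M) *
        ∏ e : G.edgeSet, (((tle τ (e : Sym2 V)).card : ℝ) +
          x * (r - (tle τ (e : Sym2 V)).card)) := by
  set m : ℝ := r * γ * (Fintype.card V : ℝ) ^ 2 with hm
  set Qf : Tmpl V r M → ℝ := fun τ => ∏ e : G.edgeSet, (((tle τ (e : Sym2 V)).card : ℝ) +
          x * (r - (tle τ (e : Sym2 V)).card)) with hQf
  have hcov : (univ.filter (fun c : G.edgeSet → Fin r => ¬ HasRainbow k G c)) ⊆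
      (goodT V r M k η).biUnion (fun τ => univ.filter (fun c : G.edgeSet → Fin r =>
        ((univ.filter (fun e : G.edgeSet => c e ∉ tle τ (e : Sym2 V))).card : ℝ) ≤ m)) := by
    intro c hc
    rw [Finset.mem_filter] at hc
    obtain ⟨τ, hτ1, hτ2⟩ := exists_template c hc.2 ε γ η hε hγ J M hJ hM hη
    rw [Finset.mem_biUnion]
    exact ⟨τ, hτ1, by rw [Finset.mem_filter]; exact ⟨Finset.mem_univ _, hτ2⟩⟩
  have hsum : (numCol r k G : ℝ) * x ^ m ≤ ∑ τ ∈ goodT V r M k η, Qf τ := by
    have h1 : (numCol r k G : ℝ) ≤ ∑ τ ∈ goodT V r M k η,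
        ((univ.filter (fun c : G.edgeSet → Fin r =>
        ((univ.filter (fun e : G.edgeSet => c e ∉ tle τ (e : Sym2 V))).card : ℝ) ≤ m)).card : ℝ) := by
      rw [numCol_eq]
      exact_mod_cast (Finset.card_le_card hcov).trans Finset.card_biUnion_le
    calc (numCol r k G : ℝ) * x ^ m ≤ (∑ τ ∈ goodT V r M k η,
        ((univ.filter (fun c : G.edgeSet → Fin r =>
        ((univ.filter (fun e : G.edgeSet => c e ∉ tle τ (e : Sym2 V))).card : ℝ) ≤ m)).card : ℝ))
          * x ^ m := mul_le_mul_of_nonneg_right h1 (Real.rpow_nonneg hx0.le _)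
      _ = ∑ τ ∈ goodT V r M k η,
        ((univ.filter (fun c : G.edgeSet → Fin r =>
        ((univ.filter (fun e : G.edgeSet => c e ∉ tle τ (e : Sym2 V))).card : ℝ) ≤ m)).card : ℝ)
          * x ^ m := by rw [Finset.sum_mul]
      _ ≤ _ := Finset.sum_le_sum fun τ _ =>
        tilted_le (fun e : G.edgeSet => tle τ (e : Sym2 V)) x m hx0 hx1
  have hne : (goodT V r M k η).Nonempty := by
    rw [numCol_eq, Finset.card_pos] at hpos
    obtain ⟨c, hc⟩ := hpos
    rw [Finset.mem_filter] at hc
    obtain ⟨τ, hτ1, -⟩ := exists_template c hc.2 ε γ η hε hγ J M hJ hM hη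
    exact ⟨τ, hτ1⟩
  obtain ⟨τ, hτ, hmax⟩ := Finset.exists_max_image (goodT V r M k η) Qf hne
  refine ⟨τ, hτ, hsum.trans ?_⟩
  have h2 : ∑ τ' ∈ goodT V r M k η, Qf τ' ≤ ((goodT V r M k η).card : ℝ) * Qf τ := by
    rw [← nsmul_eq_mul, ← Finset.sum_const]
    exact Finset.sum_le_sum fun τ' hτ' => hmax τ' hτ'
  refine h2.trans ?_
  have h3 : 0 ≤ Qf τ := by
    refine Finset.prod_nonneg fun e _ => ?_
    have h4 : (((tle τ (e : Sym2 V)).card : ℕ) : ℝ) ≤ r := by
      have : (tle τ (e : Sym2 V)).card ≤ r := by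
        simpa using Finset.card_le_univ (tle τ (e : Sym2 V))
      exact_mod_cast this
    have h5 : (0 : ℝ) ≤ ((tle τ (e : Sym2 V)).card : ℕ) := by positivity
    have h6 : 0 ≤ x * (r - ((tle τ (e : Sym2 V)).card : ℝ)) :=
      mul_nonneg hx0.le (by linarith)
    linarith
  refine mul_le_mul_of_nonneg_right ?_ h3
  have h4 : (goodT V r M k η).card ≤ M ^ (Fintype.card V) * ((2 ^ r) ^ (M * M)) := by
    refine (Finset.card_le_univ _).trans (le_of_eq ?_)
    rw [Fintype.card_prod, Fintype.card_fun, Fintype.card_fin, Fintype.card_fun, Fintype.card_fin,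
      Fintype.card_fun, Fintype.card_fin, Fintype.card_finset, Fintype.card_fin, pow_mul (2 ^ r)]
  exact_mod_cast h4

end

end Pool.Agent.Lib.MP_ba6833_co
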