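import Mathlib
import Pool.Agent.Lib.MP_ba6833_co.LS3
import Pool.Agent.Lib.MP_ba6833_co.Template
import Pool.Agent.Lib.MP_ba6833_co.TN

/-!
# Graphs with many rainbow-free colourings are nearly `a`-partite
-/

namespace Pool.Agent.Lib.MP_ba6833_co

open Finset
open scoped Classical

/-- a partition into `a` classes has at least `n² / a` ordered inner pairs -/
lemma inner_pairs_ge {V : Type} [Fintype V] {a : ℕ} (ha : 1 ≤ a) (P : V → Fin a) :
    (Fintype.card V : ℝ) ^ 2 / a ≤
      ((univ.filter (fun q : V × V => P q.1 = P q.2)).card : ℝ) := by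
  have ha' : (0 : ℝ) < a := by exact_mod_cast ha
  have h1 : (univ.filter (fun q : V × V => P q.1 = P q.2)).card =
      ∑ j : Fin a, ((univ.filter (fun x => P x = j)).card) ^ 2 := by
    rw [Finset.card_eq_sum_card_fiberwise (f := fun q => P q.1) (t := Finset.univ) (by simp)]
    refine Finset.sum_congr rfl fun j _ => ?_
    rw [sq, ← Finset.card_product]
    congr 1
    ext ⟨x, y⟩
    simp only [Finset.mem_filter, Finset.mem_univ, true_and, Finset.mem_product]
    constructor
    · rintro ⟨h1, h2⟩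
      exact ⟨h2, by rw [← h1, h2]⟩
    · rintro ⟨h1, h2⟩
      exact ⟨by rw [h1, h2], h1⟩
  have h2 : (Fintype.card V : ℝ) = ∑ j : Fin a, ((univ.filter (fun x => P x = j)).card : ℝ) := by
    have := Finset.card_eq_sum_card_fiberwise (f := P) (s := (univ : Finset V))
      (t := (Finset.univ : Finset (Fin a))) (by simp)
    rw [Finset.card_univ] at this
    exact_mod_cast this
  rw [div_le_iff₀ ha', h1, h2]
  have h3 := sq_sum_le_card_mul_sum_sq (s := (univ : Finset (Fin a)))
    (f := fun j => ((univ.filter (fun x => P x = j)).card : ℝ))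
  rw [Finset.card_univ, Fintype.card_fin] at h3
  push_cast
  linarith

lemma HasSDR.mono {k r : ℕ} {L L' : Fin k → Fin k → Finset (Fin r)} (h : HasSDR L)
    (hL : ∀ i j, L i j ⊆ L' i j) : HasSDR L' := by
  obtain ⟨φ, h1, h2⟩ := h
  exact ⟨φ, h1, fun p hp => hL _ _ (h2 p hp)⟩

section

variable {V : Type} [Fintype V] {r : ℕ}

/-- lists restricted to the edges of `G` -/
noncomputable def resL {M : ℕ} (G : SimpleGraph V) (τ : Tmpl V r M) (x y : V) : Finset (Fin r) :=
  if G.Adj x y then tl τ x y else ∅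

omit [Fintype V] in
lemma resL_symm {M : ℕ} (G : SimpleGraph V) (τ : Tmpl V r M) (x y : V) :
    resL G τ x y = resL G τ y x := by
  unfold resL
  simp only [G.adj_comm x y, tl_symm τ x y]

lemma logb_factor_le {r : ℕ} (hr : 2 ≤ r) (b s : ℕ) :
    Real.logb r ((s : ℝ) + (1 / (r : ℝ)) ^ (b + 1) * (r - s)) ≤
      (1 - dfc r s) + Real.logb r (1 + (1 / (r : ℝ)) ^ b) - b * (if s = 0 then 1 else 0) := by
  have h1 : (1 : ℝ) < r := by exact_mod_cast (by omega : 1 < r)
  have h0 : (0 : ℝ) < r := by linarith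
  have hxr : (1 / (r : ℝ)) ^ (b + 1) * r = (1 / (r : ℝ)) ^ b := by
    rw [pow_succ]
    field_simp
  have hpos : (0 : ℝ) < (1 / (r : ℝ)) ^ b := by positivity
  have hlam : 0 ≤ Real.logb r (1 + (1 / (r : ℝ)) ^ b) := Real.logb_nonneg h1 (by linarith)
  rcases Nat.eq_zero_or_pos s with hs | hs
  · subst hs
    rw [dfc_of_le_one (by omega), if_pos rfl]
    have h2 : ((0 : ℕ) : ℝ) + (1 / (r : ℝ)) ^ (b + 1) * (r - ((0 : ℕ) : ℝ)) =
        (r : ℝ) ^ (-(b : ℝ)) := by
      rw [Nat.cast_zero, zero_add, sub_zero, hxr, Real.rpow_neg h0.le, Real.rpow_natCast, one_div,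
        inv_pow]
    rw [h2, Real.logb_rpow h0 h1.ne']
    linarith
  · rw [if_neg (by omega)]
    have hs1 : (1 : ℝ) ≤ s := by exact_mod_cast hs
    have h2 : (s : ℝ) + (1 / (r : ℝ)) ^ (b + 1) * (r - s) ≤ s * (1 + (1 / (r : ℝ)) ^ b) := by
      have h3 : (1 / (r : ℝ)) ^ (b + 1) * (r - s) ≤ (1 / (r : ℝ)) ^ (b + 1) * r := by
        refine mul_le_mul_of_nonneg_left (by linarith) (by positivity)
      rw [hxr] at h3
      nlinarith
    have h3 : Real.logb r ((s : ℝ) + (1 / (r : ℝ)) ^ (b + 1) * (r - s)) ≤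
        Real.logb r (s * (1 + (1 / (r : ℝ)) ^ b)) ∨
        ((s : ℝ) + (1 / (r : ℝ)) ^ (b + 1) * (r - s)) ≤ 0 := by
      rcases lt_or_ge 0 ((s : ℝ) + (1 / (r : ℝ)) ^ (b + 1) * (r - s)) with h | h
      · left
        exact Real.logb_le_logb_of_le h1 h h2
      · right
        exact h
    have h4 : Real.logb r (s * (1 + (1 / (r : ℝ)) ^ b)) =
        (1 - dfc r s) + Real.logb r (1 + (1 / (r : ℝ)) ^ b) := by
      rw [Real.logb_mul (by positivity) (by positivity)]
      unfold dfc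
      ring
    rcases h3 with h3 | h3
    · rw [h4] at h3
      linarith
    · -- impossible case, but the bound is easy: `s ≥ 1` and `x (r - s) ≥ - x s`
      exfalso
      have h5 : (1 / (r : ℝ)) ^ (b + 1) ≤ 1 := by
        apply pow_le_one₀ (by positivity)
        rw [div_le_one h0]
        exact h1.le
      have h6 : (0 : ℝ) < (1 / (r : ℝ)) ^ (b + 1) := by positivity
      have h7 : (1 / (r : ℝ)) ^ (b + 1) * s ≤ s := by nlinarith
      have h8 : 0 < (1 / (r : ℝ)) ^ (b + 1) * r := by positivity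
      linarith

lemma factor_pos {r : ℕ} (hr : 2 ≤ r) (b s : ℕ) (hs : s ≤ r) :
    0 < (s : ℝ) + (1 / (r : ℝ)) ^ (b + 1) * (r - s) := by
  have h0 : (0 : ℝ) < r := by exact_mod_cast (by omega : 0 < r)
  have hs' : (s : ℝ) ≤ r := by exact_mod_cast hs
  have hx : (0 : ℝ) < (1 / (r : ℝ)) ^ (b + 1) := by positivity
  rcases Nat.eq_zero_or_pos s with h | h
  · subst h
    simp only [Nat.cast_zero, sub_zero, zero_add]
    positivity
  · have h1 : (0 : ℝ) < s := by exact_mod_cast h
    have h2 : 0 ≤ (1 / (r : ℝ)) ^ (b + 1) * (r - s) := mul_nonneg hx.le (by linarith)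
    linarith

/-- taking logarithms in the template bound -/
theorem template_ineq {M : ℕ} (hM : 0 < M) (G : SimpleGraph V) (τ : Tmpl V r M) (hr : 2 ≤ r)
    (b : ℕ) (m N : ℝ) (hN : 0 < N)
    (h : N * ((1 / (r : ℝ)) ^ (b + 1)) ^ m ≤
      (M : ℝ) ^ (Fintype.card V) * ((2 : ℝ) ^ r) ^ (M * M) *
        ∏ e : G.edgeSet, (((tle τ (e : Sym2 V)).card : ℝ) +
          (1 / (r : ℝ)) ^ (b + 1) * (r - (tle τ (e : Sym2 V)).card))) :
    2 * Real.logb r N + defic (dl (resL G τ)) univ +
      b * ((univ.filter (fun q : V × V =>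
        G.Adj q.1 q.2 ∧ (tl τ q.1 q.2).card = 0)).card : ℝ) ≤
      (1 + Real.logb r (1 + (1 / (r : ℝ)) ^ b)) * (Fintype.card V : ℝ) ^ 2 +
      2 * (b + 1) * m + 2 * (Fintype.card V * Real.logb r M) +
      2 * ((M * M : ℕ) * (r * Real.logb r 2)) := by
  have h1 : (1 : ℝ) < r := by exact_mod_cast (by omega : 1 < r)
  have h0 : (0 : ℝ) < r := by linarith
  have hMr : (0 : ℝ) < M := by exact_mod_cast hM
  set lam := Real.logb r (1 + (1 / (r : ℝ)) ^ b) with hlam
  have hlam0 : 0 ≤ lam := by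
    have hpos : (0 : ℝ) < (1 / (r : ℝ)) ^ b := by positivity
    exact Real.logb_nonneg h1 (by linarith)
  have hfac : ∀ e : G.edgeSet, 0 < (((tle τ (e : Sym2 V)).card : ℝ) +
          (1 / (r : ℝ)) ^ (b + 1) * (r - (tle τ (e : Sym2 V)).card)) := by
    intro e
    refine factor_pos hr b _ ?_
    simpa using Finset.card_le_univ (tle τ (e : Sym2 V))
  have hxpos : (0 : ℝ) < (1 / (r : ℝ)) ^ (b + 1) := by positivity
  -- the logarithm of the left side
  have hL : Real.logb r (N * ((1 / (r : ℝ)) ^ (b + 1)) ^ m) = Real.logb r N - (b + 1) * m := by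
    rw [Real.logb_mul hN.ne' (Real.rpow_pos_of_pos hxpos m).ne', Real.logb_rpow_eq_mul_logb_of_pos
      hxpos]
    have h2 : (1 / (r : ℝ)) ^ (b + 1) = (r : ℝ) ^ (-((b : ℝ) + 1)) := by
      rw [Real.rpow_neg h0.le, one_div, inv_pow]
      congr 1
      rw [← Real.rpow_natCast]
      push_cast
      rfl
    rw [h2, Real.logb_rpow h0 h1.ne']
    ring
  have hR : Real.logb r ((M : ℝ) ^ (Fintype.card V) * ((2 : ℝ) ^ r) ^ (M * M) *
        ∏ e : G.edgeSet, (((tle τ (e : Sym2 V)).card : ℝ) +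
          (1 / (r : ℝ)) ^ (b + 1) * (r - (tle τ (e : Sym2 V)).card))) =
      Fintype.card V * Real.logb r M + (M * M : ℕ) * (r * Real.logb r 2) +
      ∑ e : G.edgeSet, Real.logb r (((tle τ (e : Sym2 V)).card : ℝ) +
          (1 / (r : ℝ)) ^ (b + 1) * (r - (tle τ (e : Sym2 V)).card)) := by
    rw [Real.logb_mul (by positivity) (Finset.prod_pos fun e _ => hfac e).ne',
      Real.logb_mul (by positivity) (by positivity), Real.logb_pow, Real.logb_pow, Real.logb_pow,
      Real.logb_prod _ _ (fun e _ => (hfac e).ne')]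
  have hlog : Real.logb r (N * ((1 / (r : ℝ)) ^ (b + 1)) ^ m) ≤
      Real.logb r ((M : ℝ) ^ (Fintype.card V) * ((2 : ℝ) ^ r) ^ (M * M) *
        ∏ e : G.edgeSet, (((tle τ (e : Sym2 V)).card : ℝ) +
          (1 / (r : ℝ)) ^ (b + 1) * (r - (tle τ (e : Sym2 V)).card))) :=
    Real.logb_le_logb_of_le h1 (mul_pos hN (Real.rpow_pos_of_pos hxpos m)) h
  rw [hL, hR] at hlog
  -- the sum over edges
  set f : V → V → ℝ := fun x y => (1 - dfc r (tl τ x y).card) + lam -
    b * (if (tl τ x y).card = 0 then 1 else 0) with hf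
  have hfs : ∀ x y, f x y = f y x := by
    intro x y
    rw [hf]
    simp only [tl_symm τ x y]
  have hsum1 : ∑ e : G.edgeSet, Real.logb r (((tle τ (e : Sym2 V)).card : ℝ) +
          (1 / (r : ℝ)) ^ (b + 1) * (r - (tle τ (e : Sym2 V)).card)) ≤
      ∑ e : G.edgeSet, Sym2.lift ⟨f, hfs⟩ (e : Sym2 V) := by
    refine Finset.sum_le_sum fun e _ => ?_
    obtain ⟨e, he⟩ := e
    induction e with
    | h x y =>
      exact logb_factor_le hr b (tl τ x y).card
  have hsum2 := sum_adj_eq_two_mul G f hfs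
  have hsum3 : ∑ x : V, ∑ y : V, (if G.Adj x y then f x y else 0) ≤
      ∑ x : V, ∑ y : V, ((1 - dl (resL G τ) x y) + lam -
        b * (if G.Adj x y ∧ (tl τ x y).card = 0 then 1 else 0)) := by
    refine Finset.sum_le_sum fun x _ => Finset.sum_le_sum fun y _ => ?_
    by_cases hadj : G.Adj x y
    · rw [if_pos hadj]
      have h2 : resL G τ x y = tl τ x y := by
        unfold resL
        rw [if_pos hadj]
      simp only [hf, dl, h2, hadj, true_and]
      exact le_rfl
    · rw [if_neg hadj, if_neg (fun h => hadj h.1)]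
      have h2 := dl_le_one hr (resL G τ) x y
      linarith
  have hsum4 : ∑ x : V, ∑ y : V, ((1 - dl (resL G τ) x y) + lam -
        b * (if G.Adj x y ∧ (tl τ x y).card = 0 then (1 : ℝ) else 0)) =
      (1 + lam) * (Fintype.card V : ℝ) ^ 2 - defic (dl (resL G τ)) univ -
      b * ((univ.filter (fun q : V × V =>
        G.Adj q.1 q.2 ∧ (tl τ q.1 q.2).card = 0)).card : ℝ) := by
    have h2 : ((univ.filter (fun q : V × V =>
        G.Adj q.1 q.2 ∧ (tl τ q.1 q.2).card = 0)).card : ℝ) =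
        ∑ x : V, ∑ y : V, (if G.Adj x y ∧ (tl τ x y).card = 0 then (1 : ℝ) else 0) := by
      rw [← Fintype.sum_prod_type' (fun x y =>
        (if G.Adj x y ∧ (tl τ x y).card = 0 then (1 : ℝ) else 0)), Finset.sum_ite]
      simp
    rw [h2, Finset.mul_sum]
    have h3 : (1 + lam) * (Fintype.card V : ℝ) ^ 2 = ∑ x : V, ∑ y : V, (1 + lam) := by
      simp only [Finset.sum_const, Finset.card_univ, nsmul_eq_mul]
      ring
    rw [h3]
    unfold defic
    rw [← Finset.sum_sub_distrib, ← Finset.sum_sub_distrib]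
    refine Finset.sum_congr rfl fun x _ => ?_
    rw [Finset.mul_sum, ← Finset.sum_sub_distrib, ← Finset.sum_sub_distrib]
    refine Finset.sum_congr rfl fun y _ => ?_
    ring
  rw [hsum4] at hsum3
  linarith

end

end Pool.Agent.Lib.MP_ba6833_co
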