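import Mathlib
import Pool.Agent.Lib.MP_ba6833_co.Near
import Pool.Agent.Lib.MP_ba6833_co.Emb

/-!
# Partitions maximising the number of crossing edges
-/

namespace Pool.Agent.Lib.MP_ba6833_co

open Finset
open scoped Classical

section

variable {V : Type} [Fintype V] {a : ℕ} (G : SimpleGraph V)

/-- ordered inner edges -/
noncomputable def inner (P : V → Fin a) : Finset (V × V) :=
  univ.filter (fun q : V × V => P q.1 = P q.2 ∧ G.Adj q.1 q.2)

/-- number of neighbours of `x` in part `j` -/
noncomputable def pdeg (P : V → Fin a) (x : V) (j : Fin a) : ℕ :=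
  ((part P j).filter (fun y => G.Adj x y)).card

/-- moving a vertex does not decrease the number of inner edges -/
def MaxCut (P : V → Fin a) : Prop := ∀ x j, pdeg G P x (P x) ≤ pdeg G P x j

/-- indicator of inner edges -/
noncomputable def innerInd (P : V → Fin a) (x y : V) : ℝ :=
  if P x = P y ∧ G.Adj x y then 1 else 0

lemma card_inner (P : V → Fin a) : ((inner G P).card : ℝ) = defic (innerInd G P) univ := by
  unfold defic innerInd inner
  rw [← Fintype.sum_prod_type' (fun x y => (if P x = P y ∧ G.Adj x y then (1 : ℝ) else 0)),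
    Finset.sum_ite]
  simp

omit [Fintype V] in
lemma innerInd_symm (P : V → Fin a) (x y : V) : innerInd G P x y = innerInd G P y x := by
  unfold innerInd
  have h : (P x = P y ∧ G.Adj x y) ↔ (P y = P x ∧ G.Adj y x) := by
    rw [G.adj_comm x y, eq_comm (a := P x)]
  by_cases h1 : P x = P y ∧ G.Adj x y
  · rw [if_pos h1, if_pos (h.1 h1)]
  · rw [if_neg h1, if_neg (fun h2 => h1 (h.2 h2))]

lemma sum_innerInd (P : V → Fin a) (x : V) :
    ∑ y, innerInd G P x y = pdeg G P x (P x) := by
  unfold innerInd pdeg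
  rw [Finset.sum_ite]
  simp only [Finset.sum_const_zero, add_zero, Finset.sum_const, nsmul_eq_mul, mul_one]
  congr 2
  ext y
  simp only [Finset.mem_filter, Finset.mem_univ, true_and, mem_part, eq_comm]

theorem exists_maxCut (P₀ : V → Fin a) :
    ∃ P : V → Fin a, (inner G P).card ≤ (inner G P₀).card ∧ MaxCut G P := by
  obtain ⟨P, -, hP⟩ := Finset.exists_min_image (Finset.univ : Finset (V → Fin a))
    (fun P => (inner G P).card) ⟨P₀, Finset.mem_univ _⟩
  refine ⟨P, hP P₀ (Finset.mem_univ _), ?_⟩
  intro x j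
  by_contra hcon
  push Not at hcon
  have h1 := hP (Function.update P x j) (Finset.mem_univ _)
  have h1' : ((inner G P).card : ℝ) ≤ ((inner G (Function.update P x j)).card : ℝ) := by
    exact_mod_cast h1
  rw [card_inner, card_inner,
    defic_erase (innerInd G P) (innerInd_symm G P) univ x (Finset.mem_univ x),
    defic_erase (innerInd G (Function.update P x j)) (innerInd_symm G _) univ x
      (Finset.mem_univ x), sum_innerInd, sum_innerInd] at h1'
  have h2 : ∀ P : V → Fin a, innerInd G P x x = 0 := by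
    intro P
    unfold innerInd
    rw [if_neg]
    rintro ⟨-, h⟩
    exact G.irrefl h
  have h3 : defic (innerInd G P) (univ.erase x) =
      defic (innerInd G (Function.update P x j)) (univ.erase x) := by
    unfold defic
    refine Finset.sum_congr rfl fun y hy => Finset.sum_congr rfl fun z hz => ?_
    unfold innerInd
    rw [Function.update_of_ne (Finset.ne_of_mem_erase hy),
      Function.update_of_ne (Finset.ne_of_mem_erase hz)]
  have h4 : pdeg G (Function.update P x j) x (Function.update P x j x) = pdeg G P x j := by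
    unfold pdeg
    rw [Function.update_self]
    congr 1
    ext y
    simp only [Finset.mem_filter, mem_part]
    constructor
    · rintro ⟨h5, h6⟩
      rw [Function.update_of_ne h6.ne'] at h5
      exact ⟨h5, h6⟩
    · rintro ⟨h5, h6⟩
      refine ⟨?_, h6⟩
      rw [Function.update_of_ne h6.ne']
      exact h5
  rw [h2, h2, h3, h4] at h1'
  have h5 : ((pdeg G P x j : ℕ) : ℝ) < pdeg G P x (P x) := by exact_mod_cast hcon
  linarith

lemma card_eq_pairs (P : V → Fin a) :
    ((univ.filter (fun q : V × V => P q.1 = P q.2)).card : ℝ) =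
      ∑ j : Fin a, ((part P j).card : ℝ) ^ 2 := by
  have h1 : (univ.filter (fun q : V × V => P q.1 = P q.2)).card =
      ∑ j : Fin a, ((part P j).card) ^ 2 := by
    rw [Finset.card_eq_sum_card_fiberwise (f := fun q => P q.1) (t := Finset.univ) (by simp)]
    refine Finset.sum_congr rfl fun j _ => ?_
    rw [sq, ← Finset.card_product]
    congr 1
    ext ⟨x, y⟩
    simp only [Finset.mem_filter, Finset.mem_univ, true_and, Finset.mem_product, mem_part]
    constructor
    · rintro ⟨h1, h2⟩
      exact ⟨h2, by rw [← h1, h2]⟩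
    · rintro ⟨h1, h2⟩
      exact ⟨by rw [h1, h2], h1⟩
  exact_mod_cast h1

lemma sum_card_part (P : V → Fin a) : ∑ j : Fin a, ((part P j).card : ℝ) = Fintype.card V := by
  have := Finset.card_eq_sum_card_fiberwise (f := P) (s := (univ : Finset V))
    (t := (Finset.univ : Finset (Fin a))) (by simp)
  rw [Finset.card_univ] at this
  unfold part
  exact_mod_cast this.symm

lemma two_mul_edges : 2 * (Fintype.card G.edgeSet : ℝ) =
    ((univ.filter (fun q : V × V => G.Adj q.1 q.2)).card : ℝ) := by
  have h1 := sum_adj_eq_two_mul G (fun _ _ => (1 : ℝ)) (fun _ _ => rfl)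
  have h2 : ∑ e : G.edgeSet, Sym2.lift ⟨(fun _ _ : V => (1 : ℝ)), fun _ _ => rfl⟩ (e : Sym2 V) =
      (Fintype.card G.edgeSet : ℝ) := by
    have h3 : ∀ e : G.edgeSet,
        Sym2.lift ⟨(fun _ _ : V => (1 : ℝ)), fun _ _ => rfl⟩ (e : Sym2 V) = 1 := by
      rintro ⟨e, he⟩
      induction e with
      | h x y => rfl
    rw [Finset.sum_congr rfl fun e _ => h3 e]
    simp
  rw [h2] at h1
  rw [← h1, ← Fintype.sum_prod_type' (fun x y => (if G.Adj x y then (1 : ℝ) else 0)),
    Finset.sum_ite]
  simp

/-- consequences of having few inner edges and many edges -/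
theorem part_sizes (ha : 1 ≤ a) (P : V → Fin a) (δ : ℝ)
    (hin : ((inner G P).card : ℝ) ≤ δ * (Fintype.card V : ℝ) ^ 2)
    (hE : tn a (Fintype.card V) ≤ Fintype.card G.edgeSet) :
    (∀ j, (((part P j).card : ℝ) - Fintype.card V / a) ^ 2 ≤
      δ * (Fintype.card V : ℝ) ^ 2 + a) ∧
    ((univ.filter (fun q : V × V => P q.1 ≠ P q.2 ∧ ¬ G.Adj q.1 q.2)).card : ℝ) ≤
      δ * (Fintype.card V : ℝ) ^ 2 + a ∧
    2 * (Fintype.card G.edgeSet : ℝ) ≤
      2 * tn a (Fintype.card V) + δ * (Fintype.card V : ℝ) ^ 2 + a := by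
  have ha' : (0 : ℝ) < a := by exact_mod_cast ha
  set n : ℝ := (Fintype.card V : ℝ) with hn
  have h1 := two_mul_edges G
  have h2 : (univ.filter (fun q : V × V => G.Adj q.1 q.2)).card =
      (inner G P).card +
      (univ.filter (fun q : V × V => P q.1 ≠ P q.2 ∧ G.Adj q.1 q.2)).card := by
    rw [← Finset.card_filter_add_card_filter_not (s := univ.filter
      (fun q : V × V => G.Adj q.1 q.2)) (fun q => P q.1 = P q.2), Finset.filter_filter,
      Finset.filter_filter]
    unfold inner
    congr 2
    · ext q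
      simp only [Finset.mem_filter, Finset.mem_univ, true_and]
      tauto
    · ext q
      simp only [Finset.mem_filter, Finset.mem_univ, true_and]
      tauto
  have h3 : (univ.filter (fun q : V × V => P q.1 ≠ P q.2)).card =
      (univ.filter (fun q : V × V => P q.1 ≠ P q.2 ∧ G.Adj q.1 q.2)).card +
      (univ.filter (fun q : V × V => P q.1 ≠ P q.2 ∧ ¬ G.Adj q.1 q.2)).card := by
    rw [← Finset.card_filter_add_card_filter_not (s := univ.filter
      (fun q : V × V => P q.1 ≠ P q.2)) (fun q => G.Adj q.1 q.2), Finset.filter_filter,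
      Finset.filter_filter]
  have h4 : (univ.filter (fun q : V × V => P q.1 = P q.2)).card +
      (univ.filter (fun q : V × V => P q.1 ≠ P q.2)).card = Fintype.card V * Fintype.card V := by
    rw [Finset.card_filter_add_card_filter_not, Finset.card_univ, Fintype.card_prod]
  have h4' : ((univ.filter (fun q : V × V => P q.1 = P q.2)).card : ℝ) +
      ((univ.filter (fun q : V × V => P q.1 ≠ P q.2)).card : ℝ) = n ^ 2 := by
    rw [hn, sq]
    exact_mod_cast h4
  have h2' : ((univ.filter (fun q : V × V => G.Adj q.1 q.2)).card : ℝ) =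
      (inner G P).card +
      ((univ.filter (fun q : V × V => P q.1 ≠ P q.2 ∧ G.Adj q.1 q.2)).card : ℝ) := by
    exact_mod_cast h2
  have h3' : ((univ.filter (fun q : V × V => P q.1 ≠ P q.2)).card : ℝ) =
      ((univ.filter (fun q : V × V => P q.1 ≠ P q.2 ∧ G.Adj q.1 q.2)).card : ℝ) +
      ((univ.filter (fun q : V × V => P q.1 ≠ P q.2 ∧ ¬ G.Adj q.1 q.2)).card : ℝ) := by
    exact_mod_cast h3
  have h5 : n ^ 2 / a ≤ ((univ.filter (fun q : V × V => P q.1 = P q.2)).card : ℝ) :=
    inner_pairs_ge ha P
  have h6 := le_tn ha (Fintype.card V)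
  rw [← hn] at h6
  have h7 : (tn a (Fintype.card V) : ℝ) ≤ Fintype.card G.edgeSet := by exact_mod_cast hE
  have h8 : (1 - 1 / (a : ℝ)) * n ^ 2 = n ^ 2 - n ^ 2 / a := by ring
  rw [h8] at h6
  have hmis0 : (0 : ℝ) ≤ ((univ.filter (fun q : V × V => P q.1 ≠ P q.2 ∧
      ¬ G.Adj q.1 q.2)).card : ℝ) := by positivity
  refine ⟨?_, by linarith, by linarith⟩
  intro j
  have h9 : ∑ j : Fin a, (((part P j).card : ℝ) - n / a) ^ 2 =
      ∑ j : Fin a, ((part P j).card : ℝ) ^ 2 - n ^ 2 / a := by
    have h10 : ∀ j : Fin a, (((part P j).card : ℝ) - n / a) ^ 2 =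
        ((part P j).card : ℝ) ^ 2 - 2 * (n / a) * (part P j).card + (n / a) ^ 2 := by
      intro j
      ring
    rw [Finset.sum_congr rfl fun j _ => h10 j, Finset.sum_add_distrib, Finset.sum_sub_distrib,
      ← Finset.mul_sum, sum_card_part, Finset.sum_const, Finset.card_univ, Fintype.card_fin,
      nsmul_eq_mul, ← hn]
    field_simp
    ring
  have h11 := Finset.single_le_sum (f := fun j : Fin a => (((part P j).card : ℝ) - n / a) ^ 2)
    (fun j _ => sq_nonneg _) (Finset.mem_univ j)
  rw [h9, ← card_eq_pairs] at h11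
  refine h11.trans ?_
  linarith

end

end Pool.Agent.Lib.MP_ba6833_co
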