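import Mathlib
import Pool.Agent.Lib.MP_ba6833_co.Near

/-!
# Graphs with many rainbow-free colourings are nearly `a`-partite: the theorem
-/

namespace Pool.Agent.Lib.MP_ba6833_co

open Finset
open scoped Classical

section

variable {V : Type} [Fintype V] {r : ℕ}

/-- the combination of the template inequality and list stability -/
theorem near_of_template {r a : ℕ} {κ : ℝ} (hN : NumCond r a κ) {M : ℕ} (G : SimpleGraph V)
    (τ : Tmpl V r M) (ε δ : ℝ) (b : ℕ) (hb : 1 ≤ b) (P : V → Fin a)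
    (hP : ((univ.filter (fun q : V × V => P q.1 = P q.2 ∧
      (resL G τ q.1 q.2).Nonempty)).card : ℝ) ≤ ε * (Fintype.card V : ℝ) ^ 2)
    (hD : defic (dl (resL G τ)) univ + b * ((univ.filter (fun q : V × V =>
        G.Adj q.1 q.2 ∧ (tl τ q.1 q.2).card = 0)).card : ℝ) ≤
      (1 / a + δ) * (Fintype.card V : ℝ) ^ 2) :
    ((univ.filter (fun q : V × V => P q.1 = P q.2 ∧ G.Adj q.1 q.2)).card : ℝ) ≤
      (2 * ε + δ) * (Fintype.card V : ℝ) ^ 2 := by
  have ha1 : 1 ≤ a := by have := hN.ha; omega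
  set Z := univ.filter (fun q : V × V => G.Adj q.1 q.2 ∧ (tl τ q.1 q.2).card = 0) with hZ
  set X := univ.filter (fun q : V × V => P q.1 = P q.2 ∧ (resL G τ q.1 q.2).Nonempty) with hX
  set Y := univ.filter (fun q : V × V => P q.1 = P q.2 ∧ ¬ (resL G τ q.1 q.2).Nonempty) with hY
  have h1 : (Y.card : ℝ) ≤ defic (dl (resL G τ)) univ := by
    have h2 : (Y.card : ℝ) = ∑ x : V, ∑ y : V,
        (if P x = P y ∧ ¬ (resL G τ x y).Nonempty then (1 : ℝ) else 0) := by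
      rw [← Fintype.sum_prod_type' (fun x y =>
        (if P x = P y ∧ ¬ (resL G τ x y).Nonempty then (1 : ℝ) else 0)), Finset.sum_ite]
      simp [hY]
    rw [h2]
    refine Finset.sum_le_sum fun x _ => Finset.sum_le_sum fun y _ => ?_
    split_ifs with h
    · rw [dl_eq_one_of_empty h.2]
    · exact dl_nonneg hN.hr2 _ _ _
  have h2 : (univ.filter (fun q : V × V => P q.1 = P q.2)).card = X.card + Y.card := by
    rw [← Finset.card_filter_add_card_filter_not (s := univ.filter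
      (fun q : V × V => P q.1 = P q.2)) (fun q => (resL G τ q.1 q.2).Nonempty)]
    rw [Finset.filter_filter, Finset.filter_filter]
  have h3 := inner_pairs_ge ha1 P
  rw [h2] at h3
  push_cast at h3
  have h4 : (Z.card : ℝ) ≤ b * Z.card := by
    have : (1 : ℝ) ≤ b := by exact_mod_cast hb
    have h5 : (0 : ℝ) ≤ Z.card := by positivity
    nlinarith
  have h5 : (univ.filter (fun q : V × V => P q.1 = P q.2 ∧ G.Adj q.1 q.2)) ⊆ X ∪ Z := by
    intro q hq
    rw [Finset.mem_filter] at hq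
    obtain ⟨-, h6, h7⟩ := hq
    rw [Finset.mem_union]
    by_cases h8 : (resL G τ q.1 q.2).Nonempty
    · left
      rw [hX, Finset.mem_filter]
      exact ⟨Finset.mem_univ _, h6, h8⟩
    · right
      rw [hZ, Finset.mem_filter]
      refine ⟨Finset.mem_univ _, h7, ?_⟩
      unfold resL at h8
      rw [if_pos h7, Finset.not_nonempty_iff_eq_empty] at h8
      rw [h8]
      rfl
  have h6 : ((univ.filter (fun q : V × V => P q.1 = P q.2 ∧ G.Adj q.1 q.2)).card : ℝ) ≤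
      X.card + Z.card := by
    exact_mod_cast (Finset.card_le_card h5).trans (Finset.card_union_le _ _)
  have h7 : (Fintype.card V : ℝ) ^ 2 / a = 1 / a * (Fintype.card V : ℝ) ^ 2 := by ring
  rw [h7] at h3
  nlinarith

end

lemma exists_b {r : ℕ} (hr : 2 ≤ r) (δ : ℝ) (hδ : 0 < δ) :
    ∃ b : ℕ, 1 ≤ b ∧ Real.logb r (1 + (1 / (r : ℝ)) ^ b) ≤ δ := by
  have h1 : (1 : ℝ) < r := by exact_mod_cast (by omega : 1 < r)
  have h0 : (0 : ℝ) < r := by linarith
  have h2 : (0 : ℝ) < (r : ℝ) ^ δ - 1 := by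
    have := Real.one_lt_rpow h1 hδ
    linarith
  obtain ⟨b, hb⟩ := exists_pow_lt_of_lt_one h2 (by
    rw [div_lt_one h0]
    exact h1 : 1 / (r : ℝ) < 1)
  refine ⟨b + 1, by omega, ?_⟩
  have h3 : (1 / (r : ℝ)) ^ (b + 1) ≤ (1 / (r : ℝ)) ^ b := by
    apply pow_le_pow_of_le_one (by positivity)
    · rw [div_le_one h0]
      exact h1.le
    · omega
  have h4 : 1 + (1 / (r : ℝ)) ^ (b + 1) ≤ (r : ℝ) ^ δ := by linarith
  rw [Real.logb_le_iff_le_rpow h1 (by positivity)]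
  exact h4

/-- **Graphs with many rainbow-free colourings are nearly `a`-partite.** -/
theorem near_partite {r a : ℕ} {κ : ℝ} (hN : NumCond r a κ) (ε : ℝ) (hε : 0 < ε) :
    ∃ n₀ : ℕ, ∀ (V : Type) [Fintype V] (G : SimpleGraph V), n₀ ≤ Fintype.card V →
      r ^ tn a (Fintype.card V) ≤ numCol r (a + 1) G →
      ∃ P : V → Fin a,
        ((univ.filter (fun q : V × V => P q.1 = P q.2 ∧ G.Adj q.1 q.2)).card : ℝ) ≤
          ε * (Fintype.card V : ℝ) ^ 2 := by
  have ha1 : 1 ≤ a := by have := hN.ha; omega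
  have ha : (0 : ℝ) < a := by exact_mod_cast ha1
  have hr2 := hN.hr2
  have h1r : (1 : ℝ) < r := by exact_mod_cast (by omega : 1 < r)
  have h0r : (0 : ℝ) < r := by linarith
  obtain ⟨δ₀, hδ₀, η, hη, n₁, hLS⟩ := list_stability hN (ε / 4) (by positivity)
  obtain ⟨δ₁, hδ₁0, hδ₁a, hδ₁b⟩ : ∃ δ₁ : ℝ, 0 < δ₁ ∧ δ₁ ≤ δ₀ ∧ δ₁ ≤ ε / 2 :=
    ⟨min δ₀ (ε / 2), by positivity, min_le_left _ _, min_le_right _ _⟩
  obtain ⟨b, hb1, hb2⟩ := exists_b hr2 (δ₁ / 4) (by positivity)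
  obtain ⟨γ, hγ0, hγ⟩ : ∃ γ : ℝ, 0 < γ ∧ 2 * (b + 1) * (r * γ) = δ₁ / 4 := by
    refine ⟨δ₁ / (8 * (b + 1) * r), by positivity, ?_⟩
    field_simp
    norm_num
  set k := a + 1 with hk
  obtain ⟨ε₁, hε₁0, hε₁⟩ : ∃ ε₁ : ℝ, 0 < ε₁ ∧
      (r : ℝ) ^ (k * k) * ((prs k).card * ε₁) ≤ η * γ ^ (prs k).card := by
    refine ⟨η * γ ^ (prs k).card / ((r : ℝ) ^ (k * k) * ((prs k).card + 1)), by positivity, ?_⟩
    have h1 : ((prs k).card : ℝ) * (η * γ ^ (prs k).card / ((r : ℝ) ^ (k * k) *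
        ((prs k).card + 1))) ≤ ((prs k).card + 1) * (η * γ ^ (prs k).card /
        ((r : ℝ) ^ (k * k) * ((prs k).card + 1))) := by
      refine mul_le_mul_of_nonneg_right (by linarith) (by positivity)
    refine (mul_le_mul_of_nonneg_left h1 (by positivity)).trans (le_of_eq ?_)
    field_simp
  obtain ⟨J, hJ⟩ : ∃ J : ℕ, 1 < J * ε₁ ^ 2 := by
    obtain ⟨J, hJ⟩ := exists_nat_gt (1 / ε₁ ^ 2)
    refine ⟨J, ?_⟩
    rw [div_lt_iff₀ (by positivity)] at hJ
    exact hJ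
  obtain ⟨M, hM⟩ : ∃ M : ℕ, M = 4 ^ J := ⟨_, rfl⟩
  have hM0 : 0 < M := by rw [hM]; positivity
  have hM1 : 0 ≤ Real.logb r M := Real.logb_nonneg h1r (by exact_mod_cast hM0)
  have h2r : 0 ≤ Real.logb r 2 := Real.logb_nonneg h1r (by norm_num)
  set C : ℝ := 2 * Real.logb r M + 2 * ((M * M : ℕ) * (r * Real.logb r 2)) + a with hC
  have hC0 : 0 ≤ C := by positivity
  refine ⟨n₁ + ⌈4 * C / δ₁⌉₊ + 1, ?_⟩
  intro V _ G hn hcol
  have hV : 0 < Fintype.card V := by omega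
  set n : ℝ := (Fintype.card V : ℝ) with hndef
  have hn0 : 0 < n := by rw [hndef]; exact_mod_cast hV
  have hn1 : 1 ≤ n := by rw [hndef]; exact_mod_cast hV
  have hn2 : 4 * C / δ₁ ≤ n := by
    have h1 := Nat.le_ceil (4 * C / δ₁)
    have h2 : ((⌈4 * C / δ₁⌉₊ : ℕ) : ℝ) ≤ n := by
      rw [hndef]
      exact_mod_cast (by omega : ⌈4 * C / δ₁⌉₊ ≤ Fintype.card V)
    linarith
  have hn3 : C * n ≤ δ₁ / 4 * n ^ 2 := by
    rw [div_le_iff₀ hδ₁0] at hn2
    nlinarith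
  have hpos : 0 < numCol r k G := lt_of_lt_of_le (by positivity) hcol
  obtain ⟨τ, hτ, hineq⟩ := numCol_le_template G ε₁ γ η ((1 / (r : ℝ)) ^ (b + 1)) hε₁0 hγ0 J M hJ
    hM hε₁ (by positivity) (by
      apply pow_le_one₀ (by positivity)
      rw [div_le_one h0r]
      exact h1r.le) hpos
  have hposr : (0 : ℝ) < numCol r k G := by exact_mod_cast hpos
  have hT := template_ineq hM0 G τ hr2 b _ _ hposr hineq
  have hlogN : (tn a (Fintype.card V) : ℝ) ≤ Real.logb r (numCol r k G) := by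
    rw [Real.le_logb_iff_rpow_le h1r hposr, Real.rpow_natCast]
    exact_mod_cast hcol
  have htn := le_tn ha1 (Fintype.card V)
  rw [← hndef] at hT htn
  have hD : defic (dl (resL G τ)) univ + b * ((univ.filter (fun q : V × V =>
        G.Adj q.1 q.2 ∧ (tl τ q.1 q.2).card = 0)).card : ℝ) ≤ (1 / a + δ₁) * n ^ 2 := by
    have h1 : 2 * ((b : ℝ) + 1) * (r * γ * n ^ 2) = δ₁ / 4 * n ^ 2 := by
      rw [← hγ]
      ring
    have h2 : Real.logb r (1 + (1 / (r : ℝ)) ^ b) * n ^ 2 ≤ δ₁ / 4 * n ^ 2 :=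
      mul_le_mul_of_nonneg_right hb2 (by positivity)
    have h3 : 2 * (n * Real.logb r M) + 2 * ((M * M : ℕ) * (r * Real.logb r 2)) + a ≤ C * n := by
      have h4 : 0 ≤ 2 * (((M * M : ℕ) : ℝ) * (r * Real.logb r 2)) + a := by positivity
      rw [hC]
      nlinarith
    have h5 : (1 - 1 / (a : ℝ)) * n ^ 2 = n ^ 2 - 1 / a * n ^ 2 := by ring
    rw [h5] at htn
    have h6 : (1 + Real.logb r (1 + (1 / (r : ℝ)) ^ b)) * n ^ 2 =
        n ^ 2 + Real.logb r (1 + (1 / (r : ℝ)) ^ b) * n ^ 2 := by ring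
    rw [h6, h1] at hT
    have h7 : (1 / (a : ℝ) + δ₁) * n ^ 2 = 1 / a * n ^ 2 + δ₁ * n ^ 2 := by ring
    rw [h7]
    have h8 : 0 ≤ δ₁ * n ^ 2 := by positivity
    linarith
  have hbad : ((univ.filter (fun w : Fin (a + 1) → V => Bad (resL G τ) w)).card : ℝ) ≤
      η * (Fintype.card V : ℝ) ^ (a + 1) := by
    unfold goodT at hτ
    rw [Finset.mem_filter] at hτ
    refine le_trans ?_ hτ.2
    have : (univ.filter (fun w : Fin (a + 1) → V => Bad (resL G τ) w)) ⊆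
        (univ.filter (fun w : Fin k → V => Bad (tl τ) w)) := by
      intro w hw
      rw [Finset.mem_filter] at hw ⊢
      refine ⟨Finset.mem_univ _, hw.2.mono ?_⟩
      intro i j
      unfold resL
      split_ifs
      · exact Finset.Subset.refl _
      · exact Finset.empty_subset _
    exact_mod_cast Finset.card_le_card this
  have hD' : defic (dl (resL G τ)) univ ≤ (1 / a + δ₀) * (Fintype.card V : ℝ) ^ 2 := by
    have h1 : (0 : ℝ) ≤ b * ((univ.filter (fun q : V × V =>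
        G.Adj q.1 q.2 ∧ (tl τ q.1 q.2).card = 0)).card : ℝ) := by positivity
    have h2 : (1 / (a : ℝ) + δ₁) * n ^ 2 ≤ (1 / a + δ₀) * n ^ 2 :=
      mul_le_mul_of_nonneg_right (by linarith) (by positivity)
    rw [← hndef]
    linarith
  obtain ⟨P, hP⟩ := hLS V (resL G τ) (resL_symm G τ) (by omega) hbad hD'
  refine ⟨P, ?_⟩
  refine (near_of_template hN G τ (ε / 4) δ₁ b hb1 P hP hD).trans ?_
  refine mul_le_mul_of_nonneg_right ?_ (by positivity)
  linarith

end Pool.Agent.Lib.MP_ba6833_co
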