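import Mathlib
import Pool.Agent.Lib.MP_ba6833_co.Defs
import Pool.Agent.Lib.MP_ba6833_co.Tilt
import Pool.Agent.Lib.MP_ba6833_co.Template

/-!
# Deleting a vertex
-/

namespace Pool.Agent.Lib.MP_ba6833_co

open Finset
open scoped Classical

section

variable {V : Type} {r k : ℕ} {G : SimpleGraph V}

/-- the graph `G - x` -/
def delV (G : SimpleGraph V) (x : V) : SimpleGraph {v // v ≠ x} := G.comap Subtype.val

lemma delV_adj {x : V} {u v : {v // v ≠ x}} : (delV G x).Adj u v ↔ G.Adj u v := Iff.rfl

lemma map_mem {x : V} (e : Sym2 {v // v ≠ x}) (he : e ∈ (delV G x).edgeSet) :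
    e.map Subtype.val ∈ G.edgeSet := by
  induction e with
  | h u v =>
    rw [Sym2.map_mk]
    exact he

/-- restriction of a colouring to `G - x` -/
def restr (x : V) (c : G.edgeSet → Fin r) : (delV G x).edgeSet → Fin r :=
  fun e => c ⟨e.1.map Subtype.val, map_mem e.1 e.2⟩

/-- the colours of the edges at `x` -/
def star (x : V) (c : G.edgeSet → Fin r) : {v // G.Adj x v} → Fin r :=
  fun v => c ⟨s(x, v), v.2⟩

lemma col_restr (x : V) (c : G.edgeSet → Fin r) (u v : {v // v ≠ x}) :
    col (restr x c) u v = col c (u : V) (v : V) := by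
  by_cases h : G.Adj u v
  · rw [col_eq_some c h, col_eq_some (restr x c) (show (delV G x).Adj u v from h)]
    rfl
  · rw [col_eq_none c h, col_eq_none (restr x c) (show ¬ (delV G x).Adj u v from h)]

lemma col_star (x : V) (c : G.edgeSet → Fin r) (v : {v // G.Adj x v}) :
    col c x (v : V) = some (star x c v) := col_eq_some c v.2

lemma hasRainbow_of_restr (x : V) (c : G.edgeSet → Fin r)
    (h : HasRainbow k (delV G x) (restr x c)) : HasRainbow k G c := by
  rw [hasRainbow_iff] at h ⊢
  obtain ⟨w, h1, h2⟩ := h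
  refine ⟨fun i => (w i : V), fun p hp => h1 p hp, fun p hp q hq hpq => h2 p hp q hq ?_⟩
  rw [col_restr, col_restr]
  exact hpq

lemma eq_of_restr_star (x : V) (c c' : G.edgeSet → Fin r) (h1 : restr x c = restr x c')
    (h2 : star x c = star x c') : c = c' := by
  funext e
  obtain ⟨e, he⟩ := e
  induction e with
  | h u v =>
    have hadj : G.Adj u v := he
    by_cases hu : u = x
    · subst hu
      exact congrFun h2 ⟨v, hadj⟩
    · by_cases hv : v = x
      · subst hv
        have := congrFun h2 ⟨u, hadj.symm⟩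
        have h3 : (⟨s(u, v), he⟩ : G.edgeSet) = ⟨s(v, u), hadj.symm⟩ := Subtype.ext Sym2.eq_swap
        rw [h3]
        exact this
      · exact congrFun h1 ⟨s(⟨u, hu⟩, ⟨v, hv⟩), hadj⟩

variable [Fintype V]

/-- counting colourings of `G` through colourings of `G - x` and of the edges at `x` -/
theorem star_bound (x : V) (𝒞 : Finset (G.edgeSet → Fin r)) (h𝒞 : ∀ c ∈ 𝒞, ¬ HasRainbow k G c)
    {ι : Type} [Fintype ι]
    (L : ((delV G x).edgeSet → Fin r) → ι → {v // G.Adj x v} → Finset (Fin r))
    (Val : ((delV G x).edgeSet → Fin r) → ι → Prop) (y m B : ℝ) (hy0 : 0 < y) (hy1 : y ≤ 1)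
    (hL : ∀ c ∈ 𝒞, ∃ i, Val (restr x c) i ∧
      ((univ.filter (fun v => star x c v ∉ L (restr x c) i v)).card : ℝ) ≤ m)
    (hB0 : 0 ≤ B)
    (hB : ∀ c' i, Val c' i → ∏ v, (((L c' i v).card : ℝ) + y * (r - (L c' i v).card)) ≤ B) :
    (𝒞.card : ℝ) * y ^ m ≤ (numCol r k (delV G x) : ℝ) * (Fintype.card ι * B) := by
  set T := univ.filter (fun c' : (delV G x).edgeSet → Fin r => ¬ HasRainbow k (delV G x) c')
    with hT
  have hmaps : ∀ c ∈ 𝒞, restr x c ∈ T := by
    intro c hc
    rw [hT, Finset.mem_filter]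
    exact ⟨Finset.mem_univ _, fun h => h𝒞 c hc (hasRainbow_of_restr x c h)⟩
  have hfib : ∀ c' ∈ T, ((𝒞.filter (fun c => restr x c = c')).card : ℝ) * y ^ m ≤
      Fintype.card ι * B := by
    intro c' _
    have h1 : (𝒞.filter (fun c => restr x c = c')).card ≤
        ((univ.filter (fun i : ι => Val c' i)).biUnion (fun i =>
          univ.filter (fun s : {v // G.Adj x v} → Fin r =>
            ((univ.filter (fun v => s v ∉ L c' i v)).card : ℝ) ≤ m))).card := by
      refine Finset.card_le_card_of_injOn (fun c => star x c) ?_ ?_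
      · intro c hc
        rw [Finset.mem_coe, Finset.mem_filter] at hc
        obtain ⟨hc1, rfl⟩ := hc
        obtain ⟨i, hi1, hi2⟩ := hL c hc1
        rw [Finset.mem_coe, Finset.mem_biUnion]
        exact ⟨i, by rw [Finset.mem_filter]; exact ⟨Finset.mem_univ _, hi1⟩,
          by rw [Finset.mem_filter]; exact ⟨Finset.mem_univ _, hi2⟩⟩
      · intro c hc c₂ hc₂ heq
        rw [Finset.mem_coe, Finset.mem_filter] at hc hc₂
        exact eq_of_restr_star x c c₂ (hc.2.trans hc₂.2.symm) heq
    have h2 : ((𝒞.filter (fun c => restr x c = c')).card : ℝ) ≤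
        ∑ i ∈ univ.filter (fun i : ι => Val c' i),
          ((univ.filter (fun s : {v // G.Adj x v} → Fin r =>
            ((univ.filter (fun v => s v ∉ L c' i v)).card : ℝ) ≤ m)).card : ℝ) := by
      exact_mod_cast h1.trans Finset.card_biUnion_le
    calc ((𝒞.filter (fun c => restr x c = c')).card : ℝ) * y ^ m ≤
        (∑ i ∈ univ.filter (fun i : ι => Val c' i),
          ((univ.filter (fun s : {v // G.Adj x v} → Fin r =>
            ((univ.filter (fun v => s v ∉ L c' i v)).card : ℝ) ≤ m)).card : ℝ)) * y ^ m :=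
          mul_le_mul_of_nonneg_right h2 (Real.rpow_nonneg hy0.le _)
      _ = ∑ i ∈ univ.filter (fun i : ι => Val c' i),
          ((univ.filter (fun s : {v // G.Adj x v} → Fin r =>
            ((univ.filter (fun v => s v ∉ L c' i v)).card : ℝ) ≤ m)).card : ℝ) * y ^ m := by
          rw [Finset.sum_mul]
      _ ≤ ∑ i ∈ univ.filter (fun i : ι => Val c' i), B := by
          refine Finset.sum_le_sum fun i hi => ?_
          rw [Finset.mem_filter] at hi
          exact (tilted_le (L c' i) y m hy0 hy1).trans (hB c' i hi.2)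
      _ ≤ ∑ i : ι, B := Finset.sum_le_sum_of_subset_of_nonneg (Finset.filter_subset _ _)
          fun _ _ _ => hB0
      _ = Fintype.card ι * B := by
          rw [Finset.sum_const, Finset.card_univ, nsmul_eq_mul]
  have hcard : 𝒞.card = ∑ c' ∈ T, (𝒞.filter (fun c => restr x c = c')).card :=
    Finset.card_eq_sum_card_fiberwise hmaps
  rw [hcard]
  push_cast
  rw [Finset.sum_mul]
  refine (Finset.sum_le_sum hfib).trans (le_of_eq ?_)
  have hTn : numCol r k (delV G x) = T.card :=
    Nat.subtype_card T (fun c => by rw [hT, Finset.mem_filter]; simp)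
  rw [Finset.sum_const, nsmul_eq_mul, hTn]

end

end Pool.Agent.Lib.MP_ba6833_co
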