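import Mathlib
import Pool.Agent.Lib.MP_ba6833_co.Defs
import Pool.Agent.Lib.MP_ba6833_co.Tilt
import Pool.Agent.Lib.MP_ba6833_co.Emb

/-!
# Most colourings are typical
-/

namespace Pool.Agent.Lib.MP_ba6833_co

open Finset
open scoped Classical

/-- the constant `- log_r (1 - 1/(2r))` -/
noncomputable def lam1 (r : ℕ) : ℝ := - Real.logb r (1 - 1 / (2 * r))

lemma one_sub_pos {r : ℕ} (hr : 2 ≤ r) : (0 : ℝ) < 1 - 1 / (2 * r) ∧ (1 : ℝ) - 1 / (2 * r) < 1 := by
  have h2 : (2 : ℝ) ≤ r := by exact_mod_cast hr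
  have h3 : (0 : ℝ) < 1 / (2 * r) := by positivity
  have h4 : (1 : ℝ) / (2 * r) ≤ 1 / 4 := by
    rw [div_le_div_iff₀ (by positivity) (by norm_num)]
    linarith
  exact ⟨by linarith, by linarith⟩

lemma lam1_pos {r : ℕ} (hr : 2 ≤ r) : 0 < lam1 r := by
  unfold lam1
  have h1 : (1 : ℝ) < r := by exact_mod_cast (by omega : 1 < r)
  have := Real.logb_neg h1 (one_sub_pos hr).1 (one_sub_pos hr).2
  linarith

lemma lam1_le_one {r : ℕ} (hr : 2 ≤ r) : lam1 r ≤ 1 := by
  unfold lam1
  have h1 : (1 : ℝ) < r := by exact_mod_cast (by omega : 1 < r)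
  have h2 : (2 : ℝ) ≤ r := by exact_mod_cast hr
  have h0 : (0 : ℝ) < r := by linarith
  have h3 : (r : ℝ) ^ (-1 : ℝ) ≤ 1 - 1 / (2 * r) := by
    rw [Real.rpow_neg_one]
    have h4 : (r : ℝ)⁻¹ = 1 / r := (one_div _).symm
    have h5 : 1 / (2 * (r : ℝ)) = (1 / r) / 2 := by field_simp
    have h6 : 1 / (r : ℝ) ≤ 1 / 2 := by
      rw [div_le_div_iff₀ h0 (by norm_num)]
      linarith
    rw [h4, h5]
    linarith
  have h4 : -1 ≤ Real.logb r (1 - 1 / (2 * r)) := by
    rw [Real.le_logb_iff_rpow_le h1 (one_sub_pos hr).1]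
    exact h3
  linarith

lemma logb_two_le {r : ℕ} (hr : 2 ≤ r) : Real.logb r 2 ≤ 1 := by
  have h1 : (1 : ℝ) < r := by exact_mod_cast (by omega : 1 < r)
  rw [Real.logb_le_iff_le_rpow h1 (by norm_num), Real.rpow_one]
  exact_mod_cast hr

/-- colourings with a rare colour on a set of edges -/
lemma rare_count {E : Type} [Fintype E] [DecidableEq E] {r : ℕ} (hr : 2 ≤ r) (S : Finset E)
    (α : Fin r) (m : ℝ) :
    ((univ.filter (fun c : E → Fin r => ((S.filter (fun e => c e = α)).card : ℝ) ≤ m)).card : ℝ)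
      ≤ (r : ℝ) ^ ((Fintype.card E : ℝ) - lam1 r * S.card + m * Real.logb r 2) := by
  have h1 : (1 : ℝ) < r := by exact_mod_cast (by omega : 1 < r)
  have h0 : (0 : ℝ) < r := by linarith
  have h := tilted_le (fun e : E => if e ∈ S then (univ : Finset (Fin r)).erase α else univ)
    (1 / 2) m (by norm_num) (by norm_num)
  have h2 : (univ.filter (fun c : E → Fin r => ((S.filter (fun e => c e = α)).card : ℝ) ≤ m)) =
      (univ.filter (fun c : E → Fin r => ((univ.filter (fun e => c e ∉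
        (if e ∈ S then (univ : Finset (Fin r)).erase α else univ))).card : ℝ) ≤ m)) := by
    refine Finset.filter_congr fun c _ => ?_
    have h3 : S.filter (fun e => c e = α) = univ.filter (fun e => c e ∉
        (if e ∈ S then (univ : Finset (Fin r)).erase α else univ)) := by
      ext e
      simp only [Finset.mem_filter, Finset.mem_univ, true_and]
      by_cases he : e ∈ S
      · simp [he]
      · simp [he]
    rw [h3]
  have h3 : ∏ e : E, ((((if e ∈ S then (univ : Finset (Fin r)).erase α else univ).card : ℕ) : ℝ) +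
      (1 / 2) * (r - ((if e ∈ S then (univ : Finset (Fin r)).erase α else univ).card : ℕ))) =
      (r : ℝ) ^ (Fintype.card E) * (1 - 1 / (2 * r)) ^ S.card := by
    have h4 : ∀ e : E, ((((if e ∈ S then (univ : Finset (Fin r)).erase α else univ).card : ℕ) : ℝ)
        + (1 / 2) * (r - ((if e ∈ S then (univ : Finset (Fin r)).erase α else univ).card : ℕ))) =
        r * (if e ∈ S then (1 - 1 / (2 * (r : ℝ))) else 1) := by
      intro e
      by_cases he : e ∈ S
      · rw [if_pos he, if_pos he, Finset.card_erase_of_mem (Finset.mem_univ α), Finset.card_univ,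
          Fintype.card_fin, Nat.cast_sub (by omega)]
        field_simp
        push_cast
        ring
      · rw [if_neg he, if_neg he, Finset.card_univ, Fintype.card_fin]
        ring
    simp_rw [h4]
    rw [Finset.prod_mul_distrib, Finset.prod_const, Finset.card_univ]
    congr 1
    rw [Finset.prod_ite]
    simp
  rw [h3, ← h2] at h
  have h5 : (r : ℝ) ^ ((Fintype.card E : ℝ) - lam1 r * S.card + m * Real.logb r 2) =
      (r : ℝ) ^ (Fintype.card E) * (1 - 1 / (2 * r)) ^ S.card * (2 : ℝ) ^ m := by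
    rw [Real.rpow_add h0, Real.rpow_sub h0, Real.rpow_natCast]
    have h6 : (r : ℝ) ^ (m * Real.logb r 2) = (2 : ℝ) ^ m := by
      rw [mul_comm, Real.rpow_mul h0.le, Real.rpow_logb h0 h1.ne' (by norm_num)]
    have h7 : (r : ℝ) ^ (lam1 r * S.card) = ((1 - 1 / (2 * (r : ℝ))) ^ S.card)⁻¹ := by
      unfold lam1
      rw [Real.rpow_mul h0.le, Real.rpow_neg h0.le, Real.rpow_logb h0 h1.ne' (one_sub_pos hr).1,
        Real.rpow_natCast, inv_pow]
    rw [h6, h7, div_inv_eq_mul]
  rw [h5]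
  have h8 : (0 : ℝ) < (1 / 2 : ℝ) ^ m := Real.rpow_pos_of_pos (by norm_num) m
  have h9 : (1 / 2 : ℝ) ^ m * (2 : ℝ) ^ m = 1 := by
    rw [← Real.mul_rpow (by norm_num) (by norm_num)]
    norm_num
  calc ((univ.filter (fun c : E → Fin r => ((S.filter (fun e => c e = α)).card : ℝ) ≤ m)).card : ℝ)
      = ((univ.filter (fun c : E → Fin r =>
        ((S.filter (fun e => c e = α)).card : ℝ) ≤ m)).card : ℝ) * (1 / 2 : ℝ) ^ m *
          (2 : ℝ) ^ m := by rw [mul_assoc, h9, mul_one]
    _ ≤ _ := mul_le_mul_of_nonneg_right h (by positivity)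

section

variable {V : Type} [Fintype V] {r a : ℕ} {G : SimpleGraph V}

/-- the edges between `X` and `Y` -/
noncomputable def edgesXY (G : SimpleGraph V) (X Y : Finset V) : Finset G.edgeSet :=
  univ.filter (fun e => ∃ u ∈ X, ∃ v ∈ Y, (e : Sym2 V) = s(u, v))

omit [Fintype V] in
lemma injOn_mk {X Y : Finset V} (hXY : Disjoint X Y) :
    Set.InjOn (fun q : V × V => s(q.1, q.2)) (X ×ˢ Y : Finset (V × V)) := by
  intro q hq q' hq' h
  rw [Finset.mem_coe, Finset.mem_product] at hq hq'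
  simp only [Sym2.eq_iff] at h
  rcases h with ⟨h1, h2⟩ | ⟨h1, h2⟩
  · exact Prod.ext h1 h2
  · exfalso
    rw [Finset.disjoint_left] at hXY
    exact hXY hq.1 (h1 ▸ hq'.2)

lemma card_edgesXY_ge {X Y : Finset V} (hXY : Disjoint X Y) :
    ((X ×ˢ Y).filter (fun q => G.Adj q.1 q.2)).card ≤ (edgesXY G X Y).card := by
  have h1 : (((X ×ˢ Y).filter (fun q => G.Adj q.1 q.2)).image (fun q => s(q.1, q.2))).card =
      ((X ×ˢ Y).filter (fun q => G.Adj q.1 q.2)).card := by
    refine Finset.card_image_of_injOn ?_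
    exact (injOn_mk hXY).mono (by
      intro q hq
      rw [Finset.mem_coe] at hq ⊢
      exact Finset.mem_of_mem_filter q hq)
  rw [← h1, ← Finset.card_map (Function.Embedding.subtype _)]
  refine Finset.card_le_card ?_
  intro e he
  rw [Finset.mem_image] at he
  obtain ⟨q, hq, rfl⟩ := he
  rw [Finset.mem_filter, Finset.mem_product] at hq
  rw [Finset.mem_map]
  refine ⟨⟨s(q.1, q.2), hq.2⟩, ?_, rfl⟩
  unfold edgesXY
  rw [Finset.mem_filter]
  exact ⟨Finset.mem_univ _, q.1, hq.1.1, q.2, hq.1.2, rfl⟩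

lemma card_edgesXY_col (c : G.edgeSet → Fin r) (X Y : Finset V) (α : Fin r) :
    ((edgesXY G X Y).filter (fun e => c e = α)).card ≤ ∑ x ∈ X, cdeg c x Y α := by
  have h1 : ∑ x ∈ X, cdeg c x Y α = ((X ×ˢ Y).filter (fun q => col c q.1 q.2 = some α)).card := by
    rw [Finset.card_filter, Finset.sum_product]
    refine Finset.sum_congr rfl fun x _ => ?_
    unfold cdeg
    rw [Finset.card_filter]
  rw [h1, ← Finset.card_map (Function.Embedding.subtype _)]
  refine le_trans ?_ (Finset.card_image_le (f := fun q : V × V => s(q.1, q.2)))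
  refine Finset.card_le_card ?_
  intro e he
  rw [Finset.mem_map] at he
  obtain ⟨e, he, rfl⟩ := he
  rw [Finset.mem_filter] at he
  obtain ⟨he1, he2⟩ := he
  unfold edgesXY at he1
  rw [Finset.mem_filter] at he1
  obtain ⟨-, u, hu, v, hv, huv⟩ := he1
  rw [Finset.mem_image]
  refine ⟨(u, v), ?_, huv.symm⟩
  rw [Finset.mem_filter, Finset.mem_product]
  refine ⟨⟨hu, hv⟩, ?_⟩
  rw [col_eq_some_iff]
  have hadj : G.Adj u v := by
    have := e.2
    rw [huv] at this
    exact this
  refine ⟨hadj, ?_⟩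
  rw [← he2]
  congr 1
  exact Subtype.ext huv.symm

/-- **Most colourings are typical.** -/
theorem atyp_count (hr : 2 ≤ r) (P : V → Fin a) (μ ν D : ℝ) (hμ : 0 ≤ μ) (hν : ν ≤ lam1 r / 2)
    (hν0 : 0 ≤ ν)
    (hD : ((univ.filter (fun q : V × V => P q.1 ≠ P q.2 ∧ ¬ G.Adj q.1 q.2)).card : ℝ) ≤ D) :
    ((univ.filter (fun c : G.edgeSet → Fin r => ¬ Typical c P μ ν)).card : ℝ) ≤
      ((a : ℝ) ^ 2 * (4 ^ (Fintype.card V) * r)) *
        (r : ℝ) ^ ((Fintype.card G.edgeSet : ℝ) - lam1 r / 2 * (μ * Fintype.card V) ^ 2 +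
          lam1 r * D) := by
  have h1 : (1 : ℝ) < r := by exact_mod_cast (by omega : 1 < r)
  have h0 : (0 : ℝ) < r := by linarith
  have hl1 := lam1_pos hr
  have h2r := logb_two_le hr
  set ι := (Fin a × Fin a) × (Finset V × Finset V) × Fin r with hι
  set good : ι → Prop := fun q => q.1.1 ≠ q.1.2 ∧ (∀ x ∈ q.2.1.1, P x = q.1.1) ∧
    (∀ y ∈ q.2.1.2, P y = q.1.2) ∧ μ * Fintype.card V ≤ q.2.1.1.card ∧
    μ * Fintype.card V ≤ q.2.1.2.card with hgood
  set T : ι → Finset (G.edgeSet → Fin r) := fun q => univ.filter (fun c : G.edgeSet → Fin r =>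
    (((edgesXY G q.2.1.1 q.2.1.2).filter (fun e => c e = q.2.2)).card : ℝ) ≤
      ν * (q.2.1.1.card * q.2.1.2.card)) with hT
  have hcov : univ.filter (fun c : G.edgeSet → Fin r => ¬ Typical c P μ ν) ⊆
      (univ.filter good).biUnion T := by
    intro c hc
    rw [Finset.mem_filter] at hc
    obtain ⟨-, hc⟩ := hc
    unfold Typical at hc
    push Not at hc
    obtain ⟨i, j, hij, X, Y, hX, hY, hXc, hYc, α, hα⟩ := hc
    rw [Finset.mem_biUnion]
    refine ⟨((i, j), (X, Y), α), ?_, ?_⟩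
    · rw [Finset.mem_filter]
      exact ⟨Finset.mem_univ _, hij, hX, hY, hXc, hYc⟩
    · rw [hT]
      simp only [Finset.mem_filter, Finset.mem_univ, true_and]
      have h2 := card_edgesXY_col c X Y α
      have h3 : ((∑ x ∈ X, cdeg c x Y α : ℕ) : ℝ) ≤ ∑ x ∈ X, ν * (Y.card : ℝ) := by
        push_cast
        exact Finset.sum_le_sum fun x hx => (hα x hx).le
      rw [Finset.sum_const, nsmul_eq_mul] at h3
      have h4 : (((edgesXY G X Y).filter (fun e => c e = α)).card : ℝ) ≤
          ((∑ x ∈ X, cdeg c x Y α : ℕ) : ℝ) := by exact_mod_cast h2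
      linarith
  have hbound : ∀ q ∈ univ.filter good, ((T q).card : ℝ) ≤
      (r : ℝ) ^ ((Fintype.card G.edgeSet : ℝ) - lam1 r / 2 * (μ * Fintype.card V) ^ 2 +
          lam1 r * D) := by
    rintro ⟨⟨i, j⟩, ⟨X, Y⟩, α⟩ hq
    rw [Finset.mem_filter] at hq
    obtain ⟨-, hij, hX, hY, hXc, hYc⟩ := hq
    simp only at hij hX hY hXc hYc
    refine (rare_count hr (edgesXY G X Y) α _).trans ?_
    refine Real.rpow_le_rpow_of_exponent_le h1.le ?_
    have hXY : Disjoint X Y := by
      rw [Finset.disjoint_left]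
      intro x hx hy
      exact hij ((hX x hx).symm.trans (hY x hy))
    have h2 : ((X.card : ℝ) * Y.card) - D ≤ ((edgesXY G X Y).card : ℝ) := by
      have h3 : ((X ×ˢ Y).filter (fun q => G.Adj q.1 q.2)).card +
          ((X ×ˢ Y).filter (fun q => ¬ G.Adj q.1 q.2)).card = X.card * Y.card := by
        rw [Finset.card_filter_add_card_filter_not, Finset.card_product]
      have h4 : ((X ×ˢ Y).filter (fun q => ¬ G.Adj q.1 q.2)).card ≤
          (univ.filter (fun q : V × V => P q.1 ≠ P q.2 ∧ ¬ G.Adj q.1 q.2)).card := by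
        refine Finset.card_le_card ?_
        intro q hq
        rw [Finset.mem_filter, Finset.mem_product] at hq
        rw [Finset.mem_filter]
        refine ⟨Finset.mem_univ _, ?_, hq.2⟩
        rw [hX _ hq.1.1, hY _ hq.1.2]
        exact hij
      have h5 := card_edgesXY_ge (G := G) hXY
      have h3' : (((X ×ˢ Y).filter (fun q => G.Adj q.1 q.2)).card : ℝ) +
          (((X ×ˢ Y).filter (fun q => ¬ G.Adj q.1 q.2)).card : ℝ) = X.card * Y.card := by
        exact_mod_cast h3
      have h4' : (((X ×ˢ Y).filter (fun q => ¬ G.Adj q.1 q.2)).card : ℝ) ≤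
          ((univ.filter (fun q : V × V => P q.1 ≠ P q.2 ∧ ¬ G.Adj q.1 q.2)).card : ℝ) := by
        exact_mod_cast h4
      have h5' : (((X ×ˢ Y).filter (fun q => G.Adj q.1 q.2)).card : ℝ) ≤
          ((edgesXY G X Y).card : ℝ) := by exact_mod_cast h5
      linarith
    have h6 : (μ * Fintype.card V) ^ 2 ≤ (X.card : ℝ) * Y.card := by
      rw [sq]
      exact mul_le_mul hXc hYc (by positivity) (by positivity)
    have h7 : lam1 r * ((X.card : ℝ) * Y.card - D) ≤ lam1 r * ((edgesXY G X Y).card : ℝ) :=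
      mul_le_mul_of_nonneg_left h2 hl1.le
    have h8 : ν * ((X.card : ℝ) * Y.card) * Real.logb r 2 ≤
        lam1 r / 2 * ((X.card : ℝ) * Y.card) := by
      have h9 : 0 ≤ ν * ((X.card : ℝ) * Y.card) := by positivity
      have h10 : ν * ((X.card : ℝ) * Y.card) * Real.logb r 2 ≤
          ν * ((X.card : ℝ) * Y.card) * 1 := mul_le_mul_of_nonneg_left h2r h9
      have h11 : ν * ((X.card : ℝ) * Y.card) ≤ lam1 r / 2 * ((X.card : ℝ) * Y.card) :=
        mul_le_mul_of_nonneg_right hν (by positivity)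
      linarith
    have h9 : lam1 r / 2 * (μ * Fintype.card V) ^ 2 ≤ lam1 r / 2 * ((X.card : ℝ) * Y.card) :=
      mul_le_mul_of_nonneg_left h6 (by positivity)
    linarith
  have hsum : ((univ.filter (fun c : G.edgeSet → Fin r => ¬ Typical c P μ ν)).card : ℝ) ≤
      ∑ q ∈ univ.filter good, ((T q).card : ℝ) := by
    exact_mod_cast (Finset.card_le_card hcov).trans Finset.card_biUnion_le
  refine hsum.trans ((Finset.sum_le_sum hbound).trans ?_)
  rw [Finset.sum_const, nsmul_eq_mul]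
  refine mul_le_mul_of_nonneg_right ?_ (Real.rpow_nonneg h0.le _)
  have hcard : (univ.filter good).card ≤ a ^ 2 * (4 ^ (Fintype.card V) * r) := by
    refine (Finset.card_le_univ _).trans (le_of_eq ?_)
    show Fintype.card ((Fin a × Fin a) × (Finset V × Finset V) × Fin r) = _
    rw [Fintype.card_prod, Fintype.card_prod, Fintype.card_prod, Fintype.card_prod,
      Fintype.card_fin, Fintype.card_finset, Fintype.card_fin, ← mul_pow]
    ring
  exact_mod_cast hcard

end

end Pool.Agent.Lib.MP_ba6833_co
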