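import Mathlib
import Pool.Agent.Lib.MP_ba6833_co.Star
import Pool.Agent.Lib.MP_ba6833_co.Typ
import Pool.Agent.Lib.MP_ba6833_co.Cut

/-!
# Deleting a vertex: the two cases
-/

namespace Pool.Agent.Lib.MP_ba6833_co

open Finset
open scoped Classical

lemma deduce {r : ℕ} (hr : 2 ≤ r) (C N' I B Y T : ℝ) (hI : 0 < I) (hB : 0 < B) (hY : 0 < Y)
    (h : C * Y ≤ N' * (I * B)) (hC : (r : ℝ) ^ T / 4 ≤ C) :
    (r : ℝ) ^ (T - Real.logb r 4 + Real.logb r Y - Real.logb r I - Real.logb r B) ≤ N' := by
  have h1 : (1 : ℝ) < r := by exact_mod_cast (by omega : 1 < r)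
  have h0 : (0 : ℝ) < r := by linarith
  rw [Real.rpow_sub h0, Real.rpow_sub h0, Real.rpow_add h0, Real.rpow_sub h0,
    Real.rpow_logb h0 h1.ne' (by norm_num), Real.rpow_logb h0 h1.ne' hY,
    Real.rpow_logb h0 h1.ne' hI, Real.rpow_logb h0 h1.ne' hB, div_div, div_le_iff₀ (by positivity)]
  exact (mul_le_mul_of_nonneg_right hC hY.le).trans h

lemma card_fin_le {r : ℕ} (S : Finset (Fin r)) : (S.card : ℝ) ≤ r := by
  have : S.card ≤ r := by simpa using Finset.card_le_univ S
  exact_mod_cast this

section

variable {V : Type} [Fintype V] {r a : ℕ} {G : SimpleGraph V}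

/-- the product over the neighbours of `x` -/
lemma prod_star_le (hr : 2 ≤ r) (x : V) (F : {v // G.Adj x v} → ℝ) (g : V → ℝ)
    (hF0 : ∀ v, 0 ≤ F v) (hF : ∀ v, F v ≤ (r : ℝ) ^ g v) :
    ∏ v, F v ≤ (r : ℝ) ^ (∑ v ∈ univ.filter (fun v => G.Adj x v), g v) := by
  have h0 : (0 : ℝ) < r := by exact_mod_cast (by omega : 0 < r)
  refine (Finset.prod_le_prod (fun v _ => hF0 v) fun v _ => hF v).trans (le_of_eq ?_)
  rw [← Real.rpow_sum_of_pos h0]
  congr 1
  exact (Finset.sum_subtype (univ.filter (fun v => G.Adj x v)) (by simp) g).symm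

/-- a set of pairs with a rare colour: general deletion bound -/
theorem rare_star (hr : 2 ≤ r) (P : V → Fin a) (x : V) (s θ ε₃ μs : ℝ)
    (hin : (pdeg G P x (P x) : ℝ) ≤ ε₃ * Fintype.card V)
    (hs : ∀ j, ((part P j).card : ℝ) ≤ s * Fintype.card V)
    (𝒞 : Finset (G.edgeSet → Fin r)) (h𝒞 : ∀ c ∈ 𝒞, ¬ HasRainbow (a + 1) G c)
    {ι : Type} [Fintype ι] (N : ((delV G x).edgeSet → Fin r) → ι → Finset V) (β : ι → Fin r)
    (Val : ((delV G x).edgeSet → Fin r) → ι → Prop)
    (hVal : ∀ c' i, Val c' i → (∃ j, j ≠ P x ∧ N c' i ⊆ part P j) ∧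
      θ * Fintype.card V ≤ (N c' i).card)
    (hN : ∀ c ∈ 𝒞, ∃ i, Val (restr x c) i ∧
      (cdeg c x (N (restr x c) i) (β i) : ℝ) ≤ μs * Fintype.card V) :
    (𝒞.card : ℝ) * (1 / 2 : ℝ) ^ (μs * Fintype.card V) ≤
      (numCol r (a + 1) (delV G x) : ℝ) * (Fintype.card ι *
        (r : ℝ) ^ ((ε₃ + (a - 1) * s - lam1 r * θ) * Fintype.card V)) := by
  have h1 : (1 : ℝ) < r := by exact_mod_cast (by omega : 1 < r)
  have h0 : (0 : ℝ) < r := by linarith
  have hl1 := lam1_pos hr
  have hl2 := lam1_le_one hr
  refine star_bound x 𝒞 h𝒞 (fun c' i v => if (v : V) ∈ N c' i then univ.erase (β i) else univ)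
    Val (1 / 2) (μs * Fintype.card V) _ (by norm_num) (by norm_num) ?_ (by positivity) ?_
  · intro c hc
    obtain ⟨i, hi1, hi2⟩ := hN c hc
    refine ⟨i, hi1, le_trans ?_ hi2⟩
    have : (univ.filter (fun v : {v // G.Adj x v} => star x c v ∉
        (if (v : V) ∈ N (restr x c) i then univ.erase (β i) else univ))).card ≤
        cdeg c x (N (restr x c) i) (β i) := by
      rw [← Finset.card_map (Function.Embedding.subtype _)]
      refine Finset.card_le_card ?_
      intro v hv
      rw [Finset.mem_map] at hv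
      obtain ⟨v, hv, rfl⟩ := hv
      rw [Finset.mem_filter] at hv
      obtain ⟨-, hv⟩ := hv
      rw [Finset.mem_filter]
      by_cases hvN : (v : V) ∈ N (restr x c) i
      · rw [if_pos hvN] at hv
        refine ⟨hvN, ?_⟩
        have hvβ : star x c v = β i := by
          by_contra hne
          exact hv (Finset.mem_erase.2 ⟨hne, Finset.mem_univ _⟩)
        show col c x (v : V) = _
        rw [col_star, hvβ]
      · rw [if_neg hvN] at hv
        exact absurd (Finset.mem_univ _) hv
    exact_mod_cast this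
  · intro c' i hi
    obtain ⟨⟨j, hj, hNj⟩, hθ⟩ := hVal c' i hi
    set g : V → ℝ := fun v => if v ∈ N c' i then 1 - lam1 r else 1 with hg
    refine (prod_star_le hr x _ g ?_ ?_).trans ?_
    · intro v
      have h2 := card_fin_le (if (v : V) ∈ N c' i then univ.erase (β i) else univ)
      have h3 : (0 : ℝ) ≤ ((if (v : V) ∈ N c' i then univ.erase (β i) else univ).card : ℝ) := by
        positivity
      linarith
    · intro v
      rw [hg]
      simp only
      by_cases hvN : (v : V) ∈ N c' i
      · rw [if_pos hvN, if_pos hvN, Finset.card_erase_of_mem (Finset.mem_univ _),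
          Finset.card_univ, Fintype.card_fin, Nat.cast_sub (by omega)]
        have h2 : (r : ℝ) ^ (1 - lam1 r) = r * (1 - 1 / (2 * r)) := by
          unfold lam1
          rw [sub_neg_eq_add, Real.rpow_add h0, Real.rpow_one,
            Real.rpow_logb h0 h1.ne' (one_sub_pos hr).1]
        rw [h2]
        refine le_of_eq ?_
        field_simp
        push_cast
        ring
      · rw [if_neg hvN, if_neg hvN, Finset.card_univ, Fintype.card_fin, Real.rpow_one]
        linarith
    · refine Real.rpow_le_rpow_of_exponent_le h1.le ?_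
      have hg0 : ∀ v, 0 ≤ g v := by
        intro v
        rw [hg]
        simp only
        split_ifs <;> linarith
      have hg1 : ∀ v, g v ≤ 1 := by
        intro v
        rw [hg]
        simp only
        split_ifs <;> linarith
      -- split the neighbours of `x` into inner and outer ones
      have hsplit : ∑ v ∈ univ.filter (fun v => G.Adj x v), g v ≤
          (pdeg G P x (P x) : ℝ) + ∑ j ∈ univ.erase (P x), ∑ v ∈ part P j, g v := by
        have h2 : ∑ v ∈ univ.filter (fun v => G.Adj x v), g v =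
            ∑ j : Fin a, ∑ v ∈ (univ.filter (fun v => G.Adj x v)).filter (fun v => P v = j),
              g v :=
          (Finset.sum_fiberwise _ P g).symm
        rw [h2, ← Finset.add_sum_erase Finset.univ _ (Finset.mem_univ (P x))]
        refine add_le_add ?_ ?_
        · refine (Finset.sum_le_sum fun v _ => hg1 v).trans (le_of_eq ?_)
          rw [Finset.sum_const, nsmul_eq_mul, mul_one]
          unfold pdeg
          congr 2
          ext v
          simp only [Finset.mem_filter, Finset.mem_univ, true_and, mem_part]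
          tauto
        · refine Finset.sum_le_sum fun j _ => ?_
          refine Finset.sum_le_sum_of_subset_of_nonneg ?_ fun v _ _ => hg0 v
          intro v hv
          rw [Finset.mem_filter] at hv
          exact mem_part.2 hv.2
      have hNpart : ∑ v ∈ part P j, g v = ((part P j).card : ℝ) - lam1 r * (N c' i).card := by
        have h2 : ∀ v, g v = 1 - lam1 r * (if v ∈ N c' i then 1 else 0) := by
          intro v
          rw [hg]
          simp only
          split_ifs <;> ring
        rw [Finset.sum_congr rfl fun v _ => h2 v, Finset.sum_sub_distrib, ← Finset.mul_sum,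
          Finset.sum_const, nsmul_eq_mul, mul_one, Finset.sum_ite_mem,
          Finset.inter_eq_right.2 hNj, Finset.sum_const, nsmul_eq_mul, mul_one]
      have hj' : j ∈ (univ : Finset (Fin a)).erase (P x) :=
        Finset.mem_erase.2 ⟨hj, Finset.mem_univ _⟩
      have houter : ∑ j ∈ univ.erase (P x), ∑ v ∈ part P j, g v ≤
          (a - 1) * (s * Fintype.card V) - lam1 r * (θ * Fintype.card V) := by
        rw [← Finset.add_sum_erase _ _ hj', hNpart]
        have h2 : ∑ j ∈ (univ.erase (P x)).erase j, ∑ v ∈ part P j, g v ≤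
            ∑ j ∈ (univ.erase (P x)).erase j, s * Fintype.card V := by
          refine Finset.sum_le_sum fun j' _ => ?_
          refine (Finset.sum_le_sum fun v _ => hg1 v).trans ?_
          rw [Finset.sum_const, nsmul_eq_mul, mul_one]
          exact hs j'
        have h3 : ((((univ : Finset (Fin a)).erase (P x)).erase j).card : ℝ) = a - 2 := by
          rw [Finset.card_erase_of_mem hj', Finset.card_erase_of_mem (Finset.mem_univ _),
            Finset.card_univ, Fintype.card_fin]
          have ha2 : 2 ≤ a := by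
            have := Finset.card_pos.2 ⟨j, hj'⟩
            rw [Finset.card_erase_of_mem (Finset.mem_univ _), Finset.card_univ,
              Fintype.card_fin] at this
            omega
          rw [Nat.sub_sub, Nat.cast_sub ha2]
          push_cast
          ring
        rw [Finset.sum_const, nsmul_eq_mul, h3] at h2
        have h4 := hs j
        have h5 : lam1 r * (θ * Fintype.card V) ≤ lam1 r * (N c' i).card :=
          mul_le_mul_of_nonneg_left hθ hl1.le
        linarith
      calc ∑ v ∈ univ.filter (fun v => G.Adj x v), g v ≤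
            (pdeg G P x (P x) : ℝ) + ∑ j ∈ univ.erase (P x), ∑ v ∈ part P j, g v := hsplit
        _ ≤ ε₃ * Fintype.card V +
            ((a - 1) * (s * Fintype.card V) - lam1 r * (θ * Fintype.card V)) :=
          add_le_add hin houter
        _ = _ := by ring

/-- vertices whose colours are concentrated on few colours towards several parts -/
theorem hall_star (hr : 2 ≤ r) (P : V → Fin a) (x : V) (s κ mm : ℝ) (b : ℕ) (hs0 : 0 ≤ s)
    (hs : ∀ j, ((part P j).card : ℝ) ≤ s * Fintype.card V)
    (hκ : ∀ i : ℕ, 2 ≤ i → i ≤ a →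
      i * Real.logb r ((i - 1 : ℝ) + (1 / (r : ℝ)) ^ b) ≤ (i - 1 : ℝ) - κ / 2)
    (𝒞 : Finset (G.edgeSet → Fin r)) (h𝒞 : ∀ c ∈ 𝒞, ¬ HasRainbow (a + 1) G c)
    (hN : ∀ c ∈ 𝒞, ∃ (I : Finset (Fin a)) (C : Finset (Fin r)), 2 ≤ I.card ∧ C.card < I.card ∧
      ((univ.filter (fun v : {v // G.Adj x v} => P v ∈ I ∧ star x c v ∉ C)).card : ℝ) ≤ mm) :
    (𝒞.card : ℝ) * ((1 / (r : ℝ)) ^ (b + 1)) ^ mm ≤
      (numCol r (a + 1) (delV G x) : ℝ) * ((2 ^ a * 2 ^ r : ℕ) *
        (r : ℝ) ^ ((a - 1 - κ / 2) * (s * Fintype.card V))) := by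
  have h1 : (1 : ℝ) < r := by exact_mod_cast (by omega : 1 < r)
  have h0 : (0 : ℝ) < r := by linarith
  have hyr : (1 / (r : ℝ)) ^ (b + 1) * r = (1 / (r : ℝ)) ^ b := by
    rw [pow_succ]
    field_simp
  have hcardι : Fintype.card (Finset (Fin a) × Finset (Fin r)) = 2 ^ a * 2 ^ r := by
    rw [Fintype.card_prod, Fintype.card_finset, Fintype.card_finset, Fintype.card_fin,
      Fintype.card_fin]
  rw [← hcardι]
  refine star_bound x 𝒞 h𝒞 (ι := Finset (Fin a) × Finset (Fin r))
    (fun _ i v => if P v ∈ i.1 then i.2 else univ)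
    (fun _ i => 2 ≤ i.1.card ∧ i.2.card < i.1.card) ((1 / (r : ℝ)) ^ (b + 1)) mm _
    (by positivity) (by
      apply pow_le_one₀ (by positivity)
      rw [div_le_one h0]
      exact h1.le) ?_ (by positivity) ?_
  · intro c hc
    obtain ⟨I, C, hI, hC, hIC⟩ := hN c hc
    refine ⟨(I, C), ⟨hI, hC⟩, le_trans (le_of_eq ?_) hIC⟩
    congr 2
    ext v
    simp only [Finset.mem_filter, Finset.mem_univ, true_and]
    by_cases hv : P v ∈ I
    · rw [if_pos hv]
      tauto
    · rw [if_neg hv]
      constructor
      · intro h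
        exact absurd (Finset.mem_univ _) h
      · rintro ⟨h, -⟩
        exact absurd h hv
  · rintro c' ⟨I, C⟩ ⟨hI, hC⟩
    simp only at hI hC
    have hIa : I.card ≤ a := by simpa using Finset.card_le_univ I
    set h : ℝ := Real.logb r ((I.card - 1 : ℝ) + (1 / (r : ℝ)) ^ b) with hh
    have hI2 : (2 : ℝ) ≤ I.card := by exact_mod_cast hI
    have hz : (0 : ℝ) < (1 / (r : ℝ)) ^ b := by positivity
    have hh0 : 0 ≤ h := Real.logb_nonneg h1 (by linarith)
    have hhb : (r : ℝ) ^ h = (I.card - 1 : ℝ) + (1 / (r : ℝ)) ^ b :=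
      Real.rpow_logb h0 h1.ne' (by linarith)
    set g : V → ℝ := fun v => if P v ∈ I then h else 1 with hg
    have hy0 : (0 : ℝ) < (1 / (r : ℝ)) ^ (b + 1) := by positivity
    refine (prod_star_le hr x _ g ?_ ?_).trans ?_
    · intro v
      have h2 := card_fin_le (if P (v : V) ∈ I then C else univ)
      have h3 : (0 : ℝ) ≤ ((if P (v : V) ∈ I then C else univ).card : ℝ) := by positivity
      have h4 : 0 ≤ (1 / (r : ℝ)) ^ (b + 1) *
          (r - ((if P (v : V) ∈ I then C else univ).card : ℝ)) :=
        mul_nonneg hy0.le (by linarith)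
      simp only
      linarith
    · intro v
      rw [hg]
      simp only
      by_cases hv : P (v : V) ∈ I
      · rw [if_pos hv, if_pos hv, hhb]
        have h2 : (C.card : ℝ) ≤ I.card - 1 := by
          have : C.card + 1 ≤ I.card := hC
          have h3 : ((C.card + 1 : ℕ) : ℝ) ≤ I.card := by exact_mod_cast this
          push_cast at h3
          linarith
        have h3 : (1 / (r : ℝ)) ^ (b + 1) * (r - C.card) ≤ (1 / (r : ℝ)) ^ b := by
          rw [← hyr]
          refine mul_le_mul_of_nonneg_left ?_ hy0.le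
          have : (0 : ℝ) ≤ C.card := by positivity
          linarith
        linarith
      · rw [if_neg hv, if_neg hv, Finset.card_univ, Fintype.card_fin, Real.rpow_one]
        linarith
    · refine Real.rpow_le_rpow_of_exponent_le h1.le ?_
      have hg0 : ∀ v, 0 ≤ g v := by
        intro v
        rw [hg]
        simp only
        split_ifs
        · exact hh0
        · norm_num
      have h2 : ∑ v ∈ univ.filter (fun v => G.Adj x v), g v ≤ ∑ v, g v :=
        Finset.sum_le_sum_of_subset_of_nonneg (Finset.subset_univ _) fun v _ _ => hg0 v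
      have h3 : ∑ v, g v = ∑ j : Fin a, ∑ v ∈ univ.filter (fun v => P v = j), g v :=
        (Finset.sum_fiberwise _ P g).symm
      have h4 : ∀ j : Fin a, ∑ v ∈ univ.filter (fun v => P v = j), g v ≤
          (s * Fintype.card V) * (if j ∈ I then h else 1) := by
        intro j
        have h5 : ∑ v ∈ univ.filter (fun v => P v = j), g v =
            ((part P j).card : ℝ) * (if j ∈ I then h else 1) := by
          rw [← nsmul_eq_mul, ← Finset.sum_const]
          refine Finset.sum_congr rfl fun v hv => ?_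
          have hv' := mem_part.1 hv
          rw [hg]
          simp only [hv']
        rw [h5]
        refine mul_le_mul_of_nonneg_right (hs j) ?_
        split_ifs
        · exact hh0
        · norm_num
      have h5 : ∑ j : Fin a, (s * Fintype.card V) * (if j ∈ I then h else 1) =
          (s * Fintype.card V) * (I.card * h + (a - I.card)) := by
        rw [← Finset.mul_sum, Finset.sum_ite]
        simp only [Finset.sum_const, nsmul_eq_mul, mul_one]
        have h6 : (univ.filter (fun j => j ∈ I)) = I := by ext; simp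
        have h7 : (univ.filter (fun j => j ∉ I)) = Iᶜ := by ext; simp
        rw [h6, h7, Finset.card_compl, Fintype.card_fin, Nat.cast_sub hIa]
      have h6 := hκ I.card hI hIa
      have h7 : (0 : ℝ) ≤ s * Fintype.card V := by positivity
      calc ∑ v ∈ univ.filter (fun v => G.Adj x v), g v ≤ ∑ v, g v := h2
        _ = ∑ j : Fin a, ∑ v ∈ univ.filter (fun v => P v = j), g v := h3
        _ ≤ ∑ j : Fin a, (s * Fintype.card V) * (if j ∈ I then h else 1) :=
          Finset.sum_le_sum fun j _ => h4 j
        _ = (s * Fintype.card V) * (I.card * h + (a - I.card)) := h5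
        _ ≤ (s * Fintype.card V) * (a - 1 - κ / 2) := by
          refine mul_le_mul_of_nonneg_left ?_ h7
          rw [← hh] at h6
          linarith
        _ = _ := by ring

end

/-- the numerical condition behind Hall violations -/
lemma hall_num {r a : ℕ} {κ : ℝ} (hN : NumCond r a κ) (b : ℕ)
    (hb : Real.logb r (1 + (1 / (r : ℝ)) ^ b) ≤ κ / (2 * a)) :
    ∀ i : ℕ, 2 ≤ i → i ≤ a →
      i * Real.logb r ((i - 1 : ℝ) + (1 / (r : ℝ)) ^ b) ≤ (i - 1 : ℝ) - κ / 2 := by
  intro i hi2 hia
  have hr := hN.hr2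
  have h1 : (1 : ℝ) < r := by exact_mod_cast (by omega : 1 < r)
  have h0 : (0 : ℝ) < r := by linarith
  have ha : (0 : ℝ) < a := by
    have := hN.ha
    exact_mod_cast (by omega : 0 < a)
  obtain ⟨s, rfl⟩ : ∃ s, i = s + 1 := ⟨i - 1, by omega⟩
  have hs1 : 1 ≤ s := by omega
  have hs1' : (1 : ℝ) ≤ s := by exact_mod_cast hs1
  have hchoose : a < (a + 1).choose 2 ∨ a = 1 := by
    left
    rw [Nat.choose_two_right]
    have h2 : 2 ≤ a := hN.ha
    have h3 : a * 3 ≤ (a + 1) * (a + 1 - 1) := by
      rw [Nat.add_sub_cancel]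
      nlinarith
    omega
  have hsK : s < (a + 1).choose 2 := by
    rcases hchoose with h | h <;> omega
  have h2 := hN.hN s hs1 hsK
  have h3 : ⌊((a : ℝ) / a + κ) / dfc r s⌋₊ ≤ s := by
    refine le_trans ?_ h2
    exact Finset.single_le_sum (f := fun l : ℕ => ⌊((l : ℝ) / a + κ) / dfc r s⌋₊)
      (fun _ _ => Nat.zero_le _) (Finset.mem_Ico.2 ⟨by have := hN.ha; omega, by omega⟩)
  have hsr : s < r := by
    have := hN.hr
    omega
  have hu : 0 < dfc r s := dfc_pos hr hsr
  have h4 : ((a : ℝ) / a + κ) / dfc r s < s + 1 := by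
    have h5 := Nat.lt_floor_add_one (((a : ℝ) / a + κ) / dfc r s)
    have h6 : ((⌊((a : ℝ) / a + κ) / dfc r s⌋₊ : ℕ) : ℝ) ≤ s := by exact_mod_cast h3
    linarith
  rw [div_lt_iff₀ hu, div_self ha.ne'] at h4
  unfold dfc at h4
  have hz : (0 : ℝ) < (1 / (r : ℝ)) ^ b := by positivity
  have h5 : Real.logb r ((s : ℝ) + (1 / (r : ℝ)) ^ b) ≤
      Real.logb r s + Real.logb r (1 + (1 / (r : ℝ)) ^ b) := by
    rw [← Real.logb_mul (by positivity) (by positivity)]
    refine Real.logb_le_logb_of_le h1 (by positivity) ?_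
    nlinarith
  have h6 : ((s : ℝ) + 1) * (κ / (2 * a)) ≤ κ / 2 := by
    have h7 : ((s : ℝ) + 1) ≤ a := by exact_mod_cast hia
    have h8 : 0 < κ / (2 * a) := by
      have := hN.κpos
      positivity
    calc ((s : ℝ) + 1) * (κ / (2 * a)) ≤ a * (κ / (2 * a)) :=
          mul_le_mul_of_nonneg_right h7 h8.le
      _ = κ / 2 := by field_simp
  push_cast
  have h9 : ((s : ℝ) + 1 - 1) = s := by ring
  rw [h9]
  have h10 : ((s : ℝ) + 1) * Real.logb r ((s : ℝ) + (1 / (r : ℝ)) ^ b) ≤
      (s + 1) * (Real.logb r s + κ / (2 * a)) :=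
    mul_le_mul_of_nonneg_left (by linarith) (by positivity)
  linarith

end Pool.Agent.Lib.MP_ba6833_co
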