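import Mathlib
import Pool.Agent.Lib.MP_ba6833_co.StarCases

/-!
# The deletion step
-/

namespace Pool.Agent.Lib.MP_ba6833_co

open Finset
open scoped Classical

section

variable {V : Type} [Fintype V] {r a : ℕ} {G : SimpleGraph V}

lemma pdeg_eq_sum (c : G.edgeSet → Fin r) (P : V → Fin a) (x : V) (j : Fin a) :
    pdeg G P x j = ∑ α, cdeg c x (part P j) α := by
  unfold pdeg cdeg
  rw [← Finset.card_biUnion]
  · congr 1
    ext v
    simp only [Finset.mem_filter, Finset.mem_biUnion, Finset.mem_univ, true_and]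
    constructor
    · rintro ⟨h1, h2⟩
      exact ⟨_, h1, col_eq_some c h2⟩
    · rintro ⟨α, h1, h2⟩
      exact ⟨h1, adj_of_col c h2⟩
  · intro α _ β _ hαβ
    rw [Function.onFun, Finset.disjoint_left]
    intro v hv hv'
    rw [Finset.mem_filter] at hv hv'
    rw [hv.2] at hv'
    exact hαβ (Option.some.inj hv'.2)

/-- deletion of a vertex of large inner degree -/
theorem caseA_step {κ : ℝ} (hN : NumCond r a κ) (P : V → Fin a) (x : V)
    (s ε₃ μ ν μA : ℝ) (b : ℕ)
    (hb : Real.logb r (1 + (1 / (r : ℝ)) ^ b) ≤ κ / (2 * a)) (hs0 : 0 ≤ s)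
    (hs : ∀ j, ((part P j).card : ℝ) ≤ s * Fintype.card V)
    (hμ : 0 < μ) (hν0 : 0 < ν) (hν1 : ν ≤ 1) (hV : 0 < Fintype.card V)
    (hμA : a * μ ≤ ν ^ a * μA) (hμA0 : 0 < μA) (hμAε : r * μA < ε₃)
    (hdeg : ∀ j, ε₃ * Fintype.card V ≤ pdeg G P x j)
    (𝒞 : Finset (G.edgeSet → Fin r))
    (h𝒞 : ∀ c ∈ 𝒞, ¬ HasRainbow (a + 1) G c ∧ Typical c P μ ν) :
    (𝒞.card : ℝ) * ((1 / (r : ℝ)) ^ (b + 1)) ^ (a * r * μA * Fintype.card V) ≤
      (numCol r (a + 1) (delV G x) : ℝ) * ((2 ^ a * 2 ^ r : ℕ) *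
        (r : ℝ) ^ ((a - 1 - κ / 2) * (s * Fintype.card V))) := by
  have hVr : (0 : ℝ) < Fintype.card V := by exact_mod_cast hV
  have ha0 : 0 < a := by have := hN.ha; omega
  refine hall_star hN.hr2 P x s κ _ b hs0 hs (hall_num hN b hb) 𝒞 (fun c hc => (h𝒞 c hc).1) ?_
  intro c hc
  obtain ⟨hcr, hct⟩ := h𝒞 c hc
  obtain ⟨I, hI⟩ := caseA ha0 hN.hr c hcr P μ ν μA hμ hν0 hν1 hV hct hμA x
  set Pop : Fin a → Finset (Fin r) := fun j => univ.filter (fun α : Fin r =>
        μA * Fintype.card V ≤ cdeg c x (part P j) α) with hPop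
  refine ⟨I, I.biUnion Pop, ?_, hI, ?_⟩
  · -- `2 ≤ |I|`
    by_contra hcon
    have h1 : I.card = 1 := by omega
    obtain ⟨j, rfl⟩ := Finset.card_eq_one.1 h1
    rw [Finset.card_singleton, Finset.singleton_biUnion] at hI
    have h2 : Pop j = ∅ := Finset.card_eq_zero.1 (by omega)
    have h3 : ∀ α, (cdeg c x (part P j) α : ℝ) ≤ μA * Fintype.card V := by
      intro α
      by_contra hα
      push Not at hα
      have : α ∈ Pop j := by
        rw [hPop]
        simp only [Finset.mem_filter, Finset.mem_univ, true_and]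
        exact hα.le
      rw [h2] at this
      exact absurd this (Finset.notMem_empty α)
    have h4 := hdeg j
    rw [pdeg_eq_sum c] at h4
    push_cast at h4
    have h5 : ∑ α : Fin r, (cdeg c x (part P j) α : ℝ) ≤ r * (μA * Fintype.card V) := by
      refine (Finset.sum_le_sum fun α _ => h3 α).trans (le_of_eq ?_)
      rw [Finset.sum_const, Finset.card_univ, Fintype.card_fin, nsmul_eq_mul]
    have h6 : r * μA * Fintype.card V < ε₃ * Fintype.card V :=
      mul_lt_mul_of_pos_right hμAε hVr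
    linarith
  · -- few exceptional neighbours
    have hsub : (univ.filter (fun v : {v // G.Adj x v} => P v ∈ I ∧
        star x c v ∉ I.biUnion Pop)).map (Function.Embedding.subtype _) ⊆
        (Finset.univ : Finset (Fin a × Fin r)).biUnion (fun q =>
          if q.2 ∈ Pop q.1 then ∅ else (part P q.1).filter (fun v => col c x v = some q.2)) := by
      intro v hv
      rw [Finset.mem_map] at hv
      obtain ⟨v, hv, rfl⟩ := hv
      rw [Finset.mem_filter] at hv
      obtain ⟨-, hvI, hv2⟩ := hv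
      rw [Finset.mem_biUnion]
      refine ⟨(P v, star x c v), Finset.mem_univ _, ?_⟩
      have h1 : star x c v ∉ Pop (P v) := fun h => hv2 (Finset.mem_biUnion.2 ⟨_, hvI, h⟩)
      simp only [h1, if_false]
      rw [Finset.mem_filter]
      exact ⟨mem_part.2 rfl, col_star x c v⟩
    have h1 : ((univ.filter (fun v : {v // G.Adj x v} => P v ∈ I ∧
        star x c v ∉ I.biUnion Pop)).card : ℝ) ≤ ∑ q : Fin a × Fin r,
        (((if q.2 ∈ Pop q.1 then ∅ else
          (part P q.1).filter (fun v => col c x v = some q.2)) : Finset V).card : ℝ) := by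
      rw [← Finset.card_map (Function.Embedding.subtype _)]
      exact_mod_cast (Finset.card_le_card hsub).trans Finset.card_biUnion_le
    refine h1.trans ?_
    have h2 : ∀ q : Fin a × Fin r, (((if q.2 ∈ Pop q.1 then ∅ else
          (part P q.1).filter (fun v => col c x v = some q.2)) : Finset V).card : ℝ) ≤
          μA * Fintype.card V := by
      rintro ⟨j, α⟩
      simp only
      by_cases hα : α ∈ Pop j
      · rw [if_pos hα, Finset.card_empty, Nat.cast_zero]
        positivity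
      · rw [if_neg hα]
        rw [hPop] at hα
        simp only [Finset.mem_filter, Finset.mem_univ, true_and, not_le] at hα
        exact hα.le
    refine (Finset.sum_le_sum fun q _ => h2 q).trans (le_of_eq ?_)
    rw [Finset.sum_const, Finset.card_univ, Fintype.card_prod, Fintype.card_fin, Fintype.card_fin,
      nsmul_eq_mul]
    push_cast
    ring

/-- deletion of an end of an inner edge -/
theorem caseB_step {κ : ℝ} (hN : NumCond r a κ) (P : V → Fin a) (x y : V) (hxy : G.Adj x y)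
    (hP : P x = P y) (s θ ε₃ μ ν μ₁ μ₂ : ℝ)
    (hs : ∀ j, ((part P j).card : ℝ) ≤ s * Fintype.card V)
    (hθ : ∀ j, θ * Fintype.card V ≤ ((part P j).card : ℝ))
    (hμ : 0 < μ) (hν0 : 0 < ν) (hν1 : ν ≤ 1) (hV : 0 < Fintype.card V)
    (hμ₂0 : 0 < μ₂) (hμ₂ : a * μ ≤ ν ^ a * μ₂)
    (hinx : (pdeg G P x (P x) : ℝ) ≤ ε₃ * Fintype.card V)
    (hiny : (pdeg G P y (P y) : ℝ) ≤ ε₃ * Fintype.card V)
    (𝒞 : Finset (G.edgeSet → Fin r))
    (h𝒞 : ∀ c ∈ 𝒞, ¬ HasRainbow (a + 1) G c ∧ Typical c P μ ν) :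
    ((𝒞.card : ℝ) / 2 * (1 / 2 : ℝ) ^ (μ₁ * Fintype.card V) ≤
      (numCol r (a + 1) (delV G x) : ℝ) * ((a * r * r : ℕ) *
        (r : ℝ) ^ ((ε₃ + (a - 1) * s - lam1 r * θ) * Fintype.card V))) ∨
    ((𝒞.card : ℝ) / 2 * (1 / 2 : ℝ) ^ (μ₂ * Fintype.card V) ≤
      (numCol r (a + 1) (delV G y) : ℝ) * ((a * r * r : ℕ) *
        (r : ℝ) ^ ((ε₃ + (a - 1) * s - lam1 r * μ₁) * Fintype.card V))) := by
  have hVr : (0 : ℝ) < Fintype.card V := by exact_mod_cast hV
  have hcardι : Fintype.card (Fin a × Fin r × Fin r) = a * r * r := by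
    rw [Fintype.card_prod, Fintype.card_prod, Fintype.card_fin, Fintype.card_fin]
    ring
  set 𝒞₁ := 𝒞.filter (fun c => ∃ j, j ≠ P x ∧ ∃ α,
    (cdeg c x (part P j) α : ℝ) < μ₁ * Fintype.card V) with h𝒞₁
  set 𝒞₂ := 𝒞.filter (fun c => ∃ j, j ≠ P x ∧ ∃ α β, μ₁ * Fintype.card V ≤ cdeg c x (part P j) α ∧
      (cdeg c y ((part P j).filter (fun v => col c x v = some α)) β : ℝ) <
        μ₂ * Fintype.card V) with h𝒞₂
  have hcov : 𝒞 ⊆ 𝒞₁ ∪ 𝒞₂ := by
    intro c hc
    obtain ⟨hcr, hct⟩ := h𝒞 c hc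
    rcases caseB hN.hr c hcr P μ ν μ₁ μ₂ hμ hν0 hν1 hV hct hμ₂0 hμ₂ x y (P x) hxy with h | h
    · exact Finset.mem_union_left _ (Finset.mem_filter.2 ⟨hc, h⟩)
    · exact Finset.mem_union_right _ (Finset.mem_filter.2 ⟨hc, h⟩)
  have hcard : (𝒞.card : ℝ) ≤ 𝒞₁.card + 𝒞₂.card := by
    exact_mod_cast (Finset.card_le_card hcov).trans (Finset.card_union_le _ _)
  have h1 : (𝒞₁.card : ℝ) * (1 / 2 : ℝ) ^ (μ₁ * Fintype.card V) ≤
      (numCol r (a + 1) (delV G x) : ℝ) * ((a * r * r : ℕ) *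
        (r : ℝ) ^ ((ε₃ + (a - 1) * s - lam1 r * θ) * Fintype.card V)) := by
    rw [← hcardι]
    refine rare_star hN.hr2 P x s θ ε₃ μ₁ hinx hs 𝒞₁
      (fun c hc => (h𝒞 c (Finset.mem_of_mem_filter c hc)).1)
      (ι := Fin a × Fin r × Fin r) (fun _ i => part P i.1) (fun i => i.2.1)
      (fun _ i => i.1 ≠ P x) ?_ ?_
    · rintro c' ⟨j, α, β⟩ hj
      exact ⟨⟨j, hj, Finset.Subset.refl _⟩, hθ j⟩
    · intro c hc
      rw [h𝒞₁, Finset.mem_filter] at hc
      obtain ⟨-, j, hj, α, hα⟩ := hc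
      exact ⟨(j, α, α), hj, hα.le⟩
  have h2 : (𝒞₂.card : ℝ) * (1 / 2 : ℝ) ^ (μ₂ * Fintype.card V) ≤
      (numCol r (a + 1) (delV G y) : ℝ) * ((a * r * r : ℕ) *
        (r : ℝ) ^ ((ε₃ + (a - 1) * s - lam1 r * μ₁) * Fintype.card V)) := by
    rw [← hcardι]
    have hxy' : x ≠ y := hxy.ne
    -- the set of neighbours of `x` of colour `α` in part `j`, in terms of the restriction
    set Nf : ((delV G y).edgeSet → Fin r) → Fin a × Fin r × Fin r → Finset V := fun c' i =>
      (part P i.1).filter (fun v => ∃ hv : v ≠ y, col c' ⟨x, hxy'⟩ ⟨v, hv⟩ = some i.2.1) with hNf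
    have hNeq : ∀ (c : G.edgeSet → Fin r) (j : Fin a) (α β : Fin r), j ≠ P x →
        Nf (restr y c) (j, α, β) = (part P j).filter (fun v => col c x v = some α) := by
      intro c j α β hj
      rw [hNf]
      simp only
      refine Finset.filter_congr fun v hv => ?_
      have hv' : v ≠ y := by
        rintro rfl
        exact hj ((mem_part.1 hv).symm.trans hP.symm)
      constructor
      · rintro ⟨_, h⟩
        rw [col_restr] at h
        exact h
      · intro h
        exact ⟨hv', by rw [col_restr]; exact h⟩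
    refine rare_star hN.hr2 P y s μ₁ ε₃ μ₂ hiny hs 𝒞₂
      (fun c hc => (h𝒞 c (Finset.mem_of_mem_filter c hc)).1)
      (ι := Fin a × Fin r × Fin r) Nf (fun i => i.2.2)
      (fun c' i => i.1 ≠ P y ∧ μ₁ * Fintype.card V ≤ (Nf c' i).card) ?_ ?_
    · rintro c' ⟨j, α, β⟩ ⟨hj, hc⟩
      exact ⟨⟨j, hj, Finset.filter_subset _ _⟩, hc⟩
    · intro c hc
      rw [h𝒞₂, Finset.mem_filter] at hc
      obtain ⟨-, j, hj, α, β, hα, hβ⟩ := hc
      refine ⟨(j, α, β), ⟨?_, ?_⟩, ?_⟩
      · rw [← hP]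
        exact hj
      · rw [hNeq c j α β hj]
        exact hα
      · rw [hNeq c j α β hj]
        exact hβ.le
  rcases le_total ((𝒞.card : ℝ) / 2) 𝒞₁.card with h3 | h3
  · left
    refine le_trans ?_ h1
    exact mul_le_mul_of_nonneg_right h3 (Real.rpow_nonneg (by norm_num) _)
  · right
    refine le_trans ?_ h2
    refine mul_le_mul_of_nonneg_right ?_ (Real.rpow_nonneg (by norm_num) _)
    linarith

end

end Pool.Agent.Lib.MP_ba6833_co
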