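import Mathlib
import Pool.Agent.Lib.MP_ba6833_co.Step
import Pool.Agent.Lib.MP_ba6833_co.Near2

/-!
# The deletion step: final form
-/

namespace Pool.Agent.Lib.MP_ba6833_co

open Finset
open scoped Classical

section

variable {V : Type} [Fintype V] {r a : ℕ} {G : SimpleGraph V}

lemma numCol_le_pow (k : ℕ) : numCol r k G ≤ r ^ (Fintype.card G.edgeSet) := by
  unfold numCol
  have h1 : Nat.card {c : G.edgeSet → Fin r // ¬ HasRainbow k G c} ≤
      Nat.card (G.edgeSet → Fin r) :=
    Nat.card_le_card_of_injective _ Subtype.val_injective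
  refine h1.trans (le_of_eq ?_)
  rw [Nat.card_eq_fintype_card, Fintype.card_fun, Fintype.card_fin]

lemma card_edges_ge (hr : 2 ≤ r) (k N : ℕ) (h : r ^ N ≤ numCol r k G) :
    N ≤ Fintype.card G.edgeSet :=
  (Nat.pow_le_pow_iff_right (by omega)).1 (h.trans (numCol_le_pow k))

/-- many typical rainbow-free colourings -/
lemma typical_many (P : V → Fin a) (μ ν : ℝ) (k N N' : ℕ) (hr : 1 ≤ r) (hNN : N' ≤ N)
    (hcol : r ^ N ≤ numCol r k G)
    (hatyp : ((univ.filter (fun c : G.edgeSet → Fin r => ¬ Typical c P μ ν)).card : ℝ) ≤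
      (r : ℝ) ^ N' / 2) :
    (r : ℝ) ^ N / 2 ≤ ((univ.filter (fun c : G.edgeSet → Fin r =>
      ¬ HasRainbow k G c ∧ Typical c P μ ν)).card : ℝ) := by
  have h1 : (univ.filter (fun c : G.edgeSet → Fin r => ¬ HasRainbow k G c)) ⊆
      (univ.filter (fun c : G.edgeSet → Fin r => ¬ HasRainbow k G c ∧ Typical c P μ ν)) ∪
      (univ.filter (fun c : G.edgeSet → Fin r => ¬ Typical c P μ ν)) := by
    intro c hc
    rw [Finset.mem_filter] at hc
    rw [Finset.mem_union, Finset.mem_filter, Finset.mem_filter]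
    by_cases h : Typical c P μ ν
    · exact Or.inl ⟨Finset.mem_univ _, hc.2, h⟩
    · exact Or.inr ⟨Finset.mem_univ _, h⟩
  have h2 : numCol r k G ≤
      (univ.filter (fun c : G.edgeSet → Fin r => ¬ HasRainbow k G c ∧ Typical c P μ ν)).card +
      (univ.filter (fun c : G.edgeSet → Fin r => ¬ Typical c P μ ν)).card := by
    rw [numCol_eq]
    exact (Finset.card_le_card h1).trans (Finset.card_union_le _ _)
  have h3 : (r : ℝ) ^ N ≤ numCol r k G := by exact_mod_cast hcol
  have h4 : (numCol r k G : ℝ) ≤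
      ((univ.filter (fun c : G.edgeSet → Fin r =>
        ¬ HasRainbow k G c ∧ Typical c P μ ν)).card : ℝ) +
      ((univ.filter (fun c : G.edgeSet → Fin r => ¬ Typical c P μ ν)).card : ℝ) := by
    exact_mod_cast h2
  have h5 : (r : ℝ) ^ N' ≤ (r : ℝ) ^ N :=
    pow_le_pow_right₀ (by exact_mod_cast hr) hNN
  linarith

/-- from the counting bound to the conclusion -/
lemma finish (hr : 2 ≤ r) (ha : 1 ≤ a) (x : V) (m : ℕ) (C I B Y : ℝ) (hI : 0 < I) (hB : 0 < B)
    (hY : 0 < Y) (h : C * Y ≤ (numCol r (a + 1) (delV G x) : ℝ) * (I * B))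
    (hC : (r : ℝ) ^ (tn a (Fintype.card V) + m) / 4 ≤ C)
    (hexp : Real.logb r 4 + Real.logb r I + 2 ≤
      (1 - 1 / a) * Fintype.card V + Real.logb r Y - Real.logb r B) (hV : 0 < Fintype.card V) :
    r ^ (tn a (Fintype.card V - 1) + m + 1) ≤ numCol r (a + 1) (delV G x) := by
  have h1 : (1 : ℝ) < r := by exact_mod_cast (by omega : 1 < r)
  have h0 : (0 : ℝ) < r := by linarith
  have h2 := deduce hr C (numCol r (a + 1) (delV G x)) I B Y (tn a (Fintype.card V) + m) hI hB hY
    h (by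
      have : (r : ℝ) ^ ((tn a (Fintype.card V) : ℝ) + m) =
          (r : ℝ) ^ (tn a (Fintype.card V) + m) := by
        rw [← Real.rpow_natCast]
        push_cast
        rfl
      rw [this]
      exact hC)
  have h3 : (r : ℝ) ^ ((tn a (Fintype.card V - 1) + m + 1 : ℕ) : ℝ) ≤
      numCol r (a + 1) (delV G x) := by
    refine le_trans (Real.rpow_le_rpow_of_exponent_le h1.le ?_) h2
    have h4 := tn_succ_ge ha (Fintype.card V - 1)
    rw [Nat.sub_add_cancel hV, Nat.cast_sub hV] at h4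
    push_cast at h4 ⊢
    have h5 : (1 - 1 / (a : ℝ)) ≤ 1 := by
      have : 0 ≤ 1 / (a : ℝ) := by positivity
      linarith
    have h6 : (1 - 1 / (a : ℝ)) * ((Fintype.card V : ℝ) - 1) =
        (1 - 1 / (a : ℝ)) * Fintype.card V - (1 - 1 / (a : ℝ)) := by ring
    rw [h6] at h4
    linarith
  rw [Real.rpow_natCast] at h3
  exact_mod_cast h3

/-- the `a`-partite case -/
lemma caseC (hr : 2 ≤ r) (ha : 1 ≤ a) (P : V → Fin a) (m : ℕ)
    (hP : ∀ x y, G.Adj x y → P x ≠ P y)
    (hcol : r ^ (tn a (Fintype.card V) + m) ≤ numCol r (a + 1) G) :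
    m = 0 ∧ Nonempty (G ≃g SimpleGraph.turanGraph (Fintype.card V) a) := by
  have hE := card_edges_ge hr (a + 1) _ hcol
  have hcf : G.CliqueFree (a + 1) := by
    have hcol : G.Colorable a := ⟨SimpleGraph.Coloring.mk P (fun {x y} h => hP x y h)⟩
    exact hcol.cliqueFree (by omega)
  have hEf : Fintype.card G.edgeSet = G.edgeFinset.card := by
    rw [SimpleGraph.edgeFinset_card]
  have hmax : ∀ {H : SimpleGraph V} [DecidableRel H.Adj], H.CliqueFree (a + 1) →
      H.edgeFinset.card ≤ tn a (Fintype.card V) := by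
    intro H _ hH
    have h1 := hH.card_edgeFinset_le
    unfold tn
    rw [SimpleGraph.card_edgeFinset_turanGraph]
    exact h1
  have h1 := hmax hcf
  refine ⟨by omega, ?_⟩
  rw [← SimpleGraph.isTuranMaximal_iff_nonempty_iso_turanGraph (by omega : 0 < a)]
  refine ⟨hcf, ?_⟩
  intro H _ hH
  have h2 := hmax hH
  omega

end

end Pool.Agent.Lib.MP_ba6833_co
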