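import Mathlib
import Pool.Agent.Lib.MP_ba6833_co.Step2

/-!
# The deletion step: the theorem
-/

namespace Pool.Agent.Lib.MP_ba6833_co

open Finset
open scoped Classical

/-- the constants of the deletion step -/
structure Consts (r a : ℕ) (κ : ℝ) where
  b : ℕ
  hb : Real.logb r (1 + (1 / (r : ℝ)) ^ b) ≤ κ / (2 * a)
  μ₁ : ℝ
  ε₃ : ℝ
  μ₂ : ℝ
  c : ℝ
  δ₂ : ℝ
  μA : ℝ
  ν : ℝ
  μ : ℝ
  δ₁ : ℝ
  hμ₁ : 0 < μ₁
  hε₃ : 0 < ε₃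
  hμ₂ : 0 < μ₂
  hc : 0 < c
  hδ₂ : 0 < δ₂
  hμA : 0 < μA
  hν : 0 < ν
  hν1 : ν ≤ 1
  hνl : ν ≤ lam1 r / 2
  hμ : 0 < μ
  hδ₁ : 0 < δ₁
  hμAε : r * μA < ε₃
  hμμA : a * μ ≤ ν ^ a * μA
  hμμ₂ : a * μ ≤ ν ^ a * μ₂
  hδδ : 2 * δ₁ ≤ δ₂ ^ 2
  hδμ : 3 * δ₁ ≤ lam1 r / 8 * μ ^ 2
  hδ₂a : δ₂ ≤ 1 / (2 * a)
  expB1 : ε₃ + (a - 1) * (1 / a + δ₂) - lam1 r * (1 / a - δ₂) + μ₁ ≤ 1 - 1 / a - c
  expB2 : ε₃ + (a - 1) * (1 / a + δ₂) - lam1 r * μ₁ + μ₂ ≤ 1 - 1 / a - c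
  expA : (a - 1 - κ / 2) * (1 / a + δ₂) + (b + 1) * (a * r * μA) ≤ 1 - 1 / a - c

lemma exists_consts {r a : ℕ} {κ : ℝ} (hN : NumCond r a κ) : Nonempty (Consts r a κ) := by
  have hr := hN.hr2
  have ha2 : (2 : ℝ) ≤ a := by exact_mod_cast hN.ha
  have ha : (0 : ℝ) < a := by linarith
  have hr2 : (2 : ℝ) ≤ r := by exact_mod_cast hr
  have hr0 : (0 : ℝ) < r := by linarith
  have hκ := hN.κpos
  have hl := lam1_pos hr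
  have hl1 := lam1_le_one hr
  obtain ⟨b, -, hb⟩ := exists_b hr (κ / (2 * a)) (by positivity)
  obtain ⟨μ₁, hμ₁d⟩ : ∃ μ₁ : ℝ, μ₁ = lam1 r / (4 * a) := ⟨_, rfl⟩
  have hμ₁ : 0 < μ₁ := by rw [hμ₁d]; positivity
  have hμ₁a : μ₁ * a = lam1 r / 4 := by rw [hμ₁d]; field_simp
  have hμ₁1 : μ₁ ≤ 1 / 8 := by nlinarith
  obtain ⟨t, ht⟩ : ∃ t : ℝ, t = lam1 r * μ₁ := ⟨_, rfl⟩
  have ht0 : 0 < t := by rw [ht]; positivity
  have ht1 : t ≤ μ₁ := by rw [ht]; nlinarith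
  have htl : t * (8 * 1) ≤ lam1 r := by rw [ht]; nlinarith
  obtain ⟨c, hc0, hc1, hc2⟩ : ∃ c : ℝ, 0 < c ∧ c ≤ t / 8 ∧ c ≤ κ / (16 * a) :=
    ⟨min (t / 8) (κ / (16 * a)), by positivity, min_le_left _ _, min_le_right _ _⟩
  obtain ⟨δ₂, hδ₂d⟩ : ∃ δ₂ : ℝ, δ₂ = c / a := ⟨_, rfl⟩
  have hδ₂ : 0 < δ₂ := by rw [hδ₂d]; positivity
  have hδ₂a : δ₂ * a = c := by rw [hδ₂d]; field_simp
  obtain ⟨μA, hμA0, hμA1, hμA2⟩ : ∃ μA : ℝ, 0 < μA ∧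
      (b + 1) * (a * r * μA) ≤ κ / (8 * a) ∧ r * μA < t / 4 := by
    refine ⟨min (κ / (8 * a * ((b + 1) * (a * r)))) (t / (8 * r)), by positivity, ?_, ?_⟩
    · have h1 : (min (κ / (8 * a * ((b + 1) * (a * r)))) (t / (8 * r))) ≤
          κ / (8 * a * ((b + 1) * (a * r))) := min_le_left _ _
      calc ((b : ℝ) + 1) * (a * r * min (κ / (8 * a * ((b + 1) * (a * r)))) (t / (8 * r)))
          = (((b : ℝ) + 1) * (a * r)) *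
            min (κ / (8 * a * ((b + 1) * (a * r)))) (t / (8 * r)) := by ring
        _ ≤ (((b : ℝ) + 1) * (a * r)) * (κ / (8 * a * ((b + 1) * (a * r)))) :=
          mul_le_mul_of_nonneg_left h1 (by positivity)
        _ = κ / (8 * a) := by field_simp
    · have h1 : (min (κ / (8 * a * ((b + 1) * (a * r)))) (t / (8 * r))) ≤ t / (8 * r) :=
        min_le_right _ _
      calc (r : ℝ) * min (κ / (8 * a * ((b + 1) * (a * r)))) (t / (8 * r)) ≤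
            r * (t / (8 * r)) := mul_le_mul_of_nonneg_left h1 hr0.le
        _ = t / 8 := by field_simp
        _ < t / 4 := by linarith
  obtain ⟨ν, hνd⟩ : ∃ ν : ℝ, ν = lam1 r / 2 := ⟨_, rfl⟩
  have hν : 0 < ν := by rw [hνd]; positivity
  obtain ⟨μ, hμ0, hμ1, hμ2⟩ : ∃ μ : ℝ, 0 < μ ∧ a * μ ≤ ν ^ a * μA ∧ a * μ ≤ ν ^ a * (t / 4) := by
    refine ⟨ν ^ a * min μA (t / 4) / a, by positivity, ?_, ?_⟩
    · calc (a : ℝ) * (ν ^ a * min μA (t / 4) / a) = ν ^ a * min μA (t / 4) := by field_simp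
        _ ≤ ν ^ a * μA := mul_le_mul_of_nonneg_left (min_le_left _ _) (by positivity)
    · calc (a : ℝ) * (ν ^ a * min μA (t / 4) / a) = ν ^ a * min μA (t / 4) := by field_simp
        _ ≤ ν ^ a * (t / 4) := mul_le_mul_of_nonneg_left (min_le_right _ _) (by positivity)
  obtain ⟨δ₁, hδ₁0, hδ₁1, hδ₁2⟩ : ∃ δ₁ : ℝ, 0 < δ₁ ∧ 2 * δ₁ ≤ δ₂ ^ 2 ∧
      3 * δ₁ ≤ lam1 r / 8 * μ ^ 2 := by
    refine ⟨min (δ₂ ^ 2 / 2) (lam1 r * μ ^ 2 / 24), by positivity, ?_, ?_⟩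
    · have := min_le_left (δ₂ ^ 2 / 2) (lam1 r * μ ^ 2 / 24)
      linarith
    · have := min_le_right (δ₂ ^ 2 / 2) (lam1 r * μ ^ 2 / 24)
      linarith
  have hia : (1 / (a : ℝ)) * a = 1 := by field_simp
  have hia2 : 1 / (a : ℝ) ≤ 1 / 2 := by
    rw [div_le_div_iff₀ ha (by norm_num)]
    linarith
  have hs1 : ((a : ℝ) - 1) * (1 / a + δ₂) = 1 - 1 / a + c - δ₂ := by
    have : ((a : ℝ) - 1) * (1 / a + δ₂) = (1 / (a : ℝ)) * a - 1 / a + δ₂ * a - δ₂ := by ring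
    rw [this, hia, hδ₂a]
  have hla : lam1 r * (1 / a) = 4 * μ₁ := by
    rw [hμ₁d]
    field_simp
  refine ⟨⟨b, hb, μ₁, t / 4, t / 4, c, δ₂, μA, ν, μ, δ₁, hμ₁, by positivity, by positivity, hc0,
    hδ₂, hμA0, hν, by rw [hνd]; linarith, by rw [hνd], hμ0, hδ₁0, hμA2, hμ1, hμ2, hδ₁1, hδ₁2,
    ?_, ?_, ?_, ?_⟩⟩
  · -- δ₂ ≤ 1/(2a)
    rw [le_div_iff₀ (by positivity)]
    have : δ₂ * (2 * a) = 2 * c := by rw [← hδ₂a]; ring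
    rw [this]
    linarith
  · rw [hs1]
    have h1 : lam1 r * (1 / a - δ₂) = 4 * μ₁ - lam1 r * δ₂ := by
      rw [mul_sub, hla]
    rw [h1]
    have h2 : lam1 r * δ₂ ≤ δ₂ := by nlinarith
    linarith
  · rw [hs1, ← ht]
    linarith
  · have h1 : ((a : ℝ) - 1 - κ / 2) * (1 / a + δ₂) =
        ((a : ℝ) - 1) * (1 / a + δ₂) - κ / (2 * a) - κ / 2 * δ₂ := by
      field_simp
      ring
    rw [h1, hs1]
    have h2 : κ / (2 * a) = 8 * (κ / (16 * a)) := by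
      field_simp
      norm_num
    have h3 : κ / (8 * a) = 2 * (κ / (16 * a)) := by
      field_simp
      norm_num
    have h4 : 0 ≤ κ / 2 * δ₂ := by positivity
    linarith

end Pool.Agent.Lib.MP_ba6833_co
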