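import Mathlib
import Pool.Agent.Lib.MP_ba6833_co.Step3

/-!
# The deletion step: the theorem
-/

namespace Pool.Agent.Lib.MP_ba6833_co

open Finset
open scoped Classical

section

variable {V : Type} [Fintype V] {r a : ℕ} {G : SimpleGraph V} {κ : ℝ}

/-- the number of atypical colourings is small -/
lemma atyp_small (hN : NumCond r a κ) (K : Consts r a κ) (P : V → Fin a)
    (hin : ((inner G P).card : ℝ) ≤ K.δ₁ * (Fintype.card V : ℝ) ^ 2)
    (hE : tn a (Fintype.card V) ≤ Fintype.card G.edgeSet)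
    (hn1 : (a : ℝ) ≤ K.δ₁ * (Fintype.card V : ℝ) ^ 2)
    (hn2 : Real.logb r (2 * (a ^ 2 * r)) + Fintype.card V * Real.logb r 4 ≤
      3 / 8 * lam1 r * K.μ ^ 2 * (Fintype.card V : ℝ) ^ 2) :
    ((univ.filter (fun c : G.edgeSet → Fin r => ¬ Typical c P K.μ K.ν)).card : ℝ) ≤
      (r : ℝ) ^ (tn a (Fintype.card V)) / 2 := by
  have hr := hN.hr2
  have h1 : (1 : ℝ) < r := by exact_mod_cast (by omega : 1 < r)
  have h0 : (0 : ℝ) < r := by linarith
  have ha1 : 1 ≤ a := by have := hN.ha; omega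
  have ha : (0 : ℝ) < a := by exact_mod_cast ha1
  have hl := lam1_pos hr
  have hl1 := lam1_le_one hr
  obtain ⟨-, hD, hE2⟩ := part_sizes G ha1 P K.δ₁ hin hE
  set n : ℝ := (Fintype.card V : ℝ) with hn
  have hD' : ((univ.filter (fun q : V × V => P q.1 ≠ P q.2 ∧ ¬ G.Adj q.1 q.2)).card : ℝ) ≤
      2 * K.δ₁ * n ^ 2 := by linarith
  have h2 := atyp_count hr P K.μ K.ν (2 * K.δ₁ * n ^ 2) K.hμ.le K.hνl K.hν.le hD'
  refine h2.trans ?_
  rw [← hn]
  have h3 : ((a : ℝ) ^ 2 * (4 ^ (Fintype.card V) * r)) =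
      (r : ℝ) ^ (Real.logb r (2 * (a ^ 2 * r)) + n * Real.logb r 4) / 2 := by
    rw [Real.rpow_add h0, Real.rpow_logb h0 h1.ne' (by positivity), mul_comm n, Real.rpow_mul h0.le,
      Real.rpow_logb h0 h1.ne' (by norm_num), hn, Real.rpow_natCast]
    ring
  rw [h3, div_mul_eq_mul_div, ← Real.rpow_add h0]
  refine div_le_div_of_nonneg_right ?_ (by norm_num)
  rw [← Real.rpow_natCast (r : ℝ) (tn a (Fintype.card V))]
  refine Real.rpow_le_rpow_of_exponent_le h1.le ?_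
  have h4 : (K.μ * n) ^ 2 = K.μ ^ 2 * n ^ 2 := by ring
  rw [h4]
  have h5 : lam1 r * (2 * K.δ₁ * n ^ 2) ≤ 2 * K.δ₁ * n ^ 2 := by
    have h6 : 0 ≤ 2 * K.δ₁ * n ^ 2 := by
      have := K.hδ₁
      positivity
    nlinarith only [hin, hl1]
  have h6 : 3 * K.δ₁ * n ^ 2 ≤ lam1 r / 8 * K.μ ^ 2 * n ^ 2 :=
    mul_le_mul_of_nonneg_right K.hδμ (by positivity)
  linarith only [h5, h6, hE2, hn1, hn2]

end

/-- **The deletion step.** -/
theorem step {r a : ℕ} {κ : ℝ} (hN : NumCond r a κ) :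
    ∃ n₀ : ℕ, ∀ (V : Type) [Fintype V] (G : SimpleGraph V) (m : ℕ), n₀ ≤ Fintype.card V →
      r ^ (tn a (Fintype.card V) + m) ≤ numCol r (a + 1) G →
      (m = 0 ∧ Nonempty (G ≃g SimpleGraph.turanGraph (Fintype.card V) a)) ∨
      ∃ x, r ^ (tn a (Fintype.card V - 1) + m + 1) ≤ numCol r (a + 1) (delV G x) := by
  obtain ⟨K⟩ := exists_consts hN
  have hr := hN.hr2
  have h1 : (1 : ℝ) < r := by exact_mod_cast (by omega : 1 < r)
  have h0 : (0 : ℝ) < r := by linarith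
  have ha1 : 1 ≤ a := by have := hN.ha; omega
  have ha : (0 : ℝ) < a := by exact_mod_cast ha1
  have ha2 : (2 : ℝ) ≤ a := by exact_mod_cast hN.ha
  have hl := lam1_pos hr
  have hl1 := lam1_le_one hr
  obtain ⟨n₁, hnear⟩ := near_partite hN K.δ₁ K.hδ₁
  set C₁ : ℝ := Real.logb r (2 * (a ^ 2 * r)) + Real.logb r 4 with hC₁
  set C₂ : ℝ := Real.logb r 4 + Real.logb r ((2 ^ a * 2 ^ r : ℕ) : ℝ) +
    Real.logb r ((a * r * r : ℕ) : ℝ) + 2 with hC₂
  have hl4 : 0 ≤ Real.logb r 4 := Real.logb_nonneg h1 (by norm_num)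
  have hlI1 : 0 ≤ Real.logb r ((2 ^ a * 2 ^ r : ℕ) : ℝ) :=
    Real.logb_nonneg h1 (by exact_mod_cast Nat.one_le_iff_ne_zero.2 (by positivity))
  have hlI2 : 0 ≤ Real.logb r ((a * r * r : ℕ) : ℝ) :=
    Real.logb_nonneg h1 (by exact_mod_cast Nat.one_le_iff_ne_zero.2 (by positivity))
  have hl2a : 0 ≤ Real.logb r (2 * (a ^ 2 * r)) := Real.logb_nonneg h1 (by nlinarith only [h1, ha2])
  refine ⟨n₁ + ⌈2 * a / K.δ₂ ^ 2⌉₊ + ⌈a / K.δ₁⌉₊ + ⌈C₁ / (3 / 8 * lam1 r * K.μ ^ 2)⌉₊ +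
    ⌈C₂ / K.c⌉₊ + 1, ?_⟩
  intro V _ G m hn hcol
  have hV : 0 < Fintype.card V := by omega
  have hge : ∀ z : ℝ, ⌈z⌉₊ ≤ Fintype.card V → z ≤ (Fintype.card V : ℝ) := by
    intro z hz
    have h2 := Nat.le_ceil z
    have h3 : ((⌈z⌉₊ : ℕ) : ℝ) ≤ (Fintype.card V : ℝ) := by exact_mod_cast hz
    linarith
  have hnA := hge _ (by omega : ⌈2 * a / K.δ₂ ^ 2⌉₊ ≤ Fintype.card V)
  have hnB := hge _ (by omega : ⌈a / K.δ₁⌉₊ ≤ Fintype.card V)
  have hnC := hge _ (by omega : ⌈C₁ / (3 / 8 * lam1 r * K.μ ^ 2)⌉₊ ≤ Fintype.card V)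
  have hnD := hge _ (by omega : ⌈C₂ / K.c⌉₊ ≤ Fintype.card V)
  have hcol0 : r ^ tn a (Fintype.card V) ≤ numCol r (a + 1) G :=
    (Nat.pow_le_pow_right (by omega) (by omega)).trans hcol
  obtain ⟨P₀, hP₀⟩ := hnear V G (by omega) hcol0
  obtain ⟨P, hP1, hP2⟩ := exists_maxCut G P₀
  set n : ℝ := (Fintype.card V : ℝ) with hndef
  have hn0 : 0 < n := by rw [hndef]; exact_mod_cast hV
  have hn1 : 1 ≤ n := by rw [hndef]; exact_mod_cast hV
  have hin : ((inner G P).card : ℝ) ≤ K.δ₁ * n ^ 2 := by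
    refine le_trans ?_ hP₀
    exact_mod_cast hP1
  have hE := card_edges_ge hr (a + 1) _ hcol0
  rw [div_le_iff₀ (by have := K.hδ₂; positivity)] at hnA
  rw [div_le_iff₀ K.hδ₁] at hnB
  rw [div_le_iff₀ (by have := K.hμ; positivity)] at hnC
  rw [div_le_iff₀ K.hc] at hnD
  have hnn : n ≤ n ^ 2 := by nlinarith only [hn1]
  have hnA' : 2 * (a : ℝ) ≤ K.δ₂ ^ 2 * n ^ 2 := by
    have := K.hδ₂
    nlinarith only [hnA, hnn, sq_nonneg K.δ₂]
  have hnB' : (a : ℝ) ≤ K.δ₁ * n ^ 2 := by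
    have := K.hδ₁
    nlinarith only [hn1, hnB]
  have hnC' : Real.logb r (2 * (a ^ 2 * r)) + n * Real.logb r 4 ≤
      3 / 8 * lam1 r * K.μ ^ 2 * n ^ 2 := by
    have h2 : Real.logb r (2 * (a ^ 2 * r)) + n * Real.logb r 4 ≤ C₁ * n := by
      rw [hC₁]
      nlinarith only [hl2a, hn1]
    have h3 : C₁ * n ≤ n * (3 / 8 * lam1 r * K.μ ^ 2) * n :=
      mul_le_mul_of_nonneg_right hnC hn0.le
    linarith only [h2, h3]
  obtain ⟨hsize, -, -⟩ := part_sizes G ha1 P K.δ₁ hin hE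
  have hpart : ∀ j, |((part P j).card : ℝ) - n / a| ≤ K.δ₂ * n := by
    intro j
    refine abs_le_of_sq_le_sq ?_ (by have := K.hδ₂; positivity)
    refine (hsize j).trans ?_
    have h2 : 2 * K.δ₁ * n ^ 2 ≤ K.δ₂ ^ 2 * n ^ 2 :=
      mul_le_mul_of_nonneg_right K.hδδ (by positivity)
    have h3 : (K.δ₂ * n) ^ 2 = K.δ₂ ^ 2 * n ^ 2 := by ring
    rw [h3]
    linarith only [h2, hnA']
  have hs : ∀ j, ((part P j).card : ℝ) ≤ (1 / a + K.δ₂) * n := by
    intro j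
    have h2 := (abs_le.1 (hpart j)).2
    have h3 : (1 / (a : ℝ) + K.δ₂) * n = n / a + K.δ₂ * n := by ring
    rw [h3]
    linarith only [h2]
  have hθ : ∀ j, (1 / a - K.δ₂) * n ≤ ((part P j).card : ℝ) := by
    intro j
    have h2 := (abs_le.1 (hpart j)).1
    have h3 : (1 / (a : ℝ) - K.δ₂) * n = n / a - K.δ₂ * n := by ring
    rw [h3]
    linarith only [h2]
  have hatyp := atyp_small hN K P hin hE hnB' hnC'
  have hmany := typical_many P K.μ K.ν (a + 1) (tn a (Fintype.card V) + m)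
    (tn a (Fintype.card V)) (by omega) (by omega) hcol hatyp
  set 𝒞 := univ.filter (fun c : G.edgeSet → Fin r =>
      ¬ HasRainbow (a + 1) G c ∧ Typical c P K.μ K.ν) with h𝒞
  have h𝒞v : ∀ c ∈ 𝒞, ¬ HasRainbow (a + 1) G c ∧ Typical c P K.μ K.ν := by
    intro c hc
    rw [h𝒞, Finset.mem_filter] at hc
    exact hc.2
  have hrpos : (0 : ℝ) < (r : ℝ) ^ (tn a (Fintype.card V) + m) := by positivity
  by_cases hA : ∃ x, K.ε₃ * n ≤ pdeg G P x (P x)
  · -- a vertex of large inner degree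
    obtain ⟨x, hx⟩ := hA
    right
    refine ⟨x, ?_⟩
    have h2 := caseA_step hN P x (1 / a + K.δ₂) K.ε₃ K.μ K.ν K.μA K.b K.hb
      (by have := K.hδ₂; positivity) hs K.hμ K.hν K.hν1 hV K.hμμA K.hμA K.hμAε
      (fun j => hx.trans (by exact_mod_cast hP2 x j)) 𝒞 h𝒞v
    have hypos : (0 : ℝ) < (1 / (r : ℝ)) ^ (K.b + 1) := by positivity
    refine finish hr ha1 x m 𝒞.card ((2 ^ a * 2 ^ r : ℕ) : ℝ) _ _ (by positivity)
      (Real.rpow_pos_of_pos h0 _) (Real.rpow_pos_of_pos hypos _) h2 (by linarith only [hmany, hrpos]) ?_ hV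
    rw [Real.logb_rpow h0 h1.ne', Real.logb_rpow_eq_mul_logb_of_pos hypos]
    have h3 : Real.logb r ((1 / (r : ℝ)) ^ (K.b + 1)) = -((K.b : ℝ) + 1) := by
      rw [Real.logb_pow, one_div, Real.logb_inv, Real.logb_self_eq_one h1]
      push_cast
      ring
    rw [h3, ← hndef]
    have h4 := mul_le_mul_of_nonneg_right K.expA hn0.le
    have h5 : ((a : ℝ) - 1 - κ / 2) * ((1 / a + K.δ₂) * n) +
        (a * r * K.μA * n) * ((K.b : ℝ) + 1) =
        (((a : ℝ) - 1 - κ / 2) * (1 / a + K.δ₂) + (K.b + 1) * (a * r * K.μA)) * n := by ring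
    have h6 : (1 - 1 / (a : ℝ) - K.c) * n = (1 - 1 / (a : ℝ)) * n - K.c * n := by ring
    rw [h6] at h4
    have h7 : Real.logb r 4 + Real.logb r ((2 ^ a * 2 ^ r : ℕ) : ℝ) + 2 ≤ K.c * n := by
      rw [hC₂] at hnD
      linarith only [hlI2, hnD]
    linarith only [h4, hlI2, hnD]
  · push Not at hA
    by_cases hB : ∃ x y, G.Adj x y ∧ P x = P y
    · -- an inner edge
      obtain ⟨x, y, hxy, hPxy⟩ := hB
      right
      have h2 := caseB_step hN P x y hxy hPxy (1 / a + K.δ₂) (1 / a - K.δ₂) K.ε₃ K.μ K.ν K.μ₁ K.μ₂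
        hs hθ K.hμ K.hν K.hν1 hV K.hμ₂ K.hμμ₂ (hA x).le (hA y).le 𝒞 h𝒞v
      have hlog2 : Real.logb r (1 / 2) = - Real.logb r 2 := by
        rw [one_div, Real.logb_inv]
      have hlog2' := logb_two_le hr
      have hlog2'' : 0 ≤ Real.logb r 2 := Real.logb_nonneg h1 (by norm_num)
      have hI0 : (0 : ℝ) < ((a * r * r : ℕ) : ℝ) := by
        exact_mod_cast Nat.pos_of_ne_zero (by positivity)
      have h7 : Real.logb r 4 + Real.logb r ((a * r * r : ℕ) : ℝ) + 2 ≤ K.c * n := by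
        rw [hC₂] at hnD
        linarith only [hlI1, hnD]
      rcases h2 with h2 | h2
      · refine ⟨x, ?_⟩
        refine finish hr ha1 x m (𝒞.card / 2) ((a * r * r : ℕ) : ℝ) _ _ hI0
          (Real.rpow_pos_of_pos h0 _) (Real.rpow_pos_of_pos (by norm_num) _) h2 (by linarith only [hmany]) ?_ hV
        rw [Real.logb_rpow h0 h1.ne', Real.logb_rpow_eq_mul_logb_of_pos (by norm_num), hlog2,
          ← hndef]
        have h4 := mul_le_mul_of_nonneg_right K.expB1 hn0.le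
        have h6 : (1 - 1 / (a : ℝ) - K.c) * n = (1 - 1 / (a : ℝ)) * n - K.c * n := by ring
        rw [h6] at h4
        have h8 : K.μ₁ * n * Real.logb r 2 ≤ K.μ₁ * n := by
          have h9 : 0 ≤ K.μ₁ * n := by have := K.hμ₁; positivity
          nlinarith only [h9, hlog2']
        linarith only [h4, h8, hlI1, hnD]
      · refine ⟨y, ?_⟩
        refine finish hr ha1 y m (𝒞.card / 2) ((a * r * r : ℕ) : ℝ) _ _ hI0
          (Real.rpow_pos_of_pos h0 _) (Real.rpow_pos_of_pos (by norm_num) _) h2 (by linarith only [hmany]) ?_ hV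
        rw [Real.logb_rpow h0 h1.ne', Real.logb_rpow_eq_mul_logb_of_pos (by norm_num), hlog2,
          ← hndef]
        have h4 := mul_le_mul_of_nonneg_right K.expB2 hn0.le
        have h6 : (1 - 1 / (a : ℝ) - K.c) * n = (1 - 1 / (a : ℝ)) * n - K.c * n := by ring
        rw [h6] at h4
        have h8 : K.μ₂ * n * Real.logb r 2 ≤ K.μ₂ * n := by
          have h9 : 0 ≤ K.μ₂ * n := by have := K.hμ₂; positivity
          nlinarith only [h9, hlog2']
        linarith only [h4, h8, hlI1, hnD]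
    · -- no inner edges
      push Not at hB
      left
      exact caseC hr ha1 P m hB hcol

end Pool.Agent.Lib.MP_ba6833_co
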