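import Mathlib
import Pool.Agent.Lib.MP_ba6833_co.Step4

/-!
# The Turán graph is uniquely extremal
-/

namespace Pool.Agent.Lib.MP_ba6833_co

open Finset
open scoped Classical

lemma card_ne {V : Type} [Fintype V] (x : V) :
    Fintype.card {v : V // v ≠ x} = Fintype.card V - 1 := by
  rw [Fintype.card_subtype_compl (fun v => v = x), Fintype.card_subtype_eq]

/-- iterating the deletion step -/
lemma iterate {r a : ℕ} {κ : ℝ} (hN : NumCond r a κ) (n₀ : ℕ)
    (hstep : ∀ (V : Type) [Fintype V] (G : SimpleGraph V) (m : ℕ), n₀ ≤ Fintype.card V →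
      r ^ (tn a (Fintype.card V) + m) ≤ numCol r (a + 1) G →
      (m = 0 ∧ Nonempty (G ≃g SimpleGraph.turanGraph (Fintype.card V) a)) ∨
      ∃ x, r ^ (tn a (Fintype.card V - 1) + m + 1) ≤ numCol r (a + 1) (delV G x)) :
    ∀ (j : ℕ) (V : Type) [Fintype V] (G : SimpleGraph V) (m : ℕ), Fintype.card V = n₀ + j →
      1 ≤ m → r ^ (tn a (Fintype.card V) + m) ≤ numCol r (a + 1) G → m + j ≤ n₀.choose 2 := by
  intro j
  induction j with
  | zero =>
    intro V _ G m hV hm hcol
    have h1 := card_edges_ge hN.hr2 (a + 1) _ hcol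
    have h2 : Fintype.card G.edgeSet ≤ (Fintype.card V).choose 2 := by
      rw [← SimpleGraph.edgeFinset_card]
      exact SimpleGraph.card_edgeFinset_le_card_choose_two
    rw [hV] at h2
    simp only [Nat.add_zero] at h2 ⊢
    omega
  | succ j ih =>
    intro V _ G m hV hm hcol
    rcases hstep V G m (by omega) hcol with ⟨h, -⟩ | ⟨x, hx⟩
    · omega
    · have hcard : Fintype.card {v : V // v ≠ x} = n₀ + j := by
        rw [card_ne, hV]
        omega
      have h1 := ih {v : V // v ≠ x} (delV G x) (m + 1) hcard (by omega) (by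
        rw [card_ne]
        exact hx)
      omega

/-- graphs with at least as many colourings as the Turán graph -/
theorem iso_of_many {r a : ℕ} {κ : ℝ} (hN : NumCond r a κ) :
    ∃ n₀ : ℕ, ∀ (V : Type) [Fintype V] (G : SimpleGraph V), n₀ ≤ Fintype.card V →
      r ^ tn a (Fintype.card V) ≤ numCol r (a + 1) G →
      Nonempty (G ≃g SimpleGraph.turanGraph (Fintype.card V) a) := by
  obtain ⟨n₀, hstep⟩ := step hN
  refine ⟨n₀ + n₀.choose 2 + 1, ?_⟩
  intro V _ G hV hcol
  rcases hstep V G 0 (by omega) (by simpa using hcol) with ⟨-, h⟩ | ⟨x, hx⟩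
  · exact h
  · exfalso
    have hcard : Fintype.card {v : V // v ≠ x} = n₀ + (Fintype.card V - 1 - n₀) := by
      rw [card_ne]
      omega
    have h1 := iterate hN n₀ hstep (Fintype.card V - 1 - n₀) {v : V // v ≠ x} (delV G x) 1 hcard
      le_rfl (by
        rw [card_ne]
        exact hx)
    omega

/-- a clique-free graph has all colourings rainbow-free -/
lemma numCol_of_cliqueFree {V : Type} [Fintype V] {r k : ℕ} (G : SimpleGraph V)
    (hG : G.CliqueFree k) : numCol r k G = r ^ (Nat.card G.edgeSet) := by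
  rw [numCol_eq, Nat.card_eq_fintype_card]
  have h1 : (univ.filter (fun c : G.edgeSet → Fin r => ¬ HasRainbow k G c)) = univ := by
    rw [Finset.filter_eq_self]
    rintro c - ⟨s, hs, -⟩
    exact hG s hs
  rw [h1, Finset.card_univ, Fintype.card_fun, Fintype.card_fin]

lemma numCol_turan {r a n : ℕ} (ha : 0 < a) :
    numCol r (a + 1) (SimpleGraph.turanGraph n a) = r ^ tn a n := by
  rw [numCol_of_cliqueFree _ (SimpleGraph.turanGraph_cliqueFree ha)]
  rw [tn_eq_natCard]

/-- **Upper bound.** -/
theorem turanUnique_of_numCond {r a : ℕ} {κ : ℝ} (hN : NumCond r a κ) :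
    ∃ n₀ : ℕ, ∀ n, n₀ ≤ n → TuranUnique r (a + 1) n := by
  obtain ⟨n₀, h⟩ := iso_of_many hN
  have ha : 0 < a := by have := hN.ha; omega
  have hr := hN.hr2
  refine ⟨n₀, fun n hn => ?_⟩
  have hT := numCol_turan (r := r) (n := n) ha
  have hiso : ∀ G : SimpleGraph (Fin n), r ^ tn a n ≤ numCol r (a + 1) G →
      Nonempty (G ≃g SimpleGraph.turanGraph n a) := by
    intro G hG
    have h1 := h (Fin n) G (by rw [Fintype.card_fin]; exact hn) (by
      rw [Fintype.card_fin]
      exact hG)
    rw [Fintype.card_fin] at h1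
    exact h1
  refine ⟨?_, ?_⟩
  · intro H
    rw [Nat.add_sub_cancel, hT]
    by_contra hcon
    push Not at hcon
    obtain ⟨e⟩ := hiso H hcon.le
    have h1 := numCol_le_pow (r := r) (G := H) (a + 1)
    have h2 : Fintype.card H.edgeSet = tn a n := by
      rw [tn_eq_natCard, ← Nat.card_eq_fintype_card]
      exact Nat.card_congr e.mapEdgeSet
    rw [h2] at h1
    omega
  · intro G hG
    rw [Nat.add_sub_cancel]
    apply hiso
    rw [← hT]
    exact hG _

end Pool.Agent.Lib.MP_ba6833_co
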