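import Mathlib
import Pool.Agent.Lib.MP_ba6833_co.Upper

/-!
# Lower bound: complete graphs with few colours
-/

namespace Pool.Agent.Lib.MP_ba6833_co

open Finset
open scoped Classical

/-- isomorphic graphs have the same number of colourings -/
lemma numCol_le_of_iso {V W : Type} [Fintype V] [Fintype W] {r k : ℕ} {G : SimpleGraph V}
    {H : SimpleGraph W} (e : G ≃g H) : numCol r k G ≤ numCol r k H := by
  unfold numCol
  refine Nat.card_le_card_of_injective
    (fun c => ⟨fun f => c.1 (e.symm.mapEdgeSet f), ?_⟩) ?_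
  · intro h
    apply c.2
    rw [hasRainbow_iff] at h ⊢
    obtain ⟨w, h1, h2⟩ := h
    have hcol : ∀ x y : W, col (fun f => c.1 (e.symm.mapEdgeSet f)) x y =
        col c.1 (e.symm x) (e.symm y) := by
      intro x y
      by_cases hxy : H.Adj x y
      · rw [col_eq_some _ hxy, col_eq_some c.1 (e.symm.map_adj_iff.2 hxy)]
        rfl
      · rw [col_eq_none _ hxy, col_eq_none c.1 (fun h => hxy (e.symm.map_adj_iff.1 h))]
    refine ⟨fun i => e.symm (w i), fun p hp => e.symm.map_adj_iff.2 (h1 p hp), ?_⟩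
    intro p hp q hq hpq
    refine h2 p hp q hq ?_
    rw [hcol, hcol]
    exact hpq
  · intro c c' h
    apply Subtype.ext
    funext f
    have h1 := congrArg Subtype.val h
    have h2 := congrFun h1 (e.mapEdgeSet f)
    simp only at h2
    have h3 : e.symm.mapEdgeSet (e.mapEdgeSet f) = f := e.mapEdgeSet.symm_apply_apply f
    rw [h3] at h2
    exact h2

/-- few colours: everything is rainbow-free -/
lemma pow_le_numCol {V : Type} [Fintype V] {r k s : ℕ} (G : SimpleGraph V) (hsr : s ≤ r)
    (hs : s < k.choose 2) : s ^ (Nat.card G.edgeSet) ≤ numCol r k G := by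
  have h1 : s ^ (Nat.card G.edgeSet) = Nat.card (G.edgeSet → Fin s) := by
    rw [Nat.card_eq_fintype_card, Nat.card_eq_fintype_card, Fintype.card_fun, Fintype.card_fin]
  rw [h1]
  unfold numCol
  refine Nat.card_le_card_of_injective
    (fun c => ⟨fun f => Fin.castLE hsr (c f), ?_⟩) ?_
  · intro h
    rw [hasRainbow_iff] at h
    obtain ⟨w, h1, h2⟩ := h
    have h3 : Fintype.card {p // p ∈ prs k} ≤ Fintype.card (Fin s) := by
      refine Fintype.card_le_of_injective
        (fun p => c ⟨s(w p.1.1, w p.1.2), h1 p.1 p.2⟩) ?_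
      intro p q hpq
      apply Subtype.ext
      apply h2 p.1 p.2 q.1 q.2
      rw [col_eq_some _ (h1 p.1 p.2), col_eq_some _ (h1 q.1 q.2)]
      simp only at hpq
      rw [hpq]
    rw [Fintype.card_coe, card_prs, Fintype.card_fin] at h3
    omega
  · intro c c' h
    funext f
    have h1 := congrFun (congrArg Subtype.val h) f
    simp only at h1
    exact Fin.castLE_injective hsr h1

lemma card_top_edgeSet (n : ℕ) : Nat.card (⊤ : SimpleGraph (Fin n)).edgeSet = n.choose 2 := by
  rw [Nat.card_eq_fintype_card, ← SimpleGraph.edgeFinset_card,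
    SimpleGraph.card_edgeFinset_top_eq_card_choose_two, Fintype.card_fin]

/-- a graph with more colourings than the Turán graph -/
lemma not_turanUnique {r a n : ℕ} (ha : 0 < a) (H : SimpleGraph (Fin n))
    (h : r ^ tn a n < numCol r (a + 1) H) : ¬ TuranUnique r (a + 1) n := by
  rintro ⟨h1, -⟩
  have h2 := h1 H
  rw [Nat.add_sub_cancel, numCol_turan ha] at h2
  omega

/-- **Case 1 of the lower bound.** -/
theorem lower1 {r a : ℕ} (ha : 3 ≤ a) (hr : (a + 1).choose 2 - 1 ≤ r)
    (h : r ^ (a - 1) < ((a + 1).choose 2 - 1) ^ a) (n₀ : ℕ) :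
    ∃ n, n₀ ≤ n ∧ ¬ TuranUnique r (a + 1) n := by
  have hK : 6 ≤ (a + 1).choose 2 := by
    have h3 : (3 + 1).choose 2 ≤ (a + 1).choose 2 := Nat.choose_le_choose 2 (by omega)
    have h4 : (3 + 1).choose 2 = 6 := by decide
    omega
  set s := (a + 1).choose 2 - 1 with hs
  have hs5 : 5 ≤ s := by omega
  have hsR : (0 : ℝ) < s := by exact_mod_cast (by omega : 0 < s)
  have hrR : (0 : ℝ) < r := by exact_mod_cast (by omega : 0 < r)
  have haR : (0 : ℝ) < a := by exact_mod_cast (by omega : 0 < a)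
  -- logarithms
  have hlog : ((a : ℝ) - 1) * Real.log r < a * Real.log s := by
    have h1 : ((r : ℝ)) ^ (a - 1) < (s : ℝ) ^ a := by exact_mod_cast h
    have h2 := Real.log_lt_log (by positivity) h1
    rw [Real.log_pow, Real.log_pow, Nat.cast_sub (by omega)] at h2
    push_cast at h2
    exact h2
  set x := (a : ℝ) * Real.log s with hx
  set y := ((a : ℝ) - 1) * Real.log r with hy
  have hlogs : 0 < Real.log s := Real.log_pos (by exact_mod_cast (by omega : 1 < s))
  have hx0 : 0 < x := by positivity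
  obtain ⟨n, hn1, hn2⟩ : ∃ n : ℕ, n₀ + 1 ≤ n ∧ x / (x - y) < n := by
    obtain ⟨m, hm⟩ := exists_nat_gt (x / (x - y))
    refine ⟨m + n₀ + 1, by omega, ?_⟩
    push_cast
    have : (0 : ℝ) ≤ n₀ := by positivity
    linarith
  refine ⟨n, by omega, ?_⟩
  refine not_turanUnique (by omega) ⊤ ?_
  refine lt_of_lt_of_le ?_ (pow_le_numCol (⊤ : SimpleGraph (Fin n)) hr (by omega))
  rw [card_top_edgeSet]
  have hnR : (0 : ℝ) < n := by exact_mod_cast (by omega : 0 < n)
  -- compare logarithms
  have hlogr0 : 0 ≤ Real.log r := Real.log_nonneg (by exact_mod_cast (by omega : 1 ≤ r))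
  have hmain : (tn a n : ℝ) * Real.log r < (n.choose 2 : ℝ) * Real.log s := by
    have h1 := tn_le (by omega : 1 ≤ a) n
    have h2 : 2 * (n.choose 2 : ℝ) = n * (n - 1) := by
      have h3 : 2 * n.choose 2 = n * (n - 1) := by
        rw [Nat.choose_two_right]
        exact Nat.mul_div_cancel' (Nat.even_mul_pred_self n).two_dvd
      have h4 : ((2 * n.choose 2 : ℕ) : ℝ) = ((n * (n - 1) : ℕ) : ℝ) := by rw [h3]
      push_cast [Nat.cast_sub (by omega : 1 ≤ n)] at h4
      exact h4
    have h3 : x < n * (x - y) := by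
      rw [div_lt_iff₀ (by linarith)] at hn2
      exact hn2
    -- `2 a tn log r ≤ n² y < n (n-1) x`
    have h5 : 2 * a * ((tn a n : ℝ) * Real.log r) ≤ n ^ 2 * y := by
      have h6 : a * (2 * (tn a n : ℝ)) ≤ a * ((1 - 1 / a) * (n : ℝ) ^ 2) :=
        mul_le_mul_of_nonneg_left h1 haR.le
      have h7 : a * ((1 - 1 / a) * (n : ℝ) ^ 2) = (a - 1) * n ^ 2 := by field_simp
      rw [h7] at h6
      have h8 := mul_le_mul_of_nonneg_right h6 hlogr0
      rw [hy]
      linarith
    have h6 : n ^ 2 * y < n * (n - 1) * x := by nlinarith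
    have h7 : 2 * a * ((n.choose 2 : ℝ) * Real.log s) = n * (n - 1) * x := by
      rw [hx, ← h2]
      ring
    have h8 : 2 * (a : ℝ) * ((tn a n : ℝ) * Real.log r) <
        2 * a * ((n.choose 2 : ℝ) * Real.log s) := by
      rw [h7]
      exact h5.trans_lt h6
    exact lt_of_mul_lt_mul_left h8 (by positivity)
  have hreal : (r : ℝ) ^ tn a n < (s : ℝ) ^ n.choose 2 := by
    rw [← Real.log_lt_log_iff (by positivity) (by positivity), Real.log_pow, Real.log_pow]
    exact hmain
  exact_mod_cast hreal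

end Pool.Agent.Lib.MP_ba6833_co
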