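import Mathlib
import Pool.Agent.Lib.MP_ba6833_co.Lower1

/-!
# Lower bound: the hybrid construction
-/

namespace Pool.Agent.Lib.MP_ba6833_co

open Finset
open scoped Classical

section hybrid

variable {r t q : ℕ}

/-- the part of a vertex: vertices are pairs (group, position); the first group consists of one
anchor for each part, the other groups are distributed by permutations -/
def pt (σ : Fin q → Equiv.Perm (Fin t)) (x : Fin (q + 1) × Fin t) : Fin t :=
  Fin.cases (motive := fun _ => Fin t) x.2 (fun g => σ g x.2) x.1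

lemma pt_zero (σ : Fin q → Equiv.Perm (Fin t)) (s : Fin t) : pt σ (0, s) = s := rfl

lemma pt_succ (σ : Fin q → Equiv.Perm (Fin t)) (g : Fin q) (s : Fin t) :
    pt σ (g.succ, s) = σ g s := rfl

/-- for a fixed group the part is a bijective function of the position -/
lemma pt_bij (σ : Fin q → Equiv.Perm (Fin t)) (g : Fin (q + 1)) :
    Function.Bijective (fun s => pt σ (g, s)) := by
  refine Fin.cases ?_ (fun g => ?_) g
  · exact Function.bijective_id
  · exact (σ g).bijective

/-- the allowed colours of a pair -/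
def L2 (r : ℕ) (σ : Fin q → Equiv.Perm (Fin t)) (x y : Fin (q + 1) × Fin t) : Finset (Fin r) :=
  if pt σ x = pt σ y then univ.filter (fun c => c.1 < 3)
  else if (x.1 = 0 ↔ y.1 = 0) then univ else univ.filter (fun c => 3 ≤ c.1)

lemma L2_symm (σ : Fin q → Equiv.Perm (Fin t)) (x y : Fin (q + 1) × Fin t) :
    L2 r σ x y = L2 r σ y x := by
  unfold L2
  by_cases h1 : pt σ x = pt σ y
  · rw [if_pos h1, if_pos h1.symm]
  · rw [if_neg h1, if_neg (fun h : pt σ y = pt σ x => h1 h.symm)]
    by_cases h2 : (x.1 = 0 ↔ y.1 = 0)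
    · rw [if_pos h2, if_pos (Iff.symm h2)]
    · rw [if_neg h2, if_neg (fun h : (y.1 = 0 ↔ x.1 = 0) => h2 (Iff.symm h))]

/-- the allowed colours of an edge -/
def L2e (r : ℕ) (σ : Fin q → Equiv.Perm (Fin t)) :
    Sym2 (Fin (q + 1) × Fin t) → Finset (Fin r) := Sym2.lift ⟨L2 r σ, L2_symm σ⟩

/-- the colourings belonging to `σ` -/
noncomputable def cls (r : ℕ) (σ : Fin q → Equiv.Perm (Fin t)) :
    Finset ((⊤ : SimpleGraph (Fin (q + 1) × Fin t)).edgeSet → Fin r) :=
  Fintype.piFinset (fun e => L2e r σ (e : Sym2 (Fin (q + 1) × Fin t)))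

lemma mem_cls {σ : Fin q → Equiv.Perm (Fin t)}
    {c : (⊤ : SimpleGraph (Fin (q + 1) × Fin t)).edgeSet → Fin r} (hc : c ∈ cls r σ)
    (x y : Fin (q + 1) × Fin t) (h : (⊤ : SimpleGraph (Fin (q + 1) × Fin t)).Adj x y) :
    c ⟨s(x, y), h⟩ ∈ L2 r σ x y := by
  unfold cls at hc
  rw [Fintype.mem_piFinset] at hc
  exact hc ⟨s(x, y), h⟩

/-- many pairs inside the classes -/
lemma many_inner {k t : ℕ} (P : Fin k → Fin t) :
    k ≤ t + ((prs k).filter (fun p => P p.1 = P p.2)).card := by
  have h1 : (univ.filter (fun j : Fin k => ∃ i, i < j ∧ P i = P j)).card ≤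
      ((prs k).filter (fun p => P p.1 = P p.2)).card := by
    refine Finset.card_le_card_of_injOn
      (fun j => if h : ∃ i, i < j ∧ P i = P j then (h.choose, j) else (j, j)) ?_ ?_
    · intro j hj
      simp only [Finset.coe_filter, Finset.mem_univ, true_and, Set.mem_ofPred_eq] at hj
      simp only [dif_pos hj]
      rw [Finset.mem_coe, Finset.mem_filter, mem_prs]
      exact hj.choose_spec
    · intro j hj j' hj' h
      simp only [Finset.coe_filter, Finset.mem_univ, true_and, Set.mem_ofPred_eq] at hj hj'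
      simp only [dif_pos hj, dif_pos hj'] at h
      exact (Prod.ext_iff.1 h).2
  have h2 : (univ.filter (fun j : Fin k => ¬ ∃ i, i < j ∧ P i = P j)).card ≤ t := by
    have h3 : (univ.filter (fun j : Fin k => ¬ ∃ i, i < j ∧ P i = P j)).card ≤
        (Finset.univ : Finset (Fin t)).card := by
      refine Finset.card_le_card_of_injOn P (fun _ _ => Finset.mem_coe.2 (Finset.mem_univ _)) ?_
      intro i hi j hj h
      simp only [Finset.coe_filter, Finset.mem_univ, true_and, Set.mem_ofPred_eq] at hi hj
      rcases lt_trichotomy i j with h4 | h4 | h4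
      · exact absurd ⟨i, h4, h⟩ hj
      · exact h4
      · exact absurd ⟨j, h4, h.symm⟩ hi
    rwa [Finset.card_univ, Fintype.card_fin] at h3
  have h3 := Finset.card_filter_add_card_filter_not (s := (univ : Finset (Fin k)))
    (fun j : Fin k => ∃ i, i < j ∧ P i = P j)
  rw [Finset.card_univ, Fintype.card_fin] at h3
  omega

/-- the colourings are rainbow-free -/
lemma cls_rainbowFree {k : ℕ} (hk : t + 4 ≤ k) (σ : Fin q → Equiv.Perm (Fin t))
    (c : (⊤ : SimpleGraph (Fin (q + 1) × Fin t)).edgeSet → Fin r) (hc : c ∈ cls r σ) :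
    ¬ HasRainbow k (⊤ : SimpleGraph (Fin (q + 1) × Fin t)) c := by
  intro h
  rw [hasRainbow_iff] at h
  obtain ⟨w, h1, h2⟩ := h
  have h3 := many_inner (fun i => pt σ (w i))
  have h4 : ((prs k).filter (fun p => pt σ (w p.1) = pt σ (w p.2))).card ≤
      (Finset.range 3).card := by
    refine Finset.card_le_card_of_injOn
      (fun p => if h : (⊤ : SimpleGraph (Fin (q + 1) × Fin t)).Adj (w p.1) (w p.2) then
        (c ⟨s(w p.1, w p.2), h⟩ : ℕ) else 0) ?_ ?_
    · intro p hp
      rw [Finset.mem_coe, Finset.mem_filter] at hp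
      have hadj := h1 p hp.1
      simp only [dif_pos hadj]
      have h5 := mem_cls hc (w p.1) (w p.2) hadj
      unfold L2 at h5
      rw [if_pos hp.2, Finset.mem_filter] at h5
      rw [Finset.mem_coe, Finset.mem_range]
      exact h5.2
    · intro p hp p' hp' heq
      rw [Finset.mem_coe, Finset.mem_filter] at hp hp'
      have hadj := h1 p hp.1
      have hadj' := h1 p' hp'.1
      simp only [dif_pos hadj, dif_pos hadj'] at heq
      apply h2 p hp.1 p' hp'.1
      rw [col_eq_some c hadj, col_eq_some c hadj', Fin.ext heq]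
  rw [Finset.card_range] at h4
  omega

/-- different permutations give different colourings -/
lemma cls_disjoint (σ σ' : Fin q → Equiv.Perm (Fin t)) (h : σ ≠ σ') :
    Disjoint (cls r σ) (cls r σ') := by
  rw [Finset.disjoint_left]
  intro c hc hc'
  apply h
  funext g
  ext s
  by_contra hne
  have hne' : σ' g s ≠ σ g s := fun h => hne (by rw [h])
  have hadj : (⊤ : SimpleGraph (Fin (q + 1) × Fin t)).Adj (g.succ, s) (0, σ g s) := by
    rw [SimpleGraph.top_adj]
    intro h
    exact Fin.succ_ne_zero g (Prod.ext_iff.1 h).1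
  have h1 := mem_cls hc _ _ hadj
  have h2 := mem_cls hc' _ _ hadj
  unfold L2 at h1 h2
  rw [pt_succ, pt_zero] at h1 h2
  rw [if_pos rfl, Finset.mem_filter] at h1
  rw [if_neg hne', if_neg (by simp [Fin.succ_ne_zero g]), Finset.mem_filter] at h2
  omega

lemma sum_cls_le {k : ℕ} (hk : t + 4 ≤ k) :
    ∑ σ : Fin q → Equiv.Perm (Fin t), (cls r σ).card ≤
      numCol r k (⊤ : SimpleGraph (Fin (q + 1) × Fin t)) := by
  have hcard : numCol r k (⊤ : SimpleGraph (Fin (q + 1) × Fin t)) =
      (univ.filter (fun c : (⊤ : SimpleGraph (Fin (q + 1) × Fin t)).edgeSet → Fin r =>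
        ¬ HasRainbow k (⊤ : SimpleGraph (Fin (q + 1) × Fin t)) c)).card :=
    Nat.subtype_card _ (fun c => by simp)
  rw [hcard, ← Finset.card_biUnion (fun σ _ σ' _ h => cls_disjoint σ σ' h)]
  refine Finset.card_le_card ?_
  intro c hc
  rw [Finset.mem_biUnion] at hc
  obtain ⟨σ, -, hσ⟩ := hc
  rw [Finset.mem_filter]
  exact ⟨Finset.mem_univ _, cls_rainbowFree hk σ c hσ⟩

lemma card_lt_three (hr : 3 ≤ r) : (univ.filter (fun c : Fin r => c.1 < 3)).card = 3 := by
  have h1 : (univ.filter (fun c : Fin r => c.1 < 3)) =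
      (Finset.univ : Finset (Fin 3)).map (Fin.castLEEmb hr) := by
    ext c
    simp only [Finset.mem_filter, Finset.mem_univ, true_and, Finset.mem_map]
    constructor
    · intro h
      exact ⟨⟨c.1, h⟩, rfl⟩
    · rintro ⟨i, rfl⟩
      exact i.2
  rw [h1, Finset.card_map, Finset.card_univ, Fintype.card_fin]

lemma card_three_le (hr : 3 ≤ r) : (univ.filter (fun c : Fin r => 3 ≤ c.1)).card = r - 3 := by
  have h1 := Finset.card_filter_add_card_filter_not (s := (univ : Finset (Fin r)))
    (fun c : Fin r => c.1 < 3)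
  rw [card_lt_three hr, Finset.card_univ, Fintype.card_fin] at h1
  simp only [not_lt] at h1
  omega

/-- the logarithm of the size of a class -/
lemma log_card_cls (hr : 4 ≤ r) (ht : 1 ≤ t) (σ : Fin q → Equiv.Perm (Fin t)) :
    2 * Real.log ((cls r σ).card : ℝ) =
      t * q * (q + 1) * Real.log 3 + (t ^ 2 - t) * ((q ^ 2 + 1) * Real.log r +
        2 * q * Real.log (r - 3)) := by
  set V := Fin (q + 1) × Fin t with hV
  set f : V → V → ℝ := fun x y => Real.log ((L2 r σ x y).card : ℝ) with hf
  have hfs : ∀ x y, f x y = f y x := by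
    intro x y
    rw [hf]
    simp only [L2_symm σ x y]
  have hcardL : ∀ x y : V, 0 < (L2 r σ x y).card := by
    intro x y
    unfold L2
    split_ifs
    · rw [card_lt_three (by omega)]
      norm_num
    · rw [Finset.card_univ, Fintype.card_fin]
      omega
    · rw [card_three_le (by omega)]
      omega
  have h1 : Real.log ((cls r σ).card : ℝ) =
      ∑ e : (⊤ : SimpleGraph V).edgeSet, Sym2.lift ⟨f, hfs⟩ (e : Sym2 V) := by
    unfold cls
    rw [Fintype.card_piFinset]
    push_cast
    rw [Real.log_prod]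
    · refine Finset.sum_congr rfl fun e _ => ?_
      obtain ⟨e, he⟩ := e
      induction e with
      | h x y => rfl
    · intro e _
      obtain ⟨e, he⟩ := e
      induction e with
      | h x y =>
        have := hcardL x y
        have h2 : ((L2e r σ s(x, y)).card : ℝ) = ((L2 r σ x y).card : ℝ) := rfl
        simp only [h2]
        positivity
  have h0 := sum_adj_eq_two_mul (⊤ : SimpleGraph V) f hfs
  rw [h1, ← h0]
  -- the value of `f`
  set C : Fin (q + 1) → Fin (q + 1) → ℝ := fun g g' =>
    if (g = 0 ↔ g' = 0) then Real.log r else Real.log (r - 3) with hC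
  have hfval : ∀ x y : V, f x y = if pt σ x = pt σ y then Real.log 3 else C x.1 y.1 := by
    intro x y
    rw [hf, hC]
    simp only
    unfold L2
    split_ifs
    · rw [card_lt_three (by omega)]
      norm_num
    · rw [Finset.card_univ, Fintype.card_fin]
    · rw [card_three_le (by omega), Nat.cast_sub (by omega)]
      norm_num
  have h2 : ∑ x : V, ∑ y : V, (if (⊤ : SimpleGraph V).Adj x y then f x y else 0) =
      ∑ x : V, ∑ y : V, f x y - ∑ x : V, Real.log 3 := by
    rw [← Finset.sum_sub_distrib]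
    refine Finset.sum_congr rfl fun x _ => ?_
    have h3 : ∀ y : V, (if (⊤ : SimpleGraph V).Adj x y then f x y else 0) =
        f x y - (if x = y then Real.log 3 else 0) := by
      intro y
      by_cases hxy : x = y
      · subst hxy
        rw [if_neg (by simp), if_pos rfl, hfval, if_pos rfl]
        ring
      · rw [if_pos (by simpa using hxy), if_neg hxy]
        ring
    rw [Finset.sum_congr rfl fun y _ => h3 y, Finset.sum_sub_distrib, Finset.sum_ite_eq]
    simp
  have h3 : ∀ (x : V) (g' : Fin (q + 1)), ∑ s' : Fin t, f x (g', s') =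
      Real.log 3 + (t - 1) * C x.1 g' := by
    intro x g'
    have h4 : ∑ s' : Fin t, f x (g', s') =
        ∑ i : Fin t, (if pt σ x = i then Real.log 3 else C x.1 g') := by
      rw [← Function.Bijective.sum_comp (pt_bij σ g')
        (fun i => if pt σ x = i then Real.log 3 else C x.1 g')]
      exact Finset.sum_congr rfl fun s' _ => hfval _ _
    rw [h4]
    have h5 : ∀ i : Fin t, (if pt σ x = i then Real.log 3 else C x.1 g') =
        C x.1 g' + (if pt σ x = i then Real.log 3 - C x.1 g' else 0) := by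
      intro i
      split_ifs <;> ring
    rw [Finset.sum_congr rfl fun i _ => h5 i, Finset.sum_add_distrib, Finset.sum_ite_eq]
    simp only [Finset.sum_const, Finset.card_univ, Fintype.card_fin, nsmul_eq_mul,
      Finset.mem_univ, if_true]
    ring
  have h4 : ∑ x : V, ∑ y : V, f x y =
      t * (q + 1) ^ 2 * Real.log 3 + (t ^ 2 - t) *
        ∑ g : Fin (q + 1), ∑ g' : Fin (q + 1), C g g' := by
    have h5 : ∀ x : V, ∑ y : V, f x y =
        (q + 1) * Real.log 3 + (t - 1) * ∑ g' : Fin (q + 1), C x.1 g' := by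
      intro x
      rw [Fintype.sum_prod_type]
      rw [Finset.sum_congr rfl fun g' _ => h3 x g', Finset.sum_add_distrib, ← Finset.mul_sum]
      simp
    have h6 : ∑ x : V, ((t : ℝ) - 1) * ∑ g' : Fin (q + 1), C x.1 g' =
        ((t : ℝ) - 1) * ∑ x : V, ∑ g' : Fin (q + 1), C x.1 g' := by rw [Finset.mul_sum]
    rw [Finset.sum_congr rfl fun x _ => h5 x, Finset.sum_add_distrib, h6,
      Fintype.sum_prod_type (fun x : V => ∑ g' : Fin (q + 1), C x.1 g')]
    simp only [Finset.sum_const, Finset.card_univ, Fintype.card_fin, nsmul_eq_mul,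
      Fintype.card_prod, hV]
    rw [← Finset.mul_sum]
    push_cast
    ring
  have h5 : ∑ g : Fin (q + 1), ∑ g' : Fin (q + 1), C g g' =
      (q ^ 2 + 1) * Real.log r + 2 * q * Real.log (r - 3) := by
    have h6 : ∀ g : Fin (q + 1), ∑ g' : Fin (q + 1), C g g' =
        C g 0 + ∑ g' : Fin q, C g g'.succ := fun g => Fin.sum_univ_succ _
    rw [Finset.sum_congr rfl fun g _ => h6 g, Fin.sum_univ_succ]
    have h7 : C 0 0 = Real.log r := by rw [hC]; simp
    have h8 : ∀ g : Fin q, C 0 g.succ = Real.log (r - 3) := by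
      intro g
      rw [hC]
      simp [Fin.succ_ne_zero g]
    have h9 : ∀ g : Fin q, C g.succ 0 = Real.log (r - 3) := by
      intro g
      rw [hC]
      simp [Fin.succ_ne_zero g]
    have h10 : ∀ g g' : Fin q, C g.succ g'.succ = Real.log r := by
      intro g g'
      rw [hC]
      simp [Fin.succ_ne_zero g, Fin.succ_ne_zero g']
    simp only [h7, h8, h9, h10, Finset.sum_const, Finset.card_univ, Fintype.card_fin,
      nsmul_eq_mul]
    ring
  rw [h2, h4, h5]
  simp only [Finset.sum_const, Finset.card_univ, nsmul_eq_mul, Fintype.card_prod,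
    Fintype.card_fin, hV]
  push_cast
  ring

end hybrid

end Pool.Agent.Lib.MP_ba6833_co
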