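import Mathlib
import Pool.Agent.Lib.MP_ba6833_co.Lower2

/-!
# Lower bound: conclusion
-/

namespace Pool.Agent.Lib.MP_ba6833_co

open Finset
open scoped Classical

lemma fact_ineq {t : ℕ} (ht : 11 ≤ t) : 3 ^ (t + 12) < (t.factorial) ^ 2 := by
  induction t, ht using Nat.le_induction with
  | base => decide +kernel
  | succ t ht ih =>
    have h1 : 3 ^ (t + 1 + 12) = 3 * 3 ^ (t + 12) := by ring
    have h2 : ((t + 1).factorial) ^ 2 = (t + 1) ^ 2 * (t.factorial) ^ 2 := by
      rw [Nat.factorial_succ]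
      ring
    rw [h1, h2]
    have h3 : 3 ≤ (t + 1) ^ 2 := by nlinarith
    calc 3 * 3 ^ (t + 12) < 3 * (t.factorial) ^ 2 := by omega
      _ ≤ (t + 1) ^ 2 * (t.factorial) ^ 2 := Nat.mul_le_mul_right _ h3

lemma one_le_log_three : 1 ≤ Real.log 3 := by
  rw [Real.le_log_iff_exp_le (by norm_num)]
  have := Real.exp_one_lt_d9
  linarith

/-- in Case 2 we have `a ≥ 14` -/
lemma a_ge {r a : ℕ} (ha : 3 ≤ a) (h3 : r ^ 3 ≤ 3 ^ a)
    (hK : ((a + 1).choose 2 - 1) ^ a ≤ r ^ (a - 1)) : 14 ≤ a := by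
  have h1 : (((a + 1).choose 2 - 1) ^ 3) ^ a ≤ (3 ^ (a - 1)) ^ a := by
    calc (((a + 1).choose 2 - 1) ^ 3) ^ a = (((a + 1).choose 2 - 1) ^ a) ^ 3 := by ring
      _ ≤ (r ^ (a - 1)) ^ 3 := Nat.pow_le_pow_left hK 3
      _ = (r ^ 3) ^ (a - 1) := by ring
      _ ≤ (3 ^ a) ^ (a - 1) := Nat.pow_le_pow_left h3 _
      _ = (3 ^ (a - 1)) ^ a := by ring
  have h2 : ((a + 1).choose 2 - 1) ^ 3 ≤ 3 ^ (a - 1) :=
    (Nat.pow_le_pow_iff_left (by omega)).1 h1
  by_contra hcon
  have h13 : a ≤ 13 := by omega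
  have h4 : ∀ a : Fin 14, 3 ≤ a.1 → ¬ ((a.1 + 1).choose 2 - 1) ^ 3 ≤ 3 ^ (a.1 - 1) := by
    decide +kernel
  exact h4 ⟨a, by omega⟩ ha h2

/-- **Case 2 of the lower bound.** -/
theorem lower2 {r a : ℕ} (ha : 3 ≤ a) (hr : (a + 1).choose 2 ≤ r) (h3 : r ^ 3 ≤ 3 ^ a)
    (hK : ((a + 1).choose 2 - 1) ^ a ≤ r ^ (a - 1)) (n₀ : ℕ) :
    ∃ n, n₀ ≤ n ∧ ¬ TuranUnique r (a + 1) n := by
  have ha14 := a_ge ha h3 hK
  obtain ⟨t, rfl⟩ : ∃ t, a = t + 3 := ⟨a - 3, by omega⟩
  have ht : 11 ≤ t := by omega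
  have hr2 : (t + 3) * (t + 3 + 1) ≤ 2 * r := by
    have h1 := Nat.choose_two_right (t + 3 + 1)
    have h2 : 2 * ((t + 3 + 1) * (t + 3 + 1 - 1) / 2) = (t + 3 + 1) * (t + 3 + 1 - 1) :=
      Nat.mul_div_cancel' (Nat.even_mul_pred_self _).two_dvd
    rw [← h1, Nat.add_sub_cancel] at h2
    nlinarith
  have hr100 : 100 ≤ r := by nlinarith
  -- real versions
  have htR : (11 : ℝ) ≤ t := by exact_mod_cast ht
  have hr2R : ((t : ℝ) + 3) * (t + 4) ≤ 2 * r := by
    have : (((t + 3) * (t + 3 + 1) : ℕ) : ℝ) ≤ ((2 * r : ℕ) : ℝ) := by exact_mod_cast hr2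
    push_cast at this
    linarith
  have hr100R : (100 : ℝ) ≤ r := by exact_mod_cast hr100
  have hlog3 := one_le_log_three
  have hlogr : 0 < Real.log r := Real.log_pos (by linarith)
  have h3R : 3 * Real.log r ≤ (t + 3) * Real.log 3 := by
    have h4 : ((r : ℝ)) ^ 3 ≤ (3 : ℝ) ^ (t + 3) := by exact_mod_cast h3
    have h5 := Real.log_le_log (by positivity) h4
    rw [Real.log_pow, Real.log_pow] at h5
    push_cast at h5
    exact h5
  have hdiff : Real.log r - Real.log (r - 3) ≤ 3 / (r - 3) := by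
    rw [← Real.log_div (by positivity) (by linarith)]
    refine (Real.log_le_sub_one_of_pos (by apply div_pos <;> linarith)).trans (le_of_eq ?_)
    have : (r : ℝ) - 3 ≠ 0 := by linarith
    field_simp
    ring
  have hBr : 0 < 2 * Real.log (t.factorial) - t * Real.log 3 -
      2 * ((t : ℝ) ^ 2 - t) * (Real.log r - Real.log (r - 3)) := by
    have h4 : ((t : ℝ) + 12) * Real.log 3 < 2 * Real.log (t.factorial) := by
      have h5 : ((3 : ℝ)) ^ (t + 12) < ((t.factorial : ℕ) : ℝ) ^ 2 := by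
        exact_mod_cast fact_ineq ht
      have h6 := Real.log_lt_log (by positivity) h5
      rw [Real.log_pow, Real.log_pow] at h6
      push_cast at h6
      linarith
    have h5 : 2 * ((t : ℝ) ^ 2 - t) * (Real.log r - Real.log (r - 3)) ≤ 12 := by
      have h6 : 0 ≤ 2 * ((t : ℝ) ^ 2 - t) := by nlinarith
      refine (mul_le_mul_of_nonneg_left hdiff h6).trans ?_
      rw [mul_div_assoc', div_le_iff₀ (by linarith)]
      nlinarith
    nlinarith
  set Br := 2 * Real.log (t.factorial) - t * Real.log 3 -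
      2 * ((t : ℝ) ^ 2 - t) * (Real.log r - Real.log (r - 3)) with hBrdef
  obtain ⟨q, hq1, hq2⟩ : ∃ q : ℕ, n₀ + 1 ≤ q ∧ t * Real.log 3 / Br < q := by
    obtain ⟨m, hm⟩ := exists_nat_gt (t * Real.log 3 / Br)
    refine ⟨m + n₀ + 1, by omega, ?_⟩
    push_cast
    have : (0 : ℝ) ≤ n₀ := by positivity
    linarith
  rw [div_lt_iff₀ hBr] at hq2
  refine ⟨(q + 1) * t, by nlinarith, ?_⟩
  -- the number of colourings
  have hnum : 2 * (q * Real.log (t.factorial)) + (t * q * (q + 1) * Real.log 3 +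
      ((t : ℝ) ^ 2 - t) * ((q ^ 2 + 1) * Real.log r + 2 * q * Real.log (r - 3))) ≤
      2 * Real.log (numCol r (t + 3 + 1) (⊤ : SimpleGraph (Fin (q + 1) × Fin t)) : ℝ) := by
    have h4 := sum_cls_le (r := r) (t := t) (q := q) (k := t + 3 + 1) (by omega)
    set S := t * q * (q + 1) * Real.log 3 +
      ((t : ℝ) ^ 2 - t) * ((q ^ 2 + 1) * Real.log r + 2 * q * Real.log (r - 3)) with hS
    have h5 : ∀ σ : Fin q → Equiv.Perm (Fin t), Real.exp (S / 2) ≤ ((cls r σ).card : ℝ) := by
      intro σ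
      have h6 := log_card_cls (r := r) (by omega) (by omega) σ
      rw [← hS] at h6
      have h7 : S / 2 = Real.log ((cls r σ).card : ℝ) := by linarith
      rw [h7]
      rcases Nat.eq_zero_or_pos (cls r σ).card with h8 | h8
      · -- the class is nonempty
        exfalso
        have h9 : (cls r σ).Nonempty := by
          unfold cls
          rw [Fintype.piFinset_nonempty]
          intro e
          obtain ⟨e, he⟩ := e
          induction e with
          | h x y =>
            show (L2 r σ x y).Nonempty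
            rw [← Finset.card_pos]
            unfold L2
            split_ifs
            · rw [card_lt_three (by omega)]
              norm_num
            · rw [Finset.card_univ, Fintype.card_fin]
              omega
            · rw [card_three_le (by omega)]
              omega
        rw [← Finset.card_pos] at h9
        omega
      · rw [Real.exp_log (by exact_mod_cast h8)]
    have h6 : ((t.factorial : ℕ) : ℝ) ^ q * Real.exp (S / 2) ≤
        (numCol r (t + 3 + 1) (⊤ : SimpleGraph (Fin (q + 1) × Fin t)) : ℝ) := by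
      have h7 : ∑ σ : Fin q → Equiv.Perm (Fin t), Real.exp (S / 2) ≤
          ∑ σ : Fin q → Equiv.Perm (Fin t), ((cls r σ).card : ℝ) :=
        Finset.sum_le_sum fun σ _ => h5 σ
      rw [Finset.sum_const, Finset.card_univ, Fintype.card_fun, Fintype.card_perm,
        Fintype.card_fin, Fintype.card_fin, nsmul_eq_mul] at h7
      push_cast at h7
      refine h7.trans ?_
      exact_mod_cast h4
    have hfpos : (0 : ℝ) < ((t.factorial : ℕ) : ℝ) := by exact_mod_cast Nat.factorial_pos t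
    have h7 := Real.log_le_log (by positivity) h6
    rw [Real.log_mul (by positivity) (Real.exp_pos _).ne', Real.log_pow, Real.log_exp] at h7
    linarith
  -- transfer to `Fin n`
  have e : (⊤ : SimpleGraph (Fin (q + 1) × Fin t)) ≃g (⊤ : SimpleGraph (Fin ((q + 1) * t))) :=
    ⟨finProdFinEquiv, by
      intro x y
      simp only [SimpleGraph.top_adj, ne_eq, EmbeddingLike.apply_eq_iff_eq]⟩
  have hle : numCol r (t + 3 + 1) (⊤ : SimpleGraph (Fin (q + 1) × Fin t)) ≤
      numCol r (t + 3 + 1) (⊤ : SimpleGraph (Fin ((q + 1) * t))) := numCol_le_of_iso e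
  refine not_turanUnique (by omega) ⊤ (lt_of_lt_of_le ?_ hle)
  have htn := tn_le (by omega : 1 ≤ t + 3) ((q + 1) * t)
  have hmain : (tn (t + 3) ((q + 1) * t) : ℝ) * Real.log r <
      Real.log (numCol r (t + 3 + 1) (⊤ : SimpleGraph (Fin (q + 1) × Fin t)) : ℝ) := by
    have h4 : 2 * (tn (t + 3) ((q + 1) * t) : ℝ) * Real.log r ≤
        ((t : ℝ) ^ 2 - t) * (q + 1) ^ 2 * Real.log r + t * (q + 1) ^ 2 * Real.log 3 := by
      have h5 := mul_le_mul_of_nonneg_right htn hlogr.le
      refine h5.trans ?_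
      push_cast
      have h6 : (1 - 1 / ((t : ℝ) + 3)) * ((q + 1) * t) ^ 2 * Real.log r =
          ((t : ℝ) ^ 2 - t) * (q + 1) ^ 2 * Real.log r +
            t * (q + 1) ^ 2 / (t + 3) * (3 * Real.log r) := by
        field_simp
        ring
      rw [h6]
      have h7 : t * ((q : ℝ) + 1) ^ 2 / (t + 3) * (3 * Real.log r) ≤
          t * (q + 1) ^ 2 / (t + 3) * ((t + 3) * Real.log 3) :=
        mul_le_mul_of_nonneg_left h3R (by positivity)
      have h8 : t * ((q : ℝ) + 1) ^ 2 / (t + 3) * ((t + 3) * Real.log 3) =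
          t * (q + 1) ^ 2 * Real.log 3 := by field_simp
      linarith
    rw [hBrdef] at hq2
    nlinarith
  have hpos : (0 : ℝ) < (numCol r (t + 3 + 1) (⊤ : SimpleGraph (Fin (q + 1) × Fin t)) : ℝ) := by
    rcases Nat.eq_zero_or_pos
      (numCol r (t + 3 + 1) (⊤ : SimpleGraph (Fin (q + 1) × Fin t))) with h | h
    · exfalso
      rw [h] at hmain
      simp only [Nat.cast_zero, Real.log_zero] at hmain
      have : 0 ≤ (tn (t + 3) ((q + 1) * t) : ℝ) * Real.log r := by positivity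
      linarith
    · exact_mod_cast h
  have hreal : (r : ℝ) ^ tn (t + 3) ((q + 1) * t) <
      (numCol r (t + 3 + 1) (⊤ : SimpleGraph (Fin (q + 1) × Fin t)) : ℝ) := by
    rw [← Real.log_lt_log_iff (by positivity) hpos, Real.log_pow]
    exact hmain
  exact_mod_cast hreal

end Pool.Agent.Lib.MP_ba6833_co
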