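import Mathlib
import Pool.Agent.Lib.MP_ba6833_co.LS

/-!
# The numerical condition
-/

namespace Pool.Agent.Lib.MP_ba6833_co

open Finset

lemma cube_le_three_pow (s : ℕ) : s ^ 3 ≤ 3 ^ s := by
  rcases Nat.lt_or_ge s 3 with h | h
  · interval_cases s <;> norm_num
  · induction s, h using Nat.le_induction with
    | base => norm_num
    | succ s hs ih =>
      have h1 : (s + 1) ^ 3 ≤ 3 * s ^ 3 := by nlinarith [mul_self_nonneg (s : ℕ), hs, mul_le_mul hs hs (by norm_num) (by positivity : 0 ≤ s)]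
      rw [pow_succ 3 s]
      omega

/-- small `s` -/
lemma small_s {a r s : ℕ} (ha : 1 ≤ a) (hr3 : 3 ^ a < r ^ 3) (hs1 : 1 ≤ s) (hs2 : s ^ 2 < r) :
    ∑ l ∈ Finset.Ico 1 (a + 1), ⌊((l : ℝ) / a) / dfc r s⌋₊ ≤ s := by
  have hr2 : 2 ≤ r := by
    have : 1 ≤ s ^ 2 := Nat.one_le_pow _ _ (by omega)
    omega
  have h1 : (1 : ℝ) < r := by exact_mod_cast (by omega : 1 < r)
  have h0 : (0 : ℝ) < r := by linarith
  have hs0 : (0 : ℝ) < s := by exact_mod_cast hs1
  have haR : (0 : ℝ) < a := by exact_mod_cast ha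
  -- `log_r s < 1/2`
  have hhalf : Real.logb r s < 1 / 2 := by
    have h2 : Real.logb r ((s : ℝ) ^ 2) < 1 := by
      rw [Real.logb_lt_iff_lt_rpow h1 (by positivity), Real.rpow_one]
      exact_mod_cast hs2
    rw [Real.logb_pow] at h2
    push_cast at h2
    linarith
  -- `a log_r s < s`
  have hlog : a * Real.logb r s < s := by
    have h2 : s ^ a < r ^ s := by
      have h3 : (s ^ a) ^ 3 < (r ^ s) ^ 3 := by
        calc (s ^ a) ^ 3 = (s ^ 3) ^ a := by ring
          _ ≤ (3 ^ s) ^ a := Nat.pow_le_pow_left (cube_le_three_pow s) a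
          _ = (3 ^ a) ^ s := by ring
          _ < (r ^ 3) ^ s := Nat.pow_lt_pow_left hr3 (by omega)
          _ = (r ^ s) ^ 3 := by ring
      exact lt_of_pow_lt_pow_left₀ 3 (by positivity) h3
    have h3 : Real.logb r ((s : ℝ) ^ a) < s := by
      rw [Real.logb_lt_iff_lt_rpow h1 (by positivity), Real.rpow_natCast]
      exact_mod_cast h2
    rw [Real.logb_pow] at h3
    exact h3
  have hu : 0 < dfc r s := by
    unfold dfc
    linarith
  have hterm : ∀ l ∈ Finset.Ico 1 (a + 1), ⌊((l : ℝ) / a) / dfc r s⌋₊ ≤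
      if a < l + s then 1 else 0 := by
    intro l hl
    rw [Finset.mem_Ico] at hl
    have hl1 : (0 : ℝ) < l := by exact_mod_cast hl.1
    have hla : (l : ℝ) ≤ a := by exact_mod_cast (by omega : l ≤ a)
    split_ifs with h
    · have h2 : ((l : ℝ) / a) / dfc r s < 2 := by
        rw [div_lt_iff₀ hu]
        have h3 : (l : ℝ) / a ≤ 1 := by
          rw [div_le_one haR]
          exact hla
        unfold dfc
        linarith
      have h3 := (Nat.floor_lt (by positivity : (0 : ℝ) ≤ ((l : ℝ) / a) / dfc r s) (n := 2)).2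
        (by exact_mod_cast h2)
      omega
    · have h2 : ((l : ℝ) / a) / dfc r s < 1 := by
        rw [div_lt_iff₀ hu, one_mul, div_lt_iff₀ haR]
        have h3 : (l : ℝ) + s ≤ a := by exact_mod_cast (by omega : l + s ≤ a)
        unfold dfc
        nlinarith
      have h3 := (Nat.floor_lt (by positivity : (0 : ℝ) ≤ ((l : ℝ) / a) / dfc r s) (n := 1)).2
        (by exact_mod_cast h2)
      omega
  refine (Finset.sum_le_sum hterm).trans ?_
  rw [← Finset.card_filter]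
  have hsub : (Finset.Ico 1 (a + 1)).filter (fun l => a < l + s) ⊆
      Finset.Ico (a + 1 - s) (a + 1) := by
    intro l hl
    rw [Finset.mem_filter, Finset.mem_Ico] at hl
    rw [Finset.mem_Ico]
    omega
  refine (Finset.card_le_card hsub).trans ?_
  rw [Nat.card_Ico]
  omega

/-- the rational upper bound for the floor sum -/
def Bf (a p q : ℕ) : ℕ := ((List.range a).map (fun l => ((l + 1) * q) / (a * (q - p)))).sum

lemma list_sum_range (f : ℕ → ℕ) (n : ℕ) :
    ((List.range n).map f).sum = ∑ i ∈ Finset.range n, f i := by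
  induction n with
  | zero => simp
  | succ n ih => rw [List.range_succ, Finset.sum_range_succ]; simp [ih]

/-- certified `s` -/
lemma cert_s {a r s p q : ℕ} (ha : 1 ≤ a) (hr2 : 2 ≤ r) (hs : 1 ≤ s) (hpq : p < q)
    (h : s ^ q ≤ r ^ p) :
    ∑ l ∈ Finset.Ico 1 (a + 1), ⌊((l : ℝ) / a) / dfc r s⌋₊ ≤ Bf a p q := by
  have h1 : (1 : ℝ) < r := by exact_mod_cast (by omega : 1 < r)
  have h0 : (0 : ℝ) < r := by linarith
  have hs0 : (0 : ℝ) < s := by exact_mod_cast hs
  have haR : (0 : ℝ) < a := by exact_mod_cast ha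
  have hqR : (0 : ℝ) < q := by exact_mod_cast (by omega : 0 < q)
  have hpqR : (p : ℝ) < q := by exact_mod_cast hpq
  have hlog : q * Real.logb r s ≤ p := by
    have h2 : Real.logb r ((s : ℝ) ^ q) ≤ p := by
      rw [Real.logb_le_iff_le_rpow h1 (by positivity), Real.rpow_natCast]
      exact_mod_cast h
    rw [Real.logb_pow] at h2
    exact h2
  have hu : ((q : ℝ) - p) / q ≤ dfc r s := by
    unfold dfc
    rw [div_le_iff₀ hqR]
    nlinarith
  have hu0 : 0 < ((q : ℝ) - p) / q := div_pos (by linarith) hqR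
  have hB : Bf a p q = ∑ l ∈ Finset.Ico 1 (a + 1), (l * q) / (a * (q - p)) := by
    unfold Bf
    rw [list_sum_range, Finset.sum_Ico_eq_sum_range, Nat.add_sub_cancel]
    exact Finset.sum_congr rfl fun i _ => by rw [add_comm]
  rw [hB]
  refine Finset.sum_le_sum fun l _ => ?_
  rw [← Nat.floor_div_eq_div (K := ℝ)]
  refine Nat.floor_le_floor ?_
  have h2 : ((l : ℝ) / a) / dfc r s ≤ ((l : ℝ) / a) / (((q : ℝ) - p) / q) :=
    div_le_div_of_nonneg_left (by positivity) hu0 hu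
  refine h2.trans (le_of_eq ?_)
  push_cast [Nat.cast_sub hpq.le]
  have h3 : (q : ℝ) - p ≠ 0 := by linarith
  field_simp

/-- checking a list of certificates covering `lo, …, K - 1` -/
def chk (a r₁ K : ℕ) : ℕ → List (ℕ × ℕ × ℕ) → Bool
  | lo, [] => Nat.ble K lo
  | lo, (h, p, q) :: t => Nat.ble (p + 1) q && Nat.ble (h ^ q) (r₁ ^ p) && Nat.ble (Bf a p q) lo &&
      chk a r₁ K (h + 1) t

lemma chk_sound {a r₁ K : ℕ} : ∀ (t : List (ℕ × ℕ × ℕ)) (lo : ℕ), chk a r₁ K lo t = true →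
    ∀ s, lo ≤ s → s < K → ∃ p q, p < q ∧ s ^ q ≤ r₁ ^ p ∧ Bf a p q ≤ s := by
  intro t
  induction t with
  | nil =>
    intro lo h s hs hsK
    have := Nat.le_of_ble_eq_true h
    omega
  | cons x t ih =>
    obtain ⟨h, p, q⟩ := x
    intro lo hchk s hs hsK
    simp only [chk, Bool.and_eq_true] at hchk
    obtain ⟨⟨⟨h1, h2⟩, h3⟩, h4⟩ := hchk
    have h1' := Nat.le_of_ble_eq_true h1
    have h2' := Nat.le_of_ble_eq_true h2
    have h3' := Nat.le_of_ble_eq_true h3
    by_cases hsh : s ≤ h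
    · exact ⟨p, q, by omega, (Nat.pow_le_pow_left hsh q).trans h2', h3'.trans hs⟩
    · exact ih (h + 1) h4 s (by omega) hsK

/-- checking one row of the table -/
def chkRow (x : ℕ × ℕ × ℕ × List (ℕ × ℕ × ℕ)) : Bool :=
  let a := x.1
  let r₁ := x.2.1
  let lo := x.2.2.1
  let K := a * (a + 1) / 2
  (Nat.ble ((r₁ - 1) ^ (a - 1)) ((K - 1) ^ a) || Nat.ble ((r₁ - 1) ^ 3) (3 ^ a)) &&
    Nat.ble ((lo - 1) ^ 2 + 1) r₁ && chk a r₁ K lo x.2.2.2

def table : List (ℕ × ℕ × ℕ × List (ℕ × ℕ × ℕ)) :=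
  [(3, 12, 4, [(5, 13, 20)]),
   (4, 19, 5, [(7, 39, 59), (8, 5, 7), (9, 50, 67)]),
   (5, 28, 6, [(9, 31, 47), (14, 23, 29)]),
   (6, 37, 7, [(10, 9, 14), (14, 11, 15), (20, 39, 47)]),
   (7, 47, 7, [(11, 5, 8), (17, 14, 19), (23, 9, 11), (26, 17, 20), (27, 113, 132)]),
   (8, 59, 8, [(12, 8, 13), (20, 14, 19), (28, 9, 11), (35, 41, 47)]),
   (9, 71, 9, [(16, 15, 23), (27, 24, 31), (37, 17, 20), (43, 23, 26), (44, 87, 98)]),
   (10, 85, 10, [(17, 9, 14), (30, 36, 47), (43, 28, 33), (51, 31, 35), (54, 44, 49)]),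
   (11, 99, 10, [(18, 12, 19), (32, 28, 37), (49, 39, 46), (60, 25, 28), (64, 29, 32), (65, 129, 142)]),
   (12, 115, 11, [(19, 18, 29), (34, 29, 39), (51, 34, 41), (67, 39, 44), (76, 21, 23), (77, 65, 71)]),
   (13, 131, 12, [(19, 11, 18), (37, 20, 27), (61, 27, 32), (79, 26, 29), (89, 35, 38), (90, 935, 1013)]),
   (14, 169, 13, [(26, 7, 11), (55, 18, 23), (91, 22, 25), (104, 10, 11)]),
   (15, 244, 16, [(37, 23, 35), (93, 19, 23), (119, 7, 8)]),
   (16, 351, 19, [(55, 13, 19), (135, 6, 7)]),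
   (17, 506, 23, [(80, 31, 44), (152, 5, 6)]),
   (18, 730, 28, [(136, 41, 55), (170, 4, 5)]),
   (19, 1052, 33, [(189, 16, 21)]),
   (20, 1517, 39, [(209, 3, 4)]),
   (21, 2188, 47, [(230, 3, 4)]),
   (22, 3155, 57, [(252, 3, 4)]),
   (23, 4550, 68, [(275, 3, 4)]),
   (24, 6562, 82, [(299, 2, 3)]),
   (25, 9463, 98, [(324, 2, 3)]),
   (26, 13648, 117, [(350, 2, 3)]),
   (27, 19684, 141, [(377, 2, 3)]),
   (28, 28388, 169, [(405, 2, 3)]),
   (29, 40943, 203, [(434, 2, 3)]),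
   (30, 59050, 244, [(464, 2, 3)]),
   (31, 85164, 292, [(495, 2, 3)]),
   (32, 122827, 351, [(527, 2, 3)]),
   (33, 177148, 421, [(560, 2, 3)]),
   (34, 255491, 506, [(594, 2, 3)]),
   (35, 368481, 608, [(629, 2, 3)])]

lemma table_ok : table.all chkRow = true := by decide +kernel

lemma table_covers : ∀ a, 3 ≤ a → a ≤ 35 → ∃ x ∈ table, x.1 = a := by
  have h : ∀ a : Fin 36, 3 ≤ a.1 → ∃ x ∈ table, x.1 = a.1 := by decide +kernel
  intro a h3 h35
  exact h ⟨a, by omega⟩ h3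

end Pool.Agent.Lib.MP_ba6833_co
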