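import Mathlib
import Pool.Agent.Lib.MP_ba6833_co.Numeric

/-!
# The numerical condition: conclusion
-/

namespace Pool.Agent.Lib.MP_ba6833_co

open Finset

lemma choose_eq (a : ℕ) : (a + 1).choose 2 = a * (a + 1) / 2 := by
  rw [Nat.choose_two_right, Nat.add_sub_cancel, mul_comm]

lemma le_of_conditions {a r : ℕ} (ha : 3 ≤ a) (h1 : ((a + 1).choose 2 - 1) ^ a < r ^ (a - 1)) :
    (a + 1).choose 2 ≤ r ∧ 6 ≤ (a + 1).choose 2 := by
  have hK : 6 ≤ (a + 1).choose 2 := by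
    have h3 : (3 + 1).choose 2 ≤ (a + 1).choose 2 := Nat.choose_le_choose 2 (by omega)
    have h4 : (3 + 1).choose 2 = 6 := by decide
    omega
  refine ⟨?_, hK⟩
  by_contra hcon
  have h2 : r ≤ (a + 1).choose 2 - 1 := by omega
  have h3 : r ^ (a - 1) ≤ ((a + 1).choose 2 - 1) ^ a := by
    calc r ^ (a - 1) ≤ ((a + 1).choose 2 - 1) ^ (a - 1) := Nat.pow_le_pow_left h2 _
      _ ≤ ((a + 1).choose 2 - 1) ^ a := Nat.pow_le_pow_right (by omega) (by omega)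
  omega

/-- `(a^2 + a - 2)^6 ≤ 64 * 3^a` for `a ≥ 36` -/
lemma big_a {a : ℕ} (ha : 36 ≤ a) : (a ^ 2 + a - 2) ^ 6 ≤ 64 * 3 ^ a := by
  induction a, ha using Nat.le_induction with
  | base => norm_num
  | succ a ha ih =>
    have h1 : 35 * ((a + 1) ^ 2 + (a + 1) - 2) ≤ 37 * (a ^ 2 + a - 2) := by
      obtain ⟨b, rfl⟩ := Nat.exists_eq_add_of_le ha
      have e1 : (36 + b + 1) ^ 2 + (36 + b + 1) - 2 = b ^ 2 + 75 * b + 1404 := by
        have : (36 + b + 1) ^ 2 + (36 + b + 1) = b ^ 2 + 75 * b + 1404 + 2 := by ring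
        omega
      have e2 : (36 + b) ^ 2 + (36 + b) - 2 = b ^ 2 + 73 * b + 1330 := by
        have : (36 + b) ^ 2 + (36 + b) = b ^ 2 + 73 * b + 1330 + 2 := by ring
        omega
      rw [e1, e2]
      nlinarith
    have h2 : 35 ^ 6 * ((a + 1) ^ 2 + (a + 1) - 2) ^ 6 ≤ 37 ^ 6 * (a ^ 2 + a - 2) ^ 6 := by
      rw [← mul_pow, ← mul_pow]
      exact Nat.pow_le_pow_left h1 6
    have h3 : 37 ^ 6 ≤ 3 * 35 ^ 6 := by norm_num
    have h4 : 35 ^ 6 * ((a + 1) ^ 2 + (a + 1) - 2) ^ 6 ≤ 35 ^ 6 * (64 * 3 ^ (a + 1)) := by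
      calc 35 ^ 6 * ((a + 1) ^ 2 + (a + 1) - 2) ^ 6 ≤ 37 ^ 6 * (a ^ 2 + a - 2) ^ 6 := h2
        _ ≤ (3 * 35 ^ 6) * (a ^ 2 + a - 2) ^ 6 := Nat.mul_le_mul_right _ h3
        _ ≤ (3 * 35 ^ 6) * (64 * 3 ^ a) := Nat.mul_le_mul_left _ ih
        _ = 35 ^ 6 * (64 * 3 ^ (a + 1)) := by ring
    exact Nat.le_of_mul_le_mul_left h4 (by norm_num)

/-- **The numerical inequality.** -/
theorem numeric {a r : ℕ} (ha : 3 ≤ a) (h1 : ((a + 1).choose 2 - 1) ^ a < r ^ (a - 1))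
    (h2 : 3 ^ a < r ^ 3) (s : ℕ) (hs1 : 1 ≤ s) (hsK : s < (a + 1).choose 2) :
    ∑ l ∈ Finset.Ico 1 (a + 1), ⌊((l : ℝ) / a) / dfc r s⌋₊ ≤ s := by
  obtain ⟨hKr, hK6⟩ := le_of_conditions ha h1
  rcases Nat.lt_or_ge a 36 with h35 | h36
  · obtain ⟨⟨a', r₁, lo, t⟩, hx, hxa⟩ := table_covers a ha (by omega)
    simp only at hxa
    subst hxa
    have hrow := List.all_eq_true.1 table_ok _ hx
    simp only [chkRow, Bool.and_eq_true, Bool.or_eq_true] at hrow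
    obtain ⟨⟨hr, hlo⟩, hchk⟩ := hrow
    rw [← choose_eq] at hr hchk
    have hlo' := Nat.le_of_ble_eq_true hlo
    have hr₁ : r₁ ≤ r := by
      by_contra hcon
      have h3 : r ≤ r₁ - 1 := by omega
      rcases hr with hr | hr
      · have h4 := Nat.le_of_ble_eq_true hr
        have h5 := Nat.pow_le_pow_left h3 (a' - 1)
        omega
      · have h4 := Nat.le_of_ble_eq_true hr
        have h5 := Nat.pow_le_pow_left h3 3
        omega
    by_cases hslo : s < lo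
    · refine small_s (by omega) h2 hs1 ?_
      have h3 : s ^ 2 ≤ (lo - 1) ^ 2 := Nat.pow_le_pow_left (by omega) 2
      omega
    · obtain ⟨p, q, hpq, hsq, hB⟩ := chk_sound t lo hchk s (by omega) hsK
      refine (cert_s (by omega) (by omega) hs1 hpq ?_).trans hB
      exact hsq.trans (Nat.pow_le_pow_left hr₁ p)
  · refine small_s (by omega) h2 hs1 ?_
    have h3 := big_a h36
    have h4 : 2 * ((a + 1).choose 2 - 1) = a ^ 2 + a - 2 := by
      have h5 : 2 * (a + 1).choose 2 = a ^ 2 + a := by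
        rw [choose_eq, Nat.mul_div_cancel' (Nat.even_mul_succ_self a).two_dvd]
        ring
      omega
    rw [← h4, mul_pow] at h3
    have h5 : ((a + 1).choose 2 - 1) ^ 6 ≤ 3 ^ a := by
      have : (2 : ℕ) ^ 6 = 64 := by norm_num
      rw [this] at h3
      exact Nat.le_of_mul_le_mul_left h3 (by norm_num)
    have h6 : (s ^ 2) ^ 3 < r ^ 3 := by
      calc (s ^ 2) ^ 3 = s ^ 6 := by ring
        _ ≤ ((a + 1).choose 2 - 1) ^ 6 := Nat.pow_le_pow_left (by omega) 6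
        _ ≤ 3 ^ a := h5
        _ < r ^ 3 := h2
    exact lt_of_pow_lt_pow_left₀ 3 (by positivity) h6

/-- **The numerical condition holds above the threshold.** -/
theorem exists_numCond {a r : ℕ} (ha : 3 ≤ a) (h1 : ((a + 1).choose 2 - 1) ^ a < r ^ (a - 1))
    (h2 : 3 ^ a < r ^ 3) : ∃ κ : ℝ, NumCond r a κ := by
  obtain ⟨hKr, hK6⟩ := le_of_conditions ha h1
  have hr2 : 2 ≤ r := by omega
  have haR : (0 : ℝ) < a := by exact_mod_cast (by omega : 0 < a)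
  have e1 : ∀ᶠ κ : ℝ in nhdsWithin 0 (Set.Ioi 0), 0 < κ := self_mem_nhdsWithin
  have e2 : ∀ᶠ κ : ℝ in nhdsWithin 0 (Set.Ioi 0), a * κ < 1 := by
    have h3 : Filter.Tendsto (fun κ : ℝ => a * κ) (nhds 0) (nhds (a * 0)) :=
      (continuous_const.mul continuous_id).tendsto 0
    rw [mul_zero] at h3
    exact (h3.mono_left nhdsWithin_le_nhds).eventually_lt_const (by norm_num)
  have e3 : ∀ᶠ κ : ℝ in nhdsWithin 0 (Set.Ioi 0), κ < dfc r (r - 1) := by
    have h3 : Filter.Tendsto (fun κ : ℝ => κ) (nhds 0) (nhds 0) := Filter.tendsto_id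
    exact (h3.mono_left nhdsWithin_le_nhds).eventually_lt_const (dfc_pos hr2 (by omega))
  have e4 : ∀ᶠ κ : ℝ in nhdsWithin 0 (Set.Ioi 0), ∀ s ∈ Finset.Ico 1 ((a + 1).choose 2),
      ∀ l ∈ Finset.Ico 1 (a + 1),
      ((l : ℝ) / a + κ) / dfc r s < (⌊((l : ℝ) / a) / dfc r s⌋₊ : ℝ) + 1 := by
    rw [Filter.eventually_all_finset]
    intro s hs
    rw [Filter.eventually_all_finset]
    intro l _
    have h3 : Filter.Tendsto (fun κ : ℝ => ((l : ℝ) / a + κ) / dfc r s) (nhds 0)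
        (nhds (((l : ℝ) / a + 0) / dfc r s)) :=
      ((continuous_const.add continuous_id).div_const _).tendsto 0
    rw [add_zero] at h3
    exact (h3.mono_left nhdsWithin_le_nhds).eventually_lt_const (Nat.lt_floor_add_one _)
  obtain ⟨κ, h3, h4, h5, h6⟩ := (e1.and (e2.and (e3.and e4))).exists
  refine ⟨κ, ⟨by omega, hKr, h3, h4, h5, ?_⟩⟩
  intro s hs1 hsK
  refine le_trans (Finset.sum_le_sum fun l hl => ?_) (numeric ha h1 h2 s hs1 hsK)
  have h7 := h6 s (Finset.mem_Ico.2 ⟨hs1, hsK⟩) l hl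
  have hu : 0 < dfc r s := dfc_pos hr2 (by omega)
  have h8 : (0 : ℝ) ≤ ((l : ℝ) / a + κ) / dfc r s := by positivity
  have h9 := (Nat.floor_lt h8 (n := ⌊((l : ℝ) / a) / dfc r s⌋₊ + 1)).2 (by
    push_cast
    exact h7)
  omega

end Pool.Agent.Lib.MP_ba6833_co
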