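import Mathlib
import Pool.Agent.Lib.MP_ba6833_co.Numeric2
import Pool.Agent.Lib.MP_ba6833_co.Lower3

/-!
# The threshold
-/

namespace Pool.Agent.Lib.MP_ba6833_co

/-- comparing a natural number with a rational power -/
lemma rpow_lt_iff (x r p q : ℕ) (hq : 0 < q) :
    ((x : ℝ) ^ ((p : ℝ) / q) < r) ↔ x ^ p < r ^ q := by
  have hx : (0 : ℝ) ≤ (x : ℝ) ^ ((p : ℝ) / q) := Real.rpow_nonneg (by positivity) _
  have hq' : (q : ℝ) ≠ 0 := by positivity
  have h1 : ((x : ℝ) ^ ((p : ℝ) / q)) ^ q = (x : ℝ) ^ p := by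
    rw [← Real.rpow_natCast, ← Real.rpow_mul (by positivity), div_mul_cancel₀ _ hq',
      Real.rpow_natCast]
  rw [← pow_lt_pow_iff_left₀ hx (by positivity) (by omega : q ≠ 0), h1]
  exact_mod_cast Iff.rfl

lemma two_pow_gt {a : ℕ} (ha : 6 ≤ a) : a ^ 2 + a < 2 ^ a + 2 := by
  induction a, ha using Nat.le_induction with
  | base => norm_num
  | succ a ha ih =>
    have h1 : 2 ^ (a + 1) = 2 * 2 ^ a := by ring
    rw [h1]
    nlinarith

/-- there are no ties in the first term -/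
lemma no_tie {r a : ℕ} (ha : 3 ≤ a) : r ^ (a - 1) ≠ ((a + 1).choose 2 - 1) ^ a := by
  intro h
  have hK : 6 ≤ (a + 1).choose 2 := by
    have h3 : (3 + 1).choose 2 ≤ (a + 1).choose 2 := Nat.choose_le_choose 2 (by omega)
    have h4 : (3 + 1).choose 2 = 6 := by decide
    omega
  have h2K : 2 * (a + 1).choose 2 = a ^ 2 + a := by
    rw [choose_eq, Nat.mul_div_cancel' (Nat.even_mul_succ_self a).two_dvd]
    ring
  set s := (a + 1).choose 2 - 1 with hs
  have hdvd : s ∣ r := by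
    rw [← Nat.pow_dvd_pow_iff (n := a - 1) (by omega), h]
    exact pow_dvd_pow s (by omega)
  obtain ⟨b, rfl⟩ := hdvd
  have hb : b ^ (a - 1) = s := by
    rw [mul_pow] at h
    have h1 : s ^ a = s ^ (a - 1) * s := by
      rw [← pow_succ, Nat.sub_add_cancel (by omega)]
    rw [h1] at h
    exact Nat.eq_of_mul_eq_mul_left (Nat.pow_pos (by omega)) h
  have hb2 : 2 ≤ b := by
    by_contra hcon
    have h1 : b = 0 ∨ b = 1 := by omega
    rcases h1 with h1 | h1
    · rw [h1, zero_pow (by omega)] at hb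
      omega
    · rw [h1, one_pow] at hb
      omega
  rcases Nat.lt_or_ge a 6 with h6 | h6
  · have h3 : a = 3 ∨ a = 4 ∨ a = 5 := by omega
    rcases h3 with rfl | rfl | rfl
    · have hs5 : s = 5 := by omega
      rw [hs5] at hb
      norm_num at hb
      have : b < 3 := by
        by_contra hcon
        have : 3 ^ 2 ≤ b ^ 2 := Nat.pow_le_pow_left (by omega) 2
        omega
      interval_cases b
      omega
    · have hs9 : s = 9 := by omega
      rw [hs9] at hb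
      norm_num at hb
      have : b < 3 := by
        by_contra hcon
        have : 3 ^ 3 ≤ b ^ 3 := Nat.pow_le_pow_left (by omega) 3
        omega
      interval_cases b
      omega
    · have hs14 : s = 14 := by omega
      rw [hs14] at hb
      norm_num at hb
      have : 2 ^ 4 ≤ b ^ 4 := Nat.pow_le_pow_left hb2 4
      omega
  · have h1 : 2 ^ (a - 1) ≤ s := by
      rw [← hb]
      exact Nat.pow_le_pow_left hb2 _
    have h2 := two_pow_gt h6
    have h3 : 2 ^ a = 2 * 2 ^ (a - 1) := by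
      rw [← pow_succ', Nat.sub_add_cancel (by omega)]
    omega

/-- **The threshold.** -/
theorem threshold (a : ℕ) (ha : 3 ≤ a) :
    IsLeast {R : ℕ | ∀ r, R ≤ r → ∃ n₀ : ℕ, ∀ n, n₀ ≤ n → TuranUnique r (a + 1) n}
      (⌊max ((((a + 1).choose 2 - 1 : ℕ) : ℝ) ^ ((a : ℝ) / (a - 1 : ℕ)))
        (((3 : ℕ) : ℝ) ^ ((a : ℝ) / (3 : ℕ)))⌋₊ + 1) := by
  set X := max ((((a + 1).choose 2 - 1 : ℕ) : ℝ) ^ ((a : ℝ) / (a - 1 : ℕ)))
        (((3 : ℕ) : ℝ) ^ ((a : ℝ) / (3 : ℕ))) with hX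
  have hX0 : 0 ≤ X := le_trans (Real.rpow_nonneg (by positivity) _) (le_max_left _ _)
  have hK : 6 ≤ (a + 1).choose 2 := by
    have h3 : (3 + 1).choose 2 ≤ (a + 1).choose 2 := Nat.choose_le_choose 2 (by omega)
    have h4 : (3 + 1).choose 2 = 6 := by decide
    omega
  constructor
  · intro r hr
    have hXr : X < r := by
      have h1 := Nat.lt_floor_add_one X
      have h2 : ((⌊X⌋₊ + 1 : ℕ) : ℝ) ≤ r := by exact_mod_cast hr
      push_cast at h2
      linarith
    obtain ⟨h1, h2⟩ := max_lt_iff.1 hXr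
    rw [rpow_lt_iff _ _ _ _ (by omega)] at h1
    rw [rpow_lt_iff _ _ _ _ (by norm_num)] at h2
    obtain ⟨κ, hN⟩ := exists_numCond ha h1 h2
    exact turanUnique_of_numCond hN
  · intro R hR
    by_contra hcon
    have hR' : R ≤ ⌊X⌋₊ := by omega
    obtain ⟨n₀, hn₀⟩ := hR ⌊X⌋₊ hR'
    have hfl : ((⌊X⌋₊ : ℕ) : ℝ) ≤ X := Nat.floor_le hX0
    -- `K - 1 ≤ ⌊X⌋`
    have hKX : (a + 1).choose 2 - 1 ≤ ⌊X⌋₊ := by
      apply Nat.le_floor
      refine le_trans ?_ (le_max_left _ _)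
      have h1 : (1 : ℝ) ≤ (((a + 1).choose 2 - 1 : ℕ) : ℝ) := by
        exact_mod_cast (by omega : 1 ≤ (a + 1).choose 2 - 1)
      have h2 : (1 : ℝ) ≤ (a : ℝ) / (a - 1 : ℕ) := by
        rw [one_le_div (by exact_mod_cast (by omega : 0 < a - 1))]
        exact_mod_cast (by omega : a - 1 ≤ a)
      calc (((a + 1).choose 2 - 1 : ℕ) : ℝ) = (((a + 1).choose 2 - 1 : ℕ) : ℝ) ^ (1 : ℝ) := by
            rw [Real.rpow_one]
        _ ≤ _ := Real.rpow_le_rpow_of_exponent_le h1 h2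
    rcases lt_trichotomy (⌊X⌋₊ ^ (a - 1)) (((a + 1).choose 2 - 1) ^ a) with h | h | h
    · obtain ⟨n, hn, hnot⟩ := lower1 ha hKX h n₀
      exact hnot (hn₀ n hn)
    · exact no_tie ha h
    · have h1 := (rpow_lt_iff _ _ a (a - 1) (by omega)).2 h
      have h2 : ⌊X⌋₊ ^ 3 ≤ 3 ^ a := by
        by_contra hcon2
        push Not at hcon2
        have h3 := (rpow_lt_iff _ _ a 3 (by norm_num)).2 hcon2
        have h4 : X < ((⌊X⌋₊ : ℕ) : ℝ) := max_lt h1 h3
        linarith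
      obtain ⟨n, hn, hnot⟩ := lower2 ha (le_of_conditions ha h).1 h2 h.le n₀
      exact hnot (hn₀ n hn)

end Pool.Agent.Lib.MP_ba6833_co
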